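import Mathlib

/-! The norm of a nonzero algebraic integer. -/

set_option autoImplicit false

open NumberField

namespace Pool.Agent.Lib.MP_247fd6_al

/-- the product of the absolute values of the conjugates of a nonzero integer is at least one -/
theorem norm_bound {K : Type} [Field K] [NumberField K] (ι : K →+* ℝ) (β : 𝓞 K) (hβ : β ≠ 0)
    (c : (K →+* ℂ) → ℝ)
    (hc : ∀ σ : K →+* ℂ, σ ≠ Complex.ofRealHom.comp ι → ‖σ (β : K)‖ ≤ c σ) :
    1 ≤ |ι (β : K)| * ∏ σ : K →+* ℂ, max 1 (c σ) := by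
  classical
  have h1 : (1 : ℝ) ≤ ‖(algebraMap ℚ ℂ) (Algebra.norm ℚ (β : K))‖ := by
    rw [← Algebra.coe_norm_int β]
    have h2 : Algebra.norm ℤ β ≠ 0 := Algebra.norm_ne_zero_iff.2 hβ
    have h3 : (1 : ℤ) ≤ |Algebra.norm ℤ β| := Int.one_le_abs h2
    have h4 : ‖(algebraMap ℚ ℂ) ((Algebra.norm ℤ β : ℤ) : ℚ)‖ =
        ((|Algebra.norm ℤ β| : ℤ) : ℝ) := by
      rw [map_intCast, Complex.norm_intCast, Int.cast_abs]
    rw [h4]
    exact_mod_cast h3
  have h2 : ‖(algebraMap ℚ ℂ) (Algebra.norm ℚ (β : K))‖ = ∏ σ : K →+* ℂ, ‖σ (β : K)‖ := by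
    rw [Algebra.norm_eq_prod_embeddings, norm_prod]
    exact Fintype.prod_equiv (RingHom.equivRatAlgHom (R := K) (S := ℂ)).symm _ _ (fun _ => rfl)
  rw [h2] at h1
  refine h1.trans ?_
  rw [← Finset.mul_prod_erase Finset.univ _ (Finset.mem_univ (Complex.ofRealHom.comp ι)),
    ← Finset.mul_prod_erase Finset.univ (fun σ => max 1 (c σ))
      (Finset.mem_univ (Complex.ofRealHom.comp ι))]
  have h3 : ‖(Complex.ofRealHom.comp ι) (β : K)‖ = |ι (β : K)| := by
    rw [RingHom.comp_apply, Complex.ofRealHom_eq_coe, Complex.norm_real, Real.norm_eq_abs]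
  rw [h3]
  apply mul_le_mul_of_nonneg_left _ (abs_nonneg _)
  have h4 : ∏ σ ∈ Finset.univ.erase (Complex.ofRealHom.comp ι), ‖σ (β : K)‖ ≤
      ∏ σ ∈ Finset.univ.erase (Complex.ofRealHom.comp ι), max 1 (c σ) := by
    apply Finset.prod_le_prod
    · intro σ _
      exact norm_nonneg _
    · intro σ hσ
      exact (hc σ (Finset.ne_of_mem_erase hσ)).trans (le_max_right _ _)
  refine h4.trans ?_
  have h5 : (0 : ℝ) ≤ ∏ σ ∈ Finset.univ.erase (Complex.ofRealHom.comp ι), max 1 (c σ) :=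
    Finset.prod_nonneg fun σ _ => zero_le_one.trans (le_max_left _ _)
  exact le_mul_of_one_le_left h5 (le_max_left _ _)

end Pool.Agent.Lib.MP_247fd6_al
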