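import Pool.Agent.Lib.MP_247fd6_al.AA

/-! Separation of integral vectors under congruence subgroups. -/

set_option autoImplicit false

open NumberField Matrix

namespace Pool.Agent.Lib.MP_247fd6_al

theorem AB_symm {R : Type} [CommRing R] {m : ℕ} {F : Matrix (Fin m) (Fin m) R} (hF : F.IsSymm)
    (a b : Fin m → R) : a ⬝ᵥ (F *ᵥ b) = b ⬝ᵥ (F *ᵥ a) := by
  rw [dotProduct_mulVec, dotProduct_comm, ← mulVec_transpose, hF.eq]

/-- Cauchy-Schwarz inequality for a positive definite real matrix -/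
theorem posDef_cs {m : ℕ} {A : Matrix (Fin m) (Fin m) ℝ} (hA : A.PosDef) (x y : Fin m → ℝ) :
    (x ⬝ᵥ (A *ᵥ y)) ^ 2 ≤ (x ⬝ᵥ (A *ᵥ x)) * (y ⬝ᵥ (A *ᵥ y)) := by
  have hsym : A.IsSymm := by
    have := hA.isHermitian
    rw [Matrix.IsHermitian, conjTranspose_eq_transpose_of_trivial] at this
    exact this
  have h : ∀ t : ℝ, 0 ≤ (y ⬝ᵥ (A *ᵥ y)) * (t * t) + (2 * (x ⬝ᵥ (A *ᵥ y))) * t +
      x ⬝ᵥ (A *ᵥ x) := by
    intro t
    have h1 := hA.posSemidef.dotProduct_mulVec_nonneg (x + t • y)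
    rw [star_trivial] at h1
    have h2 : (x + t • y) ⬝ᵥ (A *ᵥ (x + t • y)) = (y ⬝ᵥ (A *ᵥ y)) * (t * t) +
        (2 * (x ⬝ᵥ (A *ᵥ y))) * t + x ⬝ᵥ (A *ᵥ x) := by
      rw [mulVec_add, mulVec_smul, add_dotProduct, dotProduct_add, dotProduct_add,
        smul_dotProduct, smul_dotProduct, dotProduct_smul, dotProduct_smul, AB_symm hsym y x]
      simp only [smul_eq_mul]
      ring
    rw [h2] at h1
    exact h1
  have := discrim_le_zero h
  unfold discrim at this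
  nlinarith

theorem arith_sep {K : Type} [Field K] [NumberField K] (ι : K →+* ℝ) {m : ℕ}
    (F : Matrix (Fin m) (Fin m) (𝓞 K)) (hF : F.IsSymm)
    (haniso : ∀ x : Fin m → 𝓞 K, x ⬝ᵥ (F *ᵥ x) = 0 → x = 0)
    (hpos : ∀ σ : K →+* ℂ, σ ≠ Complex.ofRealHom.comp ι →
      ∃ τ : K →+* ℝ, σ = Complex.ofRealHom.comp τ ∧ (F.map (fun a => τ (a : K))).PosDef)
    (x : Fin m → 𝓞 K) (R : ℝ) :
    ∃ N₀ : ℕ, ∀ N ≥ N₀, ∀ B : Matrix (Fin m) (Fin m) (𝓞 K), Bᵀ * F * B = F →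
      (∃ B' : Matrix (Fin m) (Fin m) (𝓞 K), B = 1 + (N : 𝓞 K) • B') →
      B *ᵥ x = x ∨ R ≤ |ι ((x ⬝ᵥ (F *ᵥ (B *ᵥ x)) : 𝓞 K) : K)| := by
  set q : 𝓞 K := x ⬝ᵥ (F *ᵥ x) with hq
  set C : ℝ := ∏ σ : K →+* ℂ, max 1 (2 * ‖σ (q : K)‖) with hC
  have hCpos : 1 ≤ C := by
    rw [hC]
    have : ∏ _σ : K →+* ℂ, (1 : ℝ) ≤ ∏ σ : K →+* ℂ, max 1 (2 * ‖σ (q : K)‖) := by
      apply Finset.prod_le_prod
      · intro σ _; exact zero_le_one
      · intro σ _; exact le_max_left _ _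
    simpa using this
  refine ⟨⌈C * (R + |ι (q : K)|)⌉₊ + 1, fun N hN B hB hBN => ?_⟩
  obtain ⟨B', hB'⟩ := hBN
  have hN1 : (1 : ℝ) ≤ N := by
    have : 1 ≤ N := by omega
    exact_mod_cast this
  have hNC : C * (R + |ι (q : K)|) ≤ N := by
    calc C * (R + |ι (q : K)|) ≤ (⌈C * (R + |ι (q : K)|)⌉₊ : ℝ) := Nat.le_ceil _
      _ ≤ N := by
        have : ⌈C * (R + |ι (q : K)|)⌉₊ ≤ N := by omega
        exact_mod_cast this
  set β : 𝓞 K := x ⬝ᵥ (F *ᵥ (B' *ᵥ x)) with hβ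
  have hxB : x ⬝ᵥ (F *ᵥ (B *ᵥ x)) = q + N * β := by
    rw [hB', add_mulVec, one_mulVec, smul_mulVec, mulVec_add, mulVec_smul, dotProduct_add,
      dotProduct_smul, smul_eq_mul]
  have hBB : (B *ᵥ x) ⬝ᵥ (F *ᵥ (B *ᵥ x)) = q := by
    rw [hq]
    conv_rhs => rw [← hB]
    rw [← mulVec_mulVec, ← mulVec_mulVec, dotProduct_mulVec x, vecMul_transpose]
  by_cases hβ0 : β = 0
  · left
    have h1 : (B *ᵥ x - x) ⬝ᵥ (F *ᵥ (B *ᵥ x - x)) = 0 := by
      rw [mulVec_sub, sub_dotProduct, dotProduct_sub, dotProduct_sub, hBB,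
        AB_symm hF (B *ᵥ x) x, hxB, ← hq, hβ0]
      ring
    have h2 := haniso _ h1
    exact sub_eq_zero.mp h2
  · right
    have hbd : ∀ σ : K →+* ℂ, σ ≠ Complex.ofRealHom.comp ι →
        ‖σ (β : K)‖ ≤ 2 * ‖σ (q : K)‖ := by
      intro σ hσ
      obtain ⟨τ, hτ, hpd⟩ := hpos σ hσ
      set τ' : 𝓞 K →+* ℝ := τ.comp (algebraMap (𝓞 K) K) with hτ'
      have hF' : F.map (fun a => τ (a : K)) = F.map τ' := rfl
      rw [hF'] at hpd
      have hmap : ∀ u v : Fin m → 𝓞 K, τ' (u ⬝ᵥ (F *ᵥ v)) =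
          (τ' ∘ u) ⬝ᵥ (F.map τ' *ᵥ (τ' ∘ v)) := by
        intro u v
        rw [RingHom.map_dotProduct]
        congr 1
        ext i
        exact RingHom.map_mulVec τ' F v i
      have hcs := posDef_cs hpd (τ' ∘ x) (τ' ∘ (B *ᵥ x))
      rw [← hmap, ← hmap, ← hmap, hBB, hxB, ← hq, map_add, map_mul, map_natCast] at hcs
      have hq0 : 0 ≤ τ' q := by
        have := hpd.posSemidef.dotProduct_mulVec_nonneg (τ' ∘ x)
        rw [star_trivial, ← hmap, ← hq] at this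
        exact this
      have habs : |τ' q + N * τ' β| ≤ τ' q := by
        apply abs_le_of_sq_le_sq _ hq0
        nlinarith
      have h3 : N * |τ' β| ≤ 2 * τ' q := by
        have h4 : |(N : ℝ) * τ' β| ≤ |τ' q + N * τ' β| + |τ' q| := by
          have := abs_sub (τ' q + N * τ' β) (τ' q)
          rwa [add_sub_cancel_left] at this
        rw [abs_mul, abs_of_nonneg (Nat.cast_nonneg N : (0 : ℝ) ≤ N), abs_of_nonneg hq0] at h4
        linarith
      have h5 : |τ' β| ≤ 2 * τ' q := by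
        have := mul_le_mul_of_nonneg_right hN1 (abs_nonneg (τ' β))
        linarith
      rw [hτ]
      have e1 : ‖(Complex.ofRealHom.comp τ) (β : K)‖ = |τ' β| := by
        simp [hτ']
      have e2 : ‖(Complex.ofRealHom.comp τ) (q : K)‖ = |τ' q| := by
        simp [hτ']
      rw [e1, e2, abs_of_nonneg hq0]
      exact h5
    have hnb := norm_bound ι β hβ0 (fun σ => 2 * ‖σ (q : K)‖) hbd
    rw [← hC] at hnb
    rw [hxB]
    have e3 : ι ((q + N * β : 𝓞 K) : K) = ι (q : K) + N * ι (β : K) := by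
      push_cast
      rw [map_add, map_mul, map_natCast]
    rw [e3]
    have h6 : N * |ι (β : K)| ≤ |ι (q : K) + N * ι (β : K)| + |ι (q : K)| := by
      have := abs_sub (ι (q : K) + N * ι (β : K)) (ι (q : K))
      rw [add_sub_cancel_left, abs_mul, abs_of_nonneg (Nat.cast_nonneg N : (0 : ℝ) ≤ N)] at this
      exact this
    have h7 : R + |ι (q : K)| ≤ N * |ι (β : K)| := by
      have hb0 := abs_nonneg (ι (β : K))
      have h8 : C * (R + |ι (q : K)|) * |ι (β : K)| ≤ N * |ι (β : K)| :=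
        mul_le_mul_of_nonneg_right hNC hb0
      by_cases hR : 0 ≤ R + |ι (q : K)|
      · have := mul_le_mul_of_nonneg_left hnb hR
        nlinarith
      · push Not at hR
        have : 0 ≤ (N : ℝ) * |ι (β : K)| := by positivity
        linarith
    linarith

end Pool.Agent.Lib.MP_247fd6_al
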