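import Mathlib

/-! Principal congruence subgroups. -/

set_option autoImplicit false

open NumberField Matrix

namespace Pool.Agent.Lib.MP_247fd6_al

/-- principal congruence subgroups have finite index and are normal -/
theorem exists_congr {K : Type} [Field K] [NumberField K] (ι : K →+* ℝ) {m : ℕ}
    (M : (Matrix (Fin m) (Fin m) ℝ)ˣ) (G : Subgroup (Matrix (Fin m) (Fin m) ℝ)ˣ)
    (h : ∀ g ∈ G, ∃ B : Matrix (Fin m) (Fin m) (𝓞 K),
      g.val * M.val = M.val * B.map (fun a => ι (a : K)))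
    (N : ℕ) (hN : 0 < N) :
    ∃ Γ : Subgroup (Matrix (Fin m) (Fin m) ℝ)ˣ, Γ ≤ G ∧ Γ.relIndex G ≠ 0 ∧
      (∀ g ∈ G, ∀ γ ∈ Γ, g * γ * g⁻¹ ∈ Γ) ∧
      ∀ γ ∈ Γ, ∃ B' : Matrix (Fin m) (Fin m) (𝓞 K),
        γ.val * M.val = M.val * (1 + (N : 𝓞 K) • B').map (fun a => ι (a : K)) := by
  classical
  set ι' : 𝓞 K →+* ℝ := ι.comp (algebraMap (𝓞 K) K) with hι'
  have hinj : Function.Injective ι' :=
    ι.injective.comp (FaithfulSMul.algebraMap_injective (𝓞 K) K)
  have hminj : Function.Injective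
      (fun B : Matrix (Fin m) (Fin m) (𝓞 K) => B.map ι') := Matrix.map_injective hinj
  have hc : ∀ B : Matrix (Fin m) (Fin m) (𝓞 K), B.map (fun a => ι (a : K)) = B.map ι' :=
    fun B => rfl
  simp only [hc] at h ⊢
  choose b hb using fun g : G => h g.1 g.2
  have hM : ∀ A B : Matrix (Fin m) (Fin m) ℝ, M.val * A = M.val * B → A = B := by
    intro A B hAB
    have := congrArg (fun X => M⁻¹.val * X) hAB
    simpa [← mul_assoc] using this
  have hone : b 1 = 1 := by
    apply hminj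
    apply hM
    simp only
    rw [← hb 1, Matrix.map_one _ (map_zero ι') (map_one ι')]
    simp
  have hmul : ∀ g g' : G, b (g * g') = b g * b g' := by
    intro g g'
    apply hminj
    apply hM
    simp only
    rw [← hb (g * g'), Matrix.map_mul, ← mul_assoc, ← hb g, mul_assoc, ← hb g', ← mul_assoc]
    rfl
  set I : Ideal (𝓞 K) := Ideal.span {(N : 𝓞 K)} with hI
  have hI0 : I ≠ ⊥ := by
    rw [hI, Ne, Ideal.span_singleton_eq_bot]
    exact_mod_cast hN.ne'
  haveI : Finite (𝓞 K ⧸ I) := Ideal.finiteQuotientOfFreeOfNeBot I hI0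
  haveI : Finite (Matrix (Fin m) (Fin m) (𝓞 K ⧸ I)) := by
    unfold Matrix
    infer_instance
  set φ : G →* Matrix (Fin m) (Fin m) (𝓞 K ⧸ I) :=
    { toFun := fun g => (b g).map (Ideal.Quotient.mk I)
      map_one' := by
        rw [hone, Matrix.map_one _ (map_zero _) (map_one _)]
      map_mul' := fun g g' => by
        rw [hmul, Matrix.map_mul] } with hφ
  set ψ := φ.toHomUnits with hψ
  haveI : ψ.ker.FiniteIndex := Subgroup.finiteIndex_ker ψ
  have hker : ∀ g : G, g ∈ ψ.ker ↔ (b g).map (Ideal.Quotient.mk I) = 1 := by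
    intro g
    rw [MonoidHom.mem_ker, Units.ext_iff]
    rfl
  refine ⟨ψ.ker.map G.subtype, Subgroup.map_subtype_le _, ?_, ?_, ?_⟩
  · rw [Subgroup.relIndex, Subgroup.subgroupOf, Subgroup.comap_map_eq_self_of_injective
      G.subtype_injective]
    exact Subgroup.FiniteIndex.index_ne_zero
  · rintro g hg _ ⟨γ, hγ, rfl⟩
    refine ⟨⟨g, hg⟩ * γ * ⟨g, hg⟩⁻¹, ?_, rfl⟩
    exact (MonoidHom.normal_ker ψ).conj_mem γ hγ ⟨g, hg⟩
  · rintro _ ⟨γ, hγ, rfl⟩
    have h1 := (hker γ).mp hγ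
    have h2 : ∀ i j, ∃ c : 𝓞 K, (b γ) i j - (1 : Matrix (Fin m) (Fin m) (𝓞 K)) i j =
        (N : 𝓞 K) * c := by
      intro i j
      have h3 := congrFun (congrFun h1 i) j
      have h4 : Ideal.Quotient.mk I ((b γ) i j - (1 : Matrix (Fin m) (Fin m) (𝓞 K)) i j) = 0 := by
        rw [map_sub, sub_eq_zero]
        rw [Matrix.map_apply] at h3
        rw [h3]
        by_cases hij : i = j
        · subst hij; simp
        · simp [Matrix.one_apply_ne hij]
      rw [Ideal.Quotient.eq_zero_iff_mem, hI, Ideal.mem_span_singleton] at h4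
      obtain ⟨c, hc⟩ := h4
      exact ⟨c, hc⟩
    choose c hc using h2
    refine ⟨Matrix.of c, ?_⟩
    have h5 : 1 + (N : 𝓞 K) • Matrix.of c = b γ := by
      ext i j
      rw [Matrix.add_apply, Matrix.smul_apply, Matrix.of_apply, smul_eq_mul, ← hc i j]
      ring_nf
    rw [h5]
    exact hb γ

end Pool.Agent.Lib.MP_247fd6_al
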