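import Pool.Agent.Lib.MP_247fd6_al.GB1

/-! Rational hyperplanes: approximation. -/

set_option autoImplicit false

open Matrix

namespace Pool.Agent.Lib.MP_247fd6_al

variable {n : ℕ}

/-- positive multiples of the vectors `M x` with `x` integral are dense -/
theorem approx_int {m : ℕ} (M : (Matrix (Fin m) (Fin m) ℝ)ˣ) (w : Fin m → ℝ) {ε : ℝ}
    (hε : 0 < ε) : ∃ (x : Fin m → ℤ) (c : ℝ), 0 < c ∧
      ∀ i, |c * (M.val *ᵥ (fun j => (x j : ℝ))) i - w i| < ε := by
  obtain ⟨S, hS⟩ : ∃ S : ℝ, S = ∑ i, ∑ j, |M.val i j| := ⟨_, rfl⟩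
  have hS0 : 0 ≤ S := by
    rw [hS]
    exact Finset.sum_nonneg fun i _ => Finset.sum_nonneg fun j _ => abs_nonneg _
  obtain ⟨N, hN⟩ := exists_nat_gt (S / ε)
  have hN0 : (0 : ℝ) < N := lt_of_le_of_lt (div_nonneg hS0 hε.le) hN
  have hSN : S < N * ε := by
    rw [div_lt_iff₀ hε] at hN
    exact hN
  obtain ⟨u, hu⟩ : ∃ u : Fin m → ℝ, u = (M⁻¹).val *ᵥ w := ⟨_, rfl⟩
  have hMu : M.val *ᵥ u = w := by
    rw [hu, mulVec_mulVec, Units.mul_inv, one_mulVec]
  refine ⟨fun j => round (N * u j), 1 / N, by positivity, ?_⟩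
  intro i
  have h1 : 1 / (N : ℝ) * (M.val *ᵥ (fun j => ((round (N * u j) : ℤ) : ℝ))) i - w i =
      ∑ j, M.val i j * (1 / (N : ℝ) * ((round (N * u j) : ℤ) : ℝ) - u j) := by
    rw [← hMu]
    simp only [mulVec, dotProduct]
    rw [Finset.mul_sum, ← Finset.sum_sub_distrib]
    exact Finset.sum_congr rfl fun j _ => by ring
  rw [h1]
  have h2 : ∀ j, |1 / (N : ℝ) * ((round (N * u j) : ℤ) : ℝ) - u j| ≤ 1 / N := by
    intro j
    have h3 := abs_sub_round (N * u j)
    have h4 : 1 / (N : ℝ) * ((round (N * u j) : ℤ) : ℝ) - u j =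
        -((1 / N) * (N * u j - ((round (N * u j) : ℤ) : ℝ))) := by
      field_simp
      ring
    rw [h4, abs_neg, abs_mul, abs_of_pos (by positivity)]
    have h5 : 1 / (N : ℝ) * |N * u j - ((round (N * u j) : ℤ) : ℝ)| ≤ 1 / N * 1 :=
      mul_le_mul_of_nonneg_left (by linarith) (by positivity)
    linarith
  have h6 : ∑ j, |M.val i j| ≤ S := by
    rw [hS]
    exact Finset.single_le_sum (f := fun i => ∑ j, |M.val i j|)
      (fun i _ => Finset.sum_nonneg fun j _ => abs_nonneg _) (Finset.mem_univ i)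
  calc |∑ j, M.val i j * (1 / (N : ℝ) * ((round (N * u j) : ℤ) : ℝ) - u j)|
      ≤ ∑ j, |M.val i j * (1 / (N : ℝ) * ((round (N * u j) : ℤ) : ℝ) - u j)| :=
        Finset.abs_sum_le_sum_abs _ _
    _ ≤ ∑ j, |M.val i j| * (1 / N) := by
        refine Finset.sum_le_sum fun j _ => ?_
        rw [abs_mul]
        exact mul_le_mul_of_nonneg_left (h2 j) (abs_nonneg _)
    _ = (∑ j, |M.val i j|) * (1 / N) := by rw [Finset.sum_mul]
    _ ≤ S * (1 / N) := mul_le_mul_of_nonneg_right h6 (by positivity)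
    _ = S / N := by ring
    _ < ε := by
        rw [div_lt_iff₀ hN0]
        linarith

theorem AD1_bf_abs_le (a b : Fin (n + 1) → ℝ) : |bf a b| ≤ ∑ i, |a i| * |b i| := by
  unfold bf
  rw [Fin.sum_univ_succ]
  refine (abs_add_le _ _).trans ?_
  rw [abs_neg, abs_mul]
  have h := Finset.abs_sum_le_sum_abs (fun i : Fin n => a i.succ * b i.succ) Finset.univ
  simp only [abs_mul] at h
  linarith

theorem AD1_bf_small (a b : Fin (n + 1) → ℝ) {ε : ℝ} (hb : ∀ i, |b i| ≤ ε) :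
    |bf a b| ≤ (∑ i, |a i|) * ε := by
  refine (AD1_bf_abs_le a b).trans ?_
  rw [Finset.sum_mul]
  exact Finset.sum_le_sum fun i _ => mul_le_mul_of_nonneg_left (hb i) (abs_nonneg _)

theorem AD1_coord (z : HPt n) : z.1 0 = Real.cosh (hd (e0 n) z) := by
  rw [cosh_hd]
  change _ = -(bf (e0v n) z.1)
  rw [bf_e0v_left, neg_neg]

theorem AD1_sum_sq (z : HPt n) :
    ∑ i : Fin n, z.1 i.succ * z.1 i.succ = Real.sinh (hd (e0 n) z) ^ 2 := by
  have h := z.2.1
  unfold bf at h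
  have h2 := Real.cosh_sq (hd (e0 n) z)
  rw [← AD1_coord] at h2
  have h3 : z.1 0 * z.1 0 = z.1 0 ^ 2 := by ring
  linarith

theorem AD1_abs_coord (z : HPt n) (i : Fin (n + 1)) : |z.1 i| ≤ z.1 0 := by
  have h0 := z.2.2
  refine Fin.cases ?_ (fun j => ?_) i
  · rw [abs_of_pos h0]
  · have h := AD1_sum_sq z
    have h1 : z.1 j.succ * z.1 j.succ ≤ ∑ i : Fin n, z.1 i.succ * z.1 i.succ :=
      Finset.single_le_sum (f := fun i : Fin n => z.1 i.succ * z.1 i.succ)
        (fun i _ => mul_self_nonneg _) (Finset.mem_univ j)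
    have h2 := Real.cosh_sq (hd (e0 n) z)
    rw [← AD1_coord] at h2
    exact abs_le_of_sq_le_sq (by nlinarith) h0.le

/-- a real hyperplane which separates a ball from a point outside -/
theorem AD1_real_vector {D : ℝ} (hD : 0 ≤ D) (y : HPt n) (hy : D < hd (e0 n) y) :
    ∃ (v : Fin (n + 1) → ℝ) (δ : ℝ), 0 < δ ∧ bf v v = 1 ∧
      (∀ z : HPt n, hd (e0 n) z ≤ D → bf z.1 v ≤ -δ) ∧ δ ≤ bf y.1 v := by
  obtain ⟨d, hd'⟩ : ∃ d, d = hd (e0 n) y := ⟨_, rfl⟩
  rw [← hd'] at hy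
  obtain ⟨ρ, hρ1, hρ2⟩ := exists_between hy
  have hdpos : 0 < d := lt_of_le_of_lt hD hy
  have hsd : 0 < Real.sinh d := Real.sinh_pos_iff.2 hdpos
  have hy0 := AD1_coord y
  have hys := AD1_sum_sq y
  rw [← hd'] at hy0 hys
  obtain ⟨v, hv⟩ : ∃ v : Fin (n + 1) → ℝ, v = Fin.cases (Real.sinh ρ)
    (fun j : Fin n => Real.cosh ρ * (y.1 j.succ / Real.sinh d)) := ⟨_, rfl⟩
  have hv0 : v 0 = Real.sinh ρ := by rw [hv]; rfl
  have hvs : ∀ j : Fin n, v j.succ = Real.cosh ρ * (y.1 j.succ / Real.sinh d) := by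
    intro j
    rw [hv]; rfl
  have hbf : ∀ z : Fin (n + 1) → ℝ, bf z v = -(z 0 * Real.sinh ρ) +
      Real.cosh ρ / Real.sinh d * ∑ j : Fin n, z j.succ * y.1 j.succ := by
    intro z
    unfold bf
    rw [hv0, Finset.mul_sum]
    congr 1
    refine Finset.sum_congr rfl fun j _ => ?_
    rw [hvs]
    ring
  have hcr : 0 < Real.cosh ρ := Real.cosh_pos ρ
  refine ⟨v, min (Real.sinh (ρ - D)) (Real.sinh (d - ρ)), ?_, ?_, ?_, ?_⟩
  · exact lt_min (Real.sinh_pos_iff.2 (by linarith)) (Real.sinh_pos_iff.2 (by linarith))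
  · rw [hbf, hv0]
    have h1 : ∑ j : Fin n, v j.succ * y.1 j.succ = Real.cosh ρ * Real.sinh d := by
      calc ∑ j : Fin n, v j.succ * y.1 j.succ
          = Real.cosh ρ / Real.sinh d * ∑ j : Fin n, y.1 j.succ * y.1 j.succ := by
            rw [Finset.mul_sum]
            refine Finset.sum_congr rfl fun j _ => ?_
            rw [hvs]
            ring
        _ = Real.cosh ρ * Real.sinh d := by
            rw [hys]
            field_simp
    rw [h1]
    have h2 := Real.cosh_sq ρ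
    have h3 : Real.cosh ρ / Real.sinh d * (Real.cosh ρ * Real.sinh d) = Real.cosh ρ ^ 2 := by
      field_simp
    rw [h3, h2]
    ring
  · intro z hz
    obtain ⟨t, ht⟩ : ∃ t, t = hd (e0 n) z := ⟨_, rfl⟩
    have hz0 := AD1_coord z
    have hzs := AD1_sum_sq z
    have ht0 : 0 ≤ t := by rw [ht]; exact hd_nonneg _ _
    rw [← ht] at hz hz0 hzs
    have hst : 0 ≤ Real.sinh t := Real.sinh_nonneg_iff.2 ht0
    rw [hbf, hz0]
    have h1 := Finset.sum_mul_sq_le_sq_mul_sq Finset.univ (fun i : Fin n => z.1 i.succ)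
      (fun i : Fin n => y.1 i.succ)
    simp only [sq (z.1 _), sq (y.1 _)] at h1
    rw [hzs, hys, ← mul_pow] at h1
    have h2 : ∑ j : Fin n, z.1 j.succ * y.1 j.succ ≤ Real.sinh t * Real.sinh d :=
      (abs_le.1 (abs_le_of_sq_le_sq h1 (by positivity))).2
    have h3 : Real.cosh ρ / Real.sinh d * ∑ j : Fin n, z.1 j.succ * y.1 j.succ ≤
        Real.cosh ρ / Real.sinh d * (Real.sinh t * Real.sinh d) :=
      mul_le_mul_of_nonneg_left h2 (by positivity)
    have h4 : Real.cosh ρ / Real.sinh d * (Real.sinh t * Real.sinh d) =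
        Real.cosh ρ * Real.sinh t := by
      field_simp
    rw [h4] at h3
    have h5 : Real.sinh (ρ - t) = Real.sinh ρ * Real.cosh t - Real.cosh ρ * Real.sinh t :=
      Real.sinh_sub ρ t
    have h6 : Real.sinh (ρ - D) ≤ Real.sinh (ρ - t) := Real.sinh_le_sinh.2 (by linarith)
    have h7 := min_le_left (Real.sinh (ρ - D)) (Real.sinh (d - ρ))
    linarith
  · rw [hbf, hys, hy0]
    have h4 : Real.cosh ρ / Real.sinh d * Real.sinh d ^ 2 = Real.cosh ρ * Real.sinh d := by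
      field_simp
    rw [h4]
    have h5 : Real.sinh (d - ρ) = Real.sinh d * Real.cosh ρ - Real.cosh d * Real.sinh ρ :=
      Real.sinh_sub d ρ
    have h7 := min_le_right (Real.sinh (ρ - D)) (Real.sinh (d - ρ))
    linarith

/-- a rational hyperplane which separates a ball from a point outside -/
theorem exists_vector (M : (Matrix (Fin (n + 1)) (Fin (n + 1)) ℝ)ˣ) {D : ℝ} (hD : 0 ≤ D)
    (y : HPt n) (hy : D < hd (e0 n) y) :
    ∃ x : Fin (n + 1) → ℤ,
      0 < bf (M.val *ᵥ (fun i => (x i : ℝ))) (M.val *ᵥ (fun i => (x i : ℝ))) ∧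
      (∀ z : HPt n, hd (e0 n) z ≤ D → bf z.1 (M.val *ᵥ (fun i => (x i : ℝ))) < 0) ∧
      0 < bf y.1 (M.val *ᵥ (fun i => (x i : ℝ))) := by
  obtain ⟨v, δ, hδ, hvv, hvz, hvy⟩ := AD1_real_vector hD y hy
  obtain ⟨C, hC⟩ : ∃ C : ℝ, C = (∑ i, |y.1 i|) + (∑ _i : Fin (n + 1), Real.cosh D) +
    (∑ i, (2 * |v i| + 1)) + 1 := ⟨_, rfl⟩
  have hA1 : 0 ≤ ∑ i, |y.1 i| := Finset.sum_nonneg fun i _ => abs_nonneg _
  have hA2 : 0 ≤ ∑ _i : Fin (n + 1), Real.cosh D :=
    Finset.sum_nonneg fun i _ => (Real.cosh_pos D).le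
  have hA3 : 0 ≤ ∑ i, (2 * |v i| + 1) := Finset.sum_nonneg fun i _ => by positivity
  have hC0 : 0 < C := by rw [hC]; linarith
  obtain ⟨ε, hε⟩ : ∃ ε : ℝ, ε = min 1 (min δ 1 / (2 * C)) := ⟨_, rfl⟩
  have hε0 : 0 < ε := by
    rw [hε]
    exact lt_min one_pos (div_pos (lt_min hδ one_pos) (by linarith))
  have hε1 : ε ≤ 1 := by rw [hε]; exact min_le_left _ _
  have hεC : C * ε ≤ min δ 1 / 2 := by
    have h1 : ε ≤ min δ 1 / (2 * C) := by rw [hε]; exact min_le_right _ _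
    calc C * ε ≤ C * (min δ 1 / (2 * C)) := mul_le_mul_of_nonneg_left h1 hC0.le
      _ = min δ 1 / 2 := by field_simp
  have hεδ : C * ε ≤ δ / 2 := by
    have := min_le_left δ 1
    linarith
  have hεo : C * ε ≤ 1 / 2 := by
    have := min_le_right δ 1
    linarith
  obtain ⟨x, c, hc, hx⟩ := approx_int M v hε0
  obtain ⟨u, hu⟩ : ∃ u : Fin (n + 1) → ℝ, u = M.val *ᵥ (fun i => (x i : ℝ)) := ⟨_, rfl⟩
  rw [← hu] at hx
  refine ⟨x, ?_⟩
  rw [← hu]
  obtain ⟨w, hw⟩ : ∃ w : Fin (n + 1) → ℝ, w = c • u - v := ⟨_, rfl⟩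
  have hcu : c • u = v + w := by rw [hw]; abel
  have hsm : ∀ i, |w i| ≤ ε := by
    intro i
    have := hx i
    rw [hw]
    simp only [Pi.sub_apply, Pi.smul_apply, smul_eq_mul]
    exact this.le
  refine ⟨?_, ?_, ?_⟩
  · have h1 : bf (c • u) (c • u) = c ^ 2 * bf u u := by
      rw [bf_smul_left, bf_smul_right]; ring
    have h2 : bf (c • u) (c • u) = bf v v + bf ((2 : ℝ) • v + w) w := by
      rw [hcu, bf_add_left, bf_add_right, bf_add_right, bf_add_left, bf_smul_left, bf_comm w v]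
      ring
    have h3 := AD1_bf_small ((2 : ℝ) • v + w) w hsm
    have h4 : ∑ i, |((2 : ℝ) • v + w) i| ≤ ∑ i, (2 * |v i| + 1) := by
      refine Finset.sum_le_sum fun i _ => ?_
      have e1 : ((2 : ℝ) • v + w) i = 2 * v i + w i := by
        simp
      rw [e1]
      refine (abs_add_le _ _).trans ?_
      rw [abs_mul, abs_two]
      have := hsm i
      linarith
    have h5 : (∑ i, |((2 : ℝ) • v + w) i|) * ε ≤ C * ε :=
      mul_le_mul_of_nonneg_right (by rw [hC]; linarith) hε0.le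
    have h6 := (abs_le.1 h3).1
    have h7 : 0 < c ^ 2 * bf u u := by
      rw [← h1, h2, hvv]
      linarith
    exact (mul_pos_iff_of_pos_left (by positivity)).1 h7
  · intro z hz
    have h1 : bf z.1 (c • u) = c * bf z.1 u := bf_smul_right _ _ _
    have h2 : bf z.1 (c • u) = bf z.1 v + bf z.1 w := by
      rw [hcu, bf_add_right]
    have h3 := AD1_bf_small z.1 w hsm
    have h4 : ∑ i, |z.1 i| ≤ ∑ _i : Fin (n + 1), Real.cosh D := by
      refine Finset.sum_le_sum fun i _ => ?_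
      refine (AD1_abs_coord z i).trans ?_
      rw [AD1_coord]
      rw [Real.cosh_le_cosh, abs_of_nonneg (hd_nonneg _ _), abs_of_nonneg hD]
      exact hz
    have h5 : (∑ i, |z.1 i|) * ε ≤ C * ε :=
      mul_le_mul_of_nonneg_right (by rw [hC]; linarith) hε0.le
    have h6 := (abs_le.1 h3).2
    have h7 := hvz z hz
    have h8 : c * bf z.1 u < 0 := by
      rw [← h1, h2]
      linarith
    by_contra h9
    push Not at h9
    have := mul_nonneg hc.le h9
    linarith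
  · have h1 : bf y.1 (c • u) = c * bf y.1 u := bf_smul_right _ _ _
    have h2 : bf y.1 (c • u) = bf y.1 v + bf y.1 w := by
      rw [hcu, bf_add_right]
    have h3 := AD1_bf_small y.1 w hsm
    have h5 : (∑ i, |y.1 i|) * ε ≤ C * ε :=
      mul_le_mul_of_nonneg_right (by rw [hC]; linarith) hε0.le
    have h6 := (abs_le.1 h3).1
    have h8 : 0 < c * bf y.1 u := by
      rw [← h1, h2]
      linarith
    exact (mul_pos_iff_of_pos_left hc).1 h8

end Pool.Agent.Lib.MP_247fd6_al
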