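import Pool.Agent.Lib.MP_247fd6_al.GD1

/-! Geodesics. -/

set_option autoImplicit false

open Matrix

namespace Pool.Agent.Lib.MP_247fd6_al

variable {n : ℕ}

theorem GD2_comb (d s : ℝ) : Real.sinh (d - s) ^ 2 + Real.sinh s ^ 2 +
    2 * Real.sinh (d - s) * Real.sinh s * Real.cosh d = Real.sinh d ^ 2 := by
  have h1 : Real.sinh d = Real.sinh (d - s) * Real.cosh s + Real.cosh (d - s) * Real.sinh s := by
    rw [← Real.sinh_add]; congr 1; ring
  have h2 : Real.cosh d = Real.cosh (d - s) * Real.cosh s + Real.sinh (d - s) * Real.sinh s := by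
    rw [← Real.cosh_add]; congr 1; ring
  have h3 := Real.cosh_sq (d - s)
  have h4 := Real.cosh_sq s
  rw [h1, h2]
  linear_combination (-(Real.sinh s) ^ 2) * h3 - (Real.sinh (d - s)) ^ 2 * h4

theorem GD2_bf (d s t : ℝ) : Real.sinh (d - s) * Real.sinh (d - t) + Real.sinh s * Real.sinh t +
    (Real.sinh (d - s) * Real.sinh t + Real.sinh (d - t) * Real.sinh s) * Real.cosh d =
      Real.sinh d ^ 2 * Real.cosh (t - s) := by
  rw [Real.sinh_sub, Real.sinh_sub, Real.cosh_sub]
  have h3 := Real.cosh_sq d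
  linear_combination (-(Real.sinh s * Real.sinh t)) * h3

theorem GD2_three (d s₁ s₂ s₃ : ℝ) : Real.sinh (d - s₂) * Real.sinh (s₃ - s₁) =
    Real.sinh (s₃ - s₂) * Real.sinh (d - s₁) + Real.sinh (s₂ - s₁) * Real.sinh (d - s₃) := by
  rw [Real.sinh_sub, Real.sinh_sub, Real.sinh_sub, Real.sinh_sub, Real.sinh_sub, Real.sinh_sub]
  ring

/-- geodesics -/
theorem exists_geod (x y : HPt n) : ∃ z : ℝ → HPt n, z 0 = x ∧ z (hd x y) = y ∧
    (∀ s s', 0 ≤ s → s ≤ s' → s' ≤ hd x y → hd (z s) (z s') = s' - s) ∧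
    ∀ s₁ s₂ s₃, 0 ≤ s₁ → s₁ ≤ s₂ → s₂ ≤ s₃ → s₃ ≤ hd x y →
      ∃ a b : ℝ, 0 ≤ a ∧ 0 ≤ b ∧ 0 < a + b ∧ (z s₂).1 = a • (z s₁).1 + b • (z s₃).1 := by
  rcases lt_or_eq_of_le (hd_nonneg x y) with hd0 | hd0
  · set d := hd x y with hdd
    have hS : 0 < Real.sinh d := Real.sinh_pos_iff.2 hd0
    have hex : ∀ s : ℝ, ∃ z : HPt n, 0 ≤ s → s ≤ d →
        z.1 = (Real.sinh (d - s) / Real.sinh d) • x.1 + (Real.sinh s / Real.sinh d) • y.1 := by
      intro s
      by_cases h : 0 ≤ s ∧ s ≤ d
      · obtain ⟨z, hz⟩ := comb_pos (x := x) (y := y) (a := Real.sinh (d - s) / Real.sinh d)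
          (b := Real.sinh s / Real.sinh d)
          (div_nonneg (Real.sinh_nonneg_iff.2 (by linarith [h.2])) hS.le)
          (div_nonneg (Real.sinh_nonneg_iff.2 h.1) hS.le) (by
            rw [← hdd]
            field_simp
            linear_combination GD2_comb d s)
        exact ⟨z, fun _ _ => hz⟩
      · exact ⟨x, fun h1 h2 => absurd ⟨h1, h2⟩ h⟩
    choose z hz using hex
    refine ⟨z, ?_, ?_, ?_, ?_⟩
    · apply Subtype.ext
      rw [hz 0 le_rfl hd0.le]
      simp [hS.ne']
    · apply Subtype.ext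
      rw [hz d hd0.le le_rfl]
      simp [hS.ne']
    · intro s s' h1 h2 h3
      have h4 : Real.cosh (hd (z s) (z s')) = Real.cosh (s' - s) := by
        rw [cosh_hd, hz s h1 (by linarith), hz s' (by linarith) h3, GD1_bf_comb, ← hdd, neg_neg]
        field_simp
        linear_combination GD2_bf d s s'
      rw [← Real.arcosh_cosh (hd_nonneg (z s) (z s')), h4, Real.arcosh_cosh (by linarith)]
    · intro s₁ s₂ s₃ h1 h2 h3 h4
      rcases lt_or_eq_of_le (le_trans h2 h3) with h5 | h5
      · have hT : 0 < Real.sinh (s₃ - s₁) := Real.sinh_pos_iff.2 (by linarith)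
        refine ⟨Real.sinh (s₃ - s₂) / Real.sinh (s₃ - s₁),
          Real.sinh (s₂ - s₁) / Real.sinh (s₃ - s₁),
          div_nonneg (Real.sinh_nonneg_iff.2 (by linarith)) hT.le,
          div_nonneg (Real.sinh_nonneg_iff.2 (by linarith)) hT.le, ?_, ?_⟩
        · rw [← add_div]
          apply div_pos _ hT
          rcases lt_or_eq_of_le h2 with h6 | h6
          · have : 0 < Real.sinh (s₂ - s₁) := Real.sinh_pos_iff.2 (by linarith)
            have : 0 ≤ Real.sinh (s₃ - s₂) := Real.sinh_nonneg_iff.2 (by linarith)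
            linarith
          · have : 0 ≤ Real.sinh (s₂ - s₁) := Real.sinh_nonneg_iff.2 (by linarith)
            have : 0 < Real.sinh (s₃ - s₂) := Real.sinh_pos_iff.2 (by linarith)
            linarith
        · rw [hz s₁ h1 (by linarith), hz s₂ (by linarith) (by linarith), hz s₃ (by linarith) h4]
          rw [smul_add, smul_add, smul_smul, smul_smul, smul_smul, smul_smul]
          rw [add_add_add_comm, ← add_smul, ← add_smul]
          congr 2
          · field_simp
            linear_combination GD2_three d s₁ s₂ s₃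
          · field_simp
            have := GD2_three 0 s₁ s₂ s₃
            simp only [zero_sub, Real.sinh_neg] at this
            linear_combination -this
      · have h6 : s₂ = s₁ := by linarith
        refine ⟨1, 0, by norm_num, by norm_num, by norm_num, ?_⟩
        rw [h6]
        simp
  · have hxy : x = y := eq_of_hd_eq_zero hd0.symm
    refine ⟨fun _ => x, rfl, hxy, ?_, ?_⟩
    · intro s s' h1 h2 h3
      rw [hd_self]
      linarith
    · intro s₁ s₂ s₃ _ _ _ _
      exact ⟨1, 0, by norm_num, by norm_num, by norm_num, by simp⟩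

end Pool.Agent.Lib.MP_247fd6_al
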