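import Pool.Agent.Lib.MP_247fd6_al.AD1
import Pool.Agent.Lib.MP_247fd6_al.GD2

/-! Finitely many rational hyperplanes surround a ball. -/

set_option autoImplicit false

open Matrix

namespace Pool.Agent.Lib.MP_247fd6_al

variable {n : ℕ}

theorem AD2_cont_left (v : Fin (n + 1) → ℝ) :
    Continuous (fun y : Fin (n + 1) → ℝ => bf y v) := by
  unfold bf
  fun_prop

theorem AD2_cont_self : Continuous (fun y : Fin (n + 1) → ℝ => bf y y) := by
  unfold bf
  fun_prop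

/-- spheres are compact -/
theorem AD2_compact (n : ℕ) (r : ℝ) :
    IsCompact {y : Fin (n + 1) → ℝ | bf y y = -1 ∧ y 0 = Real.cosh r} := by
  apply Metric.isCompact_of_isClosed_isBounded
  · exact (isClosed_eq AD2_cont_self continuous_const).inter
      (isClosed_eq (continuous_apply 0) continuous_const)
  · rw [Metric.isBounded_iff_subset_closedBall 0]
    refine ⟨Real.cosh r, ?_⟩
    rintro y ⟨hy, hy0⟩
    rw [mem_closedBall_zero_iff, pi_norm_le_iff_of_nonneg (Real.cosh_pos r).le]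
    intro i
    have h := AD1_abs_coord (⟨y, hy, by rw [hy0]; exact Real.cosh_pos r⟩ : HPt n) i
    rw [Real.norm_eq_abs]
    rw [← hy0]
    exact h

theorem exists_vectors (M : (Matrix (Fin (n + 1)) (Fin (n + 1)) ℝ)ˣ) (D : ℝ) :
    ∃ (V : Finset (Fin (n + 1) → ℤ)) (r : ℝ),
      (∀ x ∈ V, 0 < bf (M.val *ᵥ (fun i => (x i : ℝ))) (M.val *ᵥ (fun i => (x i : ℝ)))) ∧
      (∀ y : HPt n, hd (e0 n) y ≤ D → ∀ x ∈ V, bf y.1 (M.val *ᵥ (fun i => (x i : ℝ))) < 0) ∧
      ∀ z : HPt n, (∀ x ∈ V, bf z.1 (M.val *ᵥ (fun i => (x i : ℝ))) < 0) →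
        hd (e0 n) z ≤ r := by
  obtain ⟨D', hD'⟩ : ∃ D' : ℝ, D' = max D 0 := ⟨_, rfl⟩
  have hD0 : 0 ≤ D' := by rw [hD']; exact le_max_right _ _
  have hDD : D ≤ D' := by rw [hD']; exact le_max_left _ _
  let ι := {x : Fin (n + 1) → ℤ //
    0 < bf (M.val *ᵥ (fun i => (x i : ℝ))) (M.val *ᵥ (fun i => (x i : ℝ))) ∧
    ∀ z : HPt n, hd (e0 n) z ≤ D' → bf z.1 (M.val *ᵥ (fun i => (x i : ℝ))) < 0}
  obtain ⟨t, ht⟩ := (AD2_compact n (D' + 1)).elim_finite_subcover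
    (fun x : ι => {y : Fin (n + 1) → ℝ | 0 < bf y (M.val *ᵥ (fun i => (x.1 i : ℝ)))})
    (fun x => isOpen_lt continuous_const (AD2_cont_left _)) (by
      rintro y ⟨hy, hy0⟩
      have hpos : 0 < y 0 := by rw [hy0]; exact Real.cosh_pos _
      have hd1 : hd (e0 n) (⟨y, hy, hpos⟩ : HPt n) = D' + 1 := by
        have h := AD1_coord (⟨y, hy, hpos⟩ : HPt n)
        have h := hy0.symm.trans h
        have h3 : (0 : ℝ) ≤ D' + 1 := by linarith
        exact (Real.cosh_strictMonoOn.injOn (Set.mem_Ici.2 h3)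
          (Set.mem_Ici.2 (hd_nonneg _ _)) h).symm
      obtain ⟨x, hx1, hx2, hx3⟩ := exists_vector M hD0 (⟨y, hy, hpos⟩ : HPt n) (by linarith)
      rw [Set.mem_iUnion]
      exact ⟨⟨x, hx1, hx2⟩, hx3⟩)
  refine ⟨t.map ⟨Subtype.val, Subtype.val_injective⟩, D' + 1, ?_, ?_, ?_⟩
  · intro x hx
    rw [Finset.mem_map] at hx
    obtain ⟨x', _, rfl⟩ := hx
    exact x'.2.1
  · intro y hy x hx
    rw [Finset.mem_map] at hx
    obtain ⟨x', _, rfl⟩ := hx
    exact x'.2.2 y (hy.trans hDD)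
  · intro z hz
    by_contra hlt
    push Not at hlt
    obtain ⟨p, hp0, hp1, hp2, hp3⟩ := exists_geod (e0 n) z
    have h1 : hd (e0 n) (p (D' + 1)) = D' + 1 := by
      have := hp2 0 (D' + 1) le_rfl (by linarith) hlt.le
      rw [hp0] at this
      linarith
    obtain ⟨a, b, ha, hb, _, hab⟩ := hp3 0 (D' + 1) (hd (e0 n) z) le_rfl (by linarith) hlt.le le_rfl
    rw [hp0, hp1] at hab
    have hmem : (p (D' + 1)).1 ∈
        {y : Fin (n + 1) → ℝ | bf y y = -1 ∧ y 0 = Real.cosh (D' + 1)} := by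
      refine ⟨(p (D' + 1)).2.1, ?_⟩
      rw [AD1_coord, h1]
    have h2 := ht hmem
    simp only [Set.mem_iUnion, Set.mem_ofPred_eq] at h2
    obtain ⟨x, hxt, hx⟩ := h2
    rw [hab, bf_add_left, bf_smul_left, bf_smul_left] at hx
    have h3 := x.2.2 (e0 n) (by rw [hd_self]; exact hD0)
    have h4 := hz x.1 (by
      rw [Finset.mem_map]
      exact ⟨x, hxt, rfl⟩)
    have h5 := mul_nonneg ha (neg_nonneg.2 h3.le)
    have h6 := mul_nonneg hb (neg_nonneg.2 h4.le)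
    linarith

end Pool.Agent.Lib.MP_247fd6_al
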