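import Pool.Agent.Lib.MP_247fd6_al.GB1

/-! Subgroups of finite index of cocompact groups. -/

set_option autoImplicit false

open Matrix

namespace Pool.Agent.Lib.MP_247fd6_al

variable {n : ℕ}

theorem coc_finiteIndex (G G₀ : Subgroup (Matrix (Fin (n + 1)) (Fin (n + 1)) ℝ)ˣ)
    (hG : G ≤ Oplus n) (h₀ : G₀ ≤ G) (hi : G₀.relIndex G ≠ 0)
    (hcoc : ∃ C : ℝ, ∀ x : Fin (n + 1) → ℝ, bf x x = -1 → 0 < x 0 →
        ∃ g ∈ G, -(bf x (fun i => g.val i 0)) ≤ C) :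
    ∃ D : ℝ, ∀ x : HPt n, ∃ g : Oplus n, g.1 ∈ G₀ ∧ hd x (g • e0 n) ≤ D := by
  classical
  obtain ⟨C, hC⟩ := hcoc
  -- finitely many right cosets
  set H : Subgroup G := G₀.subgroupOf G with hH
  have hfi : H.FiniteIndex := ⟨hi⟩
  have hfin : Finite (G ⧸ H) := Subgroup.finite_quotient_of_finiteIndex
  set f : G ⧸ H → ℝ := fun c =>
    hd ((⟨(Quotient.out c : G)⁻¹.1, hG (Quotient.out c : G)⁻¹.2⟩ : Oplus n) • e0 n) (e0 n) with hf
  obtain ⟨D₁, hD₁⟩ : ∃ D₁ : ℝ, ∀ c, f c ≤ D₁ := by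
    obtain ⟨D₁, hD₁⟩ := (Set.finite_range f).bddAbove
    exact ⟨D₁, fun c => hD₁ ⟨c, rfl⟩⟩
  refine ⟨Real.arcosh (max 1 C) + D₁, fun x => ?_⟩
  obtain ⟨g, hg, hgC⟩ := hC x.1 x.2.1 x.2.2
  -- `g⁻¹ = c * h` with `c` a representative
  set c : G ⧸ H := QuotientGroup.mk (⟨g, hg⟩⁻¹ : G) with hc
  have hrep : (Quotient.out c : G)⁻¹ * (⟨g, hg⟩⁻¹ : G) ∈ H := by
    rw [← QuotientGroup.eq, ← hc]
    exact Quotient.out_eq' c
  set r : G := Quotient.out c with hr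
  -- g₀ = g * r
  have hg₀ : (⟨g, hg⟩ * r : G) ∈ H := by
    have := H.inv_mem hrep
    rwa [_root_.mul_inv_rev, inv_inv, inv_inv] at this
  have hg₀' : g * r.1 ∈ G₀ := by
    have := hg₀
    rw [hH, Subgroup.mem_subgroupOf] at this
    exact this
  refine ⟨⟨g * r.1, hG (h₀ hg₀')⟩, hg₀', ?_⟩
  set g₀ : Oplus n := ⟨g * r.1, hG (h₀ hg₀')⟩ with hg₀d
  set g' : Oplus n := ⟨g, hG hg⟩ with hg'
  set c' : Oplus n := ⟨(Quotient.out c : G)⁻¹.1, hG (Quotient.out c : G)⁻¹.2⟩ with hc'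
  have hgc : g' = g₀ * c' := by
    apply Subtype.ext
    show g = g * r.1 * (r⁻¹ : G).1
    rw [mul_assoc, ← Subgroup.coe_mul, mul_inv_cancel, Subgroup.coe_one, mul_one]
  have h1 : hd x (g' • e0 n) ≤ Real.arcosh (max 1 C) := by
    unfold hd
    have hle : -(bf x.1 (g' • e0 n).1) ≤ max 1 C := by
      refine le_trans ?_ (le_max_right _ _)
      have : (g' • e0 n).1 = fun i => g.val i 0 := by
        ext i
        rw [coe_smul]
        exact mulVec_e0v g.val i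
      rw [this]
      exact hgC
    exact (Real.arcosh_le_arcosh (by linarith [one_le_neg_bf x (g' • e0 n)]) (by positivity)).mpr hle
  have h2 : hd (g' • e0 n) (g₀ • e0 n) ≤ D₁ := by
    rw [hgc, mul_smul, hd_smul]
    exact hD₁ c
  have := hd_tri x (g' • e0 n) (g₀ • e0 n)
  linarith

end Pool.Agent.Lib.MP_247fd6_al
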