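import Mathlib

/-! The Lorentz form, hyperbolic space as a hyperboloid, the group `O⁺(n,1)`. -/

set_option autoImplicit false

open Matrix

namespace Pool.Agent.Lib.MP_247fd6_al

/-- the Lorentz form -/
def bf {n : ℕ} (x y : Fin (n + 1) → ℝ) : ℝ :=
  -(x 0 * y 0) + ∑ i : Fin n, x i.succ * y i.succ

/-- the matrix of the Lorentz form -/
def eta (n : ℕ) : Matrix (Fin (n + 1)) (Fin (n + 1)) ℝ :=
  Matrix.diagonal (fun i : Fin (n + 1) => if i = 0 then (-1 : ℝ) else 1)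

/-- hyperbolic space -/
def HPt (n : ℕ) : Type := {x : Fin (n + 1) → ℝ // bf x x = -1 ∧ 0 < x 0}

/-- the base point as a vector -/
def e0v (n : ℕ) : Fin (n + 1) → ℝ := Pi.single 0 1

variable {n : ℕ}

theorem bf_comm (x y : Fin (n + 1) → ℝ) : bf x y = bf y x := by
  unfold bf
  congr 1
  · ring
  · exact Finset.sum_congr rfl fun i _ => mul_comm _ _

theorem bf_add_left (x y z : Fin (n + 1) → ℝ) : bf (x + y) z = bf x z + bf y z := by
  unfold bf
  simp only [Pi.add_apply, add_mul, Finset.sum_add_distrib]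
  ring

theorem bf_smul_left (c : ℝ) (x z : Fin (n + 1) → ℝ) : bf (c • x) z = c * bf x z := by
  unfold bf
  simp only [Pi.smul_apply, smul_eq_mul, mul_add, Finset.mul_sum]
  congr 1
  · ring
  · exact Finset.sum_congr rfl fun i _ => by ring

theorem bf_add_right (x y z : Fin (n + 1) → ℝ) : bf x (y + z) = bf x y + bf x z := by
  rw [bf_comm, bf_add_left, bf_comm y, bf_comm z]

theorem bf_smul_right (c : ℝ) (x z : Fin (n + 1) → ℝ) : bf x (c • z) = c * bf x z := by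
  rw [bf_comm, bf_smul_left, bf_comm]

theorem bf_neg_left (x z : Fin (n + 1) → ℝ) : bf (-x) z = - bf x z := by
  have := bf_smul_left (-1) x z
  simpa using this

theorem bf_neg_right (x z : Fin (n + 1) → ℝ) : bf x (-z) = - bf x z := by
  rw [bf_comm, bf_neg_left, bf_comm]

theorem bf_sub_left (x y z : Fin (n + 1) → ℝ) : bf (x - y) z = bf x z - bf y z := by
  rw [sub_eq_add_neg, bf_add_left, bf_neg_left]; ring

theorem bf_sub_right (x y z : Fin (n + 1) → ℝ) : bf x (y - z) = bf x y - bf x z := by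
  rw [bf_comm, bf_sub_left, bf_comm y, bf_comm z]

theorem bf_eq (x y : Fin (n + 1) → ℝ) : x ⬝ᵥ (eta n *ᵥ y) = bf x y := by
  unfold bf eta
  simp only [dotProduct, mulVec_diagonal]
  rw [Fin.sum_univ_succ]
  simp only [if_true, Fin.succ_ne_zero, if_false, one_mul]
  ring

theorem bf_mulVec {g : Matrix (Fin (n + 1)) (Fin (n + 1)) ℝ} (hg : gᵀ * eta n * g = eta n)
    (x y : Fin (n + 1) → ℝ) : bf (g *ᵥ x) (g *ᵥ y) = bf x y := by
  rw [← bf_eq, ← bf_eq]
  conv_rhs => rw [← hg]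
  rw [← mulVec_mulVec, ← mulVec_mulVec, dotProduct_mulVec x, vecMul_transpose]

theorem bf_e0v_right (x : Fin (n + 1) → ℝ) : bf x (e0v n) = - x 0 := by
  unfold bf e0v
  simp

theorem bf_e0v_left (x : Fin (n + 1) → ℝ) : bf (e0v n) x = - x 0 := by
  rw [bf_comm, bf_e0v_right]

/-- the base point -/
def e0 (n : ℕ) : HPt n := ⟨e0v n, by rw [bf_e0v_right]; simp [e0v], by simp [e0v]⟩

theorem one_le_coord (x : HPt n) : 1 ≤ x.1 0 := by
  have h := x.2.1
  have h0 := x.2.2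
  unfold bf at h
  have : 0 ≤ ∑ i : Fin n, x.1 i.succ * x.1 i.succ :=
    Finset.sum_nonneg fun i _ => mul_self_nonneg _
  nlinarith

/-- reversed Cauchy-Schwarz inequality -/
theorem one_le_neg_bf (x y : HPt n) : 1 ≤ -(bf x.1 y.1) := by
  have hx := x.2.1
  have hy := y.2.1
  have hx0 := one_le_coord x
  have hy0 := one_le_coord y
  unfold bf at *
  set a := x.1 0
  set b := y.1 0
  have h1 : ∑ i : Fin n, x.1 i.succ * x.1 i.succ = a ^ 2 - 1 := by linarith [sq a]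
  have h2 : ∑ i : Fin n, y.1 i.succ * y.1 i.succ = b ^ 2 - 1 := by linarith [sq b]
  have h3 := Finset.sum_mul_sq_le_sq_mul_sq Finset.univ (fun i : Fin n => x.1 i.succ)
    (fun i : Fin n => y.1 i.succ)
  simp only [sq] at h3
  rw [h1, h2] at h3
  set c := ∑ i : Fin n, x.1 i.succ * y.1 i.succ
  have h4 : c ^ 2 ≤ (a * b - 1) ^ 2 := by nlinarith [sq_nonneg (a - b)]
  have h5 : 0 ≤ a * b - 1 := by nlinarith
  have h6 := abs_le_of_sq_le_sq h4 h5
  linarith [(abs_le.1 h6).2]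

theorem one_le_neg_bf' {x y : Fin (n + 1) → ℝ} (hx : bf x x = -1) (hx0 : 0 < x 0)
    (hy : bf y y = -1) (hy0 : 0 < y 0) : 1 ≤ -(bf x y) :=
  one_le_neg_bf ⟨x, hx, hx0⟩ ⟨y, hy, hy0⟩

theorem eta_mul_eta : eta n * eta n = 1 := by
  unfold eta
  rw [diagonal_mul_diagonal]
  rw [← diagonal_one]
  congr 1
  ext i
  split <;> norm_num

theorem eta_transpose : (eta n)ᵀ = eta n := by
  unfold eta
  rw [diagonal_transpose]

/-- the inverse of an element of `O(n,1)` -/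
theorem inv_eq {g : (Matrix (Fin (n + 1)) (Fin (n + 1)) ℝ)ˣ}
    (hg : g.valᵀ * eta n * g.val = eta n) : (g⁻¹).val = eta n * g.valᵀ * eta n := by
  have h : (eta n * g.valᵀ * eta n) * g.val = 1 := by
    rw [mul_assoc (eta n), mul_assoc (eta n), hg, eta_mul_eta]
  calc (g⁻¹).val = (eta n * g.valᵀ * eta n) * g.val * (g⁻¹).val := by rw [h, one_mul]
    _ = eta n * g.valᵀ * eta n := by rw [mul_assoc, Units.mul_inv, mul_one]

theorem mul_eta_transpose {g : (Matrix (Fin (n + 1)) (Fin (n + 1)) ℝ)ˣ}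
    (hg : g.valᵀ * eta n * g.val = eta n) : g.val * eta n * g.valᵀ = eta n := by
  have h := g.mul_inv
  rw [inv_eq hg] at h
  have h2 : g.val * eta n * g.valᵀ * eta n = 1 := by
    rw [← h]; simp only [mul_assoc]
  calc g.val * eta n * g.valᵀ = g.val * eta n * g.valᵀ * (eta n * eta n) := by
        rw [eta_mul_eta, mul_one]
    _ = eta n := by rw [← mul_assoc, h2, one_mul]

theorem inv_val_zero {g : (Matrix (Fin (n + 1)) (Fin (n + 1)) ℝ)ˣ}
    (hg : g.valᵀ * eta n * g.val = eta n) : (g⁻¹).val 0 0 = g.val 0 0 := by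
  rw [inv_eq hg]
  unfold eta
  rw [mul_diagonal, diagonal_mul]
  simp

theorem inv_form {g : (Matrix (Fin (n + 1)) (Fin (n + 1)) ℝ)ˣ}
    (hg : g.valᵀ * eta n * g.val = eta n) : (g⁻¹).valᵀ * eta n * (g⁻¹).val = eta n := by
  rw [inv_eq hg]
  simp only [transpose_mul, transpose_transpose, eta_transpose]
  have h := mul_eta_transpose hg
  calc eta n * (g.val * eta n) * eta n * (eta n * g.valᵀ * eta n)
      = eta n * (g.val * (eta n * (eta n * eta n)) * g.valᵀ) * eta n := by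
        simp only [mul_assoc]
    _ = eta n := by rw [eta_mul_eta, mul_one, h, eta_mul_eta, one_mul]

theorem mulVec_e0v_zero (g : Matrix (Fin (n + 1)) (Fin (n + 1)) ℝ) :
    (g *ᵥ e0v n) 0 = g 0 0 := by
  unfold e0v
  simp

theorem mulVec_e0v (g : Matrix (Fin (n + 1)) (Fin (n + 1)) ℝ) (i : Fin (n + 1)) :
    (g *ᵥ e0v n) i = g i 0 := by
  unfold e0v
  simp

theorem mulVec_pos {g : (Matrix (Fin (n + 1)) (Fin (n + 1)) ℝ)ˣ}
    (hg : g.valᵀ * eta n * g.val = eta n) (h0 : 0 < g.val 0 0) (x : HPt n) :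
    0 < (g.val *ᵥ x.1) 0 := by
  have h1 : -((g.val *ᵥ x.1) 0) = bf (e0v n) (g.val *ᵥ x.1) := (bf_e0v_left _).symm
  have h2 : bf (e0v n) (g.val *ᵥ x.1) = bf ((g⁻¹).val *ᵥ e0v n) x.1 := by
    rw [← bf_mulVec hg ((g⁻¹).val *ᵥ e0v n) x.1, mulVec_mulVec, Units.mul_inv, one_mulVec]
  have h3 : 1 ≤ -(bf ((g⁻¹).val *ᵥ e0v n) x.1) := by
    refine one_le_neg_bf' ?_ ?_ x.2.1 x.2.2
    · rw [bf_mulVec (inv_form hg)]; exact (e0 n).2.1
    · rw [mulVec_e0v_zero, inv_val_zero hg]; exact h0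
  linarith

/-- the group `O⁺(n,1)` -/
def Oplus (n : ℕ) : Subgroup (Matrix (Fin (n + 1)) (Fin (n + 1)) ℝ)ˣ where
  carrier := {g | g.valᵀ * eta n * g.val = eta n ∧ 0 < g.val 0 0}
  one_mem' := by
    constructor
    · simp
    · simp
  mul_mem' := by
    rintro a b ⟨ha, ha0⟩ ⟨hb, hb0⟩
    refine ⟨?_, ?_⟩
    · rw [Units.val_mul, transpose_mul]
      calc b.valᵀ * a.valᵀ * eta n * (a.val * b.val)
          = b.valᵀ * (a.valᵀ * eta n * a.val) * b.val := by simp only [mul_assoc]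
        _ = eta n := by rw [ha, hb]
    · have h := mulVec_pos ha ha0 ⟨b.val *ᵥ e0v n, by rw [bf_mulVec hb]; exact (e0 n).2.1,
        by rw [mulVec_e0v_zero]; exact hb0⟩
      have h2 : (a.val *ᵥ (b.val *ᵥ e0v n)) 0 = (a * b).val 0 0 := by
        rw [mulVec_mulVec, mulVec_e0v_zero, Units.val_mul]
      rw [← h2]; exact h
  inv_mem' := by
    rintro a ⟨ha, ha0⟩
    exact ⟨inv_form ha, by rw [inv_val_zero ha]; exact ha0⟩

theorem mem_Oplus {g : (Matrix (Fin (n + 1)) (Fin (n + 1)) ℝ)ˣ} :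
    g ∈ Oplus n ↔ g.valᵀ * eta n * g.val = eta n ∧ 0 < g.val 0 0 := Iff.rfl

instance : MulAction (Oplus n) (HPt n) where
  smul g x := ⟨g.1.val *ᵥ x.1, by rw [bf_mulVec g.2.1]; exact x.2.1, mulVec_pos g.2.1 g.2.2 x⟩
  one_smul x := by
    apply Subtype.ext
    change (1 : Matrix (Fin (n + 1)) (Fin (n + 1)) ℝ) *ᵥ x.1 = x.1
    rw [one_mulVec]
  mul_smul g h x := by
    apply Subtype.ext
    change (g.1.val * h.1.val) *ᵥ x.1 = g.1.val *ᵥ (h.1.val *ᵥ x.1)
    rw [mulVec_mulVec]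

theorem coe_smul (g : Oplus n) (x : HPt n) : (g • x).1 = g.1.val *ᵥ x.1 := rfl

theorem bf_smul_smul (g : Oplus n) (x y : HPt n) : bf (g • x).1 (g • y).1 = bf x.1 y.1 := by
  rw [coe_smul, coe_smul, bf_mulVec g.2.1]

/-- the hyperbolic distance -/
noncomputable def hd (x y : HPt n) : ℝ := Real.arcosh (-(bf x.1 y.1))

/-- a half-space -/
def hs (v : Fin (n + 1) → ℝ) : Set (HPt n) := {x | 0 ≤ bf x.1 v}

/-- discrete subgroups -/
def Disc (Γ : Subgroup (Oplus n)) : Prop :=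
  ∀ R : ℝ, {g : Oplus n | g ∈ Γ ∧ ∀ i j, |g.1.val i j| ≤ R}.Finite

theorem cosh_hd (x y : HPt n) : Real.cosh (hd x y) = -(bf x.1 y.1) := by
  unfold hd
  exact Real.cosh_arcosh (one_le_neg_bf x y)

theorem hd_nonneg (x y : HPt n) : 0 ≤ hd x y := by
  unfold hd
  exact Real.arcosh_nonneg (one_le_neg_bf x y)

theorem hd_symm (x y : HPt n) : hd x y = hd y x := by
  unfold hd
  rw [bf_comm]

theorem hd_self (x : HPt n) : hd x x = 0 := by
  unfold hd
  rw [x.2.1]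
  simp

theorem hd_smul (g : Oplus n) (x y : HPt n) : hd (g • x) (g • y) = hd x y := by
  unfold hd
  rw [bf_smul_smul]

theorem hd_e0_smul (g : Oplus n) : Real.cosh (hd (e0 n) (g • e0 n)) = g.1.val 0 0 := by
  rw [cosh_hd, coe_smul]
  change -(bf (e0v n) (g.1.val *ᵥ e0v n)) = _
  rw [bf_e0v_left, mulVec_e0v_zero, neg_neg]

end Pool.Agent.Lib.MP_247fd6_al
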