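import Pool.Agent.Lib.MP_247fd6_al.AB
import Pool.Agent.Lib.MP_247fd6_al.GA

/-! Separation in terms of the Lorentz form. -/

set_option autoImplicit false

open NumberField Matrix

namespace Pool.Agent.Lib.MP_247fd6_al

variable {n : ℕ}

/-- the embedding of the integers -/
def AF1_j {K : Type} [Field K] [NumberField K] (ι : K →+* ℝ) : 𝓞 K →+* ℝ :=
  ι.comp (algebraMap (𝓞 K) K)

lemma AF1_j_inj {K : Type} [Field K] [NumberField K] (ι : K →+* ℝ) :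
    Function.Injective (AF1_j ι) :=
  ι.injective.comp (NumberField.RingOfIntegers.coe_injective)

lemma AF1_map {K : Type} [Field K] [NumberField K] (ι : K →+* ℝ) {m : ℕ}
    (A : Matrix (Fin m) (Fin m) (𝓞 K)) : A.map (fun a => ι (a : K)) = A.map (AF1_j ι) := rfl

lemma AF1_form {m : ℕ} (M E : Matrix (Fin m) (Fin m) ℝ) (u w : Fin m → ℝ) :
    (M *ᵥ u) ⬝ᵥ (E *ᵥ (M *ᵥ w)) = u ⬝ᵥ ((Mᵀ * E * M) *ᵥ w) := by
  have h1 : (Mᵀ * E * M) *ᵥ w = Mᵀ *ᵥ (E *ᵥ (M *ᵥ w)) := by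
    rw [Matrix.mulVec_mulVec, Matrix.mulVec_mulVec, Matrix.mul_assoc]
  rw [h1, Matrix.dotProduct_mulVec u Mᵀ, Matrix.vecMul_transpose]

theorem sep_vec {K : Type} [Field K] [NumberField K] (ι : K →+* ℝ)
    (F : Matrix (Fin (n + 1)) (Fin (n + 1)) (𝓞 K)) (hF : F.IsSymm)
    (haniso : ∀ x : Fin (n + 1) → 𝓞 K, x ⬝ᵥ (F *ᵥ x) = 0 → x = 0)
    (hpos : ∀ σ : K →+* ℂ, σ ≠ Complex.ofRealHom.comp ι →
      ∃ τ : K →+* ℝ, σ = Complex.ofRealHom.comp τ ∧ (F.map (fun a => τ (a : K))).PosDef)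
    (M : (Matrix (Fin (n + 1)) (Fin (n + 1)) ℝ)ˣ)
    (hM : M.valᵀ * eta n * M.val = F.map (fun a => ι (a : K)))
    (x : Fin (n + 1) → ℤ) (R : ℝ) :
    ∃ N₀ : ℕ, ∀ N ≥ N₀, ∀ γ : (Matrix (Fin (n + 1)) (Fin (n + 1)) ℝ)ˣ, γ ∈ Oplus n →
      (∃ B' : Matrix (Fin (n + 1)) (Fin (n + 1)) (𝓞 K),
        γ.val * M.val = M.val * (1 + (N : 𝓞 K) • B').map (fun a => ι (a : K))) →
      γ.val *ᵥ (M.val *ᵥ (fun i => (x i : ℝ))) = M.val *ᵥ (fun i => (x i : ℝ)) ∨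
      R ≤ |bf (M.val *ᵥ (fun i => (x i : ℝ))) (γ.val *ᵥ (M.val *ᵥ (fun i => (x i : ℝ))))| := by
  
  set j := AF1_j ι with hj
  set x' : Fin (n + 1) → 𝓞 K := fun i => ((x i : ℤ) : 𝓞 K) with hx'
  have hjx : (j ∘ x') = fun i => ((x i : ℤ) : ℝ) := by
    funext i
    show j ((x i : ℤ) : 𝓞 K) = _
    exact map_intCast j (x i)
  obtain ⟨N₀, hN₀⟩ := arith_sep ι F hF haniso hpos x' R
  refine ⟨N₀, fun N hN γ hγ hB => ?_⟩
  obtain ⟨B', hB'⟩ := hB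
  set B : Matrix (Fin (n + 1)) (Fin (n + 1)) (𝓞 K) := 1 + (N : 𝓞 K) • B' with hBdef
  rw [AF1_map, ← hj] at hB' hM
  have hγ1 := (mem_Oplus.1 hγ).1
  have h1 : Bᵀ * F * B = F := by
    have h2 : (Bᵀ * F * B).map j = F.map j := by
      rw [Matrix.map_mul, Matrix.map_mul, ← hM, Matrix.transpose_map]
      calc (B.map j)ᵀ * (M.valᵀ * eta n * M.val) * B.map j
          = (M.val * B.map j)ᵀ * eta n * (M.val * B.map j) := by
            rw [Matrix.transpose_mul]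
            simp only [Matrix.mul_assoc]
        _ = (γ.val * M.val)ᵀ * eta n * (γ.val * M.val) := by rw [hB']
        _ = M.valᵀ * (γ.valᵀ * eta n * γ.val) * M.val := by
            rw [Matrix.transpose_mul]
            simp only [Matrix.mul_assoc]
        _ = M.valᵀ * eta n * M.val := by rw [hγ1]
    exact Matrix.map_injective (AF1_j_inj ι) h2
  have h3 : B.map j *ᵥ (fun i => ((x i : ℤ) : ℝ)) = j ∘ (B *ᵥ x') := by
    rw [← hjx]
    funext i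
    exact (RingHom.map_mulVec j B x' i).symm
  have h4 : γ.val *ᵥ (M.val *ᵥ (fun i => ((x i : ℤ) : ℝ)))
      = M.val *ᵥ (j ∘ (B *ᵥ x')) := by
    rw [Matrix.mulVec_mulVec, hB', ← Matrix.mulVec_mulVec, h3]
  rcases hN₀ N hN B h1 ⟨B', rfl⟩ with h5 | h5
  · left
    rw [h4, h5, hjx]
  · right
    refine h5.trans (le_of_eq ?_)
    congr 1
    rw [h4, ← bf_eq, AF1_form, hM, ← hjx]
    have h6 : (F.map j) *ᵥ (j ∘ (B *ᵥ x')) = j ∘ (F *ᵥ (B *ᵥ x')) := by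
      funext i
      exact (RingHom.map_mulVec j F (B *ᵥ x') i).symm
    rw [h6]
    exact (RingHom.map_dotProduct j x' (F *ᵥ (B *ᵥ x')))


end Pool.Agent.Lib.MP_247fd6_al
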