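import Pool.Agent.Lib.MP_247fd6_al.GA

/-! The growth rate of a group of matrices; wall families in terms of vectors. -/

set_option autoImplicit false

open Matrix

namespace Pool.Agent.Lib.MP_247fd6_al

variable {n : ℕ}

/-- the growth function -/
noncomputable def gr (H : Subgroup (Matrix (Fin (n + 1)) (Fin (n + 1)) ℝ)ˣ) (r : ℝ) : ℝ :=
  Real.log ((({h | h ∈ H ∧ h.val 0 0 ≤ Real.cosh r} :
    Set (Matrix (Fin (n + 1)) (Fin (n + 1)) ℝ)ˣ).ncard : ℝ)) / r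

/-- the growth rate -/
noncomputable def om (H : Subgroup (Matrix (Fin (n + 1)) (Fin (n + 1)) ℝ)ˣ) : ℝ :=
  Filter.limsup (fun r : ℝ => gr H r) Filter.atTop

/-- the image in the matrix group of a subgroup of `Γ` -/
def im (Γ : Subgroup (Oplus n)) (L : Subgroup Γ) :
    Subgroup (Matrix (Fin (n + 1)) (Fin (n + 1)) ℝ)ˣ :=
  (L.map Γ.subtype).map (Oplus n).subtype

/-- separated wall families in terms of vectors -/
def WallCrit (G : Subgroup (Matrix (Fin (n + 1)) (Fin (n + 1)) ℝ)ˣ) : Prop :=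
  ∀ R : ℝ, ∃ (B : Subgroup (Matrix (Fin (n + 1)) (Fin (n + 1)) ℝ)ˣ) (r : ℕ)
    (V : ℕ → Set (Fin (n + 1) → ℝ)) (q : ℕ → ℝ) (ρ : ℝ), B ≤ G ∧ B.relIndex G ≠ 0 ∧
    (∀ i < r, 0 < q i ∧ (∀ w ∈ V i, bf w w = q i) ∧ (∀ g ∈ B, ∀ w ∈ V i, g.val *ᵥ w ∈ V i) ∧
      ∀ w ∈ V i, ∀ w' ∈ V i, w ≠ w' → R * q i ≤ |bf w w'|) ∧
    ∀ x y : HPt n, (∀ i < r, ∀ w ∈ V i, (0 ≤ bf x.1 w ↔ 0 ≤ bf y.1 w)) → hd x y ≤ ρ

end Pool.Agent.Lib.MP_247fd6_al
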