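import Pool.Agent.Lib.MP_247fd6_al.AC
import Pool.Agent.Lib.MP_247fd6_al.AD2
import Pool.Agent.Lib.MP_247fd6_al.AE
import Pool.Agent.Lib.MP_247fd6_al.AF1
import Pool.Agent.Lib.MP_247fd6_al.GG0

/-! Arithmetic groups of simplest type have separated wall families. -/

set_option autoImplicit false

open NumberField Matrix

namespace Pool.Agent.Lib.MP_247fd6_al

variable {n : ℕ}

/-- representatives on the right of a subgroup of finite index -/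
lemma AF2_reps {H : Type*} [Group H] (Γ G₀ : Subgroup H) (hi : Γ.relIndex G₀ ≠ 0) :
    ∃ C : Finset H, (∀ c ∈ C, c ∈ G₀) ∧ ∀ g ∈ G₀, ∃ c ∈ C, ∃ γ ∈ Γ, g = γ * c := by
  classical
  have hfi : (Γ.subgroupOf G₀).FiniteIndex := ⟨hi⟩
  have hfin : Finite (G₀ ⧸ Γ.subgroupOf G₀) := inferInstance
  obtain ⟨_⟩ := nonempty_fintype (G₀ ⧸ Γ.subgroupOf G₀)
  refine ⟨Finset.univ.image (fun q : G₀ ⧸ Γ.subgroupOf G₀ => ((Quotient.out q : G₀) : H)⁻¹),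
    ?_, ?_⟩
  · intro c hc
    rw [Finset.mem_image] at hc
    obtain ⟨q, _, rfl⟩ := hc
    exact G₀.inv_mem (Quotient.out q).2
  · intro g hg
    obtain ⟨q, hq⟩ : ∃ q : G₀ ⧸ Γ.subgroupOf G₀, q = QuotientGroup.mk (⟨g⁻¹, G₀.inv_mem hg⟩ : G₀) :=
      ⟨_, rfl⟩
    refine ⟨((Quotient.out q : G₀) : H)⁻¹, Finset.mem_image_of_mem _ (Finset.mem_univ q),
      g * (Quotient.out q : G₀), ?_, by group⟩
    have h1 : (QuotientGroup.mk (Quotient.out q) : G₀ ⧸ Γ.subgroupOf G₀) =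
        QuotientGroup.mk (⟨g⁻¹, G₀.inv_mem hg⟩ : G₀) := by
      rw [← hq]
      exact Quotient.out_eq' q
    rw [eq_comm, QuotientGroup.eq, Subgroup.mem_subgroupOf] at h1
    simpa using h1

/-- an element of `O⁺(n,1)` moved to the other side of the form -/
lemma AF2_bf_inv (g : Oplus n) (x : HPt n) (v : Fin (n + 1) → ℝ) :
    bf (g⁻¹ • x).1 v = bf x.1 (g.1.val *ᵥ v) := by
  rw [← bf_mulVec g.2.1 (g⁻¹ • x).1 v, ← coe_smul, smul_inv_smul]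

theorem crit_of_simplest {K : Type} [Field K] [NumberField K] (ι : K →+* ℝ)
    (F : Matrix (Fin (n + 1)) (Fin (n + 1)) (𝓞 K)) (hF : F.IsSymm)
    (haniso : ∀ x : Fin (n + 1) → 𝓞 K, x ⬝ᵥ (F *ᵥ x) = 0 → x = 0)
    (hpos : ∀ σ : K →+* ℂ, σ ≠ Complex.ofRealHom.comp ι →
      ∃ τ : K →+* ℝ, σ = Complex.ofRealHom.comp τ ∧ (F.map (fun a => τ (a : K))).PosDef)
    (M : (Matrix (Fin (n + 1)) (Fin (n + 1)) ℝ)ˣ)
    (hM : M.valᵀ * eta n * M.val = F.map (fun a => ι (a : K)))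
    (G G₀ : Subgroup (Matrix (Fin (n + 1)) (Fin (n + 1)) ℝ)ˣ)
    (hG : G ≤ Oplus n) (h₀ : G₀ ≤ G) (hi : G₀.relIndex G ≠ 0)
    (hint : ∀ g ∈ G₀, ∃ B : Matrix (Fin (n + 1)) (Fin (n + 1)) (𝓞 K),
      g.val * M.val = M.val * B.map (fun a => ι (a : K)))
    (hcoc : ∃ C : ℝ, ∀ x : Fin (n + 1) → ℝ, bf x x = -1 → 0 < x 0 →
        ∃ g ∈ G, -(bf x (fun i => g.val i 0)) ≤ C) : WallCrit G := by
  classical
  intro R
  obtain ⟨D, hD⟩ := coc_finiteIndex G G₀ hG h₀ hi hcoc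
  obtain ⟨V, r, hV1, hV2, hV3⟩ := exists_vectors M D
  obtain ⟨mv, hmv⟩ : ∃ mv : (Fin (n + 1) → ℤ) → (Fin (n + 1) → ℝ),
      mv = fun x => M.val *ᵥ (fun i => (x i : ℝ)) := ⟨_, rfl⟩
  have hmv' : ∀ x, M.val *ᵥ (fun i => (x i : ℝ)) = mv x := fun x => by rw [hmv]
  simp only [hmv'] at hV1 hV2 hV3
  -- the level
  have hN : ∃ N : ℕ, 0 < N ∧ ∀ x ∈ V, ∀ γ : (Matrix (Fin (n + 1)) (Fin (n + 1)) ℝ)ˣ, γ ∈ Oplus n →
      (∃ B' : Matrix (Fin (n + 1)) (Fin (n + 1)) (𝓞 K),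
        γ.val * M.val = M.val * (1 + (N : 𝓞 K) • B').map (fun a => ι (a : K))) →
      γ.val *ᵥ mv x = mv x ∨ R * bf (mv x) (mv x) ≤ |bf (mv x) (γ.val *ᵥ mv x)| := by
    have h1 := fun x : Fin (n + 1) → ℤ => sep_vec ι F hF haniso hpos M hM x (R * bf (mv x) (mv x))
    choose N₀ hN₀ using h1
    refine ⟨max 1 (V.sup N₀), lt_of_lt_of_le one_pos (le_max_left _ _), ?_⟩
    intro x hx γ hγ hB
    have h2 := hN₀ x (max 1 (V.sup N₀)) ((Finset.le_sup hx).trans (le_max_right _ _)) γ hγ hB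
    simp only [hmv'] at h2
    exact h2
  obtain ⟨N, hN0, hN⟩ := hN
  obtain ⟨Γ, hΓ₀, hΓi, hΓn, hΓB⟩ := exists_congr ι M G₀ hint N hN0
  obtain ⟨C, hC, hCr⟩ := AF2_reps Γ G₀ hΓi
  have hGO : ∀ g ∈ G₀, g ∈ Oplus n := fun g hg => hG (h₀ hg)
  -- the index set
  obtain ⟨J, hJ⟩ : ∃ J : Finset ((Fin (n + 1) → ℤ) × (Matrix (Fin (n + 1)) (Fin (n + 1)) ℝ)ˣ),
      J = V ×ˢ C := ⟨_, rfl⟩
  let e := J.equivFin
  have hmem : ∀ j : J, j.1.1 ∈ V ∧ j.1.2 ∈ C := by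
    intro j
    have h1 : ∀ z ∈ J, z.1 ∈ V ∧ z.2 ∈ C := by
      intro z hz
      rw [hJ, Finset.mem_product] at hz
      exact hz
    exact h1 j.1 j.2
  let W : (Fin (n + 1) → ℤ) × (Matrix (Fin (n + 1)) (Fin (n + 1)) ℝ)ˣ → Set (Fin (n + 1) → ℝ) :=
    fun j => {w | ∃ γ ∈ Γ, w = γ.val *ᵥ (j.2.val *ᵥ mv j.1)}
  have hW : ∀ j, W j = {w | ∃ γ ∈ Γ, w = γ.val *ᵥ (j.2.val *ᵥ mv j.1)} := fun j => rfl
  refine ⟨Γ, J.card, fun i => if h : i < J.card then W (e.symm ⟨i, h⟩).1 else ∅,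
    fun i => if h : i < J.card then bf (mv (e.symm ⟨i, h⟩).1.1) (mv (e.symm ⟨i, h⟩).1.1) else 0,
    D + r, hΓ₀.trans h₀, Subgroup.relIndex_ne_zero_trans hΓi hi, ?_, ?_⟩
  · intro i hi'
    simp only [dif_pos hi']
    obtain ⟨j, hj⟩ : ∃ j : J, j = e.symm ⟨i, hi'⟩ := ⟨_, rfl⟩
    rw [← hj, hW]
    obtain ⟨hjV, hjC⟩ := hmem j
    refine ⟨hV1 _ hjV, ?_, ?_, ?_⟩
    · rintro w ⟨γ, hγ, rfl⟩
      rw [bf_mulVec (hGO γ (hΓ₀ hγ)).1, bf_mulVec (hGO _ (hC _ hjC)).1]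
    · rintro g hg w ⟨γ, hγ, rfl⟩
      refine ⟨g * γ, Γ.mul_mem hg hγ, ?_⟩
      rw [Units.val_mul, ← mulVec_mulVec]
    · rintro w ⟨γ, hγ, rfl⟩ w' ⟨γ', hγ', rfl⟩ hne
      obtain ⟨c, hc⟩ : ∃ c, c = j.1.2 := ⟨_, rfl⟩
      rw [← hc] at hne ⊢
      have hcG : c ∈ G₀ := hc ▸ hC _ hjC
      have hδ : c⁻¹ * (γ⁻¹ * γ') * c ∈ Γ := by
        have h2 := hΓn c⁻¹ (G₀.inv_mem hcG) (γ⁻¹ * γ') (Γ.mul_mem (Γ.inv_mem hγ) hγ')
        rwa [inv_inv] at h2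
      have h3 := hN j.1.1 hjV _ (hGO _ (hΓ₀ hδ)) (hΓB _ hδ)
      have hγc : (γ * c) ∈ Oplus n := hGO _ (G₀.mul_mem (hΓ₀ hγ) hcG)
      have h4 : γ'.val *ᵥ (c.val *ᵥ mv j.1.1) =
          (γ * c).val *ᵥ ((c⁻¹ * (γ⁻¹ * γ') * c).val *ᵥ mv j.1.1) := by
        rw [mulVec_mulVec, mulVec_mulVec, ← Units.val_mul, ← Units.val_mul]
        congr 2
        group
      have h5 : γ.val *ᵥ (c.val *ᵥ mv j.1.1) = (γ * c).val *ᵥ mv j.1.1 := by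
        rw [mulVec_mulVec, ← Units.val_mul]
      rcases h3 with h3 | h3
      · exfalso
        apply hne
        rw [h4, h3, h5]
      · rw [h4, h5, bf_mulVec hγc.1]
        exact h3
  · intro x y hxy
    obtain ⟨g, hg, hgx⟩ := hD x
    obtain ⟨c, hcC, γ, hγ, hgc⟩ := hCr g.1 hg
    have h1 : hd (e0 n) (g⁻¹ • x) ≤ D := by
      rw [← hd_smul g, smul_inv_smul, hd_symm]
      exact hgx
    have h2 : hd (e0 n) (g⁻¹ • y) ≤ r := by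
      apply hV3
      intro v hv
      have h3 := hV2 (g⁻¹ • x) h1 v hv
      rw [AF2_bf_inv] at h3 ⊢
      have hjJ : (v, c) ∈ J := by
        rw [hJ, Finset.mem_product]
        exact ⟨hv, hcC⟩
      have h4 := hxy (e ⟨(v, c), hjJ⟩).1 (e ⟨(v, c), hjJ⟩).2 (g.1.val *ᵥ mv v) (by
        simp only [Fin.is_lt, dif_pos, Fin.eta, Equiv.symm_apply_apply]
        rw [hW]
        refine ⟨γ, hγ, ?_⟩
        rw [hgc, Units.val_mul, ← mulVec_mulVec])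
      by_contra hcon
      push Not at hcon
      have := h4.mpr hcon
      linarith
    have h3 : hd (g • e0 n) y ≤ r := by
      rw [← smul_inv_smul g y, hd_smul]
      exact h2
    have h4 := hd_tri x (g • e0 n) y
    linarith

end Pool.Agent.Lib.MP_247fd6_al
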