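import Pool.Agent.Lib.MP_247fd6_al.Defs

/-! Basic facts on regions and stabilisers. -/

set_option autoImplicit false

open scoped Pointwise ENNReal

namespace Pool.Agent.Lib.MP_247fd6_al

section region

variable {X : Type}

theorem mem_region_self (F : Set (Set X)) (x : X) : x ∈ region F x := fun _ _ => Iff.rfl

theorem region_eq {F : Set (Set X)} {x y : X} (h : y ∈ region F x) : region F y = region F x := by
  ext z
  constructor
  · intro hz w hw
    exact (hz w hw).trans (h w hw)
  · intro hz w hw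
    exact (hz w hw).trans (h w hw).symm

theorem region_union (F F' : Set (Set X)) (x : X) :
    region (F ∪ F') x = region F x ∩ region F' x := by
  ext z
  constructor
  · intro hz
    exact ⟨fun w hw => hz w (Or.inl hw), fun w hw => hz w (Or.inr hw)⟩
  · rintro ⟨h1, h2⟩ w hw
    rcases hw with hw | hw
    · exact h1 w hw
    · exact h2 w hw

theorem region_mono {F F' : Set (Set X)} (h : F ⊆ F') (x : X) : region F' x ⊆ region F x :=
  fun _ hz w hw => hz w (h hw)

theorem side_eq_iff {F : Set (Set X)} {x y : X} : side F x = side F y ↔ x ∈ region F y := by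
  constructor
  · intro h w hw
    have h1 : w ∈ side F x ↔ w ∈ side F y := by rw [h]
    constructor
    · intro hx
      exact (h1.1 ⟨hw, hx⟩).2
    · intro hy
      exact (h1.2 ⟨hw, hy⟩).2
  · intro h
    ext w
    constructor
    · rintro ⟨hw, hx⟩
      exact ⟨hw, (h w hw).1 hx⟩
    · rintro ⟨hw, hx⟩
      exact ⟨hw, (h w hw).2 hx⟩

end region

variable {G X : Type} [Group G] [MulAction G X]

theorem smul_mem_region {B : Subgroup G} {F : Set (Set X)} (hF : ∀ g ∈ B, ∀ h ∈ F, g • h ∈ F)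
    {g : G} (hg : g ∈ B) {x y : X} : g • y ∈ region F (g • x) ↔ y ∈ region F x := by
  constructor
  · intro h w hw
    have := h (g • w) (hF g hg w hw)
    rwa [Set.smul_mem_smul_set_iff, Set.smul_mem_smul_set_iff] at this
  · intro h w hw
    have := h (g⁻¹ • w) (hF g⁻¹ (B.inv_mem hg) w hw)
    rwa [Set.mem_inv_smul_set_iff, Set.mem_inv_smul_set_iff] at this

theorem mem_stb {B : Subgroup G} {F : Set (Set X)} (hF : ∀ g ∈ B, ∀ h ∈ F, g • h ∈ F)
    {g : G} {x : X} : g ∈ stb B F x ↔ g ∈ B ∧ g • x ∈ region F x := by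
  unfold stb
  rw [Subgroup.mem_inf, MulAction.mem_stabilizer_iff]
  constructor
  · rintro ⟨hg, h⟩
    refine ⟨hg, ?_⟩
    rw [← h]
    exact Set.smul_mem_smul_set (mem_region_self F x)
  · rintro ⟨hg, h⟩
    refine ⟨hg, ?_⟩
    ext z
    rw [Set.mem_smul_set_iff_inv_smul_mem]
    have := smul_mem_region hF hg (x := x) (y := g⁻¹ • z)
    rw [smul_inv_smul] at this
    rw [← this, region_eq h]

theorem side_smul {B : Subgroup G} {F : Set (Set X)} (hF : ∀ g ∈ B, ∀ h ∈ F, g • h ∈ F)
    {g : G} (hg : g ∈ B) (x : X) : side F (g • x) = g • side F x := by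
  ext w
  rw [Set.mem_smul_set_iff_inv_smul_mem]
  constructor
  · rintro ⟨hw, hx⟩
    exact ⟨hF g⁻¹ (B.inv_mem hg) w hw, by rwa [Set.mem_inv_smul_set_iff]⟩
  · rintro ⟨hw, hx⟩
    refine ⟨?_, by rwa [Set.mem_inv_smul_set_iff] at hx⟩
    have := hF g hg _ hw
    rwa [smul_inv_smul] at this

/-- a path between points of a region stays in the region -/
theorem path_mem_region {S : Sys G X} {F : Set (Set X)} (hF : F ⊆ S.HS) {m : ℕ} {p : ℕ → X}
    (hp : ∀ h ∈ S.HS, ∀ i j k, i ≤ j → j ≤ k → k ≤ m → (p i ∈ h ↔ p k ∈ h) →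
      (p j ∈ h ↔ p i ∈ h)) {x : X} (h0 : p 0 ∈ region F x) (hm : p m ∈ region F x) {j : ℕ}
    (hj : j ≤ m) : p j ∈ region F x := by
  intro w hw
  have h1 := hp w (hF hw) 0 j m (Nat.zero_le _) hj le_rfl ((h0 w hw).trans (hm w hw).symm)
  exact h1.trans (h0 w hw)

end Pool.Agent.Lib.MP_247fd6_al
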