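import Pool.Agent.Lib.MP_247fd6_al.Defs

/-! Basic facts on Poincare series and exponents. -/

set_option autoImplicit false

open scoped Pointwise ENNReal

namespace Pool.Agent.Lib.MP_247fd6_al

variable {G X : Type} [Group G] [MulAction G X]

/-- comparison of the terms for two pairs of points -/
theorem CA2_term_le (S : Sys G X) (t : ℝ) (x y x' y' : X) (g : G) :
    ENNReal.ofReal (Real.exp (-(t * S.d x' (g • y')))) ≤
      ENNReal.ofReal (Real.exp (|t| * (S.d x x' + S.d y y'))) *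
        ENNReal.ofReal (Real.exp (-(t * S.d x (g • y)))) := by
  rw [← ENNReal.ofReal_mul (Real.exp_pos _).le, ← Real.exp_add]
  apply ENNReal.ofReal_le_ofReal
  apply Real.exp_le_exp.2
  have h1 := S.tri x x' (g • y)
  have h2 := S.tri x' (g • y') (g • y)
  have h3 := S.tri x' x (g • y')
  have h4 := S.tri x (g • y) (g • y')
  have h5 := S.inv g y y'
  have h6 := S.inv g y' y
  have h7 := S.symm x x'
  have h8 := S.symm y y'
  have hab : |S.d x (g • y) - S.d x' (g • y')| ≤ S.d x x' + S.d y y' := by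
    rw [abs_le]
    constructor <;> linarith
  have h9 : t * (S.d x (g • y) - S.d x' (g • y')) ≤ |t| * (S.d x x' + S.d y y') := by
    calc t * (S.d x (g • y) - S.d x' (g • y')) ≤ |t * (S.d x (g • y) - S.d x' (g • y'))| :=
          le_abs_self _
      _ = |t| * |S.d x (g • y) - S.d x' (g • y')| := abs_mul _ _
      _ ≤ _ := mul_le_mul_of_nonneg_left hab (abs_nonneg t)
  linarith

theorem CA2_PS_le (S : Sys G X) (L : Subgroup G) (t : ℝ) (x y x' y' : X) :
    PS S L t x' y' ≤ ENNReal.ofReal (Real.exp (|t| * (S.d x x' + S.d y y'))) * PS S L t x y := by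
  unfold PS
  rw [← ENNReal.tsum_mul_left]
  exact ENNReal.tsum_le_tsum fun g => CA2_term_le S t x y x' y' g

theorem Cv.of_one (S : Sys G X) {L : Subgroup G} {t : ℝ} {x y : X} (h : PS S L t x y ≠ ⊤) :
    Cv S L t := by
  intro x' y'
  exact ne_top_of_le_ne_top (ENNReal.mul_ne_top ENNReal.ofReal_ne_top h)
    (CA2_PS_le S L t x y x' y')

theorem Cv.mono_exp {S : Sys G X} {L : Subgroup G} {t t' : ℝ} (h : Cv S L t) (ht : t ≤ t') :
    Cv S L t' := by
  intro x y
  refine ne_top_of_le_ne_top (h x y) ?_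
  unfold PS
  refine ENNReal.tsum_le_tsum fun g => ?_
  apply ENNReal.ofReal_le_ofReal
  apply Real.exp_le_exp.2
  have := mul_le_mul_of_nonneg_right ht (S.nonneg x ((g : G) • y))
  linarith

theorem Cv.mono {S : Sys G X} {L L' : Subgroup G} {t : ℝ} (h : Cv S L t) (hL : L' ≤ L) :
    Cv S L' t := by
  intro x y
  refine ne_top_of_le_ne_top (h x y) ?_
  unfold PS
  exact ENNReal.tsum_comp_le_tsum_of_injective (Subgroup.inclusion_injective hL)
    (fun g : L => ENNReal.ofReal (Real.exp (-(t * S.d x ((g : G) • y)))))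

theorem Cv.of_finite (S : Sys G X) {L : Subgroup G} (h : (L : Set G).Finite) (t : ℝ) :
    Cv S L t := by
  intro x y
  unfold PS
  have : Finite L := h.to_subtype
  have := Fintype.ofFinite L
  rw [tsum_fintype]
  exact ENNReal.sum_ne_top.2 fun _ _ => ENNReal.ofReal_ne_top

theorem Cv.of_finiteIndex {S : Sys G X} {A B : Subgroup G} (hB : B.FiniteIndex) {t : ℝ}
    (h : Cv S (B ⊓ A) t) : Cv S A t := by
  classical
  intro x y
  -- the subgroup `B ⊓ A` of `A`
  set C : Subgroup A := B.subgroupOf A with hC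
  have : C.FiniteIndex := by
    rw [hC]
    infer_instance
  have : Finite (A ⧸ C) := Subgroup.finite_quotient_of_finiteIndex
  have := Fintype.ofFinite (A ⧸ C)
  -- every `g` in `A` is `(out q)⁻¹`-translate
  unfold PS
  -- use inverses: `g⁻¹ = out (q) * c`
  let φ : A → (A ⧸ C) × ↥(B ⊓ A) := fun g =>
    (QuotientGroup.mk g⁻¹, ⟨(g : G) * ((Quotient.out (QuotientGroup.mk g⁻¹ : A ⧸ C) : A) : G), by
      have h1 : (QuotientGroup.mk (Quotient.out (QuotientGroup.mk g⁻¹ : A ⧸ C)) : A ⧸ C) =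
          QuotientGroup.mk g⁻¹ := Quotient.out_eq _
      have h2 := QuotientGroup.eq.1 h1.symm
      rw [inv_inv, hC, Subgroup.mem_subgroupOf] at h2
      exact ⟨h2, (g * Quotient.out (QuotientGroup.mk g⁻¹ : A ⧸ C)).2⟩⟩)
  have hφ : Function.Injective φ := by
    intro g g' hgg
    have h1 : (QuotientGroup.mk g⁻¹ : A ⧸ C) = QuotientGroup.mk g'⁻¹ := congrArg Prod.fst hgg
    have h2 : (g : G) * ((Quotient.out (QuotientGroup.mk g⁻¹ : A ⧸ C) : A) : G) =
        (g' : G) * ((Quotient.out (QuotientGroup.mk g'⁻¹ : A ⧸ C) : A) : G) :=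
      congrArg (fun z => ((z.2 : ↥(B ⊓ A)) : G)) hgg
    rw [h1] at h2
    exact Subtype.ext (mul_right_cancel h2)
  let F : (A ⧸ C) × ↥(B ⊓ A) → ℝ≥0∞ := fun z =>
    ENNReal.ofReal (Real.exp (-(t * S.d x ((z.2 : G) • (((Quotient.out z.1 : A) : G)⁻¹ • y)))))
  have hF : ∀ g : A, ENNReal.ofReal (Real.exp (-(t * S.d x ((g : G) • y)))) = F (φ g) := by
    intro g
    change _ = ENNReal.ofReal (Real.exp (-(t * S.d x
      (((g : G) * ((Quotient.out (QuotientGroup.mk g⁻¹ : A ⧸ C) : A) : G)) •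
        (((Quotient.out (QuotientGroup.mk g⁻¹ : A ⧸ C) : A) : G)⁻¹ • y)))))
    rw [smul_smul, mul_assoc, mul_inv_cancel, mul_one]
  simp_rw [hF]
  refine ne_top_of_le_ne_top ?_ (ENNReal.tsum_comp_le_tsum_of_injective hφ F)
  have hprod : ∑' z, F z = ∑' (q : A ⧸ C) (b : ↥(B ⊓ A)), F (q, b) :=
    ENNReal.tsum_prod (f := fun q b => F (q, b))
  rw [hprod, tsum_fintype]
  refine ENNReal.sum_ne_top.2 fun q _ => ?_
  exact h x (((Quotient.out q : A) : G)⁻¹ • y)

theorem ex_nonneg (S : Sys G X) (L : Subgroup G) : 0 ≤ ex S L := by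
  unfold ex
  exact Real.sInf_nonneg fun t ht => ht.1

theorem Cv.of_ex_lt {S : Sys G X} {L : Subgroup G} (hL : ∃ t, Cv S L t) {t : ℝ}
    (ht : ex S L < t) : Cv S L t := by
  obtain ⟨t₀, h₀⟩ := hL
  have hne : {t : ℝ | 0 ≤ t ∧ Cv S L t}.Nonempty :=
    ⟨max t₀ 0, le_max_right _ _, h₀.mono_exp (le_max_left _ _)⟩
  obtain ⟨s, hs, hst⟩ := exists_lt_of_csInf_lt hne ht
  exact hs.2.mono_exp hst.le

theorem not_Cv_of_lt_ex {S : Sys G X} {L : Subgroup G} {t : ℝ}
    (ht : t < ex S L) : 0 ≤ t → ¬ Cv S L t := by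
  intro h0 hc
  have : ex S L ≤ t := csInf_le ⟨0, fun s hs => hs.1⟩ ⟨h0, hc⟩
  linarith

theorem lt_ex_of_not_Cv {S : Sys G X} {L : Subgroup G} (hL : ∃ t, Cv S L t) {a s : ℝ}
    (has : a < s) (h : ¬ Cv S L s) : a < ex S L := by
  by_contra hc
  exact h (Cv.of_ex_lt hL (by linarith))

theorem ex_lt_of_Cv {S : Sys G X} {L : Subgroup G} {b t : ℝ} (ht : 0 ≤ t) (htb : t < b)
    (h : Cv S L t) : ex S L < b :=
  lt_of_le_of_lt (csInf_le ⟨0, fun _ hs => hs.1⟩ ⟨ht, h⟩) htb

end Pool.Agent.Lib.MP_247fd6_al
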