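import Pool.Agent.Lib.MP_247fd6_al.CA1

/-! The centre of a triangle. -/

set_option autoImplicit false

open scoped Pointwise ENNReal

namespace Pool.Agent.Lib.MP_247fd6_al

variable {G X : Type} [Group G] [MulAction G X]

theorem CB1_dist (S : Sys G X) (o : X) (g h : G) :
    S.d o ((g⁻¹ * h) • o) = S.d (g • o) (h • o) := by
  rw [← S.inv g o ((g⁻¹ * h) • o), smul_smul, mul_inv_cancel_left]

/-- a point near the path from `o` to `h o` at distance about `r` from `o` -/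
theorem exists_center (S : Sys G X) (E : Amb S) {h : G} (hh : h ∈ E.A) {r : ℝ} (hr : 0 ≤ r)
    (hr' : r ≤ S.d E.o (h • E.o)) :
    ∃ q ∈ E.A, ∀ g ∈ E.A,
      2 * r ≤ S.d E.o (g • E.o) + S.d E.o (h • E.o) - S.d E.o ((g⁻¹ * h) • E.o) →
      S.d E.o (g • E.o) + S.d E.o (h • E.o) - S.d E.o ((g⁻¹ * h) • E.o) ≤ 2 * (r + 1) →
      S.d E.o ((q⁻¹ * g) • E.o) ≤
        (S.d E.o (g • E.o) - S.d E.o (h • E.o) + S.d E.o ((g⁻¹ * h) • E.o)) / 2 +
          (S.C₀ + 1 + S.δ + E.D) := by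
  classical
  obtain ⟨m, p, h0, hm, hstep, hadd, hcv⟩ := S.path E.o (h • E.o)
  have hex : ∃ j, j ≤ m ∧ r ≤ S.d E.o (p j) := ⟨m, le_rfl, by rw [hm]; exact hr'⟩
  obtain ⟨hjm, hjr⟩ := Nat.find_spec hex
  set j := Nat.find hex with hj
  have hjup : S.d E.o (p j) ≤ r + S.C₀ := by
    rcases Nat.eq_zero_or_pos j with h1 | h1
    · rw [h1, h0, S.self]
      linarith [S.hC₀]
    · have hlt : S.d E.o (p (j - 1)) < r := by
        by_contra hcon
        push Not at hcon
        exact Nat.find_min hex (show j - 1 < Nat.find hex by omega) ⟨by omega, hcon⟩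
      have hs := hstep (j - 1) (by omega)
      rw [Nat.sub_add_cancel h1] at hs
      have := S.tri E.o (p (j - 1)) (p j)
      linarith
  have hreg : p j ∈ region E.F E.o := by
    apply path_mem_region E.sub hcv _ _ hjm
    · rw [h0]; exact mem_region_self _ _
    · rw [hm]; exact E.inv h hh _ (mem_region_self _ _)
  obtain ⟨q, hqA, hq⟩ := E.dense (p j) hreg
  refine ⟨q, hqA, fun g hg h1 h2 => ?_⟩
  rw [CB1_dist S E.o g h] at h1 h2 ⊢
  rw [CB1_dist S E.o q g]
  have hadd' := hadd 0 j m (Nat.zero_le _) hjm le_rfl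
  rw [h0, hm] at hadd'
  have hyp := S.hyp E.o (g • E.o) (h • E.o) (p j)
  have t1 := S.tri (q • E.o) (p j) (g • E.o)
  rw [S.symm (q • E.o) (p j), S.symm (p j) (g • E.o)] at t1
  have s1 : S.d (h • E.o) (p j) = S.d (p j) (h • E.o) := S.symm _ _
  rw [s1] at hyp
  have hmax : max (S.d E.o (g • E.o) + S.d (p j) (h • E.o))
      (S.d (g • E.o) (h • E.o) + S.d E.o (p j)) ≤
      (S.d E.o (g • E.o) + S.d (g • E.o) (h • E.o) + S.d E.o (h • E.o)) / 2 + 1 + S.C₀ := by
    apply max_le <;> linarith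
  linarith

end Pool.Agent.Lib.MP_247fd6_al
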