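import Pool.Agent.Lib.MP_247fd6_al.CB1

/-! One convolution. -/

set_option autoImplicit false

open scoped Pointwise ENNReal

namespace Pool.Agent.Lib.MP_247fd6_al

variable {G X : Type} [Group G] [MulAction G X]

theorem CB2_geom {η : ℝ} (hη : 0 < η) (n : ℕ) :
    ∑ r ∈ Finset.range (n + 1), Real.exp (η * (r + 1)) ≤
      Real.exp (η * (n + 1)) * (1 / (1 - Real.exp (-η))) := by
  have h1 : Real.exp (-η) < 1 := by
    rw [Real.exp_lt_one_iff]; linarith
  have hC : 1 / (1 - Real.exp (-η)) = 1 + Real.exp (-η) * (1 / (1 - Real.exp (-η))) := by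
    have : 1 - Real.exp (-η) ≠ 0 := by linarith
    field_simp
    ring
  have hCpos : 0 < 1 / (1 - Real.exp (-η)) := by
    apply one_div_pos.mpr; linarith
  induction n with
  | zero =>
    rw [hC]
    simp only [zero_add, Finset.range_one, Finset.sum_singleton, Nat.cast_zero]
    have := mul_nonneg (Real.exp_nonneg (-η)) hCpos.le
    nlinarith [Real.exp_pos (η * 1), mul_nonneg (Real.exp_nonneg (η * 1)) this]
  | succ n ih =>
    rw [Finset.sum_range_succ, hC]
    have h2 : Real.exp (η * ((n + 1 : ℕ) + 1)) * Real.exp (-η) = Real.exp (η * (n + 1)) := by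
      rw [← Real.exp_add]; congr 1; push_cast; ring
    calc _ ≤ Real.exp (η * (n + 1)) * (1 / (1 - Real.exp (-η))) +
          Real.exp (η * ((n + 1 : ℕ) + 1)) := by
          gcongr
      _ = _ := by
          rw [← h2]; ring

theorem CB2_tri1 (S : Sys G X) (o : X) (g h : G) :
    S.d o ((g⁻¹ * h) • o) ≤ S.d o (g • o) + S.d o (h • o) := by
  have h1 : S.d o ((g⁻¹ * h) • o) = S.d (g • o) (h • o) := by
    rw [← S.inv g o ((g⁻¹ * h) • o), smul_smul, mul_inv_cancel_left]
  rw [h1]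
  have := S.tri (g • o) o (h • o)
  rw [S.symm (g • o) o] at this
  exact this

theorem CB2_tri2 (S : Sys G X) (o : X) (g h : G) :
    S.d o (g • o) ≤ S.d o ((g⁻¹ * h) • o) + S.d o (h • o) := by
  have h1 : S.d o ((g⁻¹ * h) • o) = S.d (g • o) (h • o) := by
    rw [← S.inv g o ((g⁻¹ * h) • o), smul_smul, mul_inv_cancel_left]
  rw [h1]
  have := S.tri o (h • o) (g • o)
  rw [S.symm (h • o) (g • o)] at this
  linarith

theorem conv_one (S : Sys G X) (E : Amb S) {t η : ℝ} (hη : 0 < η) (ht : 0 ≤ 2 * t - η)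
    (hc : Cv S E.A (2 * t - η)) :
    ∃ K : ℝ≥0∞, K ≠ ⊤ ∧ ∀ h : G,
      ∑' g, wt S E.A E.o (t - η) g * wt S E.A E.o t (g⁻¹ * h) ≤ K * wt S E.A E.o (t - η) h := by
  classical
  set P : ℝ≥0∞ := ∑' y : G, wt S E.A E.o (2 * t - η) y with hP
  set c₁ : ℝ := S.C₀ + 1 + S.δ + E.D with hc₁
  set C : ℝ := 1 / (1 - Real.exp (-η)) with hC
  have hCpos : 0 < C := by
    have h1 : Real.exp (-η) < 1 := by
      rw [Real.exp_lt_one_iff]; linarith
    apply one_div_pos.mpr; linarith
  have hPfin : P ≠ ⊤ := by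
    have h1 := hc E.o E.o
    have h2 : P = PS S E.A (2 * t - η) E.o E.o := by
      rw [hP, PS]
      have := tsum_subtype (E.A : Set G)
        (fun g : G => ENNReal.ofReal (Real.exp (-((2 * t - η) * S.d E.o (g • E.o)))))
      rw [show (∑' g : E.A, ENNReal.ofReal (Real.exp (-((2 * t - η) * S.d E.o ((g : G) • E.o)))))
        = _ from this]
      rfl
    rw [h2]; exact h1
  refine ⟨ENNReal.ofReal (C * Real.exp (η + (2 * t - η) * c₁)) * P,
    ENNReal.mul_ne_top ENNReal.ofReal_ne_top hPfin, fun h => ?_⟩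
  by_cases hh : h ∈ E.A
  swap
  · have h0 : ∀ g, wt S E.A E.o (t - η) g * wt S E.A E.o t (g⁻¹ * h) = 0 := by
      intro g
      by_cases hg : g ∈ E.A
      · have : g⁻¹ * h ∉ E.A := by
          intro h3
          exact hh (by simpa using E.A.mul_mem hg h3)
        simp [wt, this]
      · simp [wt, hg]
    simp [h0]
  set c : ℝ := S.d E.o (h • E.o) with hcdef
  have hc0 : 0 ≤ c := S.nonneg _ _
  have hq : ∀ r : ℕ, ∃ q : G, (r : ℝ) ≤ c → (q ∈ E.A ∧ ∀ g ∈ E.A,
      2 * (r : ℝ) ≤ S.d E.o (g • E.o) + S.d E.o (h • E.o) - S.d E.o ((g⁻¹ * h) • E.o) →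
      S.d E.o (g • E.o) + S.d E.o (h • E.o) - S.d E.o ((g⁻¹ * h) • E.o) ≤ 2 * ((r : ℝ) + 1) →
      S.d E.o ((q⁻¹ * g) • E.o) ≤
        (S.d E.o (g • E.o) - S.d E.o (h • E.o) + S.d E.o ((g⁻¹ * h) • E.o)) / 2 + c₁) := by
    intro r
    by_cases hr : (r : ℝ) ≤ c
    · obtain ⟨q, hqA, hq⟩ := exists_center S E hh (Nat.cast_nonneg r) hr
      exact ⟨q, fun _ => ⟨hqA, hq⟩⟩
    · exact ⟨1, fun h => absurd h hr⟩
  choose q hq using hq
  set rr : G → ℕ := fun g =>
    ⌊(S.d E.o (g • E.o) + c - S.d E.o ((g⁻¹ * h) • E.o)) / 2⌋₊ with hrr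
  set φ : G → ℕ × G := fun g => (rr g, (q (rr g))⁻¹ * g) with hφ
  have hφinj : Function.Injective φ := by
    intro g g' hgg
    simp only [hφ, Prod.mk.injEq] at hgg
    obtain ⟨h1, h2⟩ := hgg
    rw [h1] at h2
    exact mul_left_cancel h2
  set F : ℕ × G → ℝ≥0∞ := fun p =>
    (if p.1 ∈ Finset.range (⌊c⌋₊ + 1) then
      ENNReal.ofReal (Real.exp (η * ((p.1 : ℝ) + 1))) else 0) *
      (ENNReal.ofReal (Real.exp (-(t * c) + (2 * t - η) * c₁)) *
        wt S E.A E.o (2 * t - η) p.2) with hF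
  have hterm : ∀ g, wt S E.A E.o (t - η) g * wt S E.A E.o t (g⁻¹ * h) ≤ F (φ g) := by
    intro g
    by_cases hg : g ∈ E.A
    swap
    · simp [wt, hg]
    have hgh : g⁻¹ * h ∈ E.A := E.A.mul_mem (E.A.inv_mem hg) hh
    set a := S.d E.o (g • E.o) with ha
    set b := S.d E.o ((g⁻¹ * h) • E.o) with hb
    have t1 : b ≤ a + c := CB2_tri1 S E.o g h
    have t2 : a ≤ b + c := CB2_tri2 S E.o g h
    have hr0 : 0 ≤ (a + c - b) / 2 := by linarith
    have hr1 : (rr g : ℝ) ≤ (a + c - b) / 2 := Nat.floor_le hr0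
    have hr2 : (a + c - b) / 2 < (rr g : ℝ) + 1 := Nat.lt_floor_add_one _
    have hrc : (rr g : ℝ) ≤ c := by linarith
    obtain ⟨hqA, hq'⟩ := hq (rr g) hrc
    have hy := hq' g hg (by linarith) (by linarith)
    have hmem : (q (rr g))⁻¹ * g ∈ E.A := E.A.mul_mem (E.A.inv_mem hqA) hg
    have hrange : rr g ∈ Finset.range (⌊c⌋₊ + 1) := by
      rw [Finset.mem_range, Nat.lt_succ_iff]
      exact Nat.le_floor hrc
    simp only [hF, hφ]
    rw [if_pos hrange]
    simp only [wt, if_pos hg, if_pos hgh, if_pos hmem]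
    rw [← ENNReal.ofReal_mul (Real.exp_nonneg _), ← ENNReal.ofReal_mul (Real.exp_nonneg _),
      ← ENNReal.ofReal_mul (Real.exp_nonneg _), ← Real.exp_add, ← Real.exp_add, ← Real.exp_add]
    apply ENNReal.ofReal_le_ofReal
    apply Real.exp_le_exp.mpr
    set y := S.d E.o (((q (rr g))⁻¹ * g) • E.o) with hyd
    have h5 : (2 * t - η) * y ≤ (2 * t - η) * ((a - c + b) / 2 + c₁) :=
      mul_le_mul_of_nonneg_left hy ht
    have h6 : η * ((a + c - b) / 2) ≤ η * ((rr g : ℝ) + 1) :=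
      mul_le_mul_of_nonneg_left hr2.le hη.le
    nlinarith [h5, h6]
  calc ∑' g, wt S E.A E.o (t - η) g * wt S E.A E.o t (g⁻¹ * h)
      ≤ ∑' g, F (φ g) := ENNReal.tsum_le_tsum hterm
    _ ≤ ∑' p, F p := ENNReal.tsum_comp_le_tsum_of_injective hφinj F
    _ = (∑' r : ℕ, (if r ∈ Finset.range (⌊c⌋₊ + 1) then
          ENNReal.ofReal (Real.exp (η * ((r : ℝ) + 1))) else 0)) *
        (ENNReal.ofReal (Real.exp (-(t * c) + (2 * t - η) * c₁)) * P) := by
        rw [ENNReal.tsum_prod']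
        simp only [hF]
        rw [← ENNReal.tsum_mul_right]
        congr 1
        ext r
        rw [ENNReal.tsum_mul_left, ENNReal.tsum_mul_left]
    _ ≤ ENNReal.ofReal (Real.exp (η * (c + 1)) * C) *
        (ENNReal.ofReal (Real.exp (-(t * c) + (2 * t - η) * c₁)) * P) := by
        gcongr
        rw [tsum_eq_sum (s := Finset.range (⌊c⌋₊ + 1)) (by
          intro r hr; rw [if_neg hr])]
        rw [Finset.sum_congr rfl (g := fun r : ℕ =>
          ENNReal.ofReal (Real.exp (η * ((r : ℝ) + 1)))) (by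
            intro r hr; rw [if_pos hr])]
        rw [← ENNReal.ofReal_sum_of_nonneg (fun i _ => Real.exp_nonneg _)]
        apply ENNReal.ofReal_le_ofReal
        refine (CB2_geom hη _).trans ?_
        gcongr
        exact Nat.floor_le hc0
    _ = _ := by
        simp only [wt, if_pos hh]
        rw [← mul_assoc, ← ENNReal.ofReal_mul (by positivity),
          mul_right_comm (ENNReal.ofReal (C * _)), ← ENNReal.ofReal_mul (by positivity)]
        congr 2
        have e1 : Real.exp (η * (c + 1)) * C * Real.exp (-(t * c) + (2 * t - η) * c₁) =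
            C * (Real.exp (η * (c + 1)) * Real.exp (-(t * c) + (2 * t - η) * c₁)) := by ring
        rw [e1, mul_assoc C, ← Real.exp_add, ← Real.exp_add, ← hcdef]
        congr 2
        ring

end Pool.Agent.Lib.MP_247fd6_al
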