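import Pool.Agent.Lib.MP_247fd6_al.CB2

/-! Convolution powers of `exp (-t d)`. -/

set_option autoImplicit false

open scoped Pointwise ENNReal

namespace Pool.Agent.Lib.MP_247fd6_al

variable {G X : Type} [Group G] [MulAction G X]

theorem CB3_wt_le (S : Sys G X) (A : Subgroup G) (o : X) {t s : ℝ} (hst : s ≤ t) (g : G) :
    wt S A o t g ≤ wt S A o s g := by
  classical
  unfold wt
  split_ifs
  · apply ENNReal.ofReal_le_ofReal
    apply Real.exp_le_exp.mpr
    have := mul_le_mul_of_nonneg_right hst (S.nonneg o (g • o))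
    linarith
  · exact le_refl _

theorem conv_pow (S : Sys G X) (E : Amb S) {t η : ℝ} (hη : 0 < η) (ht : 0 ≤ 2 * t - η)
    (h : Cv S E.A (2 * t - η)) :
    ∃ K : ℝ≥0∞, K ≠ 0 ∧ K ≠ ⊤ ∧
      ∀ n g, cpow S E.A E.o t n g ≤ K ^ (n + 1) * wt S E.A E.o (t - η) g := by
  obtain ⟨K', hK', hconv⟩ := conv_one S E hη ht h
  have h1 : (1 : ℝ≥0∞) ≤ max 1 K' := le_max_left _ _
  refine ⟨max 1 K', (zero_lt_one.trans_le h1).ne', by simp [hK'], fun n => ?_⟩
  induction n with
  | zero =>
    intro g
    simp only [cpow, zero_add, pow_one]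
    calc wt S E.A E.o t g ≤ wt S E.A E.o (t - η) g := CB3_wt_le S E.A E.o (by linarith) g
      _ ≤ _ := le_mul_of_one_le_left' h1
  | succ n ih =>
    intro x
    simp only [cpow]
    calc ∑' g, cpow S E.A E.o t n g * wt S E.A E.o t (g⁻¹ * x)
        ≤ ∑' g, (max 1 K') ^ (n + 1) *
            (wt S E.A E.o (t - η) g * wt S E.A E.o t (g⁻¹ * x)) := by
          apply ENNReal.tsum_le_tsum
          intro g
          rw [← mul_assoc]
          exact mul_le_mul_left (ih g) _
      _ = (max 1 K') ^ (n + 1) *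
            ∑' g, (wt S E.A E.o (t - η) g * wt S E.A E.o t (g⁻¹ * x)) := ENNReal.tsum_mul_left
      _ ≤ (max 1 K') ^ (n + 1) * (max 1 K' * wt S E.A E.o (t - η) x) := by
          gcongr
          exact (hconv x).trans (by gcongr; exact le_max_right _ _)
      _ = _ := by
          rw [← mul_assoc, ← pow_succ]

end Pool.Agent.Lib.MP_247fd6_al
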