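import Pool.Agent.Lib.MP_247fd6_al.Defs

/-! Norms of invariant kernels: elementary facts. -/

set_option autoImplicit false

open scoped Pointwise ENNReal

namespace Pool.Agent.Lib.MP_247fd6_al

variable {Λ Z : Type} [Group Λ] [MulAction Λ Z]

theorem oi_inv (z' : Z) (l : Λ) (z : Z) : oi Λ z' (l • z) = oi Λ z' z := by
  unfold oi
  have h : l • z ∈ MulAction.orbit Λ z' ↔ z ∈ MulAction.orbit Λ z' := by
    constructor
    · intro h
      have h2 := MulAction.mem_orbit_of_mem_orbit l⁻¹ h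
      rwa [inv_smul_smul] at h2
    · intro h
      exact MulAction.mem_orbit_of_mem_orbit l h
  by_cases hz : z ∈ MulAction.orbit Λ z'
  · rw [if_pos hz, if_pos (h.2 hz)]
  · rw [if_neg hz, if_neg (fun hh => hz (h.1 hh))]

theorem op_inv {k : Z → Z → ℝ≥0∞} (hinv : ∀ (l : Λ) z z', k (l • z) (l • z') = k z z')
    {ξ : Z → ℝ≥0∞} (hξ : ∀ (l : Λ) (z : Z), ξ (l • z) = ξ z) (l : Λ) (z : Z) :
    op k ξ (l • z) = op k ξ z := by
  unfold op
  rw [← (MulAction.toPerm l).tsum_eq]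
  refine tsum_congr fun z' => ?_
  rw [MulAction.toPerm_apply, hinv, hξ]

theorem sqn_mono {ξ ζ : Z → ℝ≥0∞} (h : ∀ z, ξ z ≤ ζ z) : sqn Λ ξ ≤ sqn Λ ζ := by
  unfold sqn
  refine ENNReal.tsum_le_tsum fun i => ?_
  gcongr
  exact h _

theorem NormLe.comp {T T' : (Z → ℝ≥0∞) → (Z → ℝ≥0∞)} {κ κ' : ℝ≥0∞} (h : NormLe Λ T κ)
    (h' : NormLe Λ T' κ') : NormLe Λ (fun ξ => T (T' ξ)) (κ * κ') := by
  intro ξ hξ
  obtain ⟨h1, h2⟩ := h' ξ hξ
  obtain ⟨h3, h4⟩ := h (T' ξ) h1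
  refine ⟨h3, h4.trans ?_⟩
  calc κ ^ 2 * sqn Λ (T' ξ) ≤ κ ^ 2 * (κ' ^ 2 * sqn Λ ξ) := by gcongr
    _ = (κ * κ') ^ 2 * sqn Λ ξ := by ring

theorem NormLe.of_le {k k' : Z → Z → ℝ≥0∞} {κ c : ℝ≥0∞} (h : NormLe Λ (op k) κ)
    (hk : ∀ z z', k' z z' ≤ c * k z z') (hinv : ∀ (l : Λ) z z', k' (l • z) (l • z') = k' z z') :
    NormLe Λ (op k') (c * κ) := by
  intro ξ hξ
  refine ⟨fun l z => op_inv hinv hξ l z, ?_⟩
  have h1 : ∀ z, op k' ξ z ≤ c * op k ξ z := by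
    intro z
    unfold op
    rw [← ENNReal.tsum_mul_left]
    refine ENNReal.tsum_le_tsum fun z' => ?_
    rw [← mul_assoc]
    gcongr
    exact hk z z'
  calc sqn Λ (op k' ξ) ≤ sqn Λ (fun z => c * op k ξ z) := sqn_mono h1
    _ = c ^ 2 * sqn Λ (op k ξ) := by
        unfold sqn
        rw [← ENNReal.tsum_mul_left]
        exact tsum_congr fun i => by rw [mul_pow]
    _ ≤ c ^ 2 * (κ ^ 2 * sqn Λ ξ) := by gcongr; exact (h ξ hξ).2
    _ = (c * κ) ^ 2 * sqn Λ ξ := by ring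

lemma CC1_out (z : Z) : ∃ l : Λ,
    l • z = Quotient.out (Quotient.mk (MulAction.orbitRel Λ Z) z) := by
  have h1 : (MulAction.orbitRel Λ Z) (Quotient.out (Quotient.mk (MulAction.orbitRel Λ Z) z)) z :=
    Quotient.mk_out z
  rw [MulAction.orbitRel_apply] at h1
  exact h1

lemma CC1_inv_out {ξ : Z → ℝ≥0∞} (hξ : ∀ (l : Λ) (z : Z), ξ (l • z) = ξ z) (z : Z) :
    ξ (Quotient.out (Quotient.mk (MulAction.orbitRel Λ Z) z)) = ξ z := by
  obtain ⟨l, hl⟩ := CC1_out (Λ := Λ) z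
  rw [← hl, hξ]

/-- composition with an equivariant involution -/
theorem NormLe.of_invol (e : Z → Z) (he : ∀ z, e (e z) = z)
    (hel : ∀ (l : Λ) z, e (l • z) = l • e z) : NormLe Λ (fun ξ z => ξ (e z)) 1 := by
  intro ξ hξ
  refine ⟨fun l z => by dsimp only; rw [hel, hξ], ?_⟩
  set E : MulAction.orbitRel.Quotient Λ Z → MulAction.orbitRel.Quotient Λ Z :=
    fun i => Quotient.mk _ (e (Quotient.out i)) with hE
  have hEE : Function.Involutive E := by
    intro i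
    obtain ⟨l, hl⟩ := CC1_out (Λ := Λ) (e (Quotient.out i))
    have h1 : E (E i) = Quotient.mk _ (e (Quotient.out (Quotient.mk (MulAction.orbitRel Λ Z)
      (e (Quotient.out i))))) := rfl
    rw [h1, ← hl, hel, he]
    have h2 : (Quotient.mk (MulAction.orbitRel Λ Z) (l • Quotient.out i)) =
        Quotient.mk (MulAction.orbitRel Λ Z) (Quotient.out i) :=
      Quotient.sound (MulAction.orbitRel_apply.2 ⟨l, rfl⟩)
    rw [h2]
    exact Quotient.out_eq i
  have h3 : sqn Λ (fun z => ξ (e z)) = sqn Λ ξ := by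
    unfold sqn
    rw [← (Function.Involutive.toPerm E hEE).tsum_eq]
    refine tsum_congr fun i => ?_
    have h4 : (Function.Involutive.toPerm E hEE) i
        = Quotient.mk (MulAction.orbitRel Λ Z) (e (Quotient.out i)) := rfl
    obtain ⟨l, hl⟩ := CC1_out (Λ := Λ) (e (Quotient.out i))
    rw [h4, ← hl]
    show ξ (e (l • e (Quotient.out i))) ^ 2 = _
    rw [hel, he, hξ]
  rw [h3, one_pow, one_mul]

theorem NormLe.apply_oi {T : (Z → ℝ≥0∞) → (Z → ℝ≥0∞)}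
    {κ : ℝ≥0∞} (h : NormLe Λ T κ) (z : Z) : T (oi Λ z) z ≤ κ := by
  obtain ⟨h1, h2⟩ := h (oi Λ z) (fun l z' => oi_inv z l z')
  have h3 : sqn Λ (oi Λ z) = 1 := by
    unfold sqn
    rw [tsum_eq_single (Quotient.mk (MulAction.orbitRel Λ Z) z)]
    · rw [CC1_inv_out (fun l z' => oi_inv z l z')]
      unfold oi
      rw [if_pos (MulAction.mem_orbit_self z), one_pow]
    · intro i hi
      unfold oi
      rw [if_neg]
      · simp
      · intro hcon
        apply hi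
        rw [← Quotient.out_eq i]
        exact Quotient.sound (MulAction.orbitRel_apply.2 hcon)
  have h4 : (T (oi Λ z) z) ^ 2 ≤ κ ^ 2 := by
    calc (T (oi Λ z) z) ^ 2
        = T (oi Λ z) (Quotient.out (Quotient.mk (MulAction.orbitRel Λ Z) z)) ^ 2 := by
          rw [CC1_inv_out h1]
      _ ≤ sqn Λ (T (oi Λ z)) :=
          ENNReal.le_tsum (f := fun i : MulAction.orbitRel.Quotient Λ Z =>
            T (oi Λ z) (Quotient.out i) ^ 2) (Quotient.mk (MulAction.orbitRel Λ Z) z)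
      _ ≤ κ ^ 2 * sqn Λ (oi Λ z) := h2
      _ = κ ^ 2 := by rw [h3, mul_one]
  exact (ENNReal.pow_le_pow_left_iff two_ne_zero).1 h4

end Pool.Agent.Lib.MP_247fd6_al
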