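import Pool.Agent.Lib.MP_247fd6_al.Defs

/-! Norms of symmetric matrices with nonnegative entries: finitely supported vectors. -/

set_option autoImplicit false

open scoped Pointwise ENNReal

namespace Pool.Agent.Lib.MP_247fd6_al

variable {I : Type}

lemma CC2_two_mul (a b : ℝ≥0∞) : 2 * (a * b) ≤ a ^ 2 + b ^ 2 := by
  rcases le_total a b with h | h
  · obtain ⟨c, rfl⟩ := exists_add_of_le h
    calc 2 * (a * (a + c)) ≤ 2 * (a * (a + c)) + c ^ 2 := le_self_add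
      _ = a ^ 2 + (a + c) ^ 2 := by ring
  · obtain ⟨c, rfl⟩ := exists_add_of_le h
    calc 2 * ((b + c) * b) ≤ 2 * ((b + c) * b) + c ^ 2 := le_self_add
      _ = (b + c) ^ 2 + b ^ 2 := by ring

theorem cs_tsum (f g : I → ℝ≥0∞) :
    (∑' i, f i * g i) ^ 2 ≤ (∑' i, f i ^ 2) * ∑' i, g i ^ 2 := by
  have h1 : ∀ u v : I → ℝ≥0∞, (∑' i, u i) * ∑' j, v j = ∑' i, ∑' j, u i * v j := by
    intro u v
    rw [← ENNReal.tsum_mul_right]
    exact tsum_congr fun i => ENNReal.tsum_mul_left.symm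
  have h2 : 2 * (∑' i, f i * g i) ^ 2 ≤ 2 * ((∑' i, f i ^ 2) * ∑' i, g i ^ 2) := by
    calc 2 * (∑' i, f i * g i) ^ 2 = ∑' i, ∑' j, 2 * ((f i * g j) * (f j * g i)) := by
          rw [pow_two, h1, ← ENNReal.tsum_mul_left]
          refine tsum_congr fun i => ?_
          rw [← ENNReal.tsum_mul_left]
          exact tsum_congr fun j => by ring
      _ ≤ ∑' i, ∑' j, ((f i * g j) ^ 2 + (f j * g i) ^ 2) :=
          ENNReal.tsum_le_tsum fun i => ENNReal.tsum_le_tsum fun j => CC2_two_mul _ _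
      _ = (∑' i, ∑' j, f i ^ 2 * g j ^ 2) + ∑' i, ∑' j, g i ^ 2 * f j ^ 2 := by
          rw [← ENNReal.tsum_add]
          refine tsum_congr fun i => ?_
          rw [← ENNReal.tsum_add]
          exact tsum_congr fun j => by ring
      _ = 2 * ((∑' i, f i ^ 2) * ∑' i, g i ^ 2) := by
          rw [← h1, ← h1]
          ring
  rwa [ENNReal.mul_le_mul_iff_right (by norm_num) (by norm_num)] at h2

theorem op_selfadj {a : I → I → ℝ≥0∞} (hs : ∀ i j, a i j = a j i) (f g : I → ℝ≥0∞) :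
    ∑' i, op a f i * g i = ∑' i, f i * op a g i := by
  have h1 : ∑' i, op a f i * g i = ∑' i, ∑' j, a i j * f j * g i :=
    tsum_congr fun i => ENNReal.tsum_mul_right.symm
  have h2 : ∑' i, f i * op a g i = ∑' i, ∑' j, f i * (a i j * g j) :=
    tsum_congr fun i => ENNReal.tsum_mul_left.symm
  rw [h1, h2, ENNReal.tsum_comm]
  refine tsum_congr fun i => tsum_congr fun j => ?_
  rw [hs j i]
  ring

lemma CC2_selfadj_iter {a : I → I → ℝ≥0∞} (hs : ∀ i j, a i j = a j i) (m : ℕ)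
    (f g : I → ℝ≥0∞) : ∑' i, (op a)^[m] f i * g i = ∑' i, f i * (op a)^[m] g i := by
  induction m generalizing f g with
  | zero => rfl
  | succ m ih =>
    rw [Function.iterate_succ_apply, ih, op_selfadj hs, ← Function.iterate_succ_apply' (op a)]

open Classical in
lemma CC2_expand (a : I → I → ℝ≥0∞) (s : Finset I) (c : I → ℝ≥0∞) (hc0 : ∀ i ∉ s, c i = 0)
    (m : ℕ) : (op a)^[m] c
      = fun i => ∑ j ∈ s, (op a)^[m] (fun i' => if i' = j then 1 else 0) i * c j := by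
  induction m with
  | zero =>
    funext i
    simp only [Function.iterate_zero, id_eq, ite_mul, one_mul, zero_mul]
    rw [Finset.sum_ite_eq]
    split_ifs with h
    · rfl
    · exact hc0 i h
  | succ m ih =>
    funext i
    rw [Function.iterate_succ_apply', ih]
    unfold op
    have h1 : ∀ z' : I, a i z' * ∑ j ∈ s,
        (op a)^[m] (fun i' => if i' = j then 1 else 0) z' * c j
        = ∑ j ∈ s, a i z' * (op a)^[m] (fun i' => if i' = j then 1 else 0) z' * c j := by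
      intro z'
      rw [Finset.mul_sum]
      exact Finset.sum_congr rfl fun j _ => by ring
    have h2 : ∑' z' : I, a i z' * ∑ j ∈ s,
        (op a)^[m] (fun i' => if i' = j then 1 else 0) z' * c j
        = ∑ j ∈ s, (∑' z' : I, a i z' *
          (op a)^[m] (fun i' => if i' = j then 1 else 0) z') * c j := by
      rw [tsum_congr h1, Summable.tsum_finsetSum fun j _ => ENNReal.summable]
      exact Finset.sum_congr rfl fun j _ => ENNReal.tsum_mul_right
    refine h2.trans (Finset.sum_congr rfl fun j _ => ?_)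
    rw [Function.iterate_succ_apply']
    rfl

lemma CC2_real {q b N C : ℝ≥0∞} (hb : b ≠ 0) (hb' : b ≠ ⊤) (hq : q ≠ ⊤) (hN : N ≠ 0)
    (hN' : N ≠ ⊤) (hC : C ≠ ⊤) (h : ∀ j : ℕ, q ^ 2 ^ j * N ≤ C * b ^ 2 ^ j) : q ≤ b := by
  by_contra hcon
  push Not at hcon
  lift q to NNReal using hq
  lift b to NNReal using hb'
  lift N to NNReal using hN'
  lift C to NNReal using hC
  have hlt : b < q := by exact_mod_cast hcon
  have hb0 : 0 < b := pos_iff_ne_zero.2 (by exact_mod_cast hb)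
  have hN0 : 0 < N := pos_iff_ne_zero.2 (by exact_mod_cast hN)
  have h' : ∀ j : ℕ, q ^ 2 ^ j * N ≤ C * b ^ 2 ^ j := by
    intro j
    exact_mod_cast h j
  have h1 : 1 < q / b := (one_lt_div hb0).2 hlt
  obtain ⟨j, hj⟩ := pow_unbounded_of_one_lt (C / N) h1
  have h2 : (q / b) ^ j ≤ (q / b) ^ 2 ^ j := pow_le_pow_right₀ h1.le Nat.lt_two_pow_self.le
  have h3 : C / N < (q / b) ^ 2 ^ j := hj.trans_le h2
  rw [div_lt_iff₀ hN0, div_pow, div_mul_eq_mul_div, lt_div_iff₀ (pow_pos hb0 _)] at h3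
  exact absurd (h' j) (not_le.2 h3)

open Classical in
/-- finitely supported vectors -/
theorem mat_norm_fin {a : I → I → ℝ≥0∞} (hs : ∀ i j, a i j = a j i) (κ : ℝ≥0∞) (hκ0 : κ ≠ 0)
    (hκ : κ ≠ ⊤)
    (h : ∀ i j, ∃ C : ℝ≥0∞, C ≠ ⊤ ∧ ∀ m : ℕ,
      (op a)^[m + 1] (fun i' => if i' = j then 1 else 0) i ≤ C * κ ^ (m + 1))
    (s : Finset I) (c : I → ℝ≥0∞) (hc : ∀ i ∈ s, c i ≠ ⊤) (hc0 : ∀ i ∉ s, c i = 0) :
    ∑' i, op a c i ^ 2 ≤ κ ^ 2 * ∑' i, c i ^ 2 := by
  choose C hCt hC using h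
  set N : ℝ≥0∞ := ∑' i, c i ^ 2 with hN
  have hNs : N = ∑ i ∈ s, c i ^ 2 := by
    rw [hN, tsum_eq_sum]
    intro i hi
    rw [hc0 i hi]
    simp
  have hNt : N ≠ ⊤ := by
    rw [hNs]
    exact ENNReal.sum_ne_top.2 fun i hi => ENNReal.pow_ne_top (hc i hi)
  by_cases hN0 : N = 0
  · have hc1 : ∀ i, c i = 0 := by
      intro i
      have := (ENNReal.tsum_eq_zero.1 (hN ▸ hN0)) i
      exact pow_eq_zero_iff (two_ne_zero) |>.1 this
    have : ∀ i, op a c i ^ 2 = 0 := by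
      intro i
      unfold op
      have h0 : ∀ z', a i z' * c z' = 0 := fun z' => by rw [hc1 z', mul_zero]
      rw [tsum_congr h0, tsum_zero]
      simp
    rw [tsum_congr this, tsum_zero]
    exact bot_le
  set q : ℕ → ℝ≥0∞ := fun m => ∑' i, (op a)^[m] c i * c i with hq
  set K : ℝ≥0∞ := ∑ i ∈ s, ∑ j ∈ s, C i j * c j * c i with hK
  have hKt : K ≠ ⊤ := by
    rw [hK]
    refine ENNReal.sum_ne_top.2 fun i hi => ENNReal.sum_ne_top.2 fun j hj => ?_
    exact ENNReal.mul_ne_top (ENNReal.mul_ne_top (hCt i j) (hc j hj)) (hc i hi)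
  have hq1 : ∀ m, q (m + 1) ≤ K * κ ^ (m + 1) := by
    intro m
    have e1 : q (m + 1) = ∑ i ∈ s, (op a)^[m + 1] c i * c i := by
      rw [hq]
      refine tsum_eq_sum ?_
      intro i hi
      rw [hc0 i hi, mul_zero]
    rw [e1, hK, Finset.sum_mul]
    refine Finset.sum_le_sum fun i _ => ?_
    rw [CC2_expand a s c hc0 (m + 1), Finset.sum_mul, Finset.sum_mul]
    refine Finset.sum_le_sum fun j _ => ?_
    calc (op a)^[m + 1] (fun i' => if i' = j then 1 else 0) i * c j * c i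
        ≤ (C i j * κ ^ (m + 1)) * c j * c i := by gcongr; exact hC i j m
      _ = C i j * c j * c i * κ ^ (m + 1) := by ring
  have hq2 : ∀ m, q (m + m) = ∑' i, (op a)^[m] c i ^ 2 := by
    intro m
    rw [hq]
    show ∑' i, (op a)^[m + m] c i * c i = _
    rw [Function.iterate_add_apply, CC2_selfadj_iter hs m]
    exact tsum_congr fun i => by rw [pow_two]
  have hq3 : ∀ m, q m ^ 2 ≤ q (m + m) * N := by
    intro m
    rw [hq2]
    exact cs_tsum _ _
  have hq4 : ∀ j : ℕ, q 2 ^ 2 ^ j * N ≤ q (2 ^ (j + 1)) * N ^ 2 ^ j := by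
    intro j
    induction j with
    | zero => simp
    | succ j ih =>
      have e1 : q 2 ^ 2 ^ (j + 1) * N * N ≤ q (2 ^ (j + 1 + 1)) * N ^ 2 ^ (j + 1) * N := by
        calc q 2 ^ 2 ^ (j + 1) * N * N = (q 2 ^ 2 ^ j * N) ^ 2 := by
              rw [pow_succ 2 j, pow_mul, mul_pow]; ring
          _ ≤ (q (2 ^ (j + 1)) * N ^ 2 ^ j) ^ 2 := by gcongr
          _ = q (2 ^ (j + 1)) ^ 2 * N ^ 2 ^ (j + 1) := by
              rw [pow_succ 2 j, pow_mul, mul_pow]
          _ ≤ (q (2 ^ (j + 1) + 2 ^ (j + 1)) * N) * N ^ 2 ^ (j + 1) := by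
              gcongr
              exact hq3 _
          _ = q (2 ^ (j + 1 + 1)) * N ^ 2 ^ (j + 1) * N := by
              rw [show 2 ^ (j + 1) + 2 ^ (j + 1) = 2 ^ (j + 1 + 1) by ring]
              ring
      exact (ENNReal.mul_le_mul_iff_left hN0 hNt).1 e1
  have hq5 : q 2 = ∑' i, op a c i ^ 2 := hq2 1
  rw [← hq5]
  refine CC2_real (N := N) (C := K) (mul_ne_zero (pow_ne_zero _ hκ0) hN0)
    (ENNReal.mul_ne_top (ENNReal.pow_ne_top hκ) hNt) ?_ hN0 hNt hKt ?_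
  · exact ne_top_of_le_ne_top (ENNReal.mul_ne_top hKt (ENNReal.pow_ne_top hκ)) (hq1 1)
  · intro j
    have e1 : q (2 ^ (j + 1)) ≤ K * κ ^ 2 ^ (j + 1) := by
      obtain ⟨m, hm⟩ : ∃ m, 2 ^ (j + 1) = m + 1 := ⟨2 ^ (j + 1) - 1, by
        have := Nat.one_le_two_pow (n := j + 1)
        omega⟩
      rw [hm]
      exact hq1 m
    calc q 2 ^ 2 ^ j * N ≤ q (2 ^ (j + 1)) * N ^ 2 ^ j := hq4 j
      _ ≤ (K * κ ^ 2 ^ (j + 1)) * N ^ 2 ^ j := by gcongr
      _ = K * (κ ^ 2 * N) ^ 2 ^ j := by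
          rw [mul_pow, ← pow_mul, pow_succ' 2 j]
          ring

end Pool.Agent.Lib.MP_247fd6_al
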