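import Pool.Agent.Lib.MP_247fd6_al.CC2

/-! Norms of symmetric matrices with nonnegative entries. -/

set_option autoImplicit false

open scoped Pointwise ENNReal

namespace Pool.Agent.Lib.MP_247fd6_al

variable {I : Type}

open Classical in
/-- the norm is bounded by the growth of the powers -/
theorem mat_norm {a : I → I → ℝ≥0∞} (hs : ∀ i j, a i j = a j i) (κ : ℝ≥0∞) (hκ0 : κ ≠ 0)
    (hκ : κ ≠ ⊤)
    (h : ∀ i j, ∃ C : ℝ≥0∞, C ≠ ⊤ ∧ ∀ m : ℕ,
      (op a)^[m + 1] (fun i' => if i' = j then 1 else 0) i ≤ C * κ ^ (m + 1))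
    (c : I → ℝ≥0∞) :
    ∑' i, op a c i ^ 2 ≤ κ ^ 2 * ∑' i, c i ^ 2 := by
  by_cases hN : ∑' i, c i ^ 2 = ⊤
  · rw [hN, ENNReal.mul_top (pow_ne_zero 2 hκ0)]
    exact le_top
  have hc : ∀ i, c i ≠ ⊤ := by
    intro i hi
    apply hN
    refine top_le_iff.1 ?_
    calc (⊤ : ℝ≥0∞) = c i ^ 2 := by rw [hi]; simp
      _ ≤ ∑' i, c i ^ 2 := ENNReal.le_tsum i
  have hfin : ∀ s : Finset I, ∑' i, (∑ z ∈ s, a i z * c z) ^ 2 ≤ κ ^ 2 * ∑' i, c i ^ 2 := by
    intro s
    set cs : I → ℝ≥0∞ := fun i => if i ∈ s then c i else 0 with hcs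
    have h1 : ∀ i, op a cs i = ∑ z ∈ s, a i z * c z := by
      intro i
      unfold op
      rw [tsum_eq_sum (s := s)]
      · refine Finset.sum_congr rfl fun z hz => ?_
        rw [hcs]
        simp only [if_pos hz]
      · intro z hz
        rw [hcs]
        simp only [if_neg hz, mul_zero]
    have h2 := mat_norm_fin hs κ hκ0 hκ h s cs (fun i hi => by
      rw [hcs]; simp only [if_pos hi]; exact hc i) (fun i hi => by
      rw [hcs]; simp only [if_neg hi])
    calc ∑' i, (∑ z ∈ s, a i z * c z) ^ 2 = ∑' i, op a cs i ^ 2 :=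
          tsum_congr fun i => by rw [h1]
      _ ≤ κ ^ 2 * ∑' i, cs i ^ 2 := h2
      _ ≤ κ ^ 2 * ∑' i, c i ^ 2 := by
          gcongr with i
          rw [hcs]
          by_cases hi : i ∈ s
          · simp only [if_pos hi]; exact le_refl _
          · simp only [if_neg hi]; exact bot_le
  rw [ENNReal.tsum_eq_iSup_sum]
  refine iSup_le fun t => ?_
  have hlim : Filter.Tendsto (fun s : Finset I => ∑ i ∈ t, (∑ z ∈ s, a i z * c z) ^ 2)
      Filter.atTop (nhds (∑ i ∈ t, op a c i ^ 2)) := by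
    refine tendsto_finsetSum _ fun i _ => ?_
    have h3 : Filter.Tendsto (fun s : Finset I => ∑ z ∈ s, a i z * c z) Filter.atTop
        (nhds (op a c i)) := ENNReal.summable.hasSum
    exact ((ENNReal.continuous_pow 2).tendsto _).comp h3
  refine le_of_tendsto' hlim fun s => ?_
  exact (ENNReal.sum_le_tsum t).trans (hfin s)

end Pool.Agent.Lib.MP_247fd6_al
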