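import Pool.Agent.Lib.MP_247fd6_al.CC1
import Pool.Agent.Lib.MP_247fd6_al.CC3

/-! Norms of invariant kernels: the bound by the growth of the powers. -/

set_option autoImplicit false

open scoped Pointwise ENNReal

namespace Pool.Agent.Lib.MP_247fd6_al

variable {Λ Z : Type} [Group Λ] [MulAction Λ Z]

lemma CC4_mk_out (i : MulAction.orbitRel.Quotient Λ Z) :
    (Quotient.mk _ (Quotient.out i) : MulAction.orbitRel.Quotient Λ Z) = i :=
  Quotient.out_eq i

lemma CC4_mk_smul (l : Λ) (z : Z) :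
    (Quotient.mk _ (l • z) : MulAction.orbitRel.Quotient Λ Z) = Quotient.mk _ z :=
  Quotient.sound (MulAction.orbitRel_apply.2 ⟨l, rfl⟩)

lemma CC4_bij (hfree : ∀ (l : Λ) (z : Z), l • z = z → l = 1) :
    Function.Bijective
      (fun p : MulAction.orbitRel.Quotient Λ Z × Λ => p.2 • Quotient.out p.1) := by
  constructor
  · rintro ⟨i, l⟩ ⟨j, l'⟩ h
    dsimp only at h
    have hij : i = j := by
      rw [← CC4_mk_out i, ← CC4_mk_smul l, h, CC4_mk_smul, CC4_mk_out]
    subst hij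
    have h1 : (l'⁻¹ * l) • Quotient.out i = Quotient.out i := by
      rw [mul_smul, h, inv_smul_smul]
    have h2 := hfree _ _ h1
    rw [inv_mul_eq_one] at h2
    rw [h2]
  · intro z
    have h1 : (MulAction.orbitRel Λ Z) (Quotient.out (Quotient.mk (MulAction.orbitRel Λ Z) z)) z :=
      Quotient.mk_out z
    rw [MulAction.orbitRel_apply] at h1
    obtain ⟨l, hl⟩ := h1
    refine ⟨(Quotient.mk _ z, l⁻¹), ?_⟩
    dsimp only at hl ⊢
    rw [← hl, inv_smul_smul]

theorem tsum_free (hfree : ∀ (l : Λ) (z : Z), l • z = z → l = 1) (g : Z → ℝ≥0∞) :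
    ∑' z, g z = ∑' i : MulAction.orbitRel.Quotient Λ Z, ∑' l : Λ, g (l • Quotient.out i) := by
  rw [← (Equiv.ofBijective _ (CC4_bij hfree)).tsum_eq g, ENNReal.tsum_prod']
  rfl

/-- the matrix of an invariant kernel -/
noncomputable def kbar (Λ : Type) {Z : Type} [Group Λ] [MulAction Λ Z] (k : Z → Z → ℝ≥0∞)
    (i j : MulAction.orbitRel.Quotient Λ Z) : ℝ≥0∞ :=
  ∑' l : Λ, k (Quotient.out i) (l • Quotient.out j)

theorem kbar_symm (k : Z → Z → ℝ≥0∞)
    (hinv : ∀ (l : Λ) z z', k (l • z) (l • z') = k z z') (hsymm : ∀ z z', k z z' = k z' z)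
    (i j : MulAction.orbitRel.Quotient Λ Z) : kbar Λ k i j = kbar Λ k j i := by
  unfold kbar
  rw [← (Equiv.inv Λ).tsum_eq]
  refine tsum_congr fun l => ?_
  rw [Equiv.inv_apply, ← hinv l, smul_inv_smul, hsymm]

theorem op_kbar (hfree : ∀ (l : Λ) (z : Z), l • z = z → l = 1) (k : Z → Z → ℝ≥0∞)
    {ξ : Z → ℝ≥0∞} (hξ : ∀ (l : Λ) (z : Z), ξ (l • z) = ξ z)
    (i : MulAction.orbitRel.Quotient Λ Z) :
    op k ξ (Quotient.out i) = op (kbar Λ k) (fun j => ξ (Quotient.out j)) i := by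
  unfold op kbar
  rw [tsum_free hfree]
  refine tsum_congr fun j => ?_
  rw [← ENNReal.tsum_mul_right]
  exact tsum_congr fun l => by rw [hξ]

lemma CC4_iter (k : Z → Z → ℝ≥0∞) (hinv : ∀ (l : Λ) z z', k (l • z) (l • z') = k z z')
    (z' : Z) (m : ℕ) (l : Λ) (z : Z) :
    (op k)^[m] (oi Λ z') (l • z) = (op k)^[m] (oi Λ z') z := by
  induction m generalizing l z with
  | zero => exact oi_inv z' l z
  | succ m ih =>
    rw [Function.iterate_succ_apply']
    exact op_inv hinv (fun l z => ih l z) l z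

open Classical in
lemma CC4_oi (i j : MulAction.orbitRel.Quotient Λ Z) :
    oi Λ (Quotient.out j) (Quotient.out i) = if i = j then 1 else 0 := by
  unfold oi
  have h : Quotient.out i ∈ MulAction.orbit Λ (Quotient.out j) ↔ i = j := by
    rw [← MulAction.orbitRel_apply]
    constructor
    · intro h
      rw [← CC4_mk_out i, ← CC4_mk_out j]
      exact Quotient.sound h
    · intro h
      rw [h]
  by_cases hij : i = j
  · rw [if_pos hij, if_pos (h.2 hij)]
  · rw [if_neg hij, if_neg (fun hh => hij (h.1 hh))]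

open Classical in
lemma CC4_pow (hfree : ∀ (l : Λ) (z : Z), l • z = z → l = 1) (k : Z → Z → ℝ≥0∞)
    (hinv : ∀ (l : Λ) z z', k (l • z) (l • z') = k z z') (j : MulAction.orbitRel.Quotient Λ Z)
    (m : ℕ) (i : MulAction.orbitRel.Quotient Λ Z) :
    (op (kbar Λ k))^[m] (fun i' => if i' = j then 1 else 0) i
      = (op k)^[m] (oi Λ (Quotient.out j)) (Quotient.out i) := by
  induction m generalizing i with
  | zero => exact (CC4_oi i j).symm
  | succ m ih =>
    rw [Function.iterate_succ_apply', Function.iterate_succ_apply',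
      op_kbar hfree k (fun l z => CC4_iter k hinv _ m l z)]
    congr 1
    funext i'
    exact ih i'

/-- the norm is bounded by the growth of the powers -/
theorem normLe_of_pow (hfree : ∀ (l : Λ) (z : Z), l • z = z → l = 1) (k : Z → Z → ℝ≥0∞)
    (hinv : ∀ (l : Λ) z z', k (l • z) (l • z') = k z z') (hsymm : ∀ z z', k z z' = k z' z)
    (κ : ℝ≥0∞) (hκ0 : κ ≠ 0) (hκ : κ ≠ ⊤)
    (h : ∀ z z', ∃ C : ℝ≥0∞, C ≠ ⊤ ∧ ∀ m : ℕ, (op k)^[m + 1] (oi Λ z') z ≤ C * κ ^ (m + 1)) :
    NormLe Λ (op k) κ := by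
  classical
  intro ξ hξ
  refine ⟨fun l z => op_inv hinv hξ l z, ?_⟩
  have h1 := mat_norm (a := kbar Λ k) (kbar_symm k hinv hsymm) κ hκ0 hκ (fun i j => by
    obtain ⟨C, hC, hm⟩ := h (Quotient.out i) (Quotient.out j)
    refine ⟨C, hC, fun m => ?_⟩
    refine (le_of_eq ?_).trans (hm m)
    convert CC4_pow hfree k hinv j (m + 1) i) (fun j => ξ (Quotient.out j))
  unfold sqn
  calc ∑' i : MulAction.orbitRel.Quotient Λ Z, op k ξ (Quotient.out i) ^ 2
      = ∑' i : MulAction.orbitRel.Quotient Λ Z,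
        op (kbar Λ k) (fun j => ξ (Quotient.out j)) i ^ 2 :=
        tsum_congr fun i => by rw [op_kbar hfree k hξ]
    _ ≤ _ := h1

end Pool.Agent.Lib.MP_247fd6_al
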