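import Pool.Agent.Lib.MP_247fd6_al.CA1

/-! Removing one family of walls: the data. -/

set_option autoImplicit false

open scoped Pointwise ENNReal

namespace Pool.Agent.Lib.MP_247fd6_al

variable {G X : Type} [Group G] [MulAction G X]

/-- the data of the removal step -/
structure StepData (S : Sys G X) where
  E : Amb S
  B : Subgroup G
  hB : B ≤ E.A
  F : Set (Set X)
  W : Set (Set X)
  hF : F ⊆ S.HS
  hFi : ∀ g ∈ B, ∀ h ∈ F, g • h ∈ F
  R : ℝ
  hW : Fam S B R W
  x : X
  hx : x ∈ region E.F E.o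

namespace StepData

variable {S : Sys G X} (P : StepData S)

/-- the big region -/
def U : Set X := {y | y ∈ region P.E.F P.E.o ∧ y ∈ region P.F P.x}

/-- the side functions occurring in the big region -/
def T : Set (Set (Set X)) := {τ | ∃ y ∈ P.U, τ = side P.W y}

/-- the stabiliser of the big region -/
abbrev L : Subgroup G := stb P.B P.F P.x

/-- the states -/
abbrev Z (_ : StepData S) : Type := Set (Set X) × G

open Classical in
/-- the kernel: no wall is crossed -/
noncomputable def ker (t : ℝ) (z z' : P.Z) : ℝ≥0∞ :=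
  if z.1 = z'.1 ∧ z.1 ∈ P.T then wt S P.E.A P.E.o t (z.2⁻¹ * z'.2) else 0

open Classical in
/-- the far part of the kernel -/
noncomputable def kfar (t ρ : ℝ) (z z' : P.Z) : ℝ≥0∞ :=
  if ρ ≤ S.d P.E.o ((z.2⁻¹ * z'.2) • P.E.o) then P.ker t z z' else 0

/-- the walls near `a o` -/
def near (a : G) : Set (Set X) :=
  {h | h ∈ P.W ∧ ∃ u u', Sepby h u u' ∧ S.d u u' ≤ S.C₀ ∧ S.d (a • P.E.o) u ≤ P.E.D}

/-- crossing the wall -/
def fl (z : P.Z) : P.Z := (symmDiff z.1 (P.near z.2), z.2)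

/-- after a crossing, with `k` more crossings -/
noncomputable def Q (t ρ : ℝ) (v : P.Z → ℝ≥0∞) : ℕ → P.Z → ℝ≥0∞
  | 0 => op (P.ker t) v
  | k + 1 => op (P.kfar t ρ) (fun z => Q t ρ v k (P.fl z))

/-- from the beginning, with `k` crossings -/
noncomputable def M (t ρ : ℝ) (v : P.Z → ℝ≥0∞) : ℕ → P.Z → ℝ≥0∞
  | 0 => op (P.ker t) v
  | k + 1 => op (P.ker t) (fun z => P.Q t ρ v k (P.fl z))

end StepData

end Pool.Agent.Lib.MP_247fd6_al
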