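import Pool.Agent.Lib.MP_247fd6_al.CD0

/-! Removing one family of walls: equivariance. -/

set_option autoImplicit false

open scoped Pointwise ENNReal

namespace Pool.Agent.Lib.MP_247fd6_al

variable {G X : Type} [Group G] [MulAction G X]

namespace StepData

variable {S : Sys G X} (P : StepData S)

theorem smul_def (l : P.L) (z : P.Z) : l • z = ((l : G) • z.1, (l : G) * z.2) := rfl

theorem free (l : P.L) (z : P.Z) (h : l • z = z) : l = 1 := by
  rw [P.smul_def] at h
  have h2 : (l : G) * z.2 = z.2 := congrArg Prod.snd h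
  apply Subtype.ext
  simpa using h2

theorem L_le : P.L ≤ P.E.A := fun _ hl => P.hB hl.1

theorem mem_L_iff {l : G} : l ∈ P.L ↔ l ∈ P.B ∧ l • P.x ∈ region P.F P.x := mem_stb P.hFi

theorem smul_mem_U {l : G} (hl : l ∈ P.L) {y : X} (hy : y ∈ P.U) : l • y ∈ P.U := by
  refine ⟨P.E.inv l (P.L_le hl) y hy.1, ?_⟩
  have h1 := (P.mem_L_iff.1 hl)
  have h2 := (smul_mem_region P.hFi h1.1 (x := P.x) (y := y)).2 hy.2
  rwa [region_eq h1.2] at h2

theorem smul_mem_T {l : G} (hl : l ∈ P.L) {τ : Set (Set X)} (hτ : τ ∈ P.T) : l • τ ∈ P.T := by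
  obtain ⟨y, hy, rfl⟩ := hτ
  exact ⟨l • y, P.smul_mem_U hl hy, (side_smul P.hW.inv hl.1 y).symm⟩

theorem ker_smul (t : ℝ) (l : P.L) (z z' : P.Z) : P.ker t (l • z) (l • z') = P.ker t z z' := by
  unfold ker
  have h1 : (l • z).1 = (l • z').1 ↔ z.1 = z'.1 := by
    rw [P.smul_def, P.smul_def]
    exact smul_left_cancel_iff (l : G)
  have h2 : (l • z).1 ∈ P.T ↔ z.1 ∈ P.T := by
    rw [P.smul_def]
    constructor
    · intro h
      have := P.smul_mem_T (P.L.inv_mem l.2) h
      simpa using this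
    · exact fun h => P.smul_mem_T l.2 h
  have h3 : (l • z).2⁻¹ * (l • z').2 = z.2⁻¹ * z'.2 := by
    change ((l : G) * z.2)⁻¹ * ((l : G) * z'.2) = _
    group
  rw [h3]
  by_cases h : z.1 = z'.1 ∧ z.1 ∈ P.T
  · rw [if_pos h, if_pos ⟨h1.2 h.1, h2.2 h.2⟩]
  · rw [if_neg h, if_neg (fun h' => h ⟨h1.1 h'.1, h2.1 h'.2⟩)]

theorem wt_inv (S : Sys G X) (A : Subgroup G) (o : X) (t : ℝ) (g : G) :
    wt S A o t g⁻¹ = wt S A o t g := by
  unfold wt
  have h1 : S.d o (g⁻¹ • o) = S.d o (g • o) := by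
    have := S.inv g o (g⁻¹ • o)
    rw [smul_inv_smul] at this
    rw [← this, S.symm]
  rw [h1]
  by_cases hg : g ∈ A
  · rw [if_pos hg, if_pos (A.inv_mem hg)]
  · rw [if_neg hg, if_neg (fun h => hg (A.inv_mem_iff.1 h))]

theorem d_inv_mul (S : Sys G X) (o : X) (a b : G) :
    S.d o ((a⁻¹ * b) • o) = S.d (a • o) (b • o) := by
  have := S.inv a o ((a⁻¹ * b) • o)
  rw [smul_smul, mul_inv_cancel_left] at this
  exact this.symm

theorem ker_symm (t : ℝ) (z z' : P.Z) : P.ker t z z' = P.ker t z' z := by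
  unfold ker
  have h1 : z.2⁻¹ * z'.2 = (z'.2⁻¹ * z.2)⁻¹ := by group
  rw [h1, wt_inv]
  by_cases h : z.1 = z'.1 ∧ z.1 ∈ P.T
  · rw [if_pos h, if_pos ⟨h.1.symm, h.1 ▸ h.2⟩]
  · rw [if_neg h, if_neg]
    rintro ⟨h1, h2⟩
    exact h ⟨h1.symm, h1 ▸ h2⟩

theorem kfar_smul (t ρ : ℝ) (l : P.L) (z z' : P.Z) :
    P.kfar t ρ (l • z) (l • z') = P.kfar t ρ z z' := by
  unfold kfar
  have h3 : (l • z).2⁻¹ * (l • z').2 = z.2⁻¹ * z'.2 := by
    change ((l : G) * z.2)⁻¹ * ((l : G) * z'.2) = _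
    group
  rw [h3, P.ker_smul]

theorem sepby_smul (g : G) (h : Set X) (u u' : X) :
    Sepby (g • h) (g • u) (g • u') ↔ Sepby h u u' := by
  unfold Sepby
  rw [Set.smul_mem_smul_set_iff, Set.smul_mem_smul_set_iff]

theorem near_smul {l : G} (hl : l ∈ P.L) (a : G) : P.near (l * a) = l • P.near a := by
  have hsub : ∀ l ∈ P.L, ∀ a : G, ∀ h ∈ P.near a, l • h ∈ P.near (l * a) := by
    rintro l hl a h ⟨hw, u, u', h1, h2, h3⟩
    refine ⟨P.hW.inv l hl.1 h hw, l • u, l • u', (sepby_smul l h u u').2 h1, ?_, ?_⟩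
    · rwa [S.inv]
    · rwa [mul_smul, S.inv]
  ext w
  rw [Set.mem_smul_set_iff_inv_smul_mem]
  constructor
  · intro hw
    have := hsub l⁻¹ (P.L.inv_mem hl) (l * a) w hw
    rwa [inv_mul_cancel_left] at this
  · intro hw
    have := hsub l hl a _ hw
    rwa [smul_inv_smul] at this

theorem fl_fl (z : P.Z) : P.fl (P.fl z) = z := by
  unfold fl
  simp only [symmDiff_symmDiff_cancel_right]

theorem fl_smul (l : P.L) (z : P.Z) : P.fl (l • z) = l • P.fl z := by
  rw [P.smul_def, P.smul_def]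
  unfold fl
  simp only
  rw [P.near_smul l.2]
  congr 1
  exact (Set.smul_set_symmDiff).symm

theorem near_subsingleton (hR : 2 * P.E.D < P.R) (a : G) : (P.near a).Subsingleton := by
  rintro h ⟨hw, u, u', h1, h2, h3⟩ h' ⟨hw', v, v', h1', h2', h3'⟩
  by_contra hne
  have := P.hW.sep h hw h' hw' hne _ _ _ _ h1 h2 h1' h2'
  have e1 := S.tri u (a • P.E.o) v
  have e2 := S.symm u (a • P.E.o)
  linarith

/-- crossing the wall near `a o` -/
theorem side_cross (hR : 2 * P.E.D < P.R) {a : G} {h : Set X} (hh : h ∈ P.W) {p p' : X}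
    (hs : Sepby h p p') (hd : S.d p p' ≤ S.C₀) (ha : S.d p (a • P.E.o) ≤ P.E.D) :
    side P.W p' = symmDiff (side P.W p) (P.near a) := by
  have hsub := P.near_subsingleton hR a
  have hnear : ∀ h' ∈ P.W, Sepby h' p p' → h' ∈ P.near a := fun h' hh' hs' =>
    ⟨hh', p, p', hs', hd, by rw [S.symm]; exact ha⟩
  have hha := hnear h hh hs
  ext w
  rw [Set.mem_symmDiff]
  by_cases hw : w ∈ P.W
  · by_cases hsw : Sepby w p p'
    · have h1 := hnear w hw hsw
      unfold Sepby at hsw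
      unfold side
      simp only [Set.mem_ofPred_eq, hw, true_and, h1, not_true_eq_false, and_false, false_or]
      tauto
    · have h1 : w ∉ P.near a := by
        intro h1
        have := hsub h1 hha
        rw [this] at hsw
        exact hsw hs
      unfold Sepby at hsw
      unfold side
      simp only [Set.mem_ofPred_eq, hw, true_and, h1, not_false_eq_true, and_true, false_and,
        or_false]
      tauto
  · have h1 : w ∉ P.near a := fun h1 => hw h1.1
    unfold side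
    simp only [Set.mem_ofPred_eq, hw, false_and, h1, or_self]

end StepData

end Pool.Agent.Lib.MP_247fd6_al
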