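import Pool.Agent.Lib.MP_247fd6_al.CD1

/-! Removing one family of walls: powers of the kernel. -/

set_option autoImplicit false

open scoped Pointwise ENNReal

namespace Pool.Agent.Lib.MP_247fd6_al

variable {G X : Type} [Group G] [MulAction G X]

namespace StepData

variable {S : Sys G X} (P : StepData S)

open Classical in
theorem CD2_op_ker (t : ℝ) (v : P.Z → ℝ≥0∞) (z : P.Z) :
    op (P.ker t) v z =
      if z.1 ∈ P.T then ∑' b : G, wt S P.E.A P.E.o t (z.2⁻¹ * b) * v (z.1, b) else 0 := by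
  unfold op
  have h1 : ∑' z' : P.Z, P.ker t z z' * v z'
      = ∑' (τ : Set (Set X)) (b : G), P.ker t z (τ, b) * v (τ, b) :=
    ENNReal.tsum_prod' (f := fun z' : Set (Set X) × G => P.ker t z z' * v z')
  rw [h1, tsum_eq_single z.1]
  · by_cases hz : z.1 ∈ P.T
    · rw [if_pos hz]
      refine tsum_congr fun b => ?_
      unfold ker
      rw [if_pos ⟨rfl, hz⟩]
    · rw [if_neg hz]
      have h2 : ∀ b : G, P.ker t z (z.1, b) * v (z.1, b) = 0 := by
        intro b
        unfold ker
        rw [if_neg (fun h => hz h.2), zero_mul]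
      rw [tsum_congr h2, tsum_zero]
  · intro τ hτ
    have h2 : ∀ b : G, P.ker t z (τ, b) * v (τ, b) = 0 := by
      intro b
      unfold ker
      rw [if_neg (fun h => hτ h.1.symm), zero_mul]
    rw [tsum_congr h2, tsum_zero]

open Classical in
theorem op_ker_iterate (t : ℝ) (v : P.Z → ℝ≥0∞) (m : ℕ) (z : P.Z) :
    (op (P.ker t))^[m + 1] v z =
      if z.1 ∈ P.T then ∑' b : G, cpow S P.E.A P.E.o t m (z.2⁻¹ * b) * v (z.1, b) else 0 := by
  induction m generalizing v z with
  | zero => exact P.CD2_op_ker t v z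
  | succ m ih =>
    rw [Function.iterate_succ_apply, ih]
    by_cases hz : z.1 ∈ P.T
    · rw [if_pos hz, if_pos hz]
      have h1 : ∀ b : G, cpow S P.E.A P.E.o t m (z.2⁻¹ * b) * op (P.ker t) v (z.1, b)
          = ∑' b' : G, cpow S P.E.A P.E.o t m (z.2⁻¹ * b) *
            (wt S P.E.A P.E.o t (b⁻¹ * b') * v (z.1, b')) := by
        intro b
        rw [CD2_op_ker, if_pos hz, ENNReal.tsum_mul_left]
      rw [tsum_congr h1, ENNReal.tsum_comm]
      refine tsum_congr fun b' => ?_
      have h2 : cpow S P.E.A P.E.o t (m + 1) (z.2⁻¹ * b')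
          = ∑' g, cpow S P.E.A P.E.o t m g * wt S P.E.A P.E.o t (g⁻¹ * (z.2⁻¹ * b')) := rfl
      rw [h2, ← ENNReal.tsum_mul_right, ← (Equiv.mulLeft z.2).tsum_eq]
      refine tsum_congr fun b => ?_
      rw [Equiv.coe_mulLeft, mul_inv_rev, inv_mul_cancel_left, mul_assoc b⁻¹, mul_assoc]
    · rw [if_neg hz, if_neg hz]

end StepData

end Pool.Agent.Lib.MP_247fd6_al
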