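import Pool.Agent.Lib.MP_247fd6_al.CD1

/-! Removing one family of walls: sums over an orbit with fixed side function. -/

set_option autoImplicit false

open scoped Pointwise ENNReal

namespace Pool.Agent.Lib.MP_247fd6_al

variable {G X : Type} [Group G] [MulAction G X]

namespace StepData

variable {S : Sys G X} (P : StepData S)

theorem CD3_stb {y : X} (hy : y ∈ P.U) {l : G} (hl : l ∈ P.L)
    (hs : l • side P.W y = side P.W y) : l ∈ stb P.B (P.F ∪ P.W) y := by
  have hlB : l ∈ P.B := hl.1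
  have hinv : ∀ g ∈ P.B, ∀ h ∈ P.F ∪ P.W, g • h ∈ P.F ∪ P.W := by
    intro g hg h hh
    rcases hh with hh | hh
    · exact Or.inl (P.hFi g hg h hh)
    · exact Or.inr (P.hW.inv g hg h hh)
  rw [mem_stb hinv]
  refine ⟨hlB, ?_⟩
  rw [region_union]
  constructor
  · have h1 : l • y ∈ P.U := P.smul_mem_U hl hy
    rw [region_eq hy.2]
    exact h1.2
  · rw [← side_smul P.hW.inv hlB, side_eq_iff] at hs
    exact hs

theorem orbit_sum_ne_top (s : ℝ) (h : ∀ y ∈ P.U, Cv S (stb P.B (P.F ∪ P.W) y) s)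
    (z z' : P.Z) (hz : z.1 ∈ P.T) :
    ∑' b : G, wt S P.E.A P.E.o s (z.2⁻¹ * b) * oi P.L z' (z.1, b) ≠ ⊤ := by
  classical
  obtain ⟨y, hy, hzy⟩ := hz
  by_cases hall : ∀ b : G, oi P.L z' (z.1, b) = 0
  · have h1 : ∀ b : G, wt S P.E.A P.E.o s (z.2⁻¹ * b) * oi P.L z' (z.1, b) = 0 := by
      intro b
      rw [hall b, mul_zero]
    rw [tsum_congr h1, tsum_zero]
    exact ENNReal.zero_ne_top
  push Not at hall
  obtain ⟨b1, hb1⟩ := hall
  have hmem : ∀ b : G, oi P.L z' (z.1, b) ≠ 0 → (z.1, b) ∈ MulAction.orbit P.L z' := by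
    intro b hb
    by_contra hcon
    apply hb
    unfold oi
    rw [if_neg hcon]
  have ho1 := hmem b1 hb1
  set K : Subgroup G := stb P.B (P.F ∪ P.W) y with hK
  set φ : K → G := fun l => (l : G) * b1 with hφ
  have hφi : Function.Injective φ := by
    intro l l' hll
    exact Subtype.ext (mul_right_cancel hll)
  have hsupp : Function.support (fun b : G =>
      wt S P.E.A P.E.o s (z.2⁻¹ * b) * oi P.L z' (z.1, b)) ⊆ Set.range φ := by
    intro b hb
    rw [Function.mem_support] at hb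
    have hob := hmem b (right_ne_zero_of_mul hb)
    rw [← MulAction.orbit_eq_iff.2 ho1] at hob
    obtain ⟨l, hl⟩ := hob
    dsimp only at hl
    rw [smul_def] at hl
    have h1 : (l : G) • z.1 = z.1 := congrArg Prod.fst hl
    have h2 : (l : G) * b1 = b := congrArg Prod.snd hl
    rw [hzy] at h1
    exact ⟨⟨(l : G), P.CD3_stb hy l.2 h1⟩, h2⟩
  rw [← hφi.tsum_eq hsupp]
  refine ne_top_of_le_ne_top (h y hy (z.2 • P.E.o) (b1 • P.E.o)) ?_
  unfold PS
  refine ENNReal.tsum_le_tsum fun l => ?_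
  have h1 : oi P.L z' (z.1, φ l) ≤ 1 := by
    unfold oi
    split_ifs
    · exact le_refl _
    · exact zero_le_one
  have h2 : wt S P.E.A P.E.o s (z.2⁻¹ * φ l)
      ≤ ENNReal.ofReal (Real.exp (-(s * S.d (z.2 • P.E.o) ((l : G) • b1 • P.E.o)))) := by
    unfold wt
    split_ifs
    · have h3 : S.d P.E.o ((z.2⁻¹ * φ l) • P.E.o)
          = S.d (z.2 • P.E.o) ((l : G) • b1 • P.E.o) := by
        rw [← S.inv z.2 P.E.o, hφ, smul_smul, mul_inv_cancel_left, mul_smul]
      rw [h3]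
    · exact bot_le
  calc wt S P.E.A P.E.o s (z.2⁻¹ * φ l) * oi P.L z' (z.1, φ l)
      ≤ wt S P.E.A P.E.o s (z.2⁻¹ * φ l) * 1 := by gcongr
    _ ≤ _ := by rw [mul_one]; exact h2

end StepData

end Pool.Agent.Lib.MP_247fd6_al
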