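import Pool.Agent.Lib.MP_247fd6_al.CB3
import Pool.Agent.Lib.MP_247fd6_al.CC4
import Pool.Agent.Lib.MP_247fd6_al.CD2
import Pool.Agent.Lib.MP_247fd6_al.CD3

/-! Removing one family of walls: norms. -/

set_option autoImplicit false

open scoped Pointwise ENNReal

namespace Pool.Agent.Lib.MP_247fd6_al

variable {G X : Type} [Group G] [MulAction G X]

namespace StepData

variable {S : Sys G X} (P : StepData S)

/-- the norm of the kernel at exponent `s` -/
theorem normLe_ker {s η : ℝ} {K : ℝ≥0∞} (hK0 : K ≠ 0) (hK : K ≠ ⊤)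
    (hpow : ∀ n g, cpow S P.E.A P.E.o s n g ≤ K ^ (n + 1) * wt S P.E.A P.E.o (s - η) g)
    (h : ∀ y ∈ P.U, Cv S (stb P.B (P.F ∪ P.W) y) (s - η)) :
    NormLe P.L (op (P.ker s)) K := by
  classical
  refine normLe_of_pow (fun l z hlz => P.free l z hlz) (P.ker s) (fun l z z' => P.ker_smul s l z z')
    (fun z z' => P.ker_symm s z z') K hK0 hK (fun z z' => ?_)
  by_cases hz : z.1 ∈ P.T
  · refine ⟨∑' b : G, wt S P.E.A P.E.o (s - η) (z.2⁻¹ * b) * oi P.L z' (z.1, b),
      P.orbit_sum_ne_top (s - η) h z z' hz, fun m => ?_⟩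
    rw [op_ker_iterate, if_pos hz, ← ENNReal.tsum_mul_right]
    refine ENNReal.tsum_le_tsum fun b => ?_
    calc cpow S P.E.A P.E.o s m (z.2⁻¹ * b) * oi P.L z' (z.1, b)
        ≤ (K ^ (m + 1) * wt S P.E.A P.E.o (s - η) (z.2⁻¹ * b)) * oi P.L z' (z.1, b) := by
          gcongr
          exact hpow m _
      _ = wt S P.E.A P.E.o (s - η) (z.2⁻¹ * b) * oi P.L z' (z.1, b) * K ^ (m + 1) := by ring
  · refine ⟨0, ENNReal.zero_ne_top, fun m => ?_⟩
    rw [op_ker_iterate, if_neg hz, zero_mul]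

theorem CD4_exp {s t d : ℝ} (hst : s ≤ t) (hd : 0 ≤ d) :
    ENNReal.ofReal (Real.exp (-(t * d))) ≤ ENNReal.ofReal (Real.exp (-(s * d))) := by
  refine ENNReal.ofReal_le_ofReal (Real.exp_le_exp.2 ?_)
  nlinarith

theorem normLe_ker_of {s t : ℝ} {K : ℝ≥0∞} (hst : s ≤ t) (h : NormLe P.L (op (P.ker s)) K) :
    NormLe P.L (op (P.ker t)) K := by
  have h1 := NormLe.of_le (k' := P.ker t) (c := 1) h (fun z z' => ?_)
    (fun l z z' => P.ker_smul t l z z')
  · rwa [one_mul] at h1
  · rw [one_mul]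
    unfold ker
    split_ifs with hc
    · unfold wt
      split_ifs
      · exact CD4_exp hst (S.nonneg _ _)
      · exact le_refl _
    · exact le_refl _

theorem normLe_kfar {s t ρ : ℝ} {K : ℝ≥0∞} (hst : s ≤ t)
    (h : NormLe P.L (op (P.ker s)) K) :
    NormLe P.L (op (P.kfar t ρ)) (ENNReal.ofReal (Real.exp (-((t - s) * ρ))) * K) := by
  refine NormLe.of_le h (fun z z' => ?_) (fun l z z' => P.kfar_smul t ρ l z z')
  unfold kfar
  split_ifs with hρ
  · unfold ker
    split_ifs with hc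
    · unfold wt
      split_ifs
      · rw [← ENNReal.ofReal_mul (Real.exp_nonneg _), ← Real.exp_add]
        refine ENNReal.ofReal_le_ofReal (Real.exp_le_exp.2 ?_)
        nlinarith
      · exact bot_le
    · exact bot_le
  · exact bot_le

end StepData

end Pool.Agent.Lib.MP_247fd6_al
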