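import Pool.Agent.Lib.MP_247fd6_al.CD1

/-! Removing one family of walls: decomposition of the paths. -/

set_option autoImplicit false

open scoped Pointwise ENNReal

namespace Pool.Agent.Lib.MP_247fd6_al

variable {G X : Type} [Group G] [MulAction G X]

namespace StepData

variable {S : Sys G X} (P : StepData S)

/-- the constant lost at each piece -/
noncomputable def c (t : ℝ) : ℝ≥0∞ :=
  ENNReal.ofReal (Real.exp (t * (2 * P.E.D + 3 * S.C₀)))

theorem CD5_D_nonneg : 0 ≤ P.E.D := by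
  obtain ⟨a, _, h⟩ := P.E.dense P.E.o (mem_region_self _ _)
  exact le_trans (S.nonneg _ _) h

/-- the value of the kernel between two states with the same side function -/
theorem CD5_ker {t : ℝ} {τ : Set (Set X)} (hτ : τ ∈ P.T) {a b : G} (ha : a ∈ P.E.A)
    (hb : b ∈ P.E.A) : P.ker t (τ, a) (τ, b) =
      ENNReal.ofReal (Real.exp (-(t * S.d (a • P.E.o) (b • P.E.o)))) := by
  unfold ker wt
  rw [if_pos ⟨rfl, hτ⟩, if_pos (P.E.A.mul_mem (P.E.A.inv_mem ha) hb)]
  congr 4
  have := S.inv a P.E.o ((a⁻¹ * b) • P.E.o)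
  rw [smul_smul, mul_inv_cancel_left] at this
  exact this.symm

/-- a term of the operator -/
theorem CD5_le_op (k : P.Z → P.Z → ℝ≥0∞) (v : P.Z → ℝ≥0∞) (z z' : P.Z) :
    k z z' * v z' ≤ op k v z := by
  unfold op
  exact ENNReal.le_tsum z'

/-- passing from distances to weights -/
theorem CD5_exp {t : ℝ} (ht : 0 ≤ t) {x y z w : ℝ} (h : y + z ≤ x + w) :
    ENNReal.ofReal (Real.exp (-(t * x))) ≤
      ENNReal.ofReal (Real.exp (t * w)) * (ENNReal.ofReal (Real.exp (-(t * y))) *
        ENNReal.ofReal (Real.exp (-(t * z)))) := by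
  rw [← ENNReal.ofReal_mul (Real.exp_pos _).le, ← ENNReal.ofReal_mul (Real.exp_pos _).le,
    ← Real.exp_add, ← Real.exp_add]
  apply ENNReal.ofReal_le_ofReal
  apply Real.exp_le_exp.2
  nlinarith

/-- the side function is constant if no wall is crossed -/
theorem CD5_side_const {m : ℕ} {p : ℕ → X} {i j : ℕ} (hij : i ≤ j) (hjm : j ≤ m)
    (h : ∀ l, i ≤ l → l < j → ∀ h ∈ P.W, ¬ Sepby h (p l) (p (l + 1))) :
    side P.W (p j) = side P.W (p i) := by
  induction j, hij using Nat.le_induction with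
  | base => rfl
  | succ j hij ih =>
    rw [← ih (by omega) (fun l h1 h2 => h l h1 (by omega))]
    ext w
    unfold side
    simp only [Set.mem_ofPred_eq]
    constructor
    · rintro ⟨hw, h1⟩
      refine ⟨hw, ?_⟩
      have := h j hij (by omega) w hw
      unfold Sepby at this
      tauto
    · rintro ⟨hw, h1⟩
      refine ⟨hw, ?_⟩
      have := h j hij (by omega) w hw
      unfold Sepby at this
      tauto

/-- the first crossing -/
theorem CD5_first {p : ℕ → X} {i m : ℕ} (him : i ≤ m) :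
    (∀ l, i ≤ l → l < m → ∀ h ∈ P.W, ¬ Sepby h (p l) (p (l + 1))) ∨
    ∃ j, i ≤ j ∧ j < m ∧ (∃ h ∈ P.W, Sepby h (p j) (p (j + 1))) ∧
      ∀ l, i ≤ l → l < j → ∀ h ∈ P.W, ¬ Sepby h (p l) (p (l + 1)) := by
  classical
  by_cases hex : ∃ j, i ≤ j ∧ j < m ∧ ∃ h ∈ P.W, Sepby h (p j) (p (j + 1))
  · right
    have hs := Nat.find_spec hex
    refine ⟨Nat.find hex, hs.1, hs.2.1, hs.2.2, ?_⟩
    intro l hl hlj h hh hsep
    exact Nat.find_min hex hlj ⟨hl, by omega, h, hh, hsep⟩
  · left
    push Not at hex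
    intro l hl hlm h hh
    exact hex l hl hlm h hh

/-- a wall is crossed only once -/
theorem CD5_once {m : ℕ} {p : ℕ → X}
    (hcv : ∀ h ∈ S.HS, ∀ i j k, i ≤ j → j ≤ k → k ≤ m → (p i ∈ h ↔ p k ∈ h) →
      (p j ∈ h ↔ p i ∈ h)) {h : Set X} (hh : h ∈ P.W) {i j : ℕ} (hij : i < j) (hjm : j < m)
    (hi : Sepby h (p i) (p (i + 1))) (hj : Sepby h (p j) (p (j + 1))) : False := by
  have hhS := P.hW.sub hh
  unfold Sepby at hi hj
  -- `p j` is on the side of `p (i+1)`
  have h1 : (p i ∈ h ↔ p j ∈ h) → False := by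
    intro hc
    have := hcv h hhS i (i + 1) j (by omega) (by omega) (by omega) hc
    tauto
  have h2 : (p i ∈ h ↔ p (j + 1) ∈ h) → False := by
    intro hc
    have := hcv h hhS i (i + 1) (j + 1) (by omega) (by omega) (by omega) hc
    tauto
  tauto

open Classical in
/-- after a crossing -/
theorem path_after {t : ℝ} (ht : 0 ≤ t) (hR : 2 * P.E.D < P.R) {m : ℕ} {p : ℕ → X}
    (hstep : ∀ i < m, S.d (p i) (p (i + 1)) ≤ S.C₀)
    (hadd : ∀ i j k, i ≤ j → j ≤ k → k ≤ m →
      S.d (p i) (p j) + S.d (p j) (p k) ≤ S.d (p i) (p k) + S.C₀)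
    (hcv : ∀ h ∈ S.HS, ∀ i j k, i ≤ j → j ≤ k → k ≤ m → (p i ∈ h ↔ p k ∈ h) →
      (p j ∈ h ↔ p i ∈ h))
    (hU : ∀ i ≤ m, p i ∈ P.U) {b : G} (hb : b ∈ P.E.A) (hmb : S.d (p m) (b • P.E.o) ≤ P.E.D)
    (i : ℕ) (hi : i < m) {h : Set X} (hh : h ∈ P.W) (hs : Sepby h (p i) (p (i + 1))) {a : G}
    (ha : a ∈ P.E.A) (hia : S.d (p i) (a • P.E.o) ≤ P.E.D) :
    ∃ k, ENNReal.ofReal (Real.exp (-(t * S.d (p (i + 1)) (p m)))) ≤
      P.c t ^ (k + 1) * P.Q t (P.R - 2 * P.E.D)
        (fun z => if z = (side P.W (p m), b) then 1 else 0) k (side P.W (p (i + 1)), a) := by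
  have hD := P.CD5_D_nonneg
  have hC := S.hC₀
  induction hn : m - i using Nat.strong_induction_on generalizing i h a with
  | _ n ih =>
  have hsteps := hstep i hi
  rcases P.CD5_first (p := p) (i := i + 1) (m := m) (by omega) with hno | ⟨j, hij, hjm, ⟨h', hh', hsj⟩, hmin⟩
  · -- no more crossing
    refine ⟨0, ?_⟩
    have hside : side P.W (p m) = side P.W (p (i + 1)) :=
      P.CD5_side_const (m := m) (by omega) le_rfl hno
    have hT : side P.W (p (i + 1)) ∈ P.T := ⟨p (i + 1), hU _ (by omega), rfl⟩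
    have h1 : P.ker t (side P.W (p (i + 1)), a) (side P.W (p (i + 1)), b) * 1 ≤
        P.Q t (P.R - 2 * P.E.D)
        (fun z => if z = (side P.W (p m), b) then 1 else 0) 0 (side P.W (p (i + 1)), a) := by
      unfold Q
      have := P.CD5_le_op (P.ker t) (fun z => if z = (side P.W (p m), b) then 1 else 0)
        (side P.W (p (i + 1)), a) (side P.W (p (i + 1)), b)
      rw [hside] at this ⊢
      simpa using this
    rw [mul_one, P.CD5_ker hT ha hb] at h1
    refine le_trans ?_ (mul_le_mul_right h1 _)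
    rw [zero_add, pow_one]
    unfold c
    rw [← ENNReal.ofReal_mul (Real.exp_pos _).le, ← Real.exp_add]
    apply ENNReal.ofReal_le_ofReal
    apply Real.exp_le_exp.2
    have e1 := S.tri (a • P.E.o) (p i) (b • P.E.o)
    have e2 := S.tri (p i) (p (i + 1)) (b • P.E.o)
    have e3 := S.tri (p (i + 1)) (p m) (b • P.E.o)
    have e4 := S.symm (a • P.E.o) (p i)
    have e5 : S.d (a • P.E.o) (b • P.E.o) ≤
      S.d (p (i + 1)) (p m) + (2 * P.E.D + 3 * S.C₀) := by linarith
    nlinarith [mul_le_mul_of_nonneg_left e5 ht]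
  · -- the next crossing
    obtain ⟨a', ha', hja'⟩ := P.E.dense (p j) (hU j (by omega)).1
    obtain ⟨k, hk⟩ := ih (m - j) (by omega) j hjm hh' hsj ha' hja' rfl
    refine ⟨k + 1, ?_⟩
    have hne : h ≠ h' := by
      rintro rfl
      exact P.CD5_once hcv hh (show i < j by omega) hjm hs hsj
    have hRd : P.R ≤ S.d (p i) (p j) :=
      P.hW.sep h hh h' hh' hne _ _ _ _ hs hsteps hsj (hstep j hjm)
    have hside : side P.W (p j) = side P.W (p (i + 1)) :=
      P.CD5_side_const (m := m) (by omega) (by omega) hmin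
    have hT : side P.W (p (i + 1)) ∈ P.T := ⟨p (i + 1), hU _ (by omega), rfl⟩
    have hcross : P.fl (side P.W (p (i + 1)), a') = (side P.W (p (j + 1)), a') := by
      unfold fl
      simp only
      rw [P.side_cross hR hh' hsj (hstep j hjm) hja', hside]
    have hfar : P.R - 2 * P.E.D ≤ S.d (a • P.E.o) (a' • P.E.o) := by
      have e1 := S.tri (p i) (a • P.E.o) (p j)
      have e2 := S.tri (a • P.E.o) (a' • P.E.o) (p j)
      have e3 := S.symm (a' • P.E.o) (p j)
      linarith
    have hdist : S.d P.E.o ((a⁻¹ * a') • P.E.o) = S.d (a • P.E.o) (a' • P.E.o) := by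
      have := S.inv a P.E.o ((a⁻¹ * a') • P.E.o)
      rw [smul_smul, mul_inv_cancel_left] at this
      exact this.symm
    have h1 : ENNReal.ofReal (Real.exp (-(t * S.d (a • P.E.o) (a' • P.E.o)))) *
        P.Q t (P.R - 2 * P.E.D) (fun z => if z = (side P.W (p m), b) then 1 else 0) k
          (side P.W (p (j + 1)), a') ≤
        P.Q t (P.R - 2 * P.E.D)
        (fun z => if z = (side P.W (p m), b) then 1 else 0) (k + 1) (side P.W (p (i + 1)), a) := by
      have := P.CD5_le_op (P.kfar t (P.R - 2 * P.E.D))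
        (fun z => P.Q t (P.R - 2 * P.E.D)
          (fun z => if z = (side P.W (p m), b) then 1 else 0) k (P.fl z))
        (side P.W (p (i + 1)), a) (side P.W (p (i + 1)), a')
      rw [hcross] at this
      have hk' : P.kfar t (P.R - 2 * P.E.D) (side P.W (p (i + 1)), a)
          (side P.W (p (i + 1)), a') =
          ENNReal.ofReal (Real.exp (-(t * S.d (a • P.E.o) (a' • P.E.o)))) := by
        unfold kfar
        rw [if_pos (by rw [hdist]; exact hfar), P.CD5_ker hT ha ha']
      rw [hk'] at this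
      exact this
    have e5 : S.d (a • P.E.o) (a' • P.E.o) ≤
        S.d (p (i + 1)) (p j) + (2 * P.E.D + S.C₀) := by
      have e1 := S.tri (a • P.E.o) (p i) (a' • P.E.o)
      have e2 := S.tri (p i) (p (i + 1)) (a' • P.E.o)
      have e3 := S.tri (p (i + 1)) (p j) (a' • P.E.o)
      have e4 := S.symm (a • P.E.o) (p i)
      linarith
    have e6 : S.d (p (i + 1)) (p j) + S.d (p (j + 1)) (p m) ≤
        S.d (p (i + 1)) (p m) + 2 * S.C₀ := by
      have f1 := hadd (i + 1) j m hij (by omega) le_rfl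
      have f2 := hadd j (j + 1) m (by omega) (by omega) le_rfl
      have f3 := S.nonneg (p j) (p (j + 1))
      linarith
    have e7 : S.d (a • P.E.o) (a' • P.E.o) + S.d (p (j + 1)) (p m) ≤
        S.d (p (i + 1)) (p m) + (2 * P.E.D + 3 * S.C₀) := by linarith
    calc ENNReal.ofReal (Real.exp (-(t * S.d (p (i + 1)) (p m))))
        ≤ P.c t * (ENNReal.ofReal (Real.exp (-(t * S.d (a • P.E.o) (a' • P.E.o)))) *
          ENNReal.ofReal (Real.exp (-(t * S.d (p (j + 1)) (p m))))) := CD5_exp ht e7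
      _ ≤ P.c t * (ENNReal.ofReal (Real.exp (-(t * S.d (a • P.E.o) (a' • P.E.o)))) *
          (P.c t ^ (k + 1) * P.Q t (P.R - 2 * P.E.D)
            (fun z => if z = (side P.W (p m), b) then 1 else 0) k
            (side P.W (p (j + 1)), a'))) := by gcongr
      _ = P.c t ^ (k + 1 + 1) * (ENNReal.ofReal (Real.exp (-(t * S.d (a • P.E.o)
            (a' • P.E.o)))) * P.Q t (P.R - 2 * P.E.D)
            (fun z => if z = (side P.W (p m), b) then 1 else 0) k
            (side P.W (p (j + 1)), a')) := by ring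
      _ ≤ _ := mul_le_mul_right h1 _

open Classical in
/-- the whole path -/
theorem path_all {t : ℝ} (ht : 0 ≤ t) (hR : 2 * P.E.D < P.R) {u u' : X} (hu : u ∈ P.U)
    (hu' : u' ∈ P.U) {a b : G} (ha : a ∈ P.E.A) (hua : S.d u (a • P.E.o) ≤ P.E.D)
    (hb : b ∈ P.E.A) (hub : S.d u' (b • P.E.o) ≤ P.E.D) :
    ∃ k, ENNReal.ofReal (Real.exp (-(t * S.d u u'))) ≤
      P.c t ^ (k + 1) * P.M t (P.R - 2 * P.E.D)
        (fun z => if z = (side P.W u', b) then 1 else 0) k (side P.W u, a) := by
  have hD := P.CD5_D_nonneg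
  have hC := S.hC₀
  obtain ⟨m, p, h0, hm, hstep, hadd, hcv⟩ := S.path u u'
  have hU : ∀ i ≤ m, p i ∈ P.U := by
    intro i hi
    refine ⟨?_, ?_⟩
    · exact path_mem_region P.E.sub hcv (by rw [h0]; exact hu.1) (by rw [hm]; exact hu'.1) hi
    · exact path_mem_region P.hF hcv (by rw [h0]; exact hu.2) (by rw [hm]; exact hu'.2) hi
  subst h0 hm
  rcases P.CD5_first (p := p) (i := 0) (m := m) (by omega) with hno | ⟨j, hij, hjm, ⟨h', hh', hsj⟩, hmin⟩
  · refine ⟨0, ?_⟩
    have hside : side P.W (p m) = side P.W (p 0) :=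
      P.CD5_side_const (m := m) (by omega) le_rfl hno
    have hT : side P.W (p 0) ∈ P.T := ⟨p 0, hU _ (by omega), rfl⟩
    have h1 : P.ker t (side P.W (p 0), a) (side P.W (p 0), b) * 1 ≤
        P.M t (P.R - 2 * P.E.D)
        (fun z => if z = (side P.W (p m), b) then 1 else 0) 0 (side P.W (p 0), a) := by
      unfold M
      have := P.CD5_le_op (P.ker t) (fun z => if z = (side P.W (p m), b) then 1 else 0)
        (side P.W (p 0), a) (side P.W (p 0), b)
      rw [hside] at this ⊢
      simpa using this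
    rw [mul_one, P.CD5_ker hT ha hb] at h1
    refine le_trans ?_ (mul_le_mul_right h1 _)
    rw [zero_add, pow_one]
    unfold c
    rw [← ENNReal.ofReal_mul (Real.exp_pos _).le, ← Real.exp_add]
    apply ENNReal.ofReal_le_ofReal
    apply Real.exp_le_exp.2
    have e1 := S.tri (a • P.E.o) (p 0) (b • P.E.o)
    have e3 := S.tri (p 0) (p m) (b • P.E.o)
    have e4 := S.symm (a • P.E.o) (p 0)
    have e5 : S.d (a • P.E.o) (b • P.E.o) ≤
      S.d (p 0) (p m) + (2 * P.E.D + 3 * S.C₀) := by linarith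
    nlinarith [mul_le_mul_of_nonneg_left e5 ht]
  · obtain ⟨a', ha', hja'⟩ := P.E.dense (p j) (hU j (by omega)).1
    obtain ⟨k, hk⟩ := P.path_after ht hR hstep hadd hcv hU hb hub j hjm hh' hsj ha' hja'
    refine ⟨k + 1, ?_⟩
    have hside : side P.W (p j) = side P.W (p 0) :=
      P.CD5_side_const (m := m) (by omega) (by omega) hmin
    have hT : side P.W (p 0) ∈ P.T := ⟨p 0, hU _ (by omega), rfl⟩
    have hcross : P.fl (side P.W (p 0), a') = (side P.W (p (j + 1)), a') := by
      unfold fl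
      simp only
      rw [P.side_cross hR hh' hsj (hstep j hjm) hja', hside]
    have h1 : ENNReal.ofReal (Real.exp (-(t * S.d (a • P.E.o) (a' • P.E.o)))) *
        P.Q t (P.R - 2 * P.E.D) (fun z => if z = (side P.W (p m), b) then 1 else 0) k
          (side P.W (p (j + 1)), a') ≤
        P.M t (P.R - 2 * P.E.D)
        (fun z => if z = (side P.W (p m), b) then 1 else 0) (k + 1) (side P.W (p 0), a) := by
      have := P.CD5_le_op (P.ker t)
        (fun z => P.Q t (P.R - 2 * P.E.D)
          (fun z => if z = (side P.W (p m), b) then 1 else 0) k (P.fl z))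
        (side P.W (p 0), a) (side P.W (p 0), a')
      rw [hcross] at this
      rw [P.CD5_ker hT ha ha'] at this
      exact this
    have e5 : S.d (a • P.E.o) (a' • P.E.o) ≤
        S.d (p 0) (p j) + 2 * P.E.D := by
      have e1 := S.tri (a • P.E.o) (p 0) (a' • P.E.o)
      have e3 := S.tri (p 0) (p j) (a' • P.E.o)
      have e4 := S.symm (a • P.E.o) (p 0)
      linarith
    have e6 : S.d (p 0) (p j) + S.d (p (j + 1)) (p m) ≤
        S.d (p 0) (p m) + 2 * S.C₀ := by
      have f1 := hadd 0 j m (by omega) (by omega) le_rfl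
      have f2 := hadd j (j + 1) m (by omega) (by omega) le_rfl
      have f3 := S.nonneg (p j) (p (j + 1))
      linarith
    have e7 : S.d (a • P.E.o) (a' • P.E.o) + S.d (p (j + 1)) (p m) ≤
        S.d (p 0) (p m) + (2 * P.E.D + 3 * S.C₀) := by linarith
    calc ENNReal.ofReal (Real.exp (-(t * S.d (p 0) (p m))))
        ≤ P.c t * (ENNReal.ofReal (Real.exp (-(t * S.d (a • P.E.o) (a' • P.E.o)))) *
          ENNReal.ofReal (Real.exp (-(t * S.d (p (j + 1)) (p m))))) := CD5_exp ht e7
      _ ≤ P.c t * (ENNReal.ofReal (Real.exp (-(t * S.d (a • P.E.o) (a' • P.E.o)))) *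
          (P.c t ^ (k + 1) * P.Q t (P.R - 2 * P.E.D)
            (fun z => if z = (side P.W (p m), b) then 1 else 0) k
            (side P.W (p (j + 1)), a'))) := by gcongr
      _ = P.c t ^ (k + 1 + 1) * (ENNReal.ofReal (Real.exp (-(t * S.d (a • P.E.o)
            (a' • P.E.o)))) * P.Q t (P.R - 2 * P.E.D)
            (fun z => if z = (side P.W (p m), b) then 1 else 0) k
            (side P.W (p (j + 1)), a')) := by ring
      _ ≤ _ := mul_le_mul_right h1 _

end StepData

end Pool.Agent.Lib.MP_247fd6_al
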