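import Pool.Agent.Lib.MP_247fd6_al.CC1
import Pool.Agent.Lib.MP_247fd6_al.CD1

/-! Removing one family of walls: linearity and norms of the chains. -/

set_option autoImplicit false

open scoped Pointwise ENNReal

namespace Pool.Agent.Lib.MP_247fd6_al

variable {G X : Type} [Group G] [MulAction G X]

theorem CD6_op_tsum {Z I : Type} (k : Z → Z → ℝ≥0∞) (v : I → Z → ℝ≥0∞) (z : Z) :
    ∑' i, op k (v i) z = op k (fun z' => ∑' i, v i z') z := by
  unfold op
  rw [ENNReal.tsum_comm]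
  congr 1
  ext z'
  rw [ENNReal.tsum_mul_left]

namespace StepData

variable {S : Sys G X} (P : StepData S)

theorem Q_tsum (t ρ : ℝ) {I : Type} (v : I → P.Z → ℝ≥0∞) (k : ℕ) (z : P.Z) :
    ∑' i, P.Q t ρ (v i) k z = P.Q t ρ (fun z' => ∑' i, v i z') k z := by
  induction k generalizing z with
  | zero => exact CD6_op_tsum _ v z
  | succ k ih =>
    show ∑' i, op (P.kfar t ρ) (fun z => P.Q t ρ (v i) k (P.fl z)) z =
      op (P.kfar t ρ) (fun z => P.Q t ρ (fun z' => ∑' i, v i z') k (P.fl z)) z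
    rw [CD6_op_tsum (P.kfar t ρ) (fun i z => P.Q t ρ (v i) k (P.fl z)) z]
    congr 1
    ext z'
    exact ih _

theorem M_tsum (t ρ : ℝ) {I : Type} (v : I → P.Z → ℝ≥0∞) (k : ℕ) (z : P.Z) :
    ∑' i, P.M t ρ (v i) k z = P.M t ρ (fun z' => ∑' i, v i z') k z := by
  cases k with
  | zero => exact CD6_op_tsum _ v z
  | succ k =>
    show ∑' i, op (P.ker t) (fun z => P.Q t ρ (v i) k (P.fl z)) z =
      op (P.ker t) (fun z => P.Q t ρ (fun z' => ∑' i, v i z') k (P.fl z)) z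
    rw [CD6_op_tsum (P.ker t) (fun i z => P.Q t ρ (v i) k (P.fl z)) z]
    congr 1
    ext z'
    exact P.Q_tsum t ρ v k _

theorem normLe_Q {t ρ : ℝ} {K κ : ℝ≥0∞} (hK : NormLe P.L (op (P.ker t)) K)
    (hκ : NormLe P.L (op (P.kfar t ρ)) κ) (k : ℕ) :
    NormLe P.L (fun v => P.Q t ρ v k) (κ ^ k * K) := by
  induction k with
  | zero =>
    rw [pow_zero, one_mul]
    exact hK
  | succ k ih =>
    have h1 : NormLe P.L (fun (ξ : P.Z → ℝ≥0∞) z => ξ (P.fl z)) 1 :=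
      NormLe.of_invol P.fl P.fl_fl P.fl_smul
    have h2 := hκ.comp (h1.comp ih)
    have e : κ ^ (k + 1) * K = κ * (1 * (κ ^ k * K)) := by ring
    rw [e]
    exact h2

theorem normLe_M_zero {t ρ : ℝ} {K : ℝ≥0∞} (hK : NormLe P.L (op (P.ker t)) K) :
    NormLe P.L (fun v => P.M t ρ v 0) K := hK

theorem normLe_M_succ {t ρ : ℝ} {K κ : ℝ≥0∞} (hK : NormLe P.L (op (P.ker t)) K)
    (hκ : NormLe P.L (op (P.kfar t ρ)) κ) (k : ℕ) :
    NormLe P.L (fun v => P.M t ρ v (k + 1)) (K * (κ ^ k * K)) := by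
  have h1 : NormLe P.L (fun (ξ : P.Z → ℝ≥0∞) z => ξ (P.fl z)) 1 :=
    NormLe.of_invol P.fl P.fl_fl P.fl_smul
  have h2 := hK.comp (h1.comp (P.normLe_Q hK hκ k))
  have e : K * (κ ^ k * K) = K * (1 * (κ ^ k * K)) := by ring
  rw [e]
  exact h2

open Classical in
theorem oi_eq_tsum (z' z : P.Z) :
    oi P.L z' z = ∑' l : P.L, (if z = l • z' then 1 else 0 : ℝ≥0∞) := by
  unfold oi
  by_cases h : z ∈ MulAction.orbit P.L z'
  · rw [if_pos h]
    obtain ⟨l₀, hl₀⟩ := h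
    have hl₀' : l₀ • z' = z := hl₀
    rw [tsum_eq_single l₀]
    · rw [if_pos hl₀'.symm]
    · intro l hl
      rw [if_neg]
      intro hz
      apply hl
      have h1 : (l₀⁻¹ * l) • z' = z' := by
        rw [mul_smul, ← hz, ← hl₀', inv_smul_smul]
      have h2 := P.free (l₀⁻¹ * l) z' h1
      rw [inv_mul_eq_one] at h2
      exact h2.symm
  · rw [if_neg h]
    symm
    rw [ENNReal.tsum_eq_zero]
    intro l
    rw [if_neg]
    intro hz
    exact h ⟨l, hz.symm⟩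

end StepData

end Pool.Agent.Lib.MP_247fd6_al
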