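import Pool.Agent.Lib.MP_247fd6_al.CA2
import Pool.Agent.Lib.MP_247fd6_al.CD4
import Pool.Agent.Lib.MP_247fd6_al.CD5
import Pool.Agent.Lib.MP_247fd6_al.CD6

/-! Removing one family of walls. -/

set_option autoImplicit false

open scoped Pointwise ENNReal

namespace Pool.Agent.Lib.MP_247fd6_al

variable {G X : Type} [Group G] [MulAction G X]

/-- the Poincare series of the stabiliser of the big region is bounded by the chains -/
theorem StepData.PS_le {S : Sys G X} (P : StepData S) {t : ℝ} (ht : 0 ≤ t)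
    (hR : 2 * P.E.D < P.R) {a : G} (ha : a ∈ P.E.A) (hua : S.d P.x (a • P.E.o) ≤ P.E.D) :
    PS S P.L t P.x P.x ≤ ∑' k : ℕ, P.c t ^ (k + 1) *
      P.M t (P.R - 2 * P.E.D) (oi P.L (side P.W P.x, a)) k (side P.W P.x, a) := by
  classical
  set ρ := P.R - 2 * P.E.D with hρ
  set z₀ : P.Z := (side P.W P.x, a) with hz₀
  have hxU : P.x ∈ P.U := ⟨P.hx, mem_region_self _ _⟩
  have hterm : ∀ g : P.L, ENNReal.ofReal (Real.exp (-(t * S.d P.x ((g : G) • P.x)))) ≤
      ∑' k : ℕ, P.c t ^ (k + 1) * P.M t ρ (fun z => if z = g • z₀ then 1 else 0) k z₀ := by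
    intro g
    have hb : (g : G) * a ∈ P.E.A := P.E.A.mul_mem (P.L_le g.2) ha
    have hub : S.d ((g : G) • P.x) (((g : G) * a) • P.E.o) ≤ P.E.D := by
      rw [mul_smul, S.inv]; exact hua
    obtain ⟨k, hk⟩ := P.path_all ht hR hxU (P.smul_mem_U g.2 hxU) ha hua hb hub
    have hside : side P.W ((g : G) • P.x) = (g : G) • side P.W P.x :=
      side_smul P.hW.inv g.2.1 P.x
    have he : (side P.W ((g : G) • P.x), (g : G) * a) = g • z₀ := by
      rw [P.smul_def, hside]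
    rw [he] at hk
    refine hk.trans ?_
    exact ENNReal.le_tsum (f := fun k : ℕ => P.c t ^ (k + 1) *
      P.M t ρ (fun z => if z = g • z₀ then 1 else 0) k z₀) k
  calc PS S P.L t P.x P.x
      ≤ ∑' g : P.L, ∑' k : ℕ, P.c t ^ (k + 1) *
          P.M t ρ (fun z => if z = g • z₀ then 1 else 0) k z₀ := ENNReal.tsum_le_tsum hterm
    _ = ∑' k : ℕ, P.c t ^ (k + 1) *
          ∑' g : P.L, P.M t ρ (fun z => if z = g • z₀ then 1 else 0) k z₀ := by
        rw [ENNReal.tsum_comm]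
        congr 1
        ext k
        rw [ENNReal.tsum_mul_left]
    _ = _ := by
        congr 1
        ext k
        rw [P.M_tsum t ρ (fun (g : P.L) (z : P.Z) => if z = g • z₀ then (1 : ℝ≥0∞) else 0) k z₀]
        congr 2
        ext z
        exact (P.oi_eq_tsum z₀ z).symm

theorem CD7_R₀ {D η cr Kr : ℝ} (hη : 0 < η) (hcr : 0 ≤ cr) (hKr : 0 ≤ Kr) :
    ∃ R₀ : ℝ, ∀ R ≥ R₀, 2 * D < R ∧ cr * (Real.exp (-(η * (R - 2 * D))) * Kr) < 1 := by
  have hpos : 0 < cr * Kr + 1 := by positivity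
  refine ⟨2 * D + 1 + max 0 (Real.log (cr * Kr + 1) / η), fun R hR => ?_⟩
  have h1 : 0 ≤ max 0 (Real.log (cr * Kr + 1) / η) := le_max_left _ _
  have h2 : Real.log (cr * Kr + 1) / η ≤ max 0 (Real.log (cr * Kr + 1) / η) := le_max_right _ _
  refine ⟨by linarith, ?_⟩
  have h3 : Real.log (cr * Kr + 1) / η ≤ R - 2 * D := by linarith
  have h4 : Real.log (cr * Kr + 1) ≤ η * (R - 2 * D) := by
    rw [div_le_iff₀ hη] at h3
    linarith
  have h5 : Real.exp (-(η * (R - 2 * D))) ≤ (cr * Kr + 1)⁻¹ := by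
    rw [Real.exp_neg]
    apply inv_anti₀ hpos
    rw [← Real.log_le_iff_le_exp hpos]
    exact h4
  calc cr * (Real.exp (-(η * (R - 2 * D))) * Kr)
      ≤ cr * ((cr * Kr + 1)⁻¹ * Kr) := by gcongr
    _ = (cr * Kr) / (cr * Kr + 1) := by
        rw [div_eq_mul_inv]; ring
    _ < 1 := by
        rw [div_lt_one hpos]; linarith

theorem step (S : Sys G X) (E : Amb S) {t η : ℝ} (hη : 0 < η) (ht : 0 ≤ t - 2 * η)
    (h2 : 0 ≤ 2 * t - 3 * η) (h : Cv S E.A (2 * t - 3 * η)) :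
    ∃ R₀ : ℝ, ∀ R ≥ R₀, ∀ B : Subgroup G, B ≤ E.A → ∀ F W : Set (Set X), F ⊆ S.HS →
      (∀ g ∈ B, ∀ h ∈ F, g • h ∈ F) → Fam S B R W → ∀ x ∈ region E.F E.o,
      (∀ y ∈ region E.F E.o, y ∈ region F x → Cv S (stb B (F ∪ W) y) (t - 2 * η)) →
      Cv S (stb B F x) t := by
  obtain ⟨K, hK0, hK, hpow⟩ := conv_pow S E (t := t - η) (η := η) hη (by linarith)
    (by rw [show 2 * (t - η) - η = 2 * t - 3 * η by ring]; exact h)
  have hs : t - η - η = t - 2 * η := by ring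
  set cr : ℝ := Real.exp (t * (2 * E.D + 3 * S.C₀)) with hcr
  obtain ⟨R₀, hR₀⟩ := CD7_R₀ (D := E.D) (η := η) (cr := cr) (Kr := K.toReal) hη
    (Real.exp_nonneg _) ENNReal.toReal_nonneg
  refine ⟨R₀, fun R hR B hB F W hF hFi hW x hx hcv => ?_⟩
  obtain ⟨hRD, hlt⟩ := hR₀ R hR
  let P : StepData S := ⟨E, B, hB, F, W, hF, hFi, R, hW, x, hx⟩
  obtain ⟨a, ha, hua⟩ := E.dense x hx
  have ht0 : 0 ≤ t := by linarith
  have hker_s : NormLe P.L (op (P.ker (t - η))) K := by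
    apply P.normLe_ker hK0 hK hpow
    intro y hy
    rw [hs]
    exact hcv y hy.1 hy.2
  have hker : NormLe P.L (op (P.ker t)) K := P.normLe_ker_of (by linarith) hker_s
  have hkfar : NormLe P.L (op (P.kfar t (R - 2 * E.D)))
      (ENNReal.ofReal (Real.exp (-(η * (R - 2 * E.D)))) * K) := by
    have := P.normLe_kfar (s := t - η) (t := t) (ρ := R - 2 * E.D) (by linarith) hker_s
    rw [show t - (t - η) = η by ring] at this
    exact this
  set κ : ℝ≥0∞ := ENNReal.ofReal (Real.exp (-(η * (R - 2 * E.D)))) * K with hκ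
  set c : ℝ≥0∞ := P.c t with hc
  have hc' : c = ENNReal.ofReal cr := rfl
  have hctop : c ≠ ⊤ := by rw [hc']; exact ENNReal.ofReal_ne_top
  have hcκ : c * κ < 1 := by
    rw [hc', hκ, ← ENNReal.ofReal_toReal hK, ← ENNReal.ofReal_mul (Real.exp_nonneg _),
      ← ENNReal.ofReal_mul (Real.exp_nonneg _), ← ENNReal.ofReal_one]
    exact (ENNReal.ofReal_lt_ofReal_iff one_pos).mpr hlt
  have hmain := P.PS_le ht0 hRD ha hua
  apply Cv.of_one (x := x) (y := x)
  refine ne_top_of_le_ne_top ?_ hmain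
  have hbound : ∑' k : ℕ, P.c t ^ (k + 1) *
      P.M t (P.R - 2 * P.E.D) (oi P.L (side P.W P.x, a)) k (side P.W P.x, a) ≤
      c * K + c ^ 2 * K ^ 2 * ∑' k : ℕ, (c * κ) ^ k := by
    rw [tsum_eq_zero_add' ENNReal.summable]
    apply add_le_add
    · rw [zero_add, pow_one]
      exact mul_le_mul_right ((P.normLe_M_zero hker).apply_oi _) _
    · rw [← ENNReal.tsum_mul_left]
      apply ENNReal.tsum_le_tsum
      intro k
      have h1 := (P.normLe_M_succ hker hkfar k).apply_oi (side P.W P.x, a)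
      calc P.c t ^ (k + 1 + 1) *
            P.M t (P.R - 2 * P.E.D) (oi P.L (side P.W P.x, a)) (k + 1) (side P.W P.x, a)
          ≤ c ^ (k + 1 + 1) * (K * (κ ^ k * K)) := mul_le_mul_right h1 _
        _ = c ^ 2 * K ^ 2 * (c * κ) ^ k := by ring
  refine ne_top_of_le_ne_top ?_ hbound
  apply ENNReal.add_ne_top.mpr
  refine ⟨ENNReal.mul_ne_top hctop hK, ?_⟩
  apply ENNReal.mul_ne_top
  · exact ENNReal.mul_ne_top (ENNReal.pow_ne_top hctop) (ENNReal.pow_ne_top hK)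
  · rw [ENNReal.tsum_geometric]
    apply ENNReal.inv_ne_top.mpr
    exact (tsub_pos_of_lt hcκ).ne'

end Pool.Agent.Lib.MP_247fd6_al
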