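import Pool.Agent.Lib.MP_247fd6_al.CA1

/-! Regions are again convex cocompact. -/

set_option autoImplicit false

open scoped Pointwise ENNReal

namespace Pool.Agent.Lib.MP_247fd6_al

variable {G X : Type} [Group G] [MulAction G X]

/-- a change of sides along a sequence -/
lemma CE1_step {X : Type} (h : Set X) (p : ℕ → X) (m : ℕ) (hs : Sepby h (p 0) (p m)) :
    ∃ i < m, Sepby h (p i) (p (i + 1)) := by
  induction m with
  | zero => exact absurd Iff.rfl hs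
  | succ m ih =>
    by_cases h1 : Sepby h (p 0) (p m)
    · obtain ⟨i, hi, hi'⟩ := ih h1
      exact ⟨i, by omega, hi'⟩
    · refine ⟨m, by omega, ?_⟩
      intro h2
      apply hs
      rw [Sepby, not_not] at h1
      exact h1.trans h2

/-- finitely many side functions on a bounded set -/
theorem finite_sides (S : Sys G X) (F : Set (Set X)) (hF : F ⊆ S.HS)
    (hfin : ∀ (x : X) (ρ : ℝ),
      {h | h ∈ F ∧ ∃ u u', Sepby h u u' ∧ S.d u u' ≤ S.C₀ ∧ S.d x u ≤ ρ}.Finite)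
    (x : X) (ρ : ℝ) : {τ | ∃ z, S.d x z ≤ ρ ∧ τ = side F z}.Finite := by
  have h1 := ((hfin x (ρ + S.C₀)).finite_subsets).image (fun φ => symmDiff (side F x) φ)
  refine h1.subset ?_
  rintro τ ⟨z, hz, rfl⟩
  refine ⟨symmDiff (side F x) (side F z), ?_, symmDiff_symmDiff_cancel_left _ _⟩
  intro h hh
  have hsep : h ∈ F ∧ Sepby h x z := by
    rw [Set.mem_symmDiff] at hh
    rcases hh with ⟨h2, h3⟩ | ⟨h2, h3⟩
    · refine ⟨h2.1, fun h4 => h3 ⟨h2.1, h4.mp h2.2⟩⟩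
    · refine ⟨h2.1, fun h4 => h3 ⟨h2.1, h4.mpr h2.2⟩⟩
  refine ⟨hsep.1, ?_⟩
  obtain ⟨m, p, hp0, hpm, hp1, hp2, -⟩ := S.path x z
  have hs : Sepby h (p 0) (p m) := by
    rw [hp0, hpm]
    exact hsep.2
  obtain ⟨i, hi, hi'⟩ := CE1_step h p m hs
  refine ⟨p i, p (i + 1), hi', hp1 i hi, ?_⟩
  have h2 := hp2 0 i m (Nat.zero_le _) hi.le le_rfl
  rw [hp0, hpm] at h2
  have h3 := S.nonneg (p i) z
  linarith

/-- representatives on the right -/
lemma CE1_reps {H : Type*} [Group H] (B A : Subgroup H) (hB : B.FiniteIndex) :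
    ∃ C : Finset H, (∀ c ∈ C, c ∈ A) ∧ ∀ g ∈ A, ∃ c ∈ C, ∃ γ ∈ B ⊓ A, g = γ * c := by
  classical
  have hfi : (B.subgroupOf A).FiniteIndex := inferInstance
  have hfin : Finite (A ⧸ B.subgroupOf A) := inferInstance
  obtain ⟨_⟩ := nonempty_fintype (A ⧸ B.subgroupOf A)
  refine ⟨Finset.univ.image (fun q : A ⧸ B.subgroupOf A => ((Quotient.out q : A) : H)⁻¹),
    ?_, ?_⟩
  · intro c hc
    rw [Finset.mem_image] at hc
    obtain ⟨q, _, rfl⟩ := hc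
    exact A.inv_mem (Quotient.out q).2
  · intro g hg
    obtain ⟨q, hq⟩ : ∃ q : A ⧸ B.subgroupOf A, q = QuotientGroup.mk (⟨g⁻¹, A.inv_mem hg⟩ : A) :=
      ⟨_, rfl⟩
    refine ⟨((Quotient.out q : A) : H)⁻¹, Finset.mem_image_of_mem _ (Finset.mem_univ q),
      g * (Quotient.out q : A), ⟨?_, A.mul_mem hg (Quotient.out q).2⟩, by group⟩
    have h1 : (QuotientGroup.mk (Quotient.out q) : A ⧸ B.subgroupOf A) =
        QuotientGroup.mk (⟨g⁻¹, A.inv_mem hg⟩ : A) := by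
      rw [← hq]
      exact Quotient.out_eq' q
    rw [eq_comm, QuotientGroup.eq, Subgroup.mem_subgroupOf] at h1
    simpa using h1

/-- a subgroup of finite index acts cocompactly -/
theorem dense_of_finiteIndex (S : Sys G X) (E : Amb S) (B : Subgroup G) (hB : B.FiniteIndex) :
    ∃ D : ℝ, ∀ z ∈ region E.F E.o, ∃ b ∈ B ⊓ E.A, S.d z (b • E.o) ≤ D := by
  obtain ⟨C, hC, hCr⟩ := CE1_reps B E.A hB
  refine ⟨E.D + ∑ c ∈ C, S.d (c • E.o) E.o, ?_⟩
  intro z hz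
  obtain ⟨a, ha, haz⟩ := E.dense z hz
  obtain ⟨c, hc, γ, hγ, rfl⟩ := hCr a ha
  refine ⟨γ, hγ, ?_⟩
  have h1 := S.tri z ((γ * c) • E.o) (γ • E.o)
  have h2 : S.d ((γ * c) • E.o) (γ • E.o) = S.d (c • E.o) E.o := by
    rw [mul_smul, S.inv]
  have h3 : S.d (c • E.o) E.o ≤ ∑ c ∈ C, S.d (c • E.o) E.o :=
    Finset.single_le_sum (f := fun c => S.d (c • E.o) E.o) (fun c _ => S.nonneg _ _) hc
  linarith

theorem Amb.exists_sub (S : Sys G X) (E : Amb S) (B : Subgroup G) (hB : B.FiniteIndex)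
    (F : Set (Set X)) (hF : F ⊆ S.HS) (hinv : ∀ g ∈ B, ∀ h ∈ F, g • h ∈ F)
    (hfin : ∀ (x : X) (ρ : ℝ),
      {h | h ∈ F ∧ ∃ u u', Sepby h u u' ∧ S.d u u' ≤ S.C₀ ∧ S.d x u ≤ ρ}.Finite)
    (y : X) (hy : y ∈ region E.F E.o) :
    ∃ E' : Amb S, E'.A = stb (B ⊓ E.A) F y ∧ E'.F = E.F ∪ F ∧ E'.o = y := by
  classical
  obtain ⟨D', hD'⟩ := dense_of_finiteIndex S E B hB
  have hreg : region E.F y = region E.F E.o := region_eq hy
  have hinv' : ∀ g ∈ B ⊓ E.A, ∀ h ∈ F, g • h ∈ F := fun g hg => hinv g hg.1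
  have hT := finite_sides S F hF hfin E.o D'
  let f : Set (Set X) → G := fun τ =>
    if h : ∃ b ∈ B ⊓ E.A, b⁻¹ • side F y = τ then h.choose else 1
  have hf : ∀ τ, (∃ b ∈ B ⊓ E.A, b⁻¹ • side F y = τ) →
      f τ ∈ B ⊓ E.A ∧ (f τ)⁻¹ • side F y = τ := by
    intro τ h
    have h1 : f τ = h.choose := dif_pos h
    rw [h1]
    exact h.choose_spec
  refine ⟨{ A := stb (B ⊓ E.A) F y, F := E.F ∪ F, sub := Set.union_subset E.sub hF, o := y,
            inv := ?_, D := D' + ∑ τ ∈ hT.toFinset, S.d E.o ((f τ)⁻¹ • y), dense := ?_ },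
          rfl, rfl, rfl⟩
  · intro a ha z hz
    rw [region_union, hreg] at hz ⊢
    have ha' : a ∈ (B ⊓ E.A) ∧ a • region F y = region F y := ha
    refine ⟨E.inv a ha'.1.2 z hz.1, ?_⟩
    rw [← ha'.2]
    exact Set.smul_mem_smul_set hz.2
  · intro z hz
    rw [region_union, hreg] at hz
    obtain ⟨b, hb, hbz⟩ := hD' z hz.1
    have hsz : side F z = side F y := side_eq_iff.mpr hz.2
    have hw : side F (b⁻¹ • z) = b⁻¹ • side F y := by
      rw [side_smul hinv' ((B ⊓ E.A).inv_mem hb), hsz]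
    have hτ : b⁻¹ • side F y ∈ hT.toFinset := by
      rw [Set.Finite.mem_toFinset]
      refine ⟨b⁻¹ • z, ?_, hw.symm⟩
      rw [← S.inv b, smul_inv_smul, S.symm]
      exact hbz
    obtain ⟨hfτ, hfτ'⟩ := hf (b⁻¹ • side F y) ⟨b, hb, rfl⟩
    obtain ⟨c, hc⟩ : ∃ c, c = f (b⁻¹ • side F y) := ⟨_, rfl⟩
    rw [← hc] at hfτ hfτ'
    have hac : b * c⁻¹ ∈ B ⊓ E.A := (B ⊓ E.A).mul_mem hb ((B ⊓ E.A).inv_mem hfτ)
    refine ⟨b * c⁻¹, ?_, ?_⟩
    · rw [mem_stb hinv']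
      refine ⟨hac, ?_⟩
      rw [← side_eq_iff, side_smul hinv' hac, mul_smul, hfτ', smul_inv_smul]
    · have h1 := S.tri z (b • E.o) ((b * c⁻¹) • y)
      have h2 : S.d (b • E.o) ((b * c⁻¹) • y) = S.d E.o (c⁻¹ • y) := by
        rw [mul_smul, S.inv]
      have h3 : S.d E.o (c⁻¹ • y) ≤ ∑ τ ∈ hT.toFinset, S.d E.o ((f τ)⁻¹ • y) := by
        rw [hc]
        exact Finset.single_le_sum (f := fun τ => S.d E.o ((f τ)⁻¹ • y))
          (fun τ _ => S.nonneg _ _) hτ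
      linarith

end Pool.Agent.Lib.MP_247fd6_al
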