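import Pool.Agent.Lib.MP_247fd6_al.CA1

/-! Finite generation. -/

set_option autoImplicit false

open scoped Pointwise ENNReal

namespace Pool.Agent.Lib.MP_247fd6_al

variable {G X : Type} [Group G] [MulAction G X]

theorem Amb.fg (S : Sys G X) (E : Amb S) : E.A.FG := by
  have hfin : {g : G | g ∈ E.A ∧ S.d E.o (g • E.o) ≤ 2 * E.D + S.C₀}.Finite :=
    (S.proper E.o (2 * E.D + S.C₀)).subset fun g hg => hg.2
  refine ⟨hfin.toFinset, ?_⟩
  rw [Set.Finite.coe_toFinset]
  apply le_antisymm
  · rw [Subgroup.closure_le]
    exact fun g hg => hg.1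
  · intro a ha
    obtain ⟨m, p, h0, hm, hstep, -, hcv⟩ := S.path E.o (a • E.o)
    have hreg : ∀ i ≤ m, p i ∈ region E.F E.o := by
      intro i hi
      refine path_mem_region E.sub hcv ?_ ?_ hi
      · rw [h0]; exact mem_region_self _ _
      · rw [hm]; exact E.inv a ha _ (mem_region_self _ _)
    have hD : 0 ≤ E.D := by
      obtain ⟨b, _, hb⟩ := E.dense E.o (mem_region_self _ _)
      exact le_trans (S.nonneg _ _) hb
    have hC := S.hC₀
    -- every element close to `p i` is in the closure
    have key : ∀ i ≤ m, ∀ b ∈ E.A, S.d (p i) (b • E.o) ≤ E.D →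
        b ∈ Subgroup.closure {g : G | g ∈ E.A ∧ S.d E.o (g • E.o) ≤ 2 * E.D + S.C₀} := by
      intro i
      induction i with
      | zero =>
        intro _ b hb hbd
        rw [h0] at hbd
        exact Subgroup.subset_closure ⟨hb, by linarith⟩
      | succ i ih =>
        intro hi b hb hbd
        obtain ⟨c, hc, hcd⟩ := E.dense (p i) (hreg i (by omega))
        have h1 := ih (by omega) c hc hcd
        have h2 : c⁻¹ * b ∈ Subgroup.closure
            {g : G | g ∈ E.A ∧ S.d E.o (g • E.o) ≤ 2 * E.D + S.C₀} := by
          apply Subgroup.subset_closure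
          refine ⟨E.A.mul_mem (E.A.inv_mem hc) hb, ?_⟩
          have e0 : S.d E.o ((c⁻¹ * b) • E.o) = S.d (c • E.o) (b • E.o) := by
            have := S.inv c E.o ((c⁻¹ * b) • E.o)
            rw [smul_smul, mul_inv_cancel_left] at this
            exact this.symm
          rw [e0]
          have e1 := S.tri (c • E.o) (p i) (b • E.o)
          have e2 := S.tri (p i) (p (i + 1)) (b • E.o)
          have e3 := S.symm (c • E.o) (p i)
          have e4 := hstep i (by omega)
          linarith
        have := Subgroup.mul_mem _ h1 h2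
        rwa [mul_inv_cancel_left] at this
    exact key m le_rfl a ha (by rw [hm, S.self]; exact hD)

end Pool.Agent.Lib.MP_247fd6_al
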