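import Pool.Agent.Lib.MP_247fd6_al.CA2
import Pool.Agent.Lib.MP_247fd6_al.CD7
import Pool.Agent.Lib.MP_247fd6_al.CE1

/-! The upper half of the interval. -/

set_option autoImplicit false

open scoped Pointwise ENNReal

namespace Pool.Agent.Lib.MP_247fd6_al

variable {G X : Type} [Group G] [MulAction G X]

/-- a family for a larger group is a family for a smaller one -/
theorem CF1_Fam_mono {S : Sys G X} {B B' : Subgroup G} {R : ℝ} {W : Set (Set X)}
    (h : Fam S B R W) (hB : B' ≤ B) : Fam S B' R W :=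
  ⟨h.sub, fun g hg => h.inv g (hB hg), h.sep, h.fin⟩

/-- the union of the first `j` families -/
def CF1_U (W : ℕ → Set (Set X)) (j : ℕ) : Set (Set X) := {h | ∃ i < j, h ∈ W i}

theorem CF1_U_succ (W : ℕ → Set (Set X)) (j : ℕ) : CF1_U W (j + 1) = CF1_U W j ∪ W j := by
  ext h
  simp only [CF1_U, Set.mem_ofPred_eq, Set.mem_union]
  constructor
  · rintro ⟨i, hi, hh⟩
    rcases Nat.lt_succ_iff_lt_or_eq.1 hi with h' | h'
    · exact Or.inl ⟨i, h', hh⟩
    · subst h'; exact Or.inr hh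
  · rintro (⟨i, hi, hh⟩ | hh)
    · exact ⟨i, by omega, hh⟩
    · exact ⟨j, by omega, hh⟩

theorem CF1_U_zero (W : ℕ → Set (Set X)) : CF1_U W 0 = ∅ := by
  ext h
  simp [CF1_U]

theorem CF1_U_fin {S : Sys G X} {B : Subgroup G} {R : ℝ} {W : ℕ → Set (Set X)} {j : ℕ}
    (hW : ∀ i < j, Fam S B R (W i)) (x : X) (ρ : ℝ) :
    {h | h ∈ CF1_U W j ∧ ∃ u u', Sepby h u u' ∧ S.d u u' ≤ S.C₀ ∧ S.d x u ≤ ρ}.Finite := by
  have h1 : (⋃ i ∈ (Set.Iio j), {h | h ∈ W i ∧ ∃ u u', Sepby h u u' ∧ S.d u u' ≤ S.C₀ ∧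
      S.d x u ≤ ρ}).Finite :=
    (Set.finite_Iio j).biUnion fun i hi => (hW i hi).fin x ρ
  refine h1.subset ?_
  rintro h ⟨⟨i, hi, hh⟩, hu⟩
  simp only [Set.mem_iUnion]
  exact ⟨i, hi, hh, hu⟩

theorem exists_mid (S : Sys G X) (hW : HasWalls S) (E : Amb S) {a b : ℝ} (ha : 0 ≤ a)
    (hab : a < b) (h1 : ∀ t > 2 * a, Cv S E.A t) (h2 : ∀ t < b, ¬ Cv S E.A t) :
    ∃ E' : Amb S, E'.A ≤ E.A ∧ (∃ s > a, ¬ Cv S E'.A s) ∧ ∃ t < b, 0 ≤ t ∧ Cv S E'.A t := by
  by_contra hno
  obtain ⟨η, hη⟩ : ∃ η : ℝ, η = (b - a) / 10 := ⟨_, rfl⟩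
  have hη0 : 0 < η := by rw [hη]; linarith
  obtain ⟨R₀, hR₀⟩ := step S E (t := a + 3 * η) (η := η) hη0 (by linarith) (by linarith)
    (h1 _ (by linarith))
  obtain ⟨B, r, W, hB, hW1, hW2⟩ := hW R₀
  have hHS : ∀ j ≤ r, CF1_U W j ⊆ S.HS := by
    rintro j hj h ⟨i, hi, hh⟩
    exact (hW1 i (by omega)).sub hh
  have hinv : ∀ j ≤ r, ∀ g ∈ B, ∀ h ∈ CF1_U W j, g • h ∈ CF1_U W j := by
    rintro j hj g hg h ⟨i, hi, hh⟩
    exact ⟨i, hi, (hW1 i (by omega)).inv g hg h hh⟩
  have key : ∀ k ≤ r, ∀ y ∈ region E.F E.o,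
      Cv S (stb (B ⊓ E.A) (CF1_U W (r - k)) y) (a + 3 * η) := by
    intro k
    induction k with
    | zero =>
      intro _ y _
      rw [Nat.sub_zero]
      obtain ⟨ρ, hρ⟩ := hW2 y
      refine Cv.of_finite S ((S.proper y ρ).subset ?_) _
      intro g hg
      have hg2 := hg.2
      rw [Set.mem_ofPred_eq]
      apply hρ
      have h3 : g • y ∈ region (CF1_U W r) y := by
        have h4 : g • region (CF1_U W r) y = region (CF1_U W r) y := hg2
        rw [← h4]
        exact Set.smul_mem_smul_set (mem_region_self _ _)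
      intro i hi h hh
      exact h3 h ⟨i, hi, hh⟩
    | succ k ih =>
      intro hk x hx
      have hj : r - k = (r - (k + 1)) + 1 := by omega
      have ih' := ih (by omega)
      rw [hj] at ih'
      set j := r - (k + 1) with hjdef
      have hjr : j < r := by omega
      refine hR₀ R₀ le_rfl (B ⊓ E.A) inf_le_right (CF1_U W j) (W j) (hHS j (by omega))
        (fun g hg h hh => hinv j (by omega) g hg.1 h hh)
        (CF1_Fam_mono (hW1 j hjr) inf_le_left) x hx ?_
      intro y hy hyx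
      by_contra hbad
      rw [← CF1_U_succ] at hbad
      obtain ⟨E', hE1, hE2, hE3⟩ := Amb.exists_sub S E B hB (CF1_U W (j + 1))
        (hHS (j + 1) (by omega)) (hinv (j + 1) (by omega))
        (CF1_U_fin fun i hi => hW1 i (by omega)) y hy
      apply hno
      refine ⟨E', ?_, ⟨a + η, by linarith, ?_⟩, a + 3 * η, by linarith, by linarith, ?_⟩
      · rw [hE1]
        exact inf_le_left.trans inf_le_right
      · rw [hE1]
        have : a + 3 * η - 2 * η = a + η := by ring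
        rw [← this]
        exact hbad
      · rw [hE1]
        exact ih' y hy
  have h0 := key r le_rfl E.o (mem_region_self _ _)
  rw [Nat.sub_self, CF1_U_zero] at h0
  have h3 : stb (B ⊓ E.A) ∅ E.o = B ⊓ E.A := by
    have h4 : region (∅ : Set (Set X)) E.o = Set.univ := by
      ext z
      simp [region]
    unfold stb
    rw [h4, inf_eq_left]
    intro g _
    rw [MulAction.mem_stabilizer_iff]
    exact Set.smul_set_univ
  rw [h3] at h0
  exact h2 _ (by linarith) (Cv.of_finiteIndex hB h0)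

end Pool.Agent.Lib.MP_247fd6_al
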