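import Pool.Agent.Lib.MP_247fd6_al.CF1
import Pool.Agent.Lib.MP_247fd6_al.CE2

/-! The recursion. -/

set_option autoImplicit false

open scoped Pointwise ENNReal

namespace Pool.Agent.Lib.MP_247fd6_al

variable {G X : Type} [Group G] [MulAction G X]

theorem CF2_not_Cv {S : Sys G X} {L : Subgroup G} {t : ℝ} (h0 : 0 < ex S L) (ht : t < ex S L) :
    ¬ Cv S L t := by
  intro h
  rcases le_or_gt 0 t with h1 | h1
  · exact not_Cv_of_lt_ex ht h1 h
  · exact not_Cv_of_lt_ex h0 le_rfl (h.mono_exp h1.le)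

theorem CF2_rec (S : Sys G X) (hW : HasWalls S) {a b : ℝ} (ha : 0 ≤ a) (hab : a < b) (n : ℕ) :
    ∀ E : Amb S, (∃ t, Cv S E.A t) → b ≤ ex S E.A → ex S E.A < (4 / 3) ^ n * (2 * b) →
      ∃ E' : Amb S, a < ex S E'.A ∧ ex S E'.A < b := by
  have hb0 : 0 < b := lt_of_le_of_lt ha hab
  -- the case of the upper half of the interval
  have hup : ∀ E : Amb S, (∃ t, Cv S E.A t) → b ≤ ex S E.A → ex S E.A / 2 < b →
      ∃ E' : Amb S, a < ex S E'.A ∧ ex S E'.A < b := by
    intro E hE hbE h2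
    have he0 : 0 < ex S E.A := lt_of_lt_of_le hb0 hbE
    obtain ⟨E', _, ⟨s, hs, hs'⟩, t, htb, ht0, ht⟩ := exists_mid S hW E
      (a := max a (ex S E.A / 2)) (b := b) (le_max_of_le_left ha) (max_lt hab h2)
      (fun t ht => Cv.of_ex_lt hE (by
        have := le_max_right a (ex S E.A / 2)
        linarith))
      (fun t ht => CF2_not_Cv he0 (lt_of_lt_of_le ht hbE))
    exact ⟨E', lt_of_le_of_lt (le_max_left _ _) (lt_ex_of_not_Cv ⟨t, ht⟩ hs hs'),
      ex_lt_of_Cv ht0 htb ht⟩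
  induction n with
  | zero =>
    intro E hE hbE h2
    exact hup E hE hbE (by rw [pow_zero, one_mul] at h2; linarith)
  | succ n ih =>
    intro E hE hbE h2
    rcases lt_or_ge (ex S E.A / 2) b with h3 | h3
    · exact hup E hE hbE h3
    · have he0 : 0 < ex S E.A := lt_of_lt_of_le hb0 hbE
      obtain ⟨E', _, ⟨s, hs, hs'⟩, t, htb, ht0, ht⟩ := exists_mid S hW E
        (a := ex S E.A / 2) (b := 3 / 4 * ex S E.A) (by linarith) (by linarith)
        (fun t ht => Cv.of_ex_lt hE (by linarith))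
        (fun t ht => CF2_not_Cv he0 (by linarith))
      have h4 := lt_ex_of_not_Cv ⟨t, ht⟩ hs hs'
      have h5 := ex_lt_of_Cv ht0 htb ht
      refine ih E' ⟨t, ht⟩ (by linarith) ?_
      rw [pow_succ] at h2
      linarith

theorem core_density (S : Sys G X) (hW : HasWalls S) (hfin : ∃ t, Cv S (⊤ : Subgroup G) t)
    (o : X) (D : ℝ) (hD : ∀ z, ∃ g : G, S.d z (g • o) ≤ D) {a b : ℝ} (ha : 0 ≤ a) (hab : a < b)
    (hb : b ≤ ex S ⊤) : ∃ L : Subgroup G, L.FG ∧ a < ex S L ∧ ex S L < b := by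
  have hb0 : 0 < b := lt_of_le_of_lt ha hab
  let E : Amb S :=
    { A := ⊤
      F := ∅
      sub := Set.empty_subset _
      o := o
      inv := fun _ _ z _ h hh => absurd hh (Set.notMem_empty h)
      D := D
      dense := fun z _ => by
        obtain ⟨g, hg⟩ := hD z
        exact ⟨g, Subgroup.mem_top g, hg⟩ }
  obtain ⟨n, hn⟩ := pow_unbounded_of_one_lt (ex S (⊤ : Subgroup G) / (2 * b))
    (show (1 : ℝ) < 4 / 3 by norm_num)
  rw [div_lt_iff₀ (by linarith)] at hn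
  obtain ⟨E', h1, h2⟩ := CF2_rec S hW ha hab n E hfin hb hn
  exact ⟨E'.A, Amb.fg S E', h1, h2⟩

end Pool.Agent.Lib.MP_247fd6_al
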