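import Mathlib

/-!
# MP_247fd6_al: definitions for the abstract part

A group acting on a hyperbolic space with half-spaces and paths, Poincare series, separated
families of walls, convex cocompact subgroups.
-/

set_option autoImplicit false

open scoped Pointwise ENNReal

namespace Pool.Agent.Lib.MP_247fd6_al

/-- an action of a group on a hyperbolic (pseudo)metric space, together with a class of
half-spaces and paths which are convex with respect to the half-spaces -/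
structure Sys (G X : Type) [Group G] [MulAction G X] where
  d : X → X → ℝ
  nonneg : ∀ x y, 0 ≤ d x y
  self : ∀ x, d x x = 0
  symm : ∀ x y, d x y = d y x
  tri : ∀ x y z, d x z ≤ d x y + d y z
  inv : ∀ (g : G) (x y : X), d (g • x) (g • y) = d x y
  δ : ℝ
  hyp : ∀ x y z w, d x z + d y w ≤ max (d x y + d z w) (d y z + d x w) + δ
  proper : ∀ (x : X) (r : ℝ), {g : G | d x (g • x) ≤ r}.Finite
  HS : Set (Set X)
  HSinv : ∀ (g : G), ∀ h ∈ HS, g • h ∈ HS
  C₀ : ℝ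
  hC₀ : 1 ≤ C₀
  path : ∀ x y : X, ∃ (m : ℕ) (p : ℕ → X), p 0 = x ∧ p m = y ∧
    (∀ i < m, d (p i) (p (i + 1)) ≤ C₀) ∧
    (∀ i j k, i ≤ j → j ≤ k → k ≤ m → d (p i) (p j) + d (p j) (p k) ≤ d (p i) (p k) + C₀) ∧
    ∀ h ∈ HS, ∀ i j k, i ≤ j → j ≤ k → k ≤ m → (p i ∈ h ↔ p k ∈ h) → (p j ∈ h ↔ p i ∈ h)

/-- the region of `x` cut out by `F` -/
def region {X : Type} (F : Set (Set X)) (x : X) : Set X := {z | ∀ h ∈ F, (z ∈ h ↔ x ∈ h)}

/-- `h` separates `x` and `y` -/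
def Sepby {X : Type} (h : Set X) (x y : X) : Prop := ¬ (x ∈ h ↔ y ∈ h)

/-- the side function of `x` -/
def side {X : Type} (W : Set (Set X)) (x : X) : Set (Set X) := {h | h ∈ W ∧ x ∈ h}

variable {G X : Type} [Group G] [MulAction G X]

/-- the subgroup of `B` preserving the region of `x` -/
def stb (B : Subgroup G) (F : Set (Set X)) (x : X) : Subgroup G :=
  B ⊓ MulAction.stabilizer G (region F x)

/-- the Poincare series -/
noncomputable def PS (S : Sys G X) (L : Subgroup G) (t : ℝ) (x y : X) : ℝ≥0∞ :=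
  ∑' g : L, ENNReal.ofReal (Real.exp (-(t * S.d x ((g : G) • y))))

/-- the Poincare series converges -/
def Cv (S : Sys G X) (L : Subgroup G) (t : ℝ) : Prop := ∀ x y : X, PS S L t x y ≠ ⊤

/-- the critical exponent -/
noncomputable def ex (S : Sys G X) (L : Subgroup G) : ℝ := sInf {t : ℝ | 0 ≤ t ∧ Cv S L t}

/-- an `R`-separated family of half-spaces -/
structure Fam (S : Sys G X) (B : Subgroup G) (R : ℝ) (W : Set (Set X)) : Prop where
  sub : W ⊆ S.HS
  inv : ∀ g ∈ B, ∀ h ∈ W, g • h ∈ W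
  sep : ∀ h ∈ W, ∀ h' ∈ W, h ≠ h' → ∀ x y x' y', Sepby h x y → S.d x y ≤ S.C₀ →
    Sepby h' x' y' → S.d x' y' ≤ S.C₀ → R ≤ S.d x x'
  fin : ∀ (x : X) (ρ : ℝ),
    {h | h ∈ W ∧ ∃ u u', Sepby h u u' ∧ S.d u u' ≤ S.C₀ ∧ S.d x u ≤ ρ}.Finite

/-- a subgroup acting cocompactly on a region -/
structure Amb (S : Sys G X) where
  A : Subgroup G
  F : Set (Set X)
  sub : F ⊆ S.HS
  o : X
  inv : ∀ a ∈ A, ∀ z ∈ region F o, a • z ∈ region F o
  D : ℝ
  dense : ∀ z ∈ region F o, ∃ a ∈ A, S.d z (a • o) ≤ D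

/-- wall families for all separations -/
def HasWalls (S : Sys G X) : Prop :=
  ∀ R : ℝ, ∃ (B : Subgroup G) (r : ℕ) (W : ℕ → Set (Set X)), B.FiniteIndex ∧
    (∀ i < r, Fam S B R (W i)) ∧
    ∀ x : X, ∃ ρ : ℝ, ∀ z : X, (∀ i < r, z ∈ region (W i) x) → S.d x z ≤ ρ

open Classical in
/-- the weight `exp (-t d(o, g o))` on `A`, extended by zero -/
noncomputable def wt (S : Sys G X) (A : Subgroup G) (o : X) (t : ℝ) (g : G) : ℝ≥0∞ :=
  if g ∈ A then ENNReal.ofReal (Real.exp (-(t * S.d o (g • o)))) else 0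

/-- convolution powers of the weight -/
noncomputable def cpow (S : Sys G X) (A : Subgroup G) (o : X) (t : ℝ) : ℕ → G → ℝ≥0∞
  | 0 => wt S A o t
  | n + 1 => fun h => ∑' g, cpow S A o t n g * wt S A o t (g⁻¹ * h)

/-! ### kernels and norms -/

/-- the operator with kernel `k` -/
noncomputable def op {Z : Type} (k : Z → Z → ℝ≥0∞) (ξ : Z → ℝ≥0∞) (z : Z) : ℝ≥0∞ :=
  ∑' z', k z z' * ξ z'

/-- the square of the `l²` norm of an invariant function on the quotient -/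
noncomputable def sqn (Λ : Type) {Z : Type} [Group Λ] [MulAction Λ Z] (ξ : Z → ℝ≥0∞) : ℝ≥0∞ :=
  ∑' i : MulAction.orbitRel.Quotient Λ Z, ξ (Quotient.out i) ^ 2

/-- the norm of `T` on the `l²` space of the quotient is at most `κ` -/
def NormLe (Λ : Type) {Z : Type} [Group Λ] [MulAction Λ Z]
    (T : (Z → ℝ≥0∞) → (Z → ℝ≥0∞)) (κ : ℝ≥0∞) : Prop :=
  ∀ ξ : Z → ℝ≥0∞, (∀ (l : Λ) (z : Z), ξ (l • z) = ξ z) →
    (∀ (l : Λ) (z : Z), T ξ (l • z) = T ξ z) ∧ sqn Λ (T ξ) ≤ κ ^ 2 * sqn Λ ξ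

open Classical in
/-- the indicator function of an orbit -/
noncomputable def oi (Λ : Type) {Z : Type} [Group Λ] [MulAction Λ Z] (z' z : Z) : ℝ≥0∞ :=
  if z ∈ MulAction.orbit Λ z' then 1 else 0

end Pool.Agent.Lib.MP_247fd6_al
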