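import Pool.Agent.Lib.MP_247fd6_al.GA

/-! Cauchy-Schwarz inequality on the orthogonal complement of a point; triangle inequality. -/

set_option autoImplicit false

open Matrix

namespace Pool.Agent.Lib.MP_247fd6_al

variable {n : ℕ}

theorem GB1_aux (y : HPt n) {u : Fin (n + 1) → ℝ} (h : bf u y.1 = 0) :
    u 0 ^ 2 * y.1 0 ^ 2 ≤ (∑ i : Fin n, u i.succ ^ 2) * (y.1 0 ^ 2 - 1) := by
  have hy := y.2.1
  unfold bf at h hy
  have h1 : ∑ i : Fin n, y.1 i.succ ^ 2 = y.1 0 ^ 2 - 1 := by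
    have : ∑ i : Fin n, y.1 i.succ ^ 2 = ∑ i : Fin n, y.1 i.succ * y.1 i.succ :=
      Finset.sum_congr rfl fun i _ => by ring
    rw [this]
    linarith [sq (y.1 0)]
  have h2 := Finset.sum_mul_sq_le_sq_mul_sq Finset.univ (fun i : Fin n => u i.succ)
    (fun i : Fin n => y.1 i.succ)
  rw [h1] at h2
  have h3 : ∑ i : Fin n, u i.succ * y.1 i.succ = u 0 * y.1 0 := by linarith
  rw [h3, mul_pow] at h2
  exact h2

theorem GB1_bf_self (u : Fin (n + 1) → ℝ) :
    bf u u = -(u 0 ^ 2) + ∑ i : Fin n, u i.succ ^ 2 := by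
  unfold bf
  congr 1
  · ring
  · exact Finset.sum_congr rfl fun i _ => by ring

/-- the form is nonnegative on the orthogonal complement of a point -/
theorem perp_nonneg (y : HPt n) {u : Fin (n + 1) → ℝ} (h : bf u y.1 = 0) : 0 ≤ bf u u := by
  have h1 := GB1_aux y h
  rw [GB1_bf_self]
  obtain ⟨S, hS⟩ : ∃ S, S = ∑ i : Fin n, u i.succ ^ 2 := ⟨_, rfl⟩
  have hS0 : 0 ≤ S := by
    rw [hS]; exact Finset.sum_nonneg fun i _ => sq_nonneg _
  rw [← hS] at h1 ⊢
  have hy := y.2.2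
  have hy2 : 0 < y.1 0 ^ 2 := by positivity
  by_contra hneg
  push Not at hneg
  have h2 : S < u 0 ^ 2 := by linarith
  have h3 : S * y.1 0 ^ 2 < u 0 ^ 2 * y.1 0 ^ 2 := mul_lt_mul_of_pos_right h2 hy2
  nlinarith

/-- the form is positive definite on the orthogonal complement of a point -/
theorem perp_eq_zero (y : HPt n) {u : Fin (n + 1) → ℝ} (h : bf u y.1 = 0) (h0 : bf u u = 0) :
    u = 0 := by
  have h1 := GB1_aux y h
  rw [GB1_bf_self] at h0
  obtain ⟨S, hS⟩ : ∃ S, S = ∑ i : Fin n, u i.succ ^ 2 := ⟨_, rfl⟩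
  rw [← hS] at h1 h0
  have h2 : S = u 0 ^ 2 := by linarith
  rw [h2] at h1
  have h3 : u 0 ^ 2 = 0 := by nlinarith [sq_nonneg (u 0)]
  have h4 : u 0 = 0 := by simpa using h3
  rw [h3] at h2
  rw [h2] at hS
  have h5 := (Finset.sum_eq_zero_iff_of_nonneg (fun i _ => sq_nonneg (u (Fin.succ i)))).1 hS.symm
  funext i
  refine Fin.cases ?_ (fun j => ?_) i
  · exact h4
  · have := h5 j (Finset.mem_univ _)
    simpa using this

/-- Cauchy-Schwarz inequality on the orthogonal complement of a point -/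
theorem perp_cs (y : HPt n) {u v : Fin (n + 1) → ℝ} (hu : bf u y.1 = 0) (hv : bf v y.1 = 0) :
    bf u v ^ 2 ≤ bf u u * bf v v := by
  have key : ∀ t : ℝ, 0 ≤ bf v v * (t * t) + (2 * bf u v) * t + bf u u := by
    intro t
    have h1 : bf (u + t • v) y.1 = 0 := by
      rw [bf_add_left, bf_smul_left, hu, hv]; ring
    have h2 := perp_nonneg y h1
    rw [bf_add_left, bf_add_right, bf_add_right, bf_smul_left, bf_smul_left, bf_smul_right,
      bf_smul_right, bf_comm v u] at h2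
    linarith
  have h := discrim_le_zero key
  unfold discrim at h
  nlinarith

theorem hd_tri (x y z : HPt n) : hd x z ≤ hd x y + hd y z := by
  obtain ⟨a, ha⟩ : ∃ a, a = Real.cosh (hd x y) := ⟨_, rfl⟩
  obtain ⟨c, hc⟩ : ∃ c, c = Real.cosh (hd y z) := ⟨_, rfl⟩
  have ha' : bf x.1 y.1 = -a := by rw [ha, cosh_hd]; ring
  have hc' : bf y.1 z.1 = -c := by rw [hc, cosh_hd]; ring
  have hy := y.2.1
  have hx := x.2.1
  have hz := z.2.1
  have h1 : bf (x.1 - a • y.1) y.1 = 0 := by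
    rw [bf_sub_left, bf_smul_left, hy, ha']; ring
  have h2 : bf (z.1 - c • y.1) y.1 = 0 := by
    rw [bf_sub_left, bf_smul_left, hy, bf_comm z.1, hc']; ring
  have h3 := perp_cs y h1 h2
  have h4 : bf (x.1 - a • y.1) (x.1 - a • y.1) = a ^ 2 - 1 := by
    rw [bf_sub_left, bf_sub_right, bf_sub_right, bf_smul_left, bf_smul_left, bf_smul_right,
      bf_smul_right, hx, hy, bf_comm y.1 x.1, ha']
    ring
  have h5 : bf (z.1 - c • y.1) (z.1 - c • y.1) = c ^ 2 - 1 := by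
    rw [bf_sub_left, bf_sub_right, bf_sub_right, bf_smul_left, bf_smul_left, bf_smul_right,
      bf_smul_right, hz, hy, bf_comm z.1 y.1, hc']
    ring
  have h6 : bf (x.1 - a • y.1) (z.1 - c • y.1) = bf x.1 z.1 + a * c := by
    rw [bf_sub_left, bf_sub_right, bf_sub_right, bf_smul_left, bf_smul_left, bf_smul_right,
      bf_smul_right, hy, hc', ha']
    ring
  rw [h4, h5, h6] at h3
  have h7 : a ^ 2 - 1 = Real.sinh (hd x y) ^ 2 := by
    rw [ha, Real.cosh_sq]; ring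
  have h8 : c ^ 2 - 1 = Real.sinh (hd y z) ^ 2 := by
    rw [hc, Real.cosh_sq]; ring
  rw [h7, h8, ← mul_pow] at h3
  have s1 : 0 ≤ Real.sinh (hd x y) := Real.sinh_nonneg_iff.2 (hd_nonneg _ _)
  have s2 : 0 ≤ Real.sinh (hd y z) := Real.sinh_nonneg_iff.2 (hd_nonneg _ _)
  have h9 := (abs_le.1 (abs_le_of_sq_le_sq h3 (mul_nonneg s1 s2))).1
  have h10 : Real.cosh (hd x z) ≤ Real.cosh (hd x y + hd y z) := by
    rw [Real.cosh_add, ← ha, ← hc, cosh_hd]
    linarith
  rw [Real.cosh_le_cosh, abs_of_nonneg (hd_nonneg _ _),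
    abs_of_nonneg (add_nonneg (hd_nonneg _ _) (hd_nonneg _ _))] at h10
  exact h10

theorem eq_of_hd_eq_zero {x y : HPt n} (h : hd x y = 0) : x = y := by
  have h1 := cosh_hd x y
  rw [h, Real.cosh_zero] at h1
  have h2 : bf x.1 y.1 = -1 := by linarith
  have hy := y.2.1
  have hx := x.2.1
  have h3 : bf (x.1 - y.1) y.1 = 0 := by
    rw [bf_sub_left, h2, hy]; ring
  have h4 : bf (x.1 - y.1) (x.1 - y.1) = 0 := by
    rw [bf_sub_left, bf_sub_right, bf_sub_right, hx, hy, bf_comm y.1 x.1, h2]; ring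
  have h5 := perp_eq_zero y h3 h4
  exact Subtype.ext (sub_eq_zero.1 h5)

end Pool.Agent.Lib.MP_247fd6_al
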