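import Pool.Agent.Lib.MP_247fd6_al.GB1

/-! Discreteness and properness. -/

set_option autoImplicit false

open Matrix

namespace Pool.Agent.Lib.MP_247fd6_al

variable {n : ℕ}

theorem GB2_coord_sq (v : Fin (n + 1) → ℝ) (i : Fin n) :
    v i.succ ^ 2 ≤ bf v v + v 0 ^ 2 := by
  rw [GB1_bf_self]
  have : v i.succ ^ 2 ≤ ∑ i : Fin n, v i.succ ^ 2 :=
    Finset.single_le_sum (f := fun i : Fin n => v i.succ ^ 2)
      (fun i _ => sq_nonneg _) (Finset.mem_univ i)
  linarith

theorem GB2_single (j : Fin n) :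
    bf (Pi.single j.succ (1 : ℝ) : Fin (n + 1) → ℝ) (Pi.single j.succ (1 : ℝ)) = 1 := by
  unfold bf
  rw [Finset.sum_eq_single j]
  · simp
  · intro b _ hb
    simp [hb]
  · intro h
    exact absurd (Finset.mem_univ j) h

/-- the entries of an element of `O⁺(n,1)` are bounded by its corner -/
theorem entry_le (g : Oplus n) (i j : Fin (n + 1)) : |g.1.val i j| ≤ g.1.val 0 0 := by
  have hg := g.2.1
  have hg0 : 0 < g.1.val 0 0 := g.2.2
  have hgT : (g.1.valᵀ)ᵀ * eta n * g.1.valᵀ = eta n := by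
    rw [transpose_transpose]
    exact mul_eta_transpose hg
  have hrow : ∀ k : Fin n, g.1.val 0 k.succ ^ 2 ≤ g.1.val 0 0 ^ 2 - 1 := by
    intro k
    have h1 := GB2_coord_sq (g.1.valᵀ *ᵥ e0v n) k
    rw [bf_mulVec hgT, mulVec_e0v, mulVec_e0v, transpose_apply, transpose_apply] at h1
    have h2 : bf (e0v n) (e0v n) = -1 := (e0 n).2.1
    rw [h2] at h1
    linarith
  refine Fin.cases ?_ (fun i => ?_) i
  · refine Fin.cases ?_ (fun j => ?_) j
    · rw [abs_of_pos hg0]
    · exact abs_le_of_sq_le_sq (by linarith [hrow j]) hg0.le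
  · refine Fin.cases ?_ (fun j => ?_) j
    · have h1 := GB2_coord_sq (g.1.val *ᵥ e0v n) i
      rw [bf_mulVec hg, mulVec_e0v, mulVec_e0v] at h1
      have h2 : bf (e0v n) (e0v n) = -1 := (e0 n).2.1
      rw [h2] at h1
      exact abs_le_of_sq_le_sq (by linarith) hg0.le
    · have h1 := GB2_coord_sq (g.1.val *ᵥ (Pi.single j.succ (1 : ℝ))) i
      rw [bf_mulVec hg, GB2_single] at h1
      simp only [mulVec_single_one, col_apply] at h1
      exact abs_le_of_sq_le_sq (by linarith [hrow j]) hg0.le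

/-- proper discontinuity -/
theorem disc_proper {Γ : Subgroup (Oplus n)} (h : Disc Γ) (x : HPt n) (r : ℝ) :
    {g : Γ | hd x (g • x) ≤ r}.Finite := by
  have h1 := (h (Real.cosh (r + 2 * hd (e0 n) x))).preimage
    (f := (Subtype.val : Γ → Oplus n)) Subtype.val_injective.injOn
  refine h1.subset ?_
  intro g hg
  have hg' : hd x ((g : Oplus n) • x) ≤ r := hg
  refine ⟨g.2, fun i j => ?_⟩
  refine (entry_le _ i j).trans ?_
  rw [← hd_e0_smul]
  have h2 : hd (e0 n) ((g : Oplus n) • e0 n) ≤ r + 2 * hd (e0 n) x := by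
    have t1 := hd_tri (e0 n) x ((g : Oplus n) • e0 n)
    have t2 := hd_tri x ((g : Oplus n) • x) ((g : Oplus n) • e0 n)
    rw [hd_smul, hd_symm x (e0 n)] at t2
    linarith
  rw [Real.cosh_le_cosh, abs_of_nonneg (hd_nonneg _ _)]
  exact h2.trans (le_abs_self _)

end Pool.Agent.Lib.MP_247fd6_al
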