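import Pool.Agent.Lib.MP_247fd6_al.GB1

/-! Ptolemy's inequality for the chordal distance, in the ball model. -/

set_option autoImplicit false

open Matrix

namespace Pool.Agent.Lib.MP_247fd6_al

variable {n : ℕ}

/-- the chordal distance -/
noncomputable def chd (x y : HPt n) : ℝ := Real.sqrt (2 * (-(bf x.1 y.1)) - 2)

theorem chd_eq (x y : HPt n) : chd x y = 2 * Real.sinh (hd x y / 2) := by
  have h0 : 0 ≤ hd x y := hd_nonneg x y
  have h1 : 0 ≤ Real.sinh (hd x y / 2) := Real.sinh_nonneg_iff.2 (by linarith)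
  have h2 : 2 * (-(bf x.1 y.1)) - 2 = (2 * Real.sinh (hd x y / 2)) ^ 2 := by
    rw [← cosh_hd]
    have h3 : hd x y = 2 * (hd x y / 2) := by ring
    have h4 : Real.cosh (hd x y) = Real.cosh (hd x y / 2) ^ 2 + Real.sinh (hd x y / 2) ^ 2 := by
      conv_lhs => rw [h3]
      exact Real.cosh_two_mul _
    have h5 := Real.cosh_sq (hd x y / 2)
    rw [h4, h5]
    ring
  unfold chd
  rw [h2, Real.sqrt_sq (by positivity)]

/-- the point of the unit ball -/
noncomputable def bp (x : HPt n) : EuclideanSpace ℝ (Fin n) :=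
  WithLp.toLp 2 (fun i => x.1 i.succ / (1 + x.1 0))

theorem chd_sq (x y : HPt n) : chd x y ^ 2 = 2 * (-(bf x.1 y.1)) - 2 := by
  unfold chd
  rw [Real.sq_sqrt]
  have := one_le_neg_bf x y
  linarith

theorem GC1_sum_sq (x : HPt n) : ∑ i : Fin n, x.1 i.succ ^ 2 = x.1 0 ^ 2 - 1 := by
  have h := x.2.1
  unfold bf at h
  have : ∑ i : Fin n, x.1 i.succ ^ 2 = ∑ i : Fin n, x.1 i.succ * x.1 i.succ :=
    Finset.sum_congr rfl fun i _ => sq _
  rw [this]
  linarith [sq (x.1 0)]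

theorem dist_bp (x y : HPt n) :
    dist (bp x) (bp y) ^ 2 * ((1 + x.1 0) * (1 + y.1 0)) = chd x y ^ 2 := by
  have hx0 := one_le_coord x
  have hy0 := one_le_coord y
  have hx := GC1_sum_sq x
  have hy := GC1_sum_sq y
  have hb : bf x.1 y.1 = -(x.1 0 * y.1 0) + ∑ i : Fin n, x.1 i.succ * y.1 i.succ := rfl
  rw [chd_sq, EuclideanSpace.dist_eq, Real.sq_sqrt (Finset.sum_nonneg fun i _ => sq_nonneg _)]
  have h1 : ∑ i : Fin n, dist ((bp x) i) ((bp y) i) ^ 2
      = (∑ i : Fin n, x.1 i.succ ^ 2) / (1 + x.1 0) ^ 2 + (∑ i : Fin n, y.1 i.succ ^ 2) / (1 + y.1 0) ^ 2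
        - 2 * (∑ i : Fin n, x.1 i.succ * y.1 i.succ) / ((1 + x.1 0) * (1 + y.1 0)) := by
    rw [Finset.sum_div, Finset.sum_div, Finset.mul_sum, Finset.sum_div, ← Finset.sum_add_distrib,
      ← Finset.sum_sub_distrib]
    refine Finset.sum_congr rfl fun i _ => ?_
    have h2 : dist ((bp x) i) ((bp y) i) = |x.1 i.succ / (1 + x.1 0) - y.1 i.succ / (1 + y.1 0)| := by
      rw [Real.dist_eq]; rfl
    rw [h2, sq_abs]
    have hx1 : (1 + x.1 0) ≠ 0 := by linarith
    have hy1 : (1 + y.1 0) ≠ 0 := by linarith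
    field_simp
    ring
  rw [h1, hx, hy, hb]
  have hx1 : (1 + x.1 0) ≠ 0 := by linarith
  have hy1 : (1 + y.1 0) ≠ 0 := by linarith
  field_simp
  ring

theorem GC1_chd_eq (x y : HPt n) :
    chd x y = dist (bp x) (bp y) * (Real.sqrt (1 + x.1 0) * Real.sqrt (1 + y.1 0)) := by
  have hx0 := one_le_coord x
  have hy0 := one_le_coord y
  have h1 : 0 ≤ chd x y := Real.sqrt_nonneg _
  have h2 : 0 ≤ dist (bp x) (bp y) * (Real.sqrt (1 + x.1 0) * Real.sqrt (1 + y.1 0)) := by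
    positivity
  rw [← sq_eq_sq₀ h1 h2, ← dist_bp, mul_pow, mul_pow, Real.sq_sqrt (by linarith),
    Real.sq_sqrt (by linarith)]

theorem ptolemy (x y z w : HPt n) :
    chd x z * chd y w ≤ chd x y * chd z w + chd y z * chd x w := by
  have h := EuclideanGeometry.mul_dist_le_mul_dist_add_mul_dist (bp x) (bp y) (bp z) (bp w)
  rw [GC1_chd_eq x z, GC1_chd_eq y w, GC1_chd_eq x y, GC1_chd_eq z w, GC1_chd_eq y z,
    GC1_chd_eq x w]
  set a := Real.sqrt (1 + x.1 0) with ha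
  set b := Real.sqrt (1 + y.1 0) with hb
  set c := Real.sqrt (1 + z.1 0) with hc
  set d := Real.sqrt (1 + w.1 0) with hd'
  have hP : 0 ≤ a * b * c * d := by positivity
  have h2 := mul_le_mul_of_nonneg_right h hP
  nlinarith [h2]

end Pool.Agent.Lib.MP_247fd6_al
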