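import Pool.Agent.Lib.MP_247fd6_al.GC1

/-! Hyperbolicity: the four point condition. -/

set_option autoImplicit false

open Matrix

namespace Pool.Agent.Lib.MP_247fd6_al

variable {n : ℕ}

theorem GC2_le_exp (t : ℝ) : 2 * Real.sinh (t / 2) ≤ Real.exp (t / 2) := by
  rw [Real.sinh_eq]
  have := Real.exp_pos (-(t / 2))
  linarith

theorem GC2_exp_le {t : ℝ} (ht : 1 ≤ t) : Real.exp (t / 2) / 2 ≤ 2 * Real.sinh (t / 2) := by
  rw [Real.sinh_eq]
  have h1 : Real.exp (-(t / 2)) * 2 ≤ Real.exp (t / 2) := by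
    have h2 : Real.exp (t / 2) = Real.exp (-(t / 2)) * Real.exp t := by
      rw [← Real.exp_add]; congr 1; ring
    rw [h2]
    refine mul_le_mul_of_nonneg_left ?_ (Real.exp_pos _).le
    have := Real.add_one_le_exp t
    linarith
  linarith

theorem GC2_main {a b c d e f : ℝ} (ha : 1 ≤ a) (hb : 1 ≤ b) (hc : 0 ≤ c) (he : 0 ≤ e)
    (hd' : 0 ≤ d) (hf : 0 ≤ f)
    (h : (2 * Real.sinh (a / 2)) * (2 * Real.sinh (b / 2)) ≤
      (2 * Real.sinh (c / 2)) * (2 * Real.sinh (d / 2)) +
      (2 * Real.sinh (e / 2)) * (2 * Real.sinh (f / 2))) :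
    a + b ≤ max (c + d) (e + f) + 10 := by
  set M := max (c + d) (e + f) with hM
  have h1 : Real.exp ((a + b) / 2) / 4 ≤ (2 * Real.sinh (a / 2)) * (2 * Real.sinh (b / 2)) := by
    have h2 : Real.exp ((a + b) / 2) / 4 = (Real.exp (a / 2) / 2) * (Real.exp (b / 2) / 2) := by
      have : Real.exp ((a + b) / 2) = Real.exp (a / 2) * Real.exp (b / 2) := by
        rw [← Real.exp_add]; congr 1; ring
      rw [this]; ring
    rw [h2]
    exact mul_le_mul (GC2_exp_le ha) (GC2_exp_le hb) (by positivity)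
      (le_trans (by positivity) (GC2_exp_le ha))
  have hs : ∀ t : ℝ, 0 ≤ t → 0 ≤ 2 * Real.sinh (t / 2) := fun t ht => by
    have : 0 ≤ Real.sinh (t / 2) := Real.sinh_nonneg_iff.2 (by linarith)
    linarith
  have h3 : (2 * Real.sinh (c / 2)) * (2 * Real.sinh (d / 2)) ≤ Real.exp (M / 2) := by
    calc (2 * Real.sinh (c / 2)) * (2 * Real.sinh (d / 2))
        ≤ Real.exp (c / 2) * Real.exp (d / 2) :=
          mul_le_mul (GC2_le_exp c) (GC2_le_exp d) (hs d hd') (Real.exp_pos _).le
      _ = Real.exp ((c + d) / 2) := by rw [← Real.exp_add]; congr 1; ring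
      _ ≤ Real.exp (M / 2) := by
          apply Real.exp_le_exp.2
          have := le_max_left (c + d) (e + f)
          linarith
  have h4 : (2 * Real.sinh (e / 2)) * (2 * Real.sinh (f / 2)) ≤ Real.exp (M / 2) := by
    calc (2 * Real.sinh (e / 2)) * (2 * Real.sinh (f / 2))
        ≤ Real.exp (e / 2) * Real.exp (f / 2) :=
          mul_le_mul (GC2_le_exp e) (GC2_le_exp f) (hs f hf) (Real.exp_pos _).le
      _ = Real.exp ((e + f) / 2) := by rw [← Real.exp_add]; congr 1; ring
      _ ≤ Real.exp (M / 2) := by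
          apply Real.exp_le_exp.2
          have := le_max_right (c + d) (e + f)
          linarith
  have h5 : Real.exp ((a + b) / 2) ≤ 8 * Real.exp (M / 2) := by linarith
  have h6 : (8 : ℝ) ≤ Real.exp 5 := by
    have h7 : Real.exp 5 = Real.exp 1 ^ 5 := by
      rw [← Real.exp_nat_mul]; norm_num
    rw [h7]
    have h8 : (2 : ℝ) ≤ Real.exp 1 := by
      have := Real.add_one_le_exp (1 : ℝ)
      linarith
    calc (8 : ℝ) ≤ 2 ^ 5 := by norm_num
      _ ≤ Real.exp 1 ^ 5 := pow_le_pow_left₀ (by norm_num) h8 5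
  have h9 : Real.exp ((a + b) / 2) ≤ Real.exp (5 + M / 2) := by
    rw [Real.exp_add]
    exact h5.trans (mul_le_mul_of_nonneg_right h6 (Real.exp_pos _).le)
  have h10 := Real.exp_le_exp.1 h9
  linarith

theorem hd_hyp (x y z w : HPt n) :
    hd x z + hd y w ≤ max (hd x y + hd z w) (hd y z + hd x w) + 10 := by
  by_cases ha : 1 ≤ hd x z
  · by_cases hb : 1 ≤ hd y w
    · refine GC2_main ha hb (hd_nonneg _ _) (hd_nonneg _ _) (hd_nonneg _ _) (hd_nonneg _ _) ?_
      have h := ptolemy x y z w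
      simp only [chd_eq] at h
      exact h
    · push Not at hb
      have h1 := hd_tri x y z
      have h2 := hd_tri x w y
      have h3 := hd_symm w y
      have h4 := le_max_right (hd x y + hd z w) (hd y z + hd x w)
      linarith
  · push Not at ha
    have h1 := hd_tri y x w
    have h2 := hd_tri y z x
    have h3 := hd_symm z x
    have h5 := hd_symm y x
    have h4 := le_max_right (hd x y + hd z w) (hd y z + hd x w)
    linarith

end Pool.Agent.Lib.MP_247fd6_al
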