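import Pool.Agent.Lib.MP_247fd6_al.Defs
import Pool.Agent.Lib.MP_247fd6_al.GB1

/-! Points of segments. -/

set_option autoImplicit false

open Matrix

namespace Pool.Agent.Lib.MP_247fd6_al

variable {n : ℕ}

theorem GD1_bf_comb (x y : HPt n) (a b a' b' : ℝ) :
    bf (a • x.1 + b • y.1) (a' • x.1 + b' • y.1) =
      -(a * a' + b * b' + (a * b' + a' * b) * Real.cosh (hd x y)) := by
  rw [cosh_hd]
  simp only [bf_add_left, bf_add_right, bf_smul_left, bf_smul_right, x.2.1, y.2.1, bf_comm y.1 x.1]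
  ring

/-- normalised combinations of two points -/
theorem comb_pos {x y : HPt n} {a b : ℝ} (ha : 0 ≤ a) (hb : 0 ≤ b)
    (h : a ^ 2 + b ^ 2 + 2 * a * b * Real.cosh (hd x y) = 1) :
    ∃ z : HPt n, z.1 = a • x.1 + b • y.1 := by
  refine ⟨⟨a • x.1 + b • y.1, ?_, ?_⟩, rfl⟩
  · rw [GD1_bf_comb]
    linarith [sq a, sq b]
  · simp only [Pi.add_apply, Pi.smul_apply, smul_eq_mul]
    have hx := x.2.2
    have hy := y.2.2
    rcases lt_or_eq_of_le ha with h1 | h1
    · have h2 : 0 < a * x.1 0 := mul_pos h1 hx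
      have h3 : 0 ≤ b * y.1 0 := mul_nonneg hb hy.le
      linarith
    · rcases lt_or_eq_of_le hb with h2 | h2
      · have h3 : 0 ≤ a * x.1 0 := mul_nonneg ha hx.le
        have h4 : 0 < b * y.1 0 := mul_pos h2 hy
        linarith
      · rw [← h1, ← h2] at h
        norm_num at h

/-- a point of the segment which lies on a hyperplane separating the endpoints -/
theorem exists_cross (x y : HPt n) (v : Fin (n + 1) → ℝ) (h : Sepby (hs v) x y) :
    ∃ z : HPt n, bf z.1 v = 0 ∧ hd x z ≤ hd x y := by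
  set α := bf x.1 v with hα
  set β := bf y.1 v with hβ
  have h1 : |β| * α + |α| * β = 0 := by
    unfold Sepby hs at h
    simp only [Set.mem_ofPred_eq, ← hα, ← hβ] at h
    rcases le_or_gt 0 α with h2 | h2 <;> rcases le_or_gt 0 β with h3 | h3
    · exact absurd (iff_of_true h2 h3) h
    · rw [abs_of_nonneg h2, abs_of_neg h3]; ring
    · rw [abs_of_neg h2, abs_of_nonneg h3]; ring
    · exact absurd (iff_of_false (not_le.2 h2) (not_le.2 h3)) h
  have hne : α ≠ 0 ∨ β ≠ 0 := by
    by_contra hc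
    push Not at hc
    unfold Sepby hs at h
    simp only [Set.mem_ofPred_eq, ← hα, ← hβ] at h
    exact h (iff_of_true hc.1.ge hc.2.ge)
  set c := Real.cosh (hd x y) with hc
  have hc1 : 1 ≤ c := Real.one_le_cosh _
  set N := |β| ^ 2 + |α| ^ 2 + 2 * |β| * |α| * c with hN
  have hN0 : 0 < N := by
    have h3 : 0 ≤ 2 * |β| * |α| * c := by positivity
    rcases hne with h2 | h2
    · have : 0 < |α| ^ 2 := by positivity
      have : 0 ≤ |β| ^ 2 := by positivity
      linarith
    · have : 0 ≤ |α| ^ 2 := by positivity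
      have : 0 < |β| ^ 2 := by positivity
      linarith
  have hs0 : 0 < Real.sqrt N := Real.sqrt_pos.2 hN0
  have hs2 : Real.sqrt N ^ 2 = N := Real.sq_sqrt hN0.le
  set a := |β| / Real.sqrt N with ha
  set b := |α| / Real.sqrt N with hb
  have ha0 : 0 ≤ a := by positivity
  have hb0 : 0 ≤ b := by positivity
  have hab : a ^ 2 + b ^ 2 + 2 * a * b * c = 1 := by
    rw [ha, hb]
    field_simp
    rw [hs2, hN]
    ring
  obtain ⟨z, hz⟩ := comb_pos ha0 hb0 hab
  refine ⟨z, ?_, ?_⟩
  · rw [hz, bf_add_left, bf_smul_left, bf_smul_left, ← hα, ← hβ, ha, hb]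
    rw [div_mul_eq_mul_div, div_mul_eq_mul_div, ← add_div, h1, zero_div]
  · have h2 : Real.cosh (hd x z) = a + b * c := by
      rw [cosh_hd, hz, bf_add_right, bf_smul_right, bf_smul_right, x.2.1, hc, cosh_hd]
      ring
    have hb1 : b ^ 2 ≤ 1 := by
      have : 0 ≤ 2 * a * b * c := by positivity
      nlinarith [sq_nonneg a]
    have h3 : (a + b * c) ^ 2 ≤ c ^ 2 := by
      have h4 : (a + b * c) ^ 2 = 1 + b ^ 2 * (c ^ 2 - 1) := by
        linear_combination hab
      rw [h4]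
      have h5 : 0 ≤ c ^ 2 - 1 := by nlinarith
      nlinarith
    have h4 : a + b * c ≤ c := by
      exact le_trans (le_abs_self _) (abs_le_of_sq_le_sq h3 (by linarith))
    rw [← h2, hc, Real.cosh_le_cosh, abs_of_nonneg (hd_nonneg _ _),
      abs_of_nonneg (hd_nonneg _ _)] at h4
    exact h4

theorem smul_hs (g : Oplus n) (v : Fin (n + 1) → ℝ) :
    (fun x : HPt n => g • x) '' hs v = hs (g.1.val *ᵥ v) := by
  ext y
  constructor
  · rintro ⟨x, hx, rfl⟩
    change 0 ≤ bf (g • x).1 (g.1.val *ᵥ v)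
    rw [coe_smul, bf_mulVec g.2.1]
    exact hx
  · intro hy
    refine ⟨g⁻¹ • y, ?_, smul_inv_smul g y⟩
    change 0 ≤ bf (g⁻¹ • y).1 v
    rw [← bf_mulVec g.2.1, ← coe_smul, smul_inv_smul]
    exact hy

end Pool.Agent.Lib.MP_247fd6_al
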