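import Pool.Agent.Lib.MP_247fd6_al.GD2

/-! The discretised geodesic. -/

set_option autoImplicit false

open Matrix

namespace Pool.Agent.Lib.MP_247fd6_al

variable {n : ℕ}

/-- the discretised geodesic -/
theorem hd_path (x y : HPt n) : ∃ (m : ℕ) (p : ℕ → HPt n), p 0 = x ∧ p m = y ∧
    (∀ i < m, hd (p i) (p (i + 1)) ≤ 1) ∧
    (∀ i j k, i ≤ j → j ≤ k → k ≤ m → hd (p i) (p j) + hd (p j) (p k) ≤ hd (p i) (p k) + 1) ∧
    ∀ v : Fin (n + 1) → ℝ, ∀ i j k, i ≤ j → j ≤ k → k ≤ m →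
      (p i ∈ hs v ↔ p k ∈ hs v) → (p j ∈ hs v ↔ p i ∈ hs v) := by
  obtain ⟨z, hz0, hz1, hz2, hz3⟩ := exists_geod x y
  have hd0 := hd_nonneg x y
  obtain ⟨m, hm⟩ : ∃ m : ℕ, m = ⌈hd x y⌉₊ := ⟨_, rfl⟩
  have hle : hd x y ≤ m := by rw [hm]; exact Nat.le_ceil _
  have hq : 0 ≤ hd x y / m := div_nonneg hd0 (Nat.cast_nonneg m)
  have hq1 : hd x y / m ≤ 1 := div_le_one_of_le₀ hle (Nat.cast_nonneg m)
  have hmq : (m : ℝ) * (hd x y / m) = hd x y := by
    rcases Nat.eq_zero_or_pos m with h | h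
    · rw [h] at hle ⊢
      norm_num at hle ⊢
      linarith
    · have : (m : ℝ) ≠ 0 := by positivity
      field_simp
  have hmono : ∀ i j : ℕ, i ≤ j → (i : ℝ) * (hd x y / m) ≤ j * (hd x y / m) := fun i j hij =>
    mul_le_mul_of_nonneg_right (by exact_mod_cast hij) hq
  have hnn : ∀ i : ℕ, 0 ≤ (i : ℝ) * (hd x y / m) := fun i => mul_nonneg (Nat.cast_nonneg i) hq
  have hmax : ∀ i : ℕ, i ≤ m → (i : ℝ) * (hd x y / m) ≤ hd x y := fun i hi => by
    have := hmono i m hi
    rwa [hmq] at this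
  refine ⟨m, fun i => z (i * (hd x y / m)), ?_, ?_, ?_, ?_, ?_⟩
  · simp only [Nat.cast_zero, zero_mul]
    exact hz0
  · simp only [hmq]
    exact hz1
  · intro i hi
    have h1 := hz2 _ _ (hnn i) (hmono i (i + 1) (Nat.le_succ i)) (hmax (i + 1) hi)
    simp only
    rw [h1]
    push_cast
    linarith
  · intro i j k hij hjk hkm
    have h1 := hz2 _ _ (hnn i) (hmono i j hij) (hmax j (by omega))
    have h2 := hz2 _ _ (hnn j) (hmono j k hjk) (hmax k hkm)
    have h3 := hz2 _ _ (hnn i) (hmono i k (by omega)) (hmax k hkm)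
    simp only
    rw [h1, h2, h3]
    linarith
  · intro v i j k hij hjk hkm hik
    obtain ⟨a, b, ha, hb, hab, h⟩ := hz3 _ _ _ (hnn i) (hmono i j hij) (hmono j k hjk)
      (hmax k hkm)
    simp only [hs, Set.mem_ofPred_eq] at hik ⊢
    rw [h, bf_add_left, bf_smul_left, bf_smul_left]
    set A := bf (z (i * (hd x y / m))).1 v
    set C := bf (z (k * (hd x y / m))).1 v
    rcases le_or_gt 0 A with h1 | h1
    · have h2 := hik.1 h1
      exact iff_of_true (add_nonneg (mul_nonneg ha h1) (mul_nonneg hb h2)) h1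
    · have h2 : C < 0 := by
        by_contra hc
        exact absurd (hik.2 (not_lt.1 hc)) (not_le.2 h1)
      refine iff_of_false (not_le.2 ?_) (not_le.2 h1)
      rcases lt_or_eq_of_le ha with h3 | h3
      · have := mul_neg_of_pos_of_neg h3 h1
        have := mul_nonpos_of_nonneg_of_nonpos hb h2.le
        linarith
      · have h4 : 0 < b := by linarith
        have := mul_neg_of_pos_of_neg h4 h2
        have := mul_nonpos_of_nonneg_of_nonpos ha h1.le
        linarith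

end Pool.Agent.Lib.MP_247fd6_al
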