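import Pool.Agent.Lib.MP_247fd6_al.GB2
import Pool.Agent.Lib.MP_247fd6_al.GC2
import Pool.Agent.Lib.MP_247fd6_al.GD3

/-! The system of a discrete group of isometries of hyperbolic space. -/

set_option autoImplicit false

open Matrix
open scoped Pointwise

namespace Pool.Agent.Lib.MP_247fd6_al

variable {n : ℕ}

theorem smul_hs' (Γ : Subgroup (Oplus n)) (g : Γ) (v : Fin (n + 1) → ℝ) :
    g • (hs v) = hs (g.1.1.val *ᵥ v) := smul_hs g.1 v

/-- the system of a discrete group of isometries of hyperbolic space -/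
noncomputable def hsys (Γ : Subgroup (Oplus n)) (hΓ : Disc Γ) : Sys Γ (HPt n) where
  d := hd
  nonneg := hd_nonneg
  self := hd_self
  symm := hd_symm
  tri := hd_tri
  inv g x y := hd_smul g.1 x y
  δ := 10
  hyp := hd_hyp
  proper := disc_proper hΓ
  HS := Set.range hs
  HSinv := by
    rintro g _ ⟨v, rfl⟩
    exact ⟨_, (smul_hs' Γ g v).symm⟩
  C₀ := 1
  hC₀ := le_refl 1
  path x y := by
    obtain ⟨m, p, h0, hm, h1, h2, h3⟩ := hd_path x y
    refine ⟨m, p, h0, hm, h1, h2, ?_⟩
    rintro _ ⟨v, rfl⟩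
    exact h3 v

end Pool.Agent.Lib.MP_247fd6_al
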