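import Pool.Agent.Lib.MP_247fd6_al.GB1

/-! Distance of hyperplanes; separated bounded sets are finite. -/

set_option autoImplicit false

open Matrix

namespace Pool.Agent.Lib.MP_247fd6_al

variable {n : ℕ}

/-- hyperplanes with large product of the normal vectors are far apart -/
theorem hd_ge_of_walls {u u' : HPt n} {w w' : Fin (n + 1) → ℝ} {q ρ : ℝ} (hq : 0 < q)
    (hw : bf w w = q) (hw' : bf w' w' = q) (hρ : 0 ≤ ρ) (h : Real.cosh ρ * q ≤ |bf w w'|)
    (hu : bf u.1 w = 0) (hu' : bf u'.1 w' = 0) : ρ ≤ hd u u' := by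
  obtain ⟨c, hc⟩ : ∃ c, c = Real.cosh (hd u u') := ⟨_, rfl⟩
  have hc1 : bf u.1 u'.1 = -c := by rw [hc, cosh_hd]; ring
  have hcpos : 0 < c := by rw [hc]; exact Real.cosh_pos _
  obtain ⟨β, hβ⟩ : ∃ β, β = bf u.1 w' := ⟨_, rfl⟩
  have huu := u.2.1
  have huu' := u'.2.1
  have e1 : bf (w' + β • u.1) u.1 = 0 := by
    rw [bf_add_left, bf_smul_left, huu, bf_comm w', ← hβ]; ring
  have e2 : bf (u'.1 - c • u.1) u.1 = 0 := by
    rw [bf_sub_left, bf_smul_left, huu, bf_comm u'.1, hc1]; ring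
  have e3 : bf (w' + β • u.1) (w' + β • u.1) = q + β ^ 2 := by
    rw [bf_add_left, bf_add_right, bf_add_right, bf_smul_left, bf_smul_left, bf_smul_right,
      bf_smul_right, hw', huu, bf_comm w' u.1, ← hβ]
    ring
  have e4 : bf (u'.1 - c • u.1) (u'.1 - c • u.1) = c ^ 2 - 1 := by
    rw [bf_sub_left, bf_sub_right, bf_sub_right, bf_smul_left, bf_smul_left, bf_smul_right,
      bf_smul_right, huu, huu', bf_comm u'.1 u.1, hc1]
    ring
  have e5 : bf (w' + β • u.1) (u'.1 - c • u.1) = -(β * c) := by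
    rw [bf_add_left, bf_sub_right, bf_sub_right, bf_smul_left, bf_smul_left, bf_smul_right,
      bf_smul_right, huu, hc1, bf_comm w' u'.1, hu', bf_comm w' u.1, ← hβ]
    ring
  have h1 := perp_cs u e1 e2
  rw [e3, e4, e5] at h1
  have h2 : q + β ^ 2 ≤ q * c ^ 2 := by nlinarith
  have e6 : bf w u.1 = 0 := by rw [bf_comm]; exact hu
  have e7 : bf w (w' + β • u.1) = bf w w' := by
    rw [bf_add_right, bf_smul_right, e6]; ring
  have h3 := perp_cs u e6 e1
  rw [e3, hw, e7] at h3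
  have h4 : bf w w' ^ 2 ≤ (q * c) ^ 2 := by
    calc bf w w' ^ 2 ≤ q * (q + β ^ 2) := h3
      _ ≤ q * (q * c ^ 2) := mul_le_mul_of_nonneg_left h2 hq.le
      _ = (q * c) ^ 2 := by ring
  have h5 : |bf w w'| ≤ q * c := abs_le_of_sq_le_sq h4 (by positivity)
  have h6 : Real.cosh ρ ≤ Real.cosh (hd u u') := by
    rw [← hc]
    have : Real.cosh ρ * q ≤ c * q := by linarith
    exact le_of_mul_le_mul_right this hq
  rw [Real.cosh_le_cosh, abs_of_nonneg hρ, abs_of_nonneg (hd_nonneg _ _)] at h6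
  exact h6

theorem GE2_coord (z : HPt n) (i : Fin (n + 1)) : |z.1 i| ≤ Real.cosh (hd (e0 n) z) := by
  have h0 : z.1 0 = Real.cosh (hd (e0 n) z) := by
    rw [cosh_hd]
    change _ = -(bf (e0v n) z.1)
    rw [bf_e0v_left, neg_neg]
  rw [← h0]
  refine Fin.cases ?_ (fun j => ?_) i
  · rw [abs_of_pos z.2.2]
  · have h1 := GB1_bf_self z.1
    rw [z.2.1] at h1
    have h2 : z.1 j.succ ^ 2 ≤ ∑ i : Fin n, z.1 i.succ ^ 2 :=
      Finset.single_le_sum (f := fun i : Fin n => z.1 i.succ ^ 2)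
        (fun i _ => sq_nonneg _) (Finset.mem_univ j)
    exact abs_le_of_sq_le_sq (by linarith) z.2.2.le

/-- distinct points of a separated set are separated in the coordinate space -/
theorem GE2_sep {z z' : HPt n} {ρ : ℝ} (hρ : 0 < ρ) (h : ρ ≤ hd z z') :
    Real.sqrt ((2 * Real.cosh ρ - 2) / (n + 1)) ≤ dist z.1 z'.1 := by
  have h1 : bf (z.1 - z'.1) (z.1 - z'.1) = 2 * Real.cosh (hd z z') - 2 := by
    rw [bf_sub_left, bf_sub_right, bf_sub_right, z.2.1, z'.2.1, bf_comm z'.1 z.1, cosh_hd]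
    ring
  have h2 : Real.cosh ρ ≤ Real.cosh (hd z z') := by
    rw [Real.cosh_le_cosh, abs_of_pos hρ, abs_of_nonneg (hd_nonneg _ _)]
    exact h
  obtain ⟨v, hv⟩ : ∃ v : Fin (n + 1) → ℝ, v = z.1 - z'.1 := ⟨_, rfl⟩
  rw [dist_eq_norm, ← hv]
  rw [← hv] at h1
  have h3 : bf v v ≤ (n + 1) * ‖v‖ ^ 2 := by
    rw [GB1_bf_self]
    have h4 : ∀ i, v i ^ 2 ≤ ‖v‖ ^ 2 := by
      intro i
      rw [← sq_abs (v i)]
      exact pow_le_pow_left₀ (abs_nonneg _) (norm_le_pi_norm v i) 2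
    have h5 : ∑ i : Fin n, v i.succ ^ 2 ≤ ∑ _i : Fin n, ‖v‖ ^ 2 :=
      Finset.sum_le_sum fun i _ => h4 _
    rw [Finset.sum_const, Finset.card_univ, Fintype.card_fin, nsmul_eq_mul] at h5
    have h6 := sq_nonneg (v 0)
    have h7 := sq_nonneg ‖v‖
    linarith
  refine Real.sqrt_le_iff.2 ⟨norm_nonneg _, ?_⟩
  rw [div_le_iff₀ (by positivity)]
  linarith

/-- a bounded set whose points are at distance at least `ρ > 0` is finite -/
theorem finite_of_sep (x : HPt n) (r ρ : ℝ) (hρ : 0 < ρ) (A : Set (HPt n))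
    (hA : ∀ z ∈ A, hd x z ≤ r) (hsep : ∀ z ∈ A, ∀ z' ∈ A, z ≠ z' → ρ ≤ hd z z') :
    A.Finite := by
  obtain ⟨ε, hε⟩ : ∃ ε, ε = Real.sqrt ((2 * Real.cosh ρ - 2) / (n + 1)) := ⟨_, rfl⟩
  have hε0 : 0 < ε := by
    rw [hε]
    apply Real.sqrt_pos.2
    have : 1 < Real.cosh ρ := Real.one_lt_cosh.2 hρ.ne'
    exact div_pos (by linarith) (by positivity)
  have hb : Bornology.IsBounded ((fun z : HPt n => z.1) '' A) := by
    rw [Metric.isBounded_iff_subset_closedBall 0]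
    refine ⟨Real.cosh (hd (e0 n) x + r), ?_⟩
    rintro _ ⟨z, hz, rfl⟩
    rw [mem_closedBall_zero_iff, pi_norm_le_iff_of_nonneg (Real.cosh_pos _).le]
    intro i
    rw [Real.norm_eq_abs]
    refine (GE2_coord z i).trans ?_
    rw [Real.cosh_le_cosh, abs_of_nonneg (hd_nonneg (e0 n) z)]
    exact ((hd_tri (e0 n) x z).trans (by linarith [hA z hz])).trans (le_abs_self _)
  have htb := hb.isCompact_closure.totallyBounded.subset subset_closure
  rw [Metric.totallyBounded_iff] at htb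
  obtain ⟨t, htfin, ht⟩ := htb (ε / 2) (by linarith)
  have hfin : ((fun z : HPt n => z.1) '' A).Finite := by
    have hcov : (fun z : HPt n => z.1) '' A ⊆
        ⋃ y ∈ t, (((fun z : HPt n => z.1) '' A) ∩ Metric.ball y (ε / 2)) := by
      intro a ha
      have h1 := ht ha
      simp only [Set.mem_iUnion] at h1 ⊢
      obtain ⟨y, hy, hya⟩ := h1
      exact ⟨y, hy, ha, hya⟩
    refine (Set.Finite.biUnion htfin fun y _ => ?_).subset hcov
    apply Set.Subsingleton.finite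
    rintro _ ⟨⟨a, ha, rfl⟩, ha2⟩ _ ⟨⟨b, hb, rfl⟩, hb2⟩
    by_contra hne
    have hab : a ≠ b := fun h => hne (by rw [h])
    have h1 := GE2_sep hρ (hsep a ha b hb hab)
    rw [← hε] at h1
    have h2 := dist_triangle_right a.1 b.1 y
    rw [Metric.mem_ball] at ha2 hb2
    linarith
  exact hfin.of_finite_image Subtype.val_injective.injOn

end Pool.Agent.Lib.MP_247fd6_al
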