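import Pool.Agent.Lib.MP_247fd6_al.GE1
import Pool.Agent.Lib.MP_247fd6_al.GE2

/-! Separated families of hyperplanes. -/

set_option autoImplicit false

open Matrix
open scoped Pointwise

namespace Pool.Agent.Lib.MP_247fd6_al

variable {n : ℕ}

/-- separated families of hyperplanes from separated normal vectors -/
theorem fam_of_vectors (Γ : Subgroup (Oplus n)) (hΓ : Disc Γ) (B : Subgroup Γ)
    (V : Set (Fin (n + 1) → ℝ)) (q R : ℝ) (hq : 0 < q) (hV : ∀ w ∈ V, bf w w = q)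
    (hinv : ∀ g ∈ B, ∀ w ∈ V, g.1.1.val *ᵥ w ∈ V) (hR : 0 ≤ R)
    (hsep : ∀ w ∈ V, ∀ w' ∈ V, w ≠ w' → Real.cosh (R + 2) * q ≤ |bf w w'|) :
    Fam (hsys Γ hΓ) B R (hs '' V) := by
  have key : ∀ w ∈ V, ∀ w' ∈ V, w ≠ w' → ∀ z z' : HPt n, bf z.1 w = 0 → bf z'.1 w' = 0 →
      R + 2 ≤ hd z z' := by
    intro w hw w' hw' hne z z' hz hz'
    exact hd_ge_of_walls hq (hV w hw) (hV w' hw') (by linarith) (hsep w hw w' hw' hne) hz hz'
  refine ⟨?_, ?_, ?_, ?_⟩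
  · rintro _ ⟨w, _, rfl⟩
    exact ⟨w, rfl⟩
  · rintro g hg _ ⟨w, hw, rfl⟩
    exact ⟨g.1.1.val *ᵥ w, hinv g hg w hw, (smul_hs' Γ g w).symm⟩
  · rintro _ ⟨w, hw, rfl⟩ _ ⟨w', hw', rfl⟩ hne x y x' y' hxy hd1 hxy' hd2
    change hd x y ≤ 1 at hd1
    change hd x' y' ≤ 1 at hd2
    change R ≤ hd x x'
    have hww : w ≠ w' := fun h => hne (by rw [h])
    obtain ⟨z, hz, hz2⟩ := exists_cross x y w hxy
    obtain ⟨z', hz', hz2'⟩ := exists_cross x' y' w' hxy'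
    have h1 := key w hw w' hw' hww z z' hz hz'
    have h2 := hd_tri z x z'
    have h3 := hd_tri x x' z'
    rw [hd_symm z x] at h2
    linarith
  · intro x ρ
    change {h | h ∈ hs '' V ∧ ∃ u u', Sepby h u u' ∧ hd u u' ≤ 1 ∧ hd x u ≤ ρ}.Finite
    have hch : ∀ h : Set (HPt n), ∃ z : HPt n,
        (h ∈ hs '' V ∧ ∃ u u', Sepby h u u' ∧ hd u u' ≤ 1 ∧ hd x u ≤ ρ) →
          (∃ w ∈ V, hs w = h ∧ bf z.1 w = 0) ∧ hd x z ≤ ρ + 1 := by
      intro h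
      by_cases hh : h ∈ hs '' V ∧ ∃ u u', Sepby h u u' ∧ hd u u' ≤ 1 ∧ hd x u ≤ ρ
      · obtain ⟨⟨w, hw, rfl⟩, u, u', hs1, h1, h2⟩ := hh
        obtain ⟨z, hz, hz2⟩ := exists_cross u u' w hs1
        refine ⟨z, fun _ => ⟨⟨w, hw, rfl, hz⟩, ?_⟩⟩
        have := hd_tri x u z
        linarith
      · exact ⟨x, fun h => absurd h hh⟩
    choose f hf using hch
    have hdist : ∀ h ∈ {h | h ∈ hs '' V ∧ ∃ u u', Sepby h u u' ∧ hd u u' ≤ 1 ∧ hd x u ≤ ρ},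
        ∀ h' ∈ {h | h ∈ hs '' V ∧ ∃ u u', Sepby h u u' ∧ hd u u' ≤ 1 ∧ hd x u ≤ ρ},
        h ≠ h' → R + 2 ≤ hd (f h) (f h') := by
      intro h hh h' hh' hne
      obtain ⟨⟨w, hw, hwh, hz⟩, _⟩ := hf h hh
      obtain ⟨⟨w', hw', hwh', hz'⟩, _⟩ := hf h' hh'
      refine key w hw w' hw' ?_ _ _ hz hz'
      intro he
      exact hne (by rw [← hwh, ← hwh', he])
    have hfin := finite_of_sep x (ρ + 1) 2 (by norm_num)
      (f '' {h | h ∈ hs '' V ∧ ∃ u u', Sepby h u u' ∧ hd u u' ≤ 1 ∧ hd x u ≤ ρ})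
      (by
        rintro _ ⟨h, hh, rfl⟩
        exact (hf h hh).2)
      (by
        rintro _ ⟨h, hh, rfl⟩ _ ⟨h', hh', rfl⟩ hne
        have := hdist h hh h' hh' (fun he => hne (by rw [he]))
        linarith)
    refine hfin.of_finite_image ?_
    intro h hh h' hh' he
    by_contra hne
    have h1 := hdist h hh h' hh' hne
    rw [he, hd_self] at h1
    linarith

end Pool.Agent.Lib.MP_247fd6_al
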