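import Mathlib

/-! Exponentially bounded counting functions. -/

set_option autoImplicit false

open scoped ENNReal

namespace Pool.Agent.Lib.MP_247fd6_al

/-- if the growth rate is positive then the counting function is bounded by an exponential -/
theorem bdd_of_limsup_pos {f : ℝ → ℝ} (h : 0 < Filter.limsup f Filter.atTop) :
    ∃ C : ℝ, ∀ᶠ r in Filter.atTop, f r ≤ C := by
  by_contra hC
  rw [Filter.limsup_eq] at h
  have h1 : {a | ∀ᶠ r in Filter.atTop, f r ≤ a} = ∅ := by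
    rw [Set.eq_empty_iff_forall_notMem]
    intro a ha
    exact hC ⟨a, ha⟩
  rw [h1, Real.sInf_empty] at h
  exact lt_irrefl _ h

/-- one layer of the series -/
theorem GF1_layer {I : Type} (ℓ : I → ℝ) (hfin : ∀ r, {i | ℓ i ≤ r}.Finite)
    (hnn : ∀ i, 0 ≤ ℓ i) {t : ℝ} (ht0 : 0 < t) (k : ℕ) :
    ∑' i : {i // ⌊ℓ i⌋₊ = k}, ENNReal.ofReal (Real.exp (-(t * ℓ i.1))) ≤
      ENNReal.ofReal (({i | ℓ i ≤ (k : ℝ) + 1}.ncard : ℝ) * Real.exp (-(t * k))) := by
  classical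
  have hsub : {i | ⌊ℓ i⌋₊ = k} ⊆ {i | ℓ i ≤ (k : ℝ) + 1} := by
    intro i hi
    have hi' : ⌊ℓ i⌋₊ = k := hi
    have h1 := Nat.lt_floor_add_one (ℓ i)
    rw [hi'] at h1
    exact h1.le
  have hf : {i | ⌊ℓ i⌋₊ = k}.Finite := (hfin _).subset hsub
  have : Fintype {i // ⌊ℓ i⌋₊ = k} := hf.fintype
  rw [tsum_fintype]
  have h2 : ∀ i : {i // ⌊ℓ i⌋₊ = k}, i ∈ (Finset.univ : Finset {i // ⌊ℓ i⌋₊ = k}) →
      ENNReal.ofReal (Real.exp (-(t * ℓ i.1))) ≤ ENNReal.ofReal (Real.exp (-(t * k))) := by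
    intro i _
    apply ENNReal.ofReal_le_ofReal
    apply Real.exp_le_exp.2
    have h3 : (k : ℝ) ≤ ℓ i.1 := by
      have := Nat.floor_le (hnn i.1)
      rwa [i.2] at this
    have := mul_le_mul_of_nonneg_left h3 ht0.le
    linarith
  refine (Finset.sum_le_card_nsmul _ _ _ h2).trans ?_
  rw [nsmul_eq_mul, ENNReal.ofReal_mul (Nat.cast_nonneg _), ENNReal.ofReal_natCast]
  gcongr
  rw [Finset.card_univ, ← Nat.card_eq_fintype_card]
  change {i | ⌊ℓ i⌋₊ = k}.ncard ≤ _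
  exact Set.ncard_le_ncard hsub (hfin _)

/-- exponentially bounded counting function: the Poincare series converges -/
theorem exists_conv {I : Type} (ℓ : I → ℝ) (hfin : ∀ r, {i | ℓ i ≤ r}.Finite) (C : ℝ)
    (hnn : ∀ i, 0 ≤ ℓ i)
    (hC : ∀ᶠ r in Filter.atTop, Real.log ({i | ℓ i ≤ r}.ncard : ℝ) / r ≤ C) {t : ℝ}
    (ht : C < t) (ht0 : 0 < t) :
    ∑' i, ENNReal.ofReal (Real.exp (-(t * ℓ i))) ≠ ⊤ := by
  classical
  have hC' : ∀ᶠ r : ℝ in Filter.atTop, ({i | ℓ i ≤ r}.ncard : ℝ) ≤ Real.exp (C * r) := by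
    filter_upwards [hC, Filter.eventually_gt_atTop 0] with r hr hr0
    rw [div_le_iff₀ hr0] at hr
    rcases Nat.eq_zero_or_pos ({i | ℓ i ≤ r}.ncard) with h0 | h0
    · rw [h0, Nat.cast_zero]
      exact (Real.exp_pos _).le
    · rw [← Real.log_le_iff_le_exp (by exact_mod_cast h0)]
      exact hr
  have hsum : Summable (fun k : ℕ =>
      ({i | ℓ i ≤ (k : ℝ) + 1}.ncard : ℝ) * Real.exp (-(t * k))) := by
    have hg : Summable (fun k : ℕ => Real.exp C * (Real.exp (C - t)) ^ k) := by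
      apply Summable.mul_left
      apply summable_geometric_of_lt_one (Real.exp_pos _).le
      rw [Real.exp_lt_one_iff]
      linarith
    apply Summable.of_norm_bounded_eventually_nat hg
    have h1 : Filter.Tendsto (fun k : ℕ => (k : ℝ) + 1) Filter.atTop Filter.atTop :=
      Filter.tendsto_atTop_add_const_right _ _ tendsto_natCast_atTop_atTop
    filter_upwards [h1.eventually hC'] with k hk
    rw [Real.norm_of_nonneg (by positivity)]
    calc ({i | ℓ i ≤ (k : ℝ) + 1}.ncard : ℝ) * Real.exp (-(t * k))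
        ≤ Real.exp (C * ((k : ℝ) + 1)) * Real.exp (-(t * k)) :=
          mul_le_mul_of_nonneg_right hk (Real.exp_pos _).le
      _ = Real.exp C * (Real.exp (C - t)) ^ k := by
          rw [← Real.exp_nat_mul, ← Real.exp_add, ← Real.exp_add]
          congr 1
          ring
  have h2 : ∑' i, ENNReal.ofReal (Real.exp (-(t * ℓ i))) =
      ∑' k : ℕ, ∑' i : {i // ⌊ℓ i⌋₊ = k}, ENNReal.ofReal (Real.exp (-(t * ℓ i.1))) := by
    rw [← (Equiv.sigmaFiberEquiv (fun i : I => ⌊ℓ i⌋₊)).tsum_eq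
      (fun i => ENNReal.ofReal (Real.exp (-(t * ℓ i)))), ENNReal.tsum_sigma']
    rfl
  rw [h2]
  refine ne_top_of_le_ne_top ?_ (ENNReal.tsum_le_tsum fun k => GF1_layer ℓ hfin hnn ht0 k)
  exact hsum.tsum_ofReal_ne_top

end Pool.Agent.Lib.MP_247fd6_al
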