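import Pool.Agent.Lib.MP_247fd6_al.GF1

/-! The growth rate is the abscissa of convergence. -/

set_option autoImplicit false

open scoped ENNReal

namespace Pool.Agent.Lib.MP_247fd6_al

/-- a convergent series bounds the counting function -/
theorem GF2_count {I : Type} (ℓ : I → ℝ) (hfin : ∀ r, {i | ℓ i ≤ r}.Finite) {t : ℝ}
    (ht : 0 ≤ t) (hS : ∑' i, ENNReal.ofReal (Real.exp (-(t * ℓ i))) ≠ ⊤) (r : ℝ) :
    ({i | ℓ i ≤ r}.ncard : ℝ) ≤
      (∑' i, ENNReal.ofReal (Real.exp (-(t * ℓ i)))).toReal * Real.exp (t * r) := by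
  classical
  have h1 : ∑ i ∈ (hfin r).toFinset, ENNReal.ofReal (Real.exp (-(t * ℓ i))) ≤
      ∑' i, ENNReal.ofReal (Real.exp (-(t * ℓ i))) := ENNReal.sum_le_tsum _
  have h2 : (((hfin r).toFinset.card : ℕ) : ℝ≥0∞) * ENNReal.ofReal (Real.exp (-(t * r))) ≤
      ∑ i ∈ (hfin r).toFinset, ENNReal.ofReal (Real.exp (-(t * ℓ i))) := by
    rw [← nsmul_eq_mul]
    apply Finset.card_nsmul_le_sum
    intro i hi
    apply ENNReal.ofReal_le_ofReal
    apply Real.exp_le_exp.2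
    have h3 : ℓ i ≤ r := by
      rw [Set.Finite.mem_toFinset] at hi
      exact hi
    have := mul_le_mul_of_nonneg_left h3 ht
    linarith
  have h3 := ENNReal.toReal_mono hS (h2.trans h1)
  rw [ENNReal.toReal_mul, ENNReal.toReal_natCast,
    ENNReal.toReal_ofReal (Real.exp_pos _).le] at h3
  rw [Set.ncard_eq_toFinset_card _ (hfin r)]
  have h4 : Real.exp (-(t * r)) * Real.exp (t * r) = 1 := by
    rw [← Real.exp_add, neg_add_cancel, Real.exp_zero]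
  calc (((hfin r).toFinset.card : ℕ) : ℝ)
      = (((hfin r).toFinset.card : ℕ) : ℝ) * Real.exp (-(t * r)) * Real.exp (t * r) := by
        rw [mul_assoc, h4, mul_one]
    _ ≤ _ := mul_le_mul_of_nonneg_right h3 (Real.exp_pos _).le

/-- the growth rate is the abscissa of convergence -/
theorem limsup_eq_sInf {I : Type} (ℓ : I → ℝ) (hfin : ∀ r, {i | ℓ i ≤ r}.Finite)
    (i₀ : I) (h0 : ℓ i₀ = 0) (hnn : ∀ i, 0 ≤ ℓ i)
    (hb : ∃ C, ∀ᶠ r in Filter.atTop, Real.log ({i | ℓ i ≤ r}.ncard : ℝ) / r ≤ C) :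
    Filter.limsup (fun r : ℝ => Real.log ({i | ℓ i ≤ r}.ncard : ℝ) / r) Filter.atTop =
      sInf {t : ℝ | 0 ≤ t ∧ ∑' i, ENNReal.ofReal (Real.exp (-(t * ℓ i))) ≠ ⊤} := by
  classical
  rw [Filter.limsup_eq]
  have hN : ∀ r : ℝ, 0 ≤ r → (1 : ℝ) ≤ ({i | ℓ i ≤ r}.ncard : ℝ) := by
    intro r hr
    have h1 : i₀ ∈ {i | ℓ i ≤ r} := by
      change ℓ i₀ ≤ r
      rw [h0]
      exact hr
    have h2 : 0 < {i | ℓ i ≤ r}.ncard := (Set.ncard_pos (hfin r)).2 ⟨i₀, h1⟩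
    exact_mod_cast h2
  have hA0 : ∀ a ∈ {a : ℝ | ∀ᶠ r in Filter.atTop,
      Real.log ({i | ℓ i ≤ r}.ncard : ℝ) / r ≤ a}, 0 ≤ a := by
    intro a ha
    obtain ⟨r, hr, hr0⟩ := ((ha : ∀ᶠ r : ℝ in Filter.atTop, _).and
      (Filter.eventually_ge_atTop (0 : ℝ))).exists
    exact (div_nonneg (Real.log_nonneg (hN r hr0)) hr0).trans hr
  have hmem : ∀ a ∈ {a : ℝ | ∀ᶠ r in Filter.atTop,
      Real.log ({i | ℓ i ≤ r}.ncard : ℝ) / r ≤ a}, ∀ ε : ℝ, 0 < ε →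
      a + ε ∈ {t : ℝ | 0 ≤ t ∧ ∑' i, ENNReal.ofReal (Real.exp (-(t * ℓ i))) ≠ ⊤} := by
    intro a ha ε hε
    have ha0 := hA0 a ha
    exact ⟨by linarith, exists_conv ℓ hfin a hnn ha (by linarith) (by linarith)⟩
  obtain ⟨C, hC⟩ := hb
  have hSne : {t : ℝ | 0 ≤ t ∧ ∑' i, ENNReal.ofReal (Real.exp (-(t * ℓ i))) ≠ ⊤}.Nonempty :=
    ⟨C + 1, hmem C hC 1 one_pos⟩
  have hSbdd : BddBelow {t : ℝ | 0 ≤ t ∧ ∑' i, ENNReal.ofReal (Real.exp (-(t * ℓ i))) ≠ ⊤} :=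
    ⟨0, fun t ht => ht.1⟩
  apply le_antisymm
  · apply le_csInf hSne
    rintro t ⟨ht0, htS⟩
    apply le_of_forall_pos_le_add
    intro ε hε
    apply csInf_le ⟨0, fun a ha => hA0 a ha⟩
    set P : ℝ := (∑' i, ENNReal.ofReal (Real.exp (-(t * ℓ i)))).toReal with hP
    have hP1 : 1 ≤ P := by
      have h1 : ENNReal.ofReal (Real.exp (-(t * ℓ i₀))) ≤
        ∑' i, ENNReal.ofReal (Real.exp (-(t * ℓ i))) := ENNReal.le_tsum i₀
      rw [h0, mul_zero, neg_zero, Real.exp_zero, ENNReal.ofReal_one] at h1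
      have h2 := ENNReal.toReal_mono htS h1
      rwa [ENNReal.toReal_one] at h2
    have hlim : Filter.Tendsto (fun r : ℝ => Real.log P / r) Filter.atTop (nhds 0) :=
      Filter.Tendsto.const_div_atTop Filter.tendsto_id _
    change ∀ᶠ r : ℝ in Filter.atTop, Real.log ({i | ℓ i ≤ r}.ncard : ℝ) / r ≤ t + ε
    filter_upwards [hlim.eventually (gt_mem_nhds hε), Filter.eventually_gt_atTop 0] with r hr hr0
    have h1 := GF2_count ℓ hfin ht0 htS r
    have h2 : Real.log ({i | ℓ i ≤ r}.ncard : ℝ) ≤ Real.log P + t * r := by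
      have h3 : (0 : ℝ) < ({i | ℓ i ≤ r}.ncard : ℝ) := lt_of_lt_of_le one_pos (hN r hr0.le)
      have h4 := Real.log_le_log h3 h1
      rwa [Real.log_mul (by linarith) (Real.exp_pos _).ne', Real.log_exp] at h4
    rw [div_le_iff₀ hr0]
    have h5 : Real.log P < ε * r := by
      rwa [div_lt_iff₀ hr0] at hr
    nlinarith
  · apply le_csInf ⟨C, hC⟩
    intro a ha
    apply le_of_forall_pos_le_add
    intro ε hε
    exact csInf_le hSbdd (hmem a ha ε hε)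

end Pool.Agent.Lib.MP_247fd6_al
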