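import Pool.Agent.Lib.MP_247fd6_al.CA2
import Pool.Agent.Lib.MP_247fd6_al.GE1
import Pool.Agent.Lib.MP_247fd6_al.GF2
import Pool.Agent.Lib.MP_247fd6_al.GG0

/-! The growth rate is the exponent. -/

set_option autoImplicit false

open Matrix
open scoped ENNReal Pointwise

namespace Pool.Agent.Lib.MP_247fd6_al

variable {n : ℕ}

/-- the elements of the image with small corner entry -/
theorem GG1_set (Γ : Subgroup (Oplus n)) (L : Subgroup Γ) {r : ℝ} (hr : 0 ≤ r) :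
    ({h | h ∈ im Γ L ∧ h.val 0 0 ≤ Real.cosh r} :
      Set (Matrix (Fin (n + 1)) (Fin (n + 1)) ℝ)ˣ) =
    (fun g : L => (((g : Γ) : Oplus n) : (Matrix (Fin (n + 1)) (Fin (n + 1)) ℝ)ˣ)) ''
      {g : L | hd (e0 n) ((g : Γ) • e0 n) ≤ r} := by
  have key : ∀ g : L, hd (e0 n) ((g : Γ) • e0 n) ≤ r ↔ g.1.1.1.val 0 0 ≤ Real.cosh r := by
    intro g
    rw [← hd_e0_smul g.1.1, Real.cosh_le_cosh, abs_of_nonneg (hd_nonneg _ _), abs_of_nonneg hr]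
    rfl
  ext h
  constructor
  · rintro ⟨h1, h2⟩
    unfold im at h1
    rw [Subgroup.mem_map] at h1
    obtain ⟨a, ha, rfl⟩ := h1
    rw [Subgroup.mem_map] at ha
    obtain ⟨b, hb, rfl⟩ := ha
    exact ⟨⟨b, hb⟩, (key ⟨b, hb⟩).2 h2, rfl⟩
  · rintro ⟨g, hg, rfl⟩
    exact ⟨⟨g.1.1, ⟨g.1, g.2, rfl⟩, rfl⟩, (key g).1 hg⟩

/-- the count in terms of the distance, for `r ≥ 0` -/
theorem gr_im (Γ : Subgroup (Oplus n)) (L : Subgroup Γ) {r : ℝ} (hr : 0 ≤ r) :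
    gr (im Γ L) r =
      Real.log ({g : L | hd (e0 n) ((g : Γ) • e0 n) ≤ r}.ncard : ℝ) / r := by
  unfold gr
  rw [GG1_set Γ L hr, Set.ncard_image_of_injective]
  intro g g' h
  exact Subtype.ext (Subtype.ext (Subtype.ext h))

theorem GG1_fin (Γ : Subgroup (Oplus n)) (hΓ : Disc Γ) (L : Subgroup Γ) (r : ℝ) :
    {g : L | hd (e0 n) ((g : Γ) • e0 n) ≤ r}.Finite :=
  Set.Finite.preimage (Set.injOn_of_injective Subtype.val_injective)
    ((hsys Γ hΓ).proper (e0 n) r)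

/-- the growth function is monotone in the subgroup -/
theorem GG1_mono (Γ : Subgroup (Oplus n)) (hΓ : Disc Γ) (L : Subgroup Γ) {r : ℝ} (hr : 0 ≤ r) :
    Real.log ({g : L | hd (e0 n) ((g : Γ) • e0 n) ≤ r}.ncard : ℝ) / r ≤ gr (im Γ ⊤) r := by
  rw [gr_im Γ ⊤ hr]
  apply div_le_div_of_nonneg_right _ hr
  have h1 : {g : L | hd (e0 n) ((g : Γ) • e0 n) ≤ r}.ncard ≤
      {g : (⊤ : Subgroup Γ) | hd (e0 n) ((g : Γ) • e0 n) ≤ r}.ncard := by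
    refine Set.ncard_le_ncard_of_injOn (fun g : L => (⟨g.1, Subgroup.mem_top _⟩ :
      (⊤ : Subgroup Γ))) ?_ ?_ (GG1_fin Γ hΓ ⊤ r)
    · intro g hg
      exact hg
    · intro g _ g' _ h
      have h5 : g.1 = g'.1 := congrArg (fun z : (⊤ : Subgroup Γ) => (z : Γ)) h
      exact Subtype.ext h5
  have h2 : (0 : ℝ) < ({g : L | hd (e0 n) ((g : Γ) • e0 n) ≤ r}.ncard : ℝ) := by
    have h3 : (1 : L) ∈ {g : L | hd (e0 n) ((g : Γ) • e0 n) ≤ r} := by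
      change hd (e0 n) (((1 : L) : Γ) • e0 n) ≤ r
      rw [Subgroup.coe_one, one_smul, hd_self]
      exact hr
    have h4 := (Set.ncard_pos (GG1_fin Γ hΓ L r)).2 ⟨1, h3⟩
    exact_mod_cast h4
  apply Real.log_le_log h2
  exact_mod_cast h1

theorem GG1_bdd (Γ : Subgroup (Oplus n)) (hΓ : Disc Γ)
    (hb : ∃ C, ∀ᶠ r in Filter.atTop, gr (im Γ ⊤) r ≤ C) (L : Subgroup Γ) :
    ∃ C, ∀ᶠ r in Filter.atTop,
      Real.log ({g : L | hd (e0 n) ((g : Γ) • e0 n) ≤ r}.ncard : ℝ) / r ≤ C := by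
  obtain ⟨C, hC⟩ := hb
  refine ⟨C, ?_⟩
  filter_upwards [hC, Filter.eventually_ge_atTop (0 : ℝ)] with r h1 h2
  exact (GG1_mono Γ hΓ L h2).trans h1

/-- convergence can be tested at the base point -/
theorem GG1_Cv (Γ : Subgroup (Oplus n)) (hΓ : Disc Γ) (L : Subgroup Γ) (t : ℝ) :
    Cv (hsys Γ hΓ) L t ↔
      ∑' g : L, ENNReal.ofReal (Real.exp (-(t * hd (e0 n) ((g : Γ) • e0 n)))) ≠ ⊤ := by
  constructor
  · intro h
    exact h (e0 n) (e0 n)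
  · intro h
    exact Cv.of_one (hsys Γ hΓ) (x := e0 n) (y := e0 n) h

/-- the growth rate is the exponent -/
theorem om_im (Γ : Subgroup (Oplus n)) (hΓ : Disc Γ)
    (hb : ∃ C, ∀ᶠ r in Filter.atTop, gr (im Γ ⊤) r ≤ C) (L : Subgroup Γ) :
    om (im Γ L) = ex (hsys Γ hΓ) L := by
  have h1 : om (im Γ L) = Filter.limsup (fun r : ℝ =>
      Real.log ({g : L | hd (e0 n) ((g : Γ) • e0 n) ≤ r}.ncard : ℝ) / r) Filter.atTop := by
    unfold om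
    apply Filter.limsup_congr
    filter_upwards [Filter.eventually_ge_atTop (0 : ℝ)] with r hr
    exact gr_im Γ L hr
  have h2 := limsup_eq_sInf (fun g : L => hd (e0 n) ((g : Γ) • e0 n)) (GG1_fin Γ hΓ L) 1
    (by rw [Subgroup.coe_one, one_smul, hd_self]) (fun g => hd_nonneg _ _)
    (GG1_bdd Γ hΓ hb L)
  rw [h1, h2]
  unfold ex
  congr 1
  ext t
  change (0 ≤ t ∧ _) ↔ (0 ≤ t ∧ _)
  rw [GG1_Cv Γ hΓ L t]

theorem exists_Cv (Γ : Subgroup (Oplus n)) (hΓ : Disc Γ)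
    (hb : ∃ C, ∀ᶠ r in Filter.atTop, gr (im Γ ⊤) r ≤ C) :
    ∃ t, Cv (hsys Γ hΓ) ⊤ t := by
  obtain ⟨C, hC⟩ := GG1_bdd Γ hΓ hb ⊤
  refine ⟨max C 0 + 1, (GG1_Cv Γ hΓ ⊤ _).2 ?_⟩
  refine exists_conv (fun g : (⊤ : Subgroup Γ) => hd (e0 n) ((g : Γ) • e0 n))
    (GG1_fin Γ hΓ ⊤) C (fun g => hd_nonneg _ _) hC ?_ ?_
  · have := le_max_left C 0
    linarith
  · have := le_max_right C 0
    linarith

end Pool.Agent.Lib.MP_247fd6_al
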