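import Pool.Agent.Lib.MP_247fd6_al.GE3
import Pool.Agent.Lib.MP_247fd6_al.GG0

/-! Wall families in terms of vectors give wall families. -/

set_option autoImplicit false

open Matrix
open scoped ENNReal Pointwise

namespace Pool.Agent.Lib.MP_247fd6_al

variable {n : ℕ}

theorem hasWalls_of_crit (G : Subgroup (Matrix (Fin (n + 1)) (Fin (n + 1)) ℝ)ˣ)
    (hG : G ≤ Oplus n) (hΓ : Disc (G.subgroupOf (Oplus n))) (hW : WallCrit G) :
    HasWalls (hsys (G.subgroupOf (Oplus n)) hΓ) := by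
  intro R
  obtain ⟨B, r, V, q, ρ, hB, hfi, hV, hbd⟩ := hW (Real.cosh (max R 0 + 2))
  refine ⟨(B.subgroupOf (Oplus n)).subgroupOf (G.subgroupOf (Oplus n)), r,
    fun i => hs '' V i, ?_, ?_, ?_⟩
  · constructor
    intro h0
    apply hfi
    rw [← Subgroup.relIndex_subgroupOf hG]
    exact h0
  · intro i hi
    obtain ⟨h1, h2, h3, h4⟩ := hV i hi
    have key := fam_of_vectors (G.subgroupOf (Oplus n)) hΓ
      ((B.subgroupOf (Oplus n)).subgroupOf (G.subgroupOf (Oplus n))) (V i) (q i) (max R 0)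
      h1 h2 (fun g hg w hw => h3 _ hg w hw) (le_max_right _ _) h4
    refine ⟨key.sub, key.inv, ?_, key.fin⟩
    intro h hh h' hh' hne x y x' y' hs1 hd1 hs2 hd2
    exact (le_max_left _ _).trans (key.sep h hh h' hh' hne x y x' y' hs1 hd1 hs2 hd2)
  · intro x
    exact ⟨ρ, fun z hz => hbd x z (fun i hi w hw => (hz i hi _ ⟨w, hw, rfl⟩).symm)⟩

end Pool.Agent.Lib.MP_247fd6_al
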