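import Pool.Agent.Lib.MP_247fd6_al.Defs
import Pool.Agent.Lib.MP_247fd6_al.GC2
import Pool.Agent.Lib.MP_247fd6_al.GD2

/-! Groups acting on hyperbolic space and on a median graph: definitions. -/

set_option autoImplicit false

open scoped Pointwise

namespace Pool.Agent.Lib.MP_247fd6_al

/-- the half-space of the edge `x y`: the vertices closer to `x` than to `y` -/
def hsp {Y : Type} (Γ : SimpleGraph Y) (x y : Y) : Set Y := {z | Γ.dist z x < Γ.dist z y}

/-- the vertex `m` is a median of `x, y, z` -/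
def IsMed {Y : Type} (Γ : SimpleGraph Y) (x y z m : Y) : Prop :=
  Γ.dist x m + Γ.dist m y = Γ.dist x y ∧ Γ.dist y m + Γ.dist m z = Γ.dist y z ∧
    Γ.dist x m + Γ.dist m z = Γ.dist x z

/-- a group acting properly and cocompactly on hyperbolic space, and freely and cocompactly on a
median graph with separable stabilisers of half-spaces -/
structure Cub (n : ℕ) (G Y : Type) [Group G] [MulAction G (HPt n)] [MulAction G Y] where
  iso : ∀ (g : G) (x y : HPt n), hd (g • x) (g • y) = hd x y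
  proper : ∀ (x : HPt n) (r : ℝ), {g : G | hd x (g • x) ≤ r}.Finite
  D : ℝ
  dense : ∀ z : HPt n, ∃ g : G, hd z (g • e0 n) ≤ D
  gr : SimpleGraph Y
  conn : gr.Connected
  adj : ∀ (g : G) (x y : Y), gr.Adj x y → gr.Adj (g • x) (g • y)
  med : ∀ x y z : Y, ∃! m, IsMed gr x y z m
  free : ∀ (g : G) (y : Y), g • y = y → g = 1
  E : Finset (Y × Y)
  edges : ∀ x y : Y, gr.dist x y ≤ 1 → ∃ g : G, (g • x, g • y) ∈ E
  sepa : ∀ x y : Y, gr.Adj x y → ∀ g : G, g • hsp gr x y ≠ hsp gr x y →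
    ∃ B : Subgroup G, B.FiniteIndex ∧ ∀ s : G, s • hsp gr x y = hsp gr x y → s⁻¹ * g ∉ B

/-- the half-spaces -/
def hsps {Y : Type} (Γ : SimpleGraph Y) : Set (Set Y) := {h | ∃ x y, Γ.Adj x y ∧ h = hsp Γ x y}

/-- convex sets of vertices -/
def GConv {Y : Type} (Γ : SimpleGraph Y) (C : Set Y) : Prop :=
  ∀ u ∈ C, ∀ v ∈ C, ∀ w, Γ.dist u w + Γ.dist w v = Γ.dist u v → w ∈ C

end Pool.Agent.Lib.MP_247fd6_al
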