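import Pool.Agent.Lib.MP_247fd6_al.HA0

/-! Median graphs: half-spaces are convex. -/

set_option autoImplicit false

namespace Pool.Agent.Lib.MP_247fd6_al

variable {Y : Type} {Γ : SimpleGraph Y}

theorem HG1_adj_dist {x y : Y} (h : Γ.Adj x y) : Γ.dist x y = 1 :=
  SimpleGraph.dist_eq_one_iff_adj.2 h

/-- no vertex has the same distance to both ends of an edge -/
theorem dist_ne (hc : Γ.Connected) (hm : ∀ x y z, ∃! m, IsMed Γ x y z m) {x y : Y}
    (h : Γ.Adj x y) (z : Y) : Γ.dist z x ≠ Γ.dist z y := by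
  obtain ⟨m, ⟨h1, h2, h3⟩, -⟩ := hm z x y
  have hxy := HG1_adj_dist h
  intro heq
  -- `m` is `x` or `y`
  rw [hxy] at h2
  have h4 : Γ.dist x m = 0 ∨ Γ.dist m y = 0 := by omega
  rcases h4 with h4 | h4
  · have : x = m := (hc.dist_eq_zero_iff).1 h4
    subst this
    omega
  · have : m = y := (hc.dist_eq_zero_iff).1 h4
    subst this
    rw [Γ.dist_comm (u := m) (v := x)] at h1
    omega

theorem HG1_dist_adj (hc : Γ.Connected) (hm : ∀ x y z, ∃! m, IsMed Γ x y z m) {x y : Y}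
    (h : Γ.Adj x y) (z : Y) : Γ.dist z x = Γ.dist z y + 1 ∨ Γ.dist z y = Γ.dist z x + 1 := by
  have h1 := dist_ne hc hm h z
  have h2 := hc.dist_triangle (u := z) (v := x) (w := y)
  have h3 := hc.dist_triangle (u := z) (v := y) (w := x)
  rw [HG1_adj_dist h] at h2
  rw [HG1_adj_dist h.symm] at h3
  omega

theorem compl_hsp (hc : Γ.Connected) (hm : ∀ x y z, ∃! m, IsMed Γ x y z m) {x y : Y}
    (h : Γ.Adj x y) : (hsp Γ x y)ᶜ = hsp Γ y x := by
  ext z
  unfold hsp
  simp only [Set.mem_compl_iff, Set.mem_ofPred_eq, not_lt]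
  have := dist_ne hc hm h z
  omega

/-- the quadrangle condition -/
theorem quadrangle (hc : Γ.Connected) (hm : ∀ x y z, ∃! m, IsMed Γ x y z m) {v w a b : Y}
    (ha : Γ.Adj w a) (hb : Γ.Adj w b) (hab : a ≠ b) (h1 : Γ.dist v a + 1 = Γ.dist v w)
    (h2 : Γ.dist v b + 1 = Γ.dist v w) :
    ∃ t, Γ.Adj a t ∧ Γ.Adj b t ∧ Γ.dist v t + 2 = Γ.dist v w := by
  have hnadj : ¬ Γ.Adj a b := by
    intro h
    exact dist_ne hc hm h v (by omega)
  have hd : Γ.dist a b = 2 := by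
    have h3 := hc.dist_triangle (u := a) (v := w) (w := b)
    rw [HG1_adj_dist ha.symm, HG1_adj_dist hb] at h3
    have h4 : Γ.dist a b ≠ 0 := fun h => hab ((hc.dist_eq_zero_iff).1 h)
    have h5 : Γ.dist a b ≠ 1 := fun h => hnadj (SimpleGraph.dist_eq_one_iff_adj.1 h)
    omega
  obtain ⟨t, ⟨h3, h4, h5⟩, -⟩ := hm a b v
  rw [hd] at h3
  have e1 := Γ.dist_comm (u := a) (v := v)
  have e2 := Γ.dist_comm (u := b) (v := v)
  have e3 := Γ.dist_comm (u := t) (v := v)
  have e4 := Γ.dist_comm (u := b) (v := t)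
  refine ⟨t, ?_, ?_, ?_⟩
  · apply SimpleGraph.dist_eq_one_iff_adj.1
    omega
  · apply SimpleGraph.dist_eq_one_iff_adj.1
    omega
  · omega

/-- half-spaces are locally convex -/
theorem hsp_local (hc : Γ.Connected) (hm : ∀ x y z, ∃! m, IsMed Γ x y z m) {x y : Y}
    (h : Γ.Adj x y) {u v w : Y} (hu : u ∈ hsp Γ x y) (hv : v ∈ hsp Γ x y)
    (huv : Γ.dist u v = 2) (huw : Γ.Adj u w) (hwv : Γ.Adj w v) : w ∈ hsp Γ x y := by
  by_contra hw
  have hw' : w ∈ hsp Γ y x := by rw [← compl_hsp hc hm h]; exact hw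
  unfold hsp at hu hv hw'
  simp only [Set.mem_ofPred_eq] at hu hv hw'
  have a1 := HG1_dist_adj hc hm h u
  have a2 := HG1_dist_adj hc hm h v
  have a3 := HG1_dist_adj hc hm h w
  have b1 := HG1_dist_adj hc hm huw x
  have b2 := HG1_dist_adj hc hm huw y
  have b3 := HG1_dist_adj hc hm hwv x
  have b4 := HG1_dist_adj hc hm hwv y
  have c1 := Γ.dist_comm (u := x) (v := u)
  have c2 := Γ.dist_comm (u := x) (v := v)
  have c3 := Γ.dist_comm (u := x) (v := w)
  have c4 := Γ.dist_comm (u := y) (v := u)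
  have c5 := Γ.dist_comm (u := y) (v := v)
  have c6 := Γ.dist_comm (u := y) (v := w)
  have huv' : u ≠ v := by
    rintro rfl
    rw [SimpleGraph.dist_self] at huv
    omega
  obtain ⟨t, t1, t2, t3⟩ := quadrangle hc hm (v := x) huw.symm hwv huv' (by omega) (by omega)
  have d1 := HG1_dist_adj hc hm h t
  have d2 := HG1_dist_adj hc hm t1 y
  have d3 := Γ.dist_comm (u := x) (v := t)
  have d4 := Γ.dist_comm (u := y) (v := t)
  -- both `t` and `w` are medians of `u, v, y`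
  have m1 : IsMed Γ u v y w := by
    refine ⟨?_, ?_, ?_⟩
    · rw [HG1_adj_dist huw, HG1_adj_dist hwv, huv]
    · rw [HG1_adj_dist hwv.symm]; omega
    · rw [HG1_adj_dist huw]; omega
  have m2 : IsMed Γ u v y t := by
    refine ⟨?_, ?_, ?_⟩
    · rw [HG1_adj_dist t1, HG1_adj_dist t2.symm, huv]
    · rw [HG1_adj_dist t2]; omega
    · rw [HG1_adj_dist t1]; omega
  obtain ⟨m, -, hmu⟩ := hm u v y
  have e1 := hmu w m1
  have e2 := hmu t m2
  rw [← e2] at e1
  rw [e1] at t3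
  omega

end Pool.Agent.Lib.MP_247fd6_al
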