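import Pool.Agent.Lib.MP_247fd6_al.HG1

/-! Median graphs: connected locally convex sets are convex; half-spaces are convex. -/

set_option autoImplicit false

namespace Pool.Agent.Lib.MP_247fd6_al

variable {Y : Type} {Γ : SimpleGraph Y}

/-- paths inside a set -/
def HG2_CP (Γ : SimpleGraph Y) (C : Set Y) : ℕ → Y → Y → Prop
  | 0, u, v => u = v ∧ u ∈ C
  | k + 1, u, v => u ∈ C ∧ ∃ u', Γ.Adj u u' ∧ HG2_CP Γ C k u' v

theorem HG2_CP_mem {C : Set Y} {k : ℕ} {u v : Y} (h : HG2_CP Γ C k u v) : u ∈ C ∧ v ∈ C := by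
  induction k generalizing u with
  | zero => exact ⟨h.2, h.1 ▸ h.2⟩
  | succ k ih =>
    obtain ⟨hu, u', -, h'⟩ := h
    exact ⟨hu, (ih h').2⟩

theorem HG2_CP_trans {C : Set Y} {k l : ℕ} {u v w : Y} (h : HG2_CP Γ C k u v)
    (h' : HG2_CP Γ C l v w) : HG2_CP Γ C (k + l) u w := by
  induction k generalizing u with
  | zero =>
    obtain ⟨rfl, -⟩ := h
    simpa using h'
  | succ k ih =>
    obtain ⟨hu, u', ha, h1⟩ := h
    have h2 := ih h1
    rw [show k + 1 + l = (k + l) + 1 by omega]
    exact ⟨hu, u', ha, h2⟩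

theorem HG2_CP_symm {C : Set Y} {k : ℕ} {u v : Y} (h : HG2_CP Γ C k u v) :
    HG2_CP Γ C k v u := by
  induction k generalizing u with
  | zero => exact ⟨h.1.symm, h.1 ▸ h.2⟩
  | succ k ih =>
    obtain ⟨hu, u', ha, h1⟩ := h
    have h2 := ih h1
    have h3 : HG2_CP Γ C 1 u' u := ⟨(HG2_CP_mem h1).1, u, ha.symm, rfl, hu⟩
    exact HG2_CP_trans h2 h3

theorem HG2_CP_of_path {C : Set Y} {m : ℕ} {p : ℕ → Y} (hp : ∀ i ≤ m, p i ∈ C)
    (ha : ∀ i < m, Γ.Adj (p i) (p (i + 1))) : HG2_CP Γ C m (p 0) (p m) := by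
  induction m generalizing p with
  | zero => exact ⟨rfl, hp 0 le_rfl⟩
  | succ m ih =>
    refine ⟨hp 0 (by omega), p 1, ha 0 (by omega), ?_⟩
    have := ih (p := fun i => p (i + 1)) (fun i hi => hp (i + 1) (by omega))
      (fun i hi => ha (i + 1) (by omega))
    exact this

theorem HG2_dist_le {C : Set Y} (hc : Γ.Connected) {k : ℕ} {u v : Y} (h : HG2_CP Γ C k u v) :
    Γ.dist u v ≤ k := by
  induction k generalizing u with
  | zero =>
    obtain ⟨rfl, -⟩ := h
    simp
  | succ k ih =>
    obtain ⟨hu, u', ha, h1⟩ := h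
    have h2 := ih h1
    have h3 := hc.dist_triangle (u := u) (v := u') (w := v)
    rw [HG1_adj_dist ha] at h3
    omega

/-- the first vertex of a geodesic -/
theorem HG2_first (hc : Γ.Connected) {u v : Y} (h : u ≠ v) :
    ∃ w, Γ.Adj u w ∧ Γ.dist w v + 1 = Γ.dist u v := by
  obtain ⟨p, hp⟩ := hc.exists_walk_length_eq_dist u v
  cases p with
  | nil => exact absurd rfl h
  | cons ha p =>
    rename_i w
    refine ⟨w, ha, ?_⟩
    rw [SimpleGraph.Walk.length_cons] at hp
    have h1 := SimpleGraph.dist_le p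
    have h2 := hc.dist_triangle (u := u) (v := w) (w := v)
    rw [HG1_adj_dist ha] at h2
    omega

/-- geodesics inside a set containing the interval -/
theorem HG2_CP_geod (hc : Γ.Connected) {C : Set Y} (n : ℕ) {u v : Y} (hn : Γ.dist u v = n)
    (h : ∀ w, Γ.dist u w + Γ.dist w v = Γ.dist u v → w ∈ C) : HG2_CP Γ C n u v := by
  induction n generalizing u with
  | zero =>
    have huv : u = v := (hc.dist_eq_zero_iff).1 hn
    exact ⟨huv, h u (by simp)⟩
  | succ n ih =>
    have huv : u ≠ v := by
      rintro rfl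
      rw [SimpleGraph.dist_self] at hn
      omega
    obtain ⟨w, hw, hd⟩ := HG2_first hc huv
    refine ⟨h u (by simp), w, hw, ih (by omega) ?_⟩
    intro z hz
    apply h
    have h1 := hc.dist_triangle (u := u) (v := w) (w := z)
    rw [HG1_adj_dist hw] at h1
    have h2 := hc.dist_triangle (u := u) (v := z) (w := v)
    omega

theorem HG2_main (hc : Γ.Connected) (hm : ∀ x y z, ∃! m, IsMed Γ x y z m) {C : Set Y}
    (hloc : ∀ u ∈ C, ∀ v ∈ C, ∀ w, Γ.dist u v = 2 → Γ.Adj u w → Γ.Adj w v → w ∈ C) (k : ℕ) :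
    ∀ u v : Y, HG2_CP Γ C k u v → (∀ k' < k, ¬ HG2_CP Γ C k' u v) →
      Γ.dist u v = k ∧ ∀ w, Γ.dist u w + Γ.dist w v = Γ.dist u v → w ∈ C := by
  induction k with
  | zero =>
    rintro u v ⟨rfl, hu⟩ -
    refine ⟨by simp, ?_⟩
    intro w hw
    rw [SimpleGraph.dist_self] at hw
    have : u = w := (hc.dist_eq_zero_iff).1 (by omega)
    rw [← this]; exact hu
  | succ k ih =>
    rintro u v ⟨hu, u', ha, hp⟩ hmin
    have hu' := (HG2_CP_mem hp).1
    obtain ⟨hd, hI⟩ := ih u' v hp (fun k' hk' h' => hmin (k' + 1) (by omega) ⟨hu, u', ha, h'⟩)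
    have hadj := HG1_dist_adj hc hm ha v
    rw [Γ.dist_comm (u := v) (v := u), Γ.dist_comm (u := v) (v := u')] at hadj
    rcases hadj with hadj | hadj
    · -- the good case
      have hduv : Γ.dist u v = k + 1 := by omega
      refine ⟨hduv, ?_⟩
      -- neighbours of `u` closer to `v`
      have hnb : ∀ w, Γ.Adj u w → Γ.dist w v = k →
          HG2_CP Γ C k w v := by
        intro w hw hwd
        by_cases hwu : w = u'
        · rw [hwu]; exact hp
        · obtain ⟨t, t1, t2, t3⟩ := quadrangle hc hm (v := v) ha hw (fun h => hwu h.symm)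
            (by rw [Γ.dist_comm (u := v) (v := u), Γ.dist_comm (u := v) (v := u')]; omega)
            (by rw [Γ.dist_comm (u := v) (v := u), Γ.dist_comm (u := v) (v := w)]; omega)
          rw [Γ.dist_comm (u := v) (v := t), Γ.dist_comm (u := v) (v := u)] at t3
          have htC : t ∈ C := by
            apply hI
            rw [HG1_adj_dist t1]; omega
          have hut : Γ.dist u t = 2 := by
            have e1 := hc.dist_triangle (u := u) (v := w) (w := t)
            rw [HG1_adj_dist hw, HG1_adj_dist t2] at e1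
            have e2 := hc.dist_triangle (u := u) (v := t) (w := v)
            omega
          have hwC : w ∈ C := hloc u hu t htC w hut hw t2
          have htp : HG2_CP Γ C (k - 1) t v := by
            apply HG2_CP_geod hc (k - 1) (by omega)
            intro z hz
            apply hI
            have e1 := hc.dist_triangle (u := u') (v := t) (w := z)
            rw [HG1_adj_dist t1] at e1
            have e2 := hc.dist_triangle (u := u') (v := z) (w := v)
            omega
          have : HG2_CP Γ C (k - 1 + 1) w v := ⟨hwC, t, t2, htp⟩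
          rwa [show k - 1 + 1 = k by omega] at this
      intro z hz
      by_cases hzu : z = u
      · rw [hzu]; exact hu
      · obtain ⟨w, hw, hwz⟩ := HG2_first hc (fun h => hzu h.symm : u ≠ z)
        have e1 := hc.dist_triangle (u := w) (v := z) (w := v)
        have e2 := hc.dist_triangle (u := u) (v := w) (w := v)
        rw [HG1_adj_dist hw] at e2
        have hwd : Γ.dist w v = k := by omega
        obtain ⟨-, hI'⟩ := ih w v (hnb w hw hwd)
          (fun k' hk' h' => by have := HG2_dist_le hc h'; omega)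
        apply hI'
        omega
    · -- impossible
      exfalso
      have hp' : HG2_CP Γ C (Γ.dist u v) u v := by
        apply HG2_CP_geod hc _ rfl
        intro z hz
        apply hI
        have e1 := hc.dist_triangle (u := u') (v := u) (w := z)
        rw [HG1_adj_dist ha.symm] at e1
        have e2 := hc.dist_triangle (u := u') (v := z) (w := v)
        omega
      exact hmin _ (by omega) hp'

/-- connected locally convex sets are convex -/
theorem gconv_of_local (hc : Γ.Connected) (hm : ∀ x y z, ∃! m, IsMed Γ x y z m) {C : Set Y}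
    (hloc : ∀ u ∈ C, ∀ v ∈ C, ∀ w, Γ.dist u v = 2 → Γ.Adj u w → Γ.Adj w v → w ∈ C)
    (x : Y) (hx : ∀ u ∈ C, ∃ (m : ℕ) (p : ℕ → Y), p 0 = u ∧ p m = x ∧
      (∀ i ≤ m, p i ∈ C) ∧ ∀ i < m, Γ.Adj (p i) (p (i + 1))) : GConv Γ C := by
  classical
  intro u hu v hv w hw
  have hex : ∃ k, HG2_CP Γ C k u v := by
    obtain ⟨m, p, h0, hm', hp, ha⟩ := hx u hu
    obtain ⟨m2, p2, h02, hm2, hp2, ha2⟩ := hx v hv
    have h1 := HG2_CP_of_path hp ha
    have h2 := HG2_CP_of_path hp2 ha2
    rw [h0, hm'] at h1
    rw [h02, hm2] at h2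
    exact ⟨_, HG2_CP_trans h1 (HG2_CP_symm h2)⟩
  exact (HG2_main hc hm hloc (Nat.find hex) u v (Nat.find_spec hex)
    (fun k' hk' => Nat.find_min hex hk')).2 w hw

/-- half-spaces are convex -/
theorem hsp_conv (hc : Γ.Connected) (hm : ∀ x y z, ∃! m, IsMed Γ x y z m) {x y : Y}
    (h : Γ.Adj x y) : GConv Γ (hsp Γ x y) := by
  apply gconv_of_local hc hm
    (fun u hu v hv w h1 h2 h3 => hsp_local hc hm h hu hv h1 h2 h3) x
  intro u hu
  -- geodesics to `x`
  have key : ∀ (n : ℕ) (u : Y), Γ.dist u x = n → u ∈ hsp Γ x y →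
      ∃ (m : ℕ) (p : ℕ → Y), p 0 = u ∧ p m = x ∧
      (∀ i ≤ m, p i ∈ hsp Γ x y) ∧ ∀ i < m, Γ.Adj (p i) (p (i + 1)) := by
    intro n
    induction n with
    | zero =>
      intro u hn hu
      have hux : u = x := (hc.dist_eq_zero_iff).1 hn
      exact ⟨0, fun _ => u, rfl, hux, fun _ _ => hu, fun i hi => absurd hi (by omega)⟩
    | succ n ih =>
      intro u hn hu
      have hux : u ≠ x := by
        rintro rfl
        rw [SimpleGraph.dist_self] at hn
        omega
      obtain ⟨w, hw, hd⟩ := HG2_first hc hux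
      have hwC : w ∈ hsp Γ x y := by
        unfold hsp at hu ⊢
        simp only [Set.mem_ofPred_eq] at hu ⊢
        have e1 := hc.dist_triangle (u := u) (v := w) (w := y)
        rw [HG1_adj_dist hw] at e1
        omega
      obtain ⟨m, p, h0, hm', hp, ha⟩ := ih w (by omega) hwC
      refine ⟨m + 1, fun i => if i = 0 then u else p (i - 1), by simp, by simp [hm'], ?_, ?_⟩
      · intro i hi
        by_cases hi0 : i = 0
        · simp only [hi0, if_true]; exact hu
        · simp only [hi0, if_false]; exact hp _ (by omega)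
      · intro i hi
        by_cases hi0 : i = 0
        · subst hi0
          simp only [if_true, zero_add, one_ne_zero, if_false, Nat.sub_self, h0]
          exact hw
        · have hi1 : i + 1 ≠ 0 := by omega
          simp only [hi0, hi1, if_false]
          have := ha (i - 1) (by omega)
          rwa [show i - 1 + 1 = i + 1 - 1 by omega] at this
  exact key _ u rfl hu

end Pool.Agent.Lib.MP_247fd6_al
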