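import Pool.Agent.Lib.MP_247fd6_al.HG2

/-! Geodesics of a median graph and half-spaces. -/

set_option autoImplicit false

namespace Pool.Agent.Lib.MP_247fd6_al

variable {Y : Type} {Γ : SimpleGraph Y}

/-- geodesics -/
theorem exists_path (hc : Γ.Connected) (x y : Y) : ∃ p : ℕ → Y, p 0 = x ∧
    p (Γ.dist x y) = y ∧ ∀ i j, i ≤ j → j ≤ Γ.dist x y → Γ.dist (p i) (p j) = j - i := by
  have key : ∀ (n : ℕ) (x : Y), Γ.dist x y = n → ∃ p : ℕ → Y, p 0 = x ∧ p n = y ∧
      ∀ i < n, Γ.dist (p i) (p (i + 1)) ≤ 1 := by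
    intro n
    induction n with
    | zero =>
      intro x hn
      exact ⟨fun _ => x, rfl, (hc.dist_eq_zero_iff).1 hn, fun i hi => absurd hi (by omega)⟩
    | succ n ih =>
      intro x hn
      have hxy : x ≠ y := by
        rintro rfl
        rw [SimpleGraph.dist_self] at hn
        omega
      obtain ⟨w, hw, hd⟩ := HG2_first hc hxy
      obtain ⟨p, h0, hp, hs⟩ := ih w (by omega)
      refine ⟨fun i => if i = 0 then x else p (i - 1), by simp, by simp [hp], ?_⟩
      intro i hi
      by_cases hi0 : i = 0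
      · subst hi0
        simp only [if_true, zero_add, one_ne_zero, if_false, Nat.sub_self, h0]
        rw [HG1_adj_dist hw]
      · have hi1 : i + 1 ≠ 0 := by omega
        simp only [hi0, hi1, if_false]
        have := hs (i - 1) (by omega)
        rwa [show i - 1 + 1 = i + 1 - 1 by omega] at this
  obtain ⟨p, h0, hp, hs⟩ := key _ x rfl
  have hle : ∀ i j, i ≤ j → j ≤ Γ.dist x y → Γ.dist (p i) (p j) ≤ j - i := by
    intro i j hij
    induction j, hij using Nat.le_induction with
    | base => simp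
    | succ j hij ih =>
      intro hj
      have e1 := ih (by omega)
      have e2 := hs j (by omega)
      have e3 := hc.dist_triangle (u := p i) (v := p j) (w := p (j + 1))
      omega
  refine ⟨p, h0, hp, ?_⟩
  intro i j hij hj
  have e1 := hle 0 i (by omega) (by omega)
  have e2 := hle i j hij hj
  have e3 := hle j _ hj le_rfl
  rw [h0] at e1
  rw [hp] at e3
  have e4 := hc.dist_triangle (u := x) (v := p i) (w := y)
  have e5 := hc.dist_triangle (u := p i) (v := p j) (w := y)
  omega

/-- a geodesic crosses a half-space at most once -/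
theorem path_hsp (hc : Γ.Connected) (hm : ∀ x y z, ∃! m, IsMed Γ x y z m) {m : ℕ} {p : ℕ → Y}
    (hp : ∀ i j, i ≤ j → j ≤ m → Γ.dist (p i) (p j) = j - i) {h : Set Y} (hh : h ∈ hsps Γ)
    {i j k : ℕ} (hij : i ≤ j) (hjk : j ≤ k) (hkm : k ≤ m) (hik : p i ∈ h ↔ p k ∈ h) :
    p j ∈ h ↔ p i ∈ h := by
  obtain ⟨x, y, hxy, rfl⟩ := hh
  have hd : Γ.dist (p i) (p j) + Γ.dist (p j) (p k) = Γ.dist (p i) (p k) := by
    rw [hp i j hij (by omega), hp j k hjk hkm, hp i k (by omega) hkm]
    omega
  by_cases hi : p i ∈ hsp Γ x y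
  · have := hsp_conv hc hm hxy (p i) hi (p k) (hik.1 hi) (p j) hd
    exact ⟨fun _ => hi, fun _ => this⟩
  · have hk : p k ∉ hsp Γ x y := fun h => hi (hik.2 h)
    have hi' : p i ∈ hsp Γ y x := by rw [← compl_hsp hc hm hxy]; exact hi
    have hk' : p k ∈ hsp Γ y x := by rw [← compl_hsp hc hm hxy]; exact hk
    have := hsp_conv hc hm hxy.symm (p i) hi' (p k) hk' (p j) hd
    rw [← compl_hsp hc hm hxy] at this
    exact ⟨fun h => absurd h this, fun h => absurd h hi⟩

/-- a half-space separating the ends of an edge is one of the two half-spaces of the edge -/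
theorem hsp_of_sep (hc : Γ.Connected) (hm : ∀ x y z, ∃! m, IsMed Γ x y z m) {h : Set Y}
    (hh : h ∈ hsps Γ) {x y : Y} (hxy : Γ.Adj x y) (hx : x ∈ h) (hy : y ∉ h) :
    h = hsp Γ x y := by
  obtain ⟨a, b, hab, rfl⟩ := hh
  ext z
  have h1 := HG1_dist_adj hc hm hxy z
  constructor
  · intro hz
    by_contra hz'
    have h2 : Γ.dist z x = Γ.dist z y + 1 := by
      unfold hsp at hz'
      simp only [Set.mem_ofPred_eq] at hz'
      omega
    apply hy
    apply hsp_conv hc hm hab z hz x hx y
    rw [HG1_adj_dist hxy.symm, h2]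
  · intro hz
    by_contra hz'
    have hz2 : z ∈ hsp Γ b a := by rw [← compl_hsp hc hm hab]; exact hz'
    have hy2 : y ∈ hsp Γ b a := by rw [← compl_hsp hc hm hab]; exact hy
    have h2 : Γ.dist z y = Γ.dist z x + 1 := by
      unfold hsp at hz
      simp only [Set.mem_ofPred_eq] at hz
      omega
    have := hsp_conv hc hm hab.symm z hz2 y hy2 x (by rw [HG1_adj_dist hxy, h2])
    rw [← compl_hsp hc hm hab] at this
    exact this hx

/-- finitely many half-spaces separate two vertices -/
theorem finite_sep (hc : Γ.Connected) (hm : ∀ x y z, ∃! m, IsMed Γ x y z m) (x y : Y) :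
    {h | h ∈ hsps Γ ∧ Sepby h x y}.Finite := by
  obtain ⟨p, h0, hp, hd⟩ := exists_path hc x y
  have hfin : ((fun i => hsp Γ (p i) (p (i + 1))) '' {i | i < Γ.dist x y} ∪
      (fun i => hsp Γ (p (i + 1)) (p i)) '' {i | i < Γ.dist x y}).Finite :=
    ((Set.finite_lt_nat _).image _).union ((Set.finite_lt_nat _).image _)
  refine hfin.subset ?_
  rintro h ⟨hh, hs⟩
  -- a separated edge
  have hex : ∃ i < Γ.dist x y, Sepby h (p i) (p (i + 1)) := by
    by_contra hcon
    push Not at hcon
    have : ∀ i ≤ Γ.dist x y, (p i ∈ h ↔ p 0 ∈ h) := by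
      intro i
      induction i with
      | zero => intro _; exact Iff.rfl
      | succ i ih =>
        intro hi
        have h1 := hcon i (by omega)
        unfold Sepby at h1
        have h2 := ih (by omega)
        tauto
    have h3 := this _ le_rfl
    rw [h0, hp] at h3
    exact hs h3.symm
  obtain ⟨i, hi, hsi⟩ := hex
  have hadj : Γ.Adj (p i) (p (i + 1)) := by
    apply SimpleGraph.dist_eq_one_iff_adj.1
    rw [hd i (i + 1) (by omega) (by omega)]
    omega
  by_cases hpi : p i ∈ h
  · left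
    refine ⟨i, hi, ?_⟩
    have : p (i + 1) ∉ h := by
      unfold Sepby at hsi
      tauto
    exact (hsp_of_sep hc hm hh hadj hpi this).symm
  · right
    refine ⟨i, hi, ?_⟩
    have : p (i + 1) ∈ h := by
      unfold Sepby at hsi
      tauto
    exact (hsp_of_sep hc hm hh hadj.symm this hpi).symm

/-- distinct vertices are separated by a half-space -/
theorem exists_sep (hc : Γ.Connected) {x y : Y} (hxy : x ≠ y) :
    ∃ h ∈ hsps Γ, x ∈ h ∧ y ∉ h := by
  obtain ⟨w, hw, hd⟩ := HG2_first hc hxy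
  refine ⟨hsp Γ x w, ⟨x, w, hw, rfl⟩, ?_, ?_⟩
  · unfold hsp
    simp only [Set.mem_ofPred_eq, SimpleGraph.dist_self]
    rw [HG1_adj_dist hw]
    omega
  · unfold hsp
    simp only [Set.mem_ofPred_eq, not_lt]
    rw [Γ.dist_comm (u := y) (v := w), Γ.dist_comm (u := y) (v := x)]
    omega

end Pool.Agent.Lib.MP_247fd6_al
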