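import Pool.Agent.Lib.MP_247fd6_al.HA0

/-! The Gromov product along a chain. -/

set_option autoImplicit false

namespace Pool.Agent.Lib.MP_247fd6_al

variable {n : ℕ}

/-- the Gromov product -/
noncomputable def gp (o x y : HPt n) : ℝ := (hd x o + hd y o - hd x y) / 2

theorem gp_ge (o x y : HPt n) : hd x o - hd x y ≤ gp o x y := by
  unfold gp
  have := hd_tri x y o
  linarith

theorem gp_min (o x y z : HPt n) : min (gp o x y) (gp o y z) - 5 ≤ gp o x z := by
  unfold gp
  have h := hd_hyp x y z o
  rcases le_total (hd x y + hd z o) (hd y z + hd x o) with h1 | h1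
  · rw [max_eq_right h1] at h
    have := min_le_right ((hd x o + hd y o - hd x y) / 2) ((hd y o + hd z o - hd y z) / 2)
    linarith
  · rw [max_eq_left h1] at h
    have := min_le_left ((hd x o + hd y o - hd x y) / 2) ((hd y o + hd z o - hd y z) / 2)
    linarith

/-- the product of the endpoints of a chain of length at most `2 ^ k` -/
theorem gp_chain (o : HPt n) (r : ℝ) (k : ℕ) (N : ℕ) (hN : 1 ≤ N) (hk : N ≤ 2 ^ k)
    (w : ℕ → HPt n) (h : ∀ i < N, r ≤ gp o (w i) (w (i + 1))) :
    r - 5 * k ≤ gp o (w 0) (w N) := by
  induction k generalizing N w with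
  | zero =>
    have : N = 1 := by simpa using (show N = 1 by simp at hk; omega)
    subst this
    have := h 0 (by omega)
    simpa using this
  | succ k ih =>
    by_cases hk' : N ≤ 2 ^ k
    · have := ih N hN hk' w h
      push_cast
      linarith
    · have hp : 2 ^ (k + 1) = 2 * 2 ^ k := by ring
      have h1 := ih (2 ^ k) Nat.one_le_two_pow le_rfl w (fun i hi => h i (by omega))
      have h2 := ih (N - 2 ^ k) (by omega) (by omega) (fun i => w (2 ^ k + i))
        (fun i hi => by
          have := h (2 ^ k + i) (by omega)
          exact this)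
      simp only [Nat.add_zero] at h2
      rw [show 2 ^ k + (N - 2 ^ k) = N by omega] at h2
      have h3 := gp_min o (w 0) (w (2 ^ k)) (w N)
      have h4 := le_min h1 h2
      push_cast
      linarith

end Pool.Agent.Lib.MP_247fd6_al
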