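import Pool.Agent.Lib.MP_247fd6_al.HM1

/-! Stability of quasi-geodesics: the geodesic is close to the path. -/

set_option autoImplicit false

namespace Pool.Agent.Lib.MP_247fd6_al

variable {n : ℕ}

theorem HM2_lin (A B : ℝ) : ∃ k₀ : ℕ, ∀ k : ℕ, (2 : ℝ) ^ k ≤ A * k + B → k ≤ k₀ := by
  have h1 : Filter.Tendsto (fun k : ℕ => (k : ℝ) ^ 1 / (2 : ℝ) ^ k) Filter.atTop (nhds 0) :=
    tendsto_pow_const_div_const_pow_of_one_lt 1 (by norm_num)
  have h2 : Filter.Tendsto (fun k : ℕ => (k : ℝ) ^ 0 / (2 : ℝ) ^ k) Filter.atTop (nhds 0) :=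
    tendsto_pow_const_div_const_pow_of_one_lt 0 (by norm_num)
  have h3 : Filter.Tendsto (fun k : ℕ => A * ((k : ℝ) ^ 1 / (2 : ℝ) ^ k) +
      B * ((k : ℝ) ^ 0 / (2 : ℝ) ^ k)) Filter.atTop (nhds 0) := by
    have := (h1.const_mul A).add (h2.const_mul B)
    simpa using this
  have h4 := h3.eventually (gt_mem_nhds (show (0 : ℝ) < 1 by norm_num))
  obtain ⟨k₀, hk₀⟩ := Filter.eventually_atTop.1 h4
  refine ⟨k₀, fun k hk => ?_⟩
  by_contra hc
  have h5 := hk₀ k (by omega)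
  have hp : (0 : ℝ) < 2 ^ k := by positivity
  have h6 : A * ((k : ℝ) ^ 1 / (2 : ℝ) ^ k) + B * ((k : ℝ) ^ 0 / (2 : ℝ) ^ k) =
      (A * k + B) / 2 ^ k := by
    field_simp
  rw [h6, div_lt_one hp] at h5
  linarith

/-- a linear function beats the logarithm -/
theorem HM2_log (l ε : ℝ) (hl : 1 ≤ l) (_ : 0 ≤ ε) : ∃ D₀ : ℝ, 0 ≤ D₀ ∧ ∀ (u : ℝ) (k : ℕ),
    0 ≤ u → (2 : ℝ) ^ k ≤ 2 * (l * (6 * u + 4) + ε + 2) → u - 1 ≤ l + 5 * k → u ≤ D₀ := by
  obtain ⟨k₀, hk₀⟩ := HM2_lin (60 * l) (2 * (l * (6 * (1 + l) + 4) + ε + 2))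
  refine ⟨1 + l + 5 * k₀, by positivity, ?_⟩
  intro u k hu h1 h2
  have h3 : k ≤ k₀ := by
    apply hk₀
    have h4 : u ≤ 1 + l + 5 * k := by linarith
    have h5 : l * (6 * u + 4) ≤ l * (6 * (1 + l + 5 * k) + 4) :=
      mul_le_mul_of_nonneg_left (by linarith) (by linarith)
    nlinarith
  have h6 : (k : ℝ) ≤ k₀ := by exact_mod_cast h3
  linarith

theorem gp_comm (o x y : HPt n) : gp o x y = gp o y x := by
  unfold gp
  rw [hd_symm x y]
  ring

/-- chain through the path, `a ≤ b` -/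
theorem HM2_chain {l r : ℝ} {N : ℕ} {q : ℕ → HPt n} (hq : ∀ i < N, hd (q i) (q (i + 1)) ≤ l)
    {o y1 y2 : HPt n} (hr : ∀ i ≤ N, r ≤ hd (q i) o) {a b : ℕ} (hab : a ≤ b) (hb : b ≤ N)
    (h1 : r - l ≤ gp o y1 (q a)) (h2 : r - l ≤ gp o (q b) y2) :
    ∃ k : ℕ, (2 : ℝ) ^ k ≤ 2 * (((b : ℝ) - a) + 2) ∧ r - l - 5 * k ≤ gp o y1 y2 := by
  refine ⟨Nat.clog 2 (b - a + 2), ?_, ?_⟩
  · have h3 := Nat.pow_pred_clog_lt_self (b := 2) (by norm_num) (x := b - a + 2) (by omega)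
    have h4 : 0 < Nat.clog 2 (b - a + 2) := Nat.clog_pos (by norm_num) (by omega)
    have h5 : 2 ^ (Nat.clog 2 (b - a + 2)) = 2 * 2 ^ (Nat.clog 2 (b - a + 2)).pred := by
      conv_lhs => rw [← Nat.succ_pred_eq_of_pos h4]
      rw [pow_succ]
      ring
    have h6 : 2 ^ (Nat.clog 2 (b - a + 2)) ≤ 2 * (b - a + 2) := by omega
    have h7 : ((2 ^ (Nat.clog 2 (b - a + 2)) : ℕ) : ℝ) ≤ ((2 * (b - a + 2) : ℕ) : ℝ) := by
      exact_mod_cast h6
    push_cast [Nat.cast_sub hab] at h7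
    exact h7
  · have h3 := gp_chain o (r - l) (Nat.clog 2 (b - a + 2)) (b - a + 2) (by omega)
      (Nat.le_pow_clog (by norm_num) _)
      (fun t => if t = 0 then y1 else if t ≤ b - a + 1 then q (a + (t - 1)) else y2) ?_
    · have e1 : ¬ (b - a + 2 = 0) := by omega
      have e2 : ¬ (b - a + 2 ≤ b - a + 1) := by omega
      simpa only [if_true, e1, e2, if_false] using h3
    · intro i hi
      by_cases hi0 : i = 0
      · subst hi0
        have e1 : (0 + 1 : ℕ) ≤ b - a + 1 := by omega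
        simp only [if_true, e1, zero_add, one_ne_zero, if_false, Nat.sub_self, add_zero]
        exact h1
      · have e1 : ¬ (i + 1 = 0) := by omega
        by_cases hi1 : i + 1 ≤ b - a + 1
        · have e2 : i ≤ b - a + 1 := by omega
          simp only [hi0, e1, if_false, hi1, e2, if_true]
          have e3 : a + (i + 1 - 1) = a + (i - 1) + 1 := by omega
          rw [e3]
          have e4 := gp_ge o (q (a + (i - 1))) (q (a + (i - 1) + 1))
          have e5 := hq (a + (i - 1)) (by omega)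
          have e6 := hr (a + (i - 1)) (by omega)
          linarith
        · have e2 : i = b - a + 1 := by omega
          have e3 : i ≤ b - a + 1 := by omega
          simp only [hi0, e1, if_false, hi1, e3, if_true]
          have e4 : a + (i - 1) = b := by omega
          rw [e4]
          exact h2

/-- the geodesic is close to the path -/
theorem geod_near_path (l ε : ℝ) (hl : 1 ≤ l) (hε : 0 ≤ ε) : ∃ D₀ : ℝ, 0 ≤ D₀ ∧
    ∀ (N : ℕ) (q : ℕ → HPt n), (∀ i < N, hd (q i) (q (i + 1)) ≤ l) →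
    (∀ i j, i ≤ j → j ≤ N → (j : ℝ) - i ≤ l * hd (q i) (q j) + ε) →
    ∀ z : ℝ → HPt n, z 0 = q 0 → z (hd (q 0) (q N)) = q N →
    (∀ s s', 0 ≤ s → s ≤ s' → s' ≤ hd (q 0) (q N) → hd (z s) (z s') = s' - s) →
    ∀ s, 0 ≤ s → s ≤ hd (q 0) (q N) → ∃ i ≤ N, hd (z s) (q i) ≤ D₀ := by
  obtain ⟨D₀, hD₀, hlog⟩ := HM2_log l ε hl hε
  refine ⟨D₀, hD₀, ?_⟩
  intro N q hq hqi z hz0 hzL hz
  set L := hd (q 0) (q N) with hL
  have hL0 : 0 ≤ L := hd_nonneg _ _
  -- the distance to the path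
  let f : ℝ → ℝ := fun s => (Finset.range (N + 1)).inf' ⟨0, by simp⟩ (fun i => hd (z s) (q i))
  have hfmin : ∀ s, ∃ i ≤ N, hd (z s) (q i) = f s := by
    intro s
    obtain ⟨i, hi, h⟩ := Finset.exists_mem_eq_inf' (s := Finset.range (N + 1)) ⟨0, by simp⟩
      (fun i => hd (z s) (q i))
    exact ⟨i, by rw [Finset.mem_range] at hi; omega, h.symm⟩
  have hfle : ∀ s, ∀ i ≤ N, f s ≤ hd (z s) (q i) := by
    intro s i hi
    exact Finset.inf'_le (fun i => hd (z s) (q i)) (by rw [Finset.mem_range]; omega)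
  have hfs : ∀ s, 0 ≤ s → s ≤ L → f s ≤ s := by
    intro s h0 h1
    have h2 := hfle s 0 (Nat.zero_le _)
    have h3 := hz 0 s le_rfl h0 h1
    rw [hz0, hd_symm] at h3
    linarith
  let Sf : Set ℝ := {v | ∃ s, 0 ≤ s ∧ s ≤ L ∧ v = f s}
  have hne : Sf.Nonempty := ⟨f 0, 0, le_rfl, hL0, rfl⟩
  have hbdd : BddAbove Sf := by
    refine ⟨L, ?_⟩
    rintro _ ⟨s, h0, h1, rfl⟩
    exact le_trans (hfs s h0 h1) h1
  set u := sSup Sf with hu
  have hfu : ∀ s, 0 ≤ s → s ≤ L → f s ≤ u := fun s h0 h1 => le_csSup hbdd ⟨s, h0, h1, rfl⟩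
  have hu0 : 0 ≤ u := by
    refine le_trans ?_ (hfu 0 le_rfl hL0)
    obtain ⟨i, _, hi⟩ := hfmin 0
    rw [← hi]
    exact hd_nonneg _ _
  obtain ⟨_, ⟨s, hs0, hsL, rfl⟩, hsu⟩ := exists_lt_of_lt_csSup hne (show u - 1 < sSup Sf by
    rw [← hu]; linarith)
  suffices hmain : u ≤ D₀ by
    intro s' h0 h1
    obtain ⟨i, hi, h2⟩ := hfmin s'
    exact ⟨i, hi, by rw [h2]; exact le_trans (hfu s' h0 h1) hmain⟩
  -- near maximiser `s`
  set r := f s with hr
  set o := z s with ho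
  have hro : ∀ i ≤ N, r ≤ hd (q i) o := by
    intro i hi
    rw [hd_symm]
    exact hfle s i hi
  -- the two points on the geodesic
  have hleft : ∃ (s1 : ℝ) (a : ℕ), 0 ≤ s1 ∧ s1 ≤ s ∧ s - s1 ≤ 2 * (u + 1) ∧ a ≤ N ∧
      hd (z s1) (q a) ≤ u ∧ r - l ≤ gp o (z s1) (q a) := by
    by_cases hc : s ≤ 2 * (u + 1)
    · refine ⟨0, 0, le_rfl, hs0, by linarith, Nat.zero_le _, ?_, ?_⟩
      · rw [hz0, hd_self]; exact hu0
      · have h1 := gp_ge o (z 0) (q 0)
        rw [hz0, hd_self] at h1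
        rw [hz0]
        have h2 := hro 0 (Nat.zero_le _)
        linarith
    · push Not at hc
      have h0 : 0 ≤ s - 2 * (u + 1) := by linarith
      obtain ⟨a, ha, h1⟩ := hfmin (s - 2 * (u + 1))
      have h2 := hfu (s - 2 * (u + 1)) h0 (by linarith)
      refine ⟨s - 2 * (u + 1), a, h0, by linarith, by linarith, ha, by linarith, ?_⟩
      have h3 := gp_ge o (z (s - 2 * (u + 1))) (q a)
      have h4 := hz (s - 2 * (u + 1)) s h0 (by linarith) hsL
      have h5 := hfu s hs0 hsL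
      linarith
  have hright : ∃ (s2 : ℝ) (b : ℕ), s ≤ s2 ∧ s2 ≤ L ∧ s2 - s ≤ 2 * (u + 1) ∧ b ≤ N ∧
      hd (z s2) (q b) ≤ u ∧ r - l ≤ gp o (q b) (z s2) := by
    by_cases hc : L ≤ s + 2 * (u + 1)
    · refine ⟨L, N, hsL, le_rfl, by linarith, le_rfl, ?_, ?_⟩
      · rw [hzL, hd_self]; exact hu0
      · have h1 := gp_ge o (q N) (z L)
        rw [hzL, hd_self] at h1
        rw [hzL]
        have h2 := hro N le_rfl
        linarith
    · push Not at hc
      obtain ⟨b, hb, h1⟩ := hfmin (s + 2 * (u + 1))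
      have h2 := hfu (s + 2 * (u + 1)) (by linarith) (by linarith)
      refine ⟨s + 2 * (u + 1), b, by linarith, by linarith, by linarith, hb, by linarith, ?_⟩
      rw [gp_comm]
      have h3 := gp_ge o (z (s + 2 * (u + 1))) (q b)
      have h4 := hz s (s + 2 * (u + 1)) hs0 (by linarith) (by linarith)
      rw [hd_symm] at h4
      have h5 := hfu s hs0 hsL
      linarith
  obtain ⟨s1, a, hs1, hs1s, hs1d, haN, ha1, ha2⟩ := hleft
  obtain ⟨s2, b, hs2, hs2L, hs2d, hbN, hb1, hb2⟩ := hright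
  -- `o` is between the two points
  have hgp0 : gp o (z s1) (z s2) = 0 := by
    unfold gp
    have h1 := hz s1 s hs1 hs1s hsL
    have h2 := hz s s2 hs0 hs2 hs2L
    have h3 := hz s1 s2 hs1 (by linarith) hs2L
    rw [hd_symm] at h2
    rw [h1, h2, h3]
    ring
  have hd12 : hd (q a) (q b) ≤ 6 * u + 4 := by
    have h1 := hd_tri (q a) (z s1) (q b)
    have h2 := hd_tri (z s1) (z s2) (q b)
    have h3 := hz s1 s2 hs1 (by linarith) hs2L
    have h4 := hd_symm (q a) (z s1)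
    linarith
  rcases le_total a b with hab | hab
  · obtain ⟨k, hk1, hk2⟩ := HM2_chain hq hro hab hbN ha2 hb2
    apply hlog u k hu0
    · have h1 := hqi a b hab hbN
      have h2 : l * hd (q a) (q b) ≤ l * (6 * u + 4) :=
        mul_le_mul_of_nonneg_left hd12 (by linarith)
      linarith
    · rw [hgp0] at hk2
      linarith
  · obtain ⟨k, hk1, hk2⟩ := HM2_chain hq hro hab haN (by rw [gp_comm]; exact hb2)
      (by rw [gp_comm]; exact ha2)
    apply hlog u k hu0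
    · have h1 := hqi b a hab haN
      have h2 : l * hd (q b) (q a) ≤ l * (6 * u + 4) := by
        rw [hd_symm]
        exact mul_le_mul_of_nonneg_left hd12 (by linarith)
      linarith
    · rw [gp_comm, hgp0] at hk2
      linarith

end Pool.Agent.Lib.MP_247fd6_al
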