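import Pool.Agent.Lib.MP_247fd6_al.HM2

/-! Stability of quasi-geodesics. -/

set_option autoImplicit false

namespace Pool.Agent.Lib.MP_247fd6_al

variable {n : ℕ}

theorem HM3_lip {l : ℝ} {N : ℕ} {q : ℕ → HPt n} (hq : ∀ i < N, hd (q i) (q (i + 1)) ≤ l)
    {a b : ℕ} (hab : a ≤ b) (hb : b ≤ N) : hd (q a) (q b) ≤ l * ((b : ℝ) - a) := by
  induction b, hab using Nat.le_induction with
  | base => rw [hd_self]; simp
  | succ b hab ih =>
    have h1 := ih (by omega)
    have h2 := hq b (by omega)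
    have h3 := hd_tri (q a) (q b) (q (b + 1))
    push_cast
    nlinarith

/-- quasi-geodesics are additive up to a constant -/
theorem morse (l ε : ℝ) (hl : 1 ≤ l) (hε : 0 ≤ ε) : ∃ C : ℝ, 0 ≤ C ∧
    ∀ (m : ℕ) (p : ℕ → HPt n), (∀ i < m, hd (p i) (p (i + 1)) ≤ l) →
    (∀ i j, i ≤ j → j ≤ m → (j : ℝ) - i ≤ l * hd (p i) (p j) + ε) →
    ∀ i j k, i ≤ j → j ≤ k → k ≤ m →
      hd (p i) (p j) + hd (p j) (p k) ≤ hd (p i) (p k) + C := by
  classical
  obtain ⟨D₀, hD₀, hnear⟩ := geod_near_path (n := n) l ε hl hε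
  refine ⟨2 * (l * (l * (2 * D₀ + 1) + ε) + D₀), by positivity, ?_⟩
  intro m p hp hqi i j k hij hjk hkm
  -- the path from `i` to `k`
  set N := k - i with hN
  set q : ℕ → HPt n := fun t => p (i + t) with hqdef
  have hq : ∀ t < N, hd (q t) (q (t + 1)) ≤ l := fun t ht => hp (i + t) (by omega)
  have hqi' : ∀ t t', t ≤ t' → t' ≤ N → (t' : ℝ) - t ≤ l * hd (q t) (q t') + ε := by
    intro t t' h1 h2
    have := hqi (i + t) (i + t') (by omega) (by omega)
    push_cast at this
    simp only [hqdef]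
    linarith
  obtain ⟨z, hz0, hzL, hz, -⟩ := exists_geod (q 0) (q N)
  set L := hd (q 0) (q N) with hL
  have hL0 : 0 ≤ L := hd_nonneg _ _
  have hne := hnear N q hq hqi' z hz0 hzL hz
  set M := ⌈L⌉₊ + 1 with hM
  have hML : L ≤ M := by
    have := Nat.le_ceil L
    rw [hM]
    push_cast
    linarith
  have hM0 : (0 : ℝ) < M := by
    rw [hM]; positivity
  set s : ℕ → ℝ := fun t => t * (L / M) with hs
  have hstep : L / M ≤ 1 := by rw [div_le_one hM0]; exact hML
  have hstep0 : 0 ≤ L / M := by positivity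
  have hs0 : ∀ t, 0 ≤ s t := fun t => by simp only [hs]; positivity
  have hsL : ∀ t ≤ M, s t ≤ L := by
    intro t ht
    simp only [hs]
    have h1 : (t : ℝ) ≤ M := by exact_mod_cast ht
    calc (t : ℝ) * (L / M) ≤ M * (L / M) := mul_le_mul_of_nonneg_right h1 hstep0
      _ = L := by field_simp
  have hsM : s M = L := by
    simp only [hs]
    field_simp
  have hex : ∀ t, ∃ a, t ≤ M → a ≤ N ∧ hd (z (s t)) (q a) ≤ D₀ ∧ (t = 0 → a = 0) ∧
      (t = M → a = N) := by
    intro t
    by_cases ht : t ≤ M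
    · by_cases ht0 : t = 0
      · refine ⟨0, fun _ => ⟨Nat.zero_le _, ?_, fun _ => rfl, fun h => ?_⟩⟩
        · subst ht0
          simp only [hs, Nat.cast_zero, zero_mul]
          rw [hz0, hd_self]; exact hD₀
        · omega
      · by_cases htM : t = M
        · refine ⟨N, fun _ => ⟨le_rfl, ?_, fun h => absurd h ht0, fun _ => rfl⟩⟩
          rw [htM, hsM, hzL, hd_self]; exact hD₀
        · obtain ⟨a, ha, hda⟩ := hne (s t) (hs0 t) (hsL t ht)
          exact ⟨a, fun _ => ⟨ha, hda, fun h => absurd h ht0, fun h => absurd h htM⟩⟩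
    · exact ⟨0, fun h => absurd h ht⟩
  choose a ha using hex
  set j' := j - i with hj'
  have hjN : j' ≤ N := by omega
  -- the crossing index
  have hcross : ∃ t < M, a t ≤ j' ∧ j' ≤ a (t + 1) := by
    by_contra hcon
    push Not at hcon
    have h1 : ∀ t ≤ M, a t ≤ j' := by
      intro t
      induction t with
      | zero => intro h; rw [(ha 0 h).2.2.1 rfl]; exact Nat.zero_le _
      | succ t ih =>
        intro h
        have := hcon t (by omega) (ih (by omega))
        omega
    have h2 := hcon (M - 1) (by omega) (h1 _ (by omega))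
    rw [show M - 1 + 1 = M by omega, (ha M le_rfl).2.2.2 rfl] at h2
    omega
  obtain ⟨t, ht, hta, htb⟩ := hcross
  obtain ⟨h1, h2, -, -⟩ := ha t (by omega)
  obtain ⟨h3, h4, -, -⟩ := ha (t + 1) (by omega)
  have h5 : hd (z (s t)) (z (s (t + 1))) = s (t + 1) - s t :=
    hz _ _ (hs0 t) (by simp only [hs]; push_cast; nlinarith) (hsL _ (by omega))
  have h6 : s (t + 1) - s t ≤ 1 := by
    simp only [hs]
    push_cast
    linarith
  have h7 : hd (q (a t)) (q (a (t + 1))) ≤ 2 * D₀ + 1 := by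
    have e1 := hd_tri (q (a t)) (z (s t)) (q (a (t + 1)))
    have e2 := hd_tri (z (s t)) (z (s (t + 1))) (q (a (t + 1)))
    have e3 := hd_symm (q (a t)) (z (s t))
    linarith
  have h8 : (a (t + 1) : ℝ) - a t ≤ l * (2 * D₀ + 1) + ε := by
    have e1 := hqi' (a t) (a (t + 1)) (by omega) h3
    have e2 : l * hd (q (a t)) (q (a (t + 1))) ≤ l * (2 * D₀ + 1) :=
      mul_le_mul_of_nonneg_left h7 (by linarith)
    linarith
  have h9 : hd (q (a t)) (q j') ≤ l * (l * (2 * D₀ + 1) + ε) := by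
    have e1 := HM3_lip hq hta hjN
    have e2 : (j' : ℝ) ≤ a (t + 1) := by exact_mod_cast htb
    refine le_trans e1 (mul_le_mul_of_nonneg_left (by linarith) (by linarith))
  have h10 : hd (z (s t)) (q j') ≤ l * (l * (2 * D₀ + 1) + ε) + D₀ := by
    have e1 := hd_tri (z (s t)) (q (a t)) (q j')
    linarith
  have h11 : hd (q 0) (z (s t)) = s t := by
    have := hz 0 (s t) le_rfl (hs0 t) (hsL t (by omega))
    rw [hz0] at this
    linarith
  have h12 : hd (z (s t)) (q N) = L - s t := by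
    have := hz (s t) L (hs0 t) (hsL t (by omega)) le_rfl
    rwa [hzL] at this
  have h13 := hd_tri (q 0) (z (s t)) (q j')
  have h14 := hd_tri (q j') (z (s t)) (q N)
  have h15 := hd_symm (q j') (z (s t))
  have e0 : q 0 = p i := by simp [hqdef]
  have ej : q j' = p j := by simp only [hqdef, hj']; congr 1; omega
  have eN : q N = p k := by simp only [hqdef, hN]; congr 1; omega
  rw [e0, ej] at h13
  rw [ej, eN] at h14
  rw [e0] at h11
  rw [eN] at h12
  rw [ej] at h10 h15
  have hL' : L = hd (p i) (p k) := by rw [hL, e0, eN]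
  linarith

end Pool.Agent.Lib.MP_247fd6_al
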