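import Pool.Agent.Lib.MP_247fd6_al.HA0

/-! The equivariant map from the graph to hyperbolic space. -/

set_option autoImplicit false

open scoped Pointwise

namespace Pool.Agent.Lib.MP_247fd6_al

variable {n : ℕ} {G Y : Type} [Group G] [MulAction G (HPt n)] [MulAction G Y]

namespace Cub

variable (P : Cub n G Y)

theorem HS1_le (g : G) (x y : Y) : P.gr.dist (g • x) (g • y) ≤ P.gr.dist x y := by
  obtain ⟨w, hw⟩ := P.conn.exists_walk_length_eq_dist x y
  let φ : P.gr →g P.gr := ⟨fun z => g • z, fun {a b} h => P.adj g a b h⟩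
  have h := SimpleGraph.dist_le (w.map φ)
  rw [SimpleGraph.Walk.length_map, hw] at h
  exact h

theorem dist_smul (g : G) (x y : Y) : P.gr.dist (g • x) (g • y) = P.gr.dist x y := by
  refine le_antisymm (P.HS1_le g x y) ?_
  have h := P.HS1_le g⁻¹ (g • x) (g • y)
  rwa [inv_smul_smul, inv_smul_smul] at h

theorem smul_hsp (g : G) (x y : Y) : g • hsp P.gr x y = hsp P.gr (g • x) (g • y) := by
  ext z
  rw [Set.mem_smul_set_iff_inv_smul_mem]
  unfold hsp
  simp only [Set.mem_ofPred_eq]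
  rw [← P.dist_smul g (g⁻¹ • z) x, ← P.dist_smul g (g⁻¹ • z) y, smul_inv_smul]

include P in
/-- the equivariant map -/
theorem exists_map : ∃ (f : Y → HPt n), (∀ (g : G) (y : Y), f (g • y) = g • f y) ∧
    (∀ y : Y, ∃ g : G, f y = g • e0 n) := by
  have h : ∀ y : Y, ∃ g : G,
      g • (Quotient.out (Quotient.mk (MulAction.orbitRel G Y) y)) = y := by
    intro y
    have h1 : (MulAction.orbitRel G Y) y
        (Quotient.out (Quotient.mk (MulAction.orbitRel G Y) y)) :=
      (MulAction.orbitRel G Y).symm (Quotient.mk_out (s := MulAction.orbitRel G Y) y)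
    exact h1
  choose k hk using h
  refine ⟨fun y => k y • e0 n, ?_, fun y => ⟨k y, rfl⟩⟩
  intro g y
  show k (g • y) • e0 n = g • k y • e0 n
  have hq : Quotient.mk (MulAction.orbitRel G Y) (g • y) =
      Quotient.mk (MulAction.orbitRel G Y) y := Quotient.sound ⟨g, rfl⟩
  have h1 := hk (g • y)
  rw [hq] at h1
  have h2 := hk y
  set r := Quotient.out (Quotient.mk (MulAction.orbitRel G Y) y)
  have h3 : ((g * k y)⁻¹ * k (g • y)) • r = r := by
    rw [mul_smul, h1, mul_inv_rev, mul_smul, inv_smul_smul, inv_smul_eq_iff, h2]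
  have h4 := P.free _ _ h3
  have h5 : k (g • y) = g * k y := by
    rw [inv_mul_eq_one] at h4
    exact h4.symm
  rw [h5, mul_smul]

/-- the equivariant map is Lipschitz -/
theorem map_lip {f : Y → HPt n} (hf : ∀ (g : G) (y : Y), f (g • y) = g • f y) :
    ∃ l : ℝ, 1 ≤ l ∧ ∀ x y : Y, P.gr.dist x y ≤ 1 → hd (f x) (f y) ≤ l := by
  obtain ⟨C, hC⟩ := (P.E.finite_toSet.image (fun e => hd (f e.1) (f e.2))).bddAbove
  refine ⟨max 1 C, le_max_left _ _, fun x y hxy => le_trans ?_ (le_max_right _ _)⟩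
  obtain ⟨g, hg⟩ := P.edges x y hxy
  have := hC ⟨_, hg, rfl⟩
  simpa only [hf, P.iso] using this

include P in
/-- finitely many vertices are mapped into a ball -/
theorem finite_ball {f : Y → HPt n} (hf : ∀ (g : G) (y : Y), f (g • y) = g • f y) (x : HPt n)
    (r : ℝ) : {y : Y | hd x (f y) ≤ r}.Finite := by
  have hfin : (⋃ e ∈ P.E, (fun g : G => g • e.1) '' {g | hd x (g • x) ≤ r + hd (f e.1) x}).Finite :=
    P.E.finite_toSet.biUnion (fun e _ => (P.proper _ _).image _)
  refine hfin.subset ?_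
  intro y hy
  obtain ⟨g, hg⟩ := P.edges y y (by simp)
  simp only [Set.mem_iUnion]
  refine ⟨(g • y, g • y), hg, g⁻¹, ?_, inv_smul_smul g y⟩
  show hd x (g⁻¹ • x) ≤ r + hd (f (g • y)) x
  have h1 := hd_tri x (f y) (g⁻¹ • x)
  have h2 : hd (f y) (g⁻¹ • x) = hd (f (g • y)) x := by
    rw [hf, ← P.iso g (f y) (g⁻¹ • x), smul_inv_smul]
  have h3 : hd x (f y) ≤ r := hy
  linarith

end Cub

end Pool.Agent.Lib.MP_247fd6_al
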