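import Pool.Agent.Lib.MP_247fd6_al.HS1

/-! The equivariant map is a quasi-isometric embedding. -/

set_option autoImplicit false

open scoped Pointwise

namespace Pool.Agent.Lib.MP_247fd6_al

variable {n : ℕ} {G Y : Type} [Group G] [MulAction G (HPt n)] [MulAction G Y]

namespace Cub

variable (P : Cub n G Y)

/-- the equivariant map is a quasi-isometric embedding -/
theorem map_qi {f : Y → HPt n} (hf : ∀ (g : G) (y : Y), f (g • y) = g • f y)
    (hf0 : ∀ y : Y, ∃ g : G, f y = g • e0 n) :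
    ∃ l ε : ℝ, 1 ≤ l ∧ 0 ≤ ε ∧ ∀ x y : Y, (P.gr.dist x y : ℝ) ≤ l * hd (f x) (f y) + ε := by
  rcases isEmpty_or_nonempty Y with hY | ⟨⟨y1⟩⟩
  · exact ⟨1, 0, le_refl _, le_refl _, fun x => hY.elim x⟩
  obtain ⟨g1, hg1⟩ := hf0 y1
  obtain ⟨y0, hy0⟩ : ∃ y0, f y0 = e0 n := ⟨g1⁻¹ • y1, by rw [hf, hg1, inv_smul_smul]⟩
  have hD : 0 ≤ P.D := by
    obtain ⟨g, hg⟩ := P.dense (e0 n)
    exact (hd_nonneg _ _).trans hg
  obtain ⟨C1, hC1⟩ := ((P.proper (e0 n) (2 * P.D + 1)).image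
    (fun g => P.gr.dist y0 (g • y0))).bddAbove
  obtain ⟨C2, hC2⟩ := ((P.finite_ball hf (e0 n) 0).image (fun y => P.gr.dist y y0)).bddAbove
  have h1 : ∀ g g' : G, hd (g • e0 n) (g' • e0 n) ≤ 2 * P.D + 1 →
      P.gr.dist (g • y0) (g' • y0) ≤ C1 := by
    intro g g' h
    have h2 : hd (e0 n) ((g⁻¹ * g') • e0 n) ≤ 2 * P.D + 1 := by
      rw [← P.iso g, mul_smul, smul_inv_smul]
      exact h
    have h3 := hC1 ⟨g⁻¹ * g', h2, rfl⟩
    simp only at h3
    rw [← P.dist_smul g, mul_smul, smul_inv_smul] at h3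
    exact h3
  have h2 : ∀ (x : Y) (g : G), f x = g • e0 n → P.gr.dist x (g • y0) ≤ C2 := by
    intro x g h
    have h3 : hd (e0 n) (f (g⁻¹ • x)) ≤ 0 := by
      rw [hf, h, inv_smul_smul, hd_self]
    have h4 := hC2 ⟨g⁻¹ • x, h3, rfl⟩
    simp only at h4
    rw [← P.dist_smul g, smul_inv_smul] at h4
    exact h4
  refine ⟨max 1 C1, 2 * C2 + 3 * C1, le_max_left _ _, by positivity, ?_⟩
  intro x y
  obtain ⟨g, hg⟩ := hf0 x
  obtain ⟨g', hg'⟩ := hf0 y
  obtain ⟨z, hz0, hz1, hz, -⟩ := exists_geod (f x) (f y)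
  set L := hd (f x) (f y) with hL
  have hL0 : 0 ≤ L := hd_nonneg _ _
  choose k hk using fun i : ℕ => P.dense (z (min (i : ℝ) L))
  have hstep : ∀ i : ℕ, P.gr.dist (k i • y0) (k (i + 1) • y0) ≤ C1 := by
    intro i
    apply h1
    have e1 := hd_tri (k i • e0 n) (z (min (i : ℝ) L)) (k (i + 1) • e0 n)
    have e2 := hd_tri (z (min (i : ℝ) L)) (z (min ((i + 1 : ℕ) : ℝ) L)) (k (i + 1) • e0 n)
    have e3 := hk i
    rw [hd_symm] at e3
    have e4 := hk (i + 1)
    have hii : min (i : ℝ) L ≤ min ((i + 1 : ℕ) : ℝ) L := by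
      apply min_le_min _ (le_refl _)
      push_cast
      linarith
    have e5 := hz (min (i : ℝ) L) (min ((i + 1 : ℕ) : ℝ) L) (by positivity) hii (min_le_right _ _)
    have e6 : min ((i + 1 : ℕ) : ℝ) L - min (i : ℝ) L ≤ 1 := by
      push_cast
      rcases le_total (i : ℝ) L with h | h
      · rw [min_eq_left h]
        linarith [min_le_left ((i : ℝ) + 1) L]
      · rw [min_eq_right h]
        linarith [min_le_right ((i : ℝ) + 1) L]
    linarith
  have hchain : ∀ i : ℕ, P.gr.dist (k 0 • y0) (k i • y0) ≤ C1 * i := by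
    intro i
    induction i with
    | zero => simp
    | succ i ih =>
      have := P.conn.dist_triangle (u := k 0 • y0) (v := k i • y0) (w := k (i + 1) • y0)
      have h3 := hstep i
      rw [mul_add, mul_one]
      omega
  set M := ⌈L⌉₊ with hM
  have hML : L ≤ M := Nat.le_ceil _
  have hML2 : (M : ℝ) < L + 1 := Nat.ceil_lt_add_one hL0
  have a1 := h2 x g hg
  have a2 : P.gr.dist (g • y0) (k 0 • y0) ≤ C1 := by
    apply h1
    have := hk 0
    rw [Nat.cast_zero, min_eq_left hL0, hz0, hg] at this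
    linarith
  have a3 := hchain M
  have a4 : P.gr.dist (k M • y0) (g' • y0) ≤ C1 := by
    apply h1
    have := hk M
    rw [min_eq_right hML, hz1, hg', hd_symm] at this
    linarith
  have a5 := h2 y g' hg'
  rw [SimpleGraph.dist_comm] at a5
  have t1 := P.conn.dist_triangle (u := x) (v := g • y0) (w := y)
  have t2 := P.conn.dist_triangle (u := g • y0) (v := k 0 • y0) (w := y)
  have t3 := P.conn.dist_triangle (u := k 0 • y0) (v := k M • y0) (w := y)
  have t4 := P.conn.dist_triangle (u := k M • y0) (v := g' • y0) (w := y)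
  have hnat : P.gr.dist x y ≤ 2 * C2 + C1 * M + 2 * C1 := by
    omega
  have hreal : (P.gr.dist x y : ℝ) ≤ 2 * C2 + C1 * M + 2 * C1 := by exact_mod_cast hnat
  have hC1' : (C1 : ℝ) * M ≤ C1 * L + C1 := by
    have : (0 : ℝ) ≤ C1 := Nat.cast_nonneg _
    nlinarith
  have hmax : (C1 : ℝ) * L ≤ max 1 (C1 : ℝ) * L :=
    mul_le_mul_of_nonneg_right (le_max_right _ _) hL0
  linarith

end Cub

end Pool.Agent.Lib.MP_247fd6_al
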