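import Pool.Agent.Lib.MP_247fd6_al.HG3
import Pool.Agent.Lib.MP_247fd6_al.HM3
import Pool.Agent.Lib.MP_247fd6_al.HS1b

/-! Paths in the graph. -/

set_option autoImplicit false

open scoped Pointwise

namespace Pool.Agent.Lib.MP_247fd6_al

variable {n : ℕ} {G Y : Type} [Group G] [MulAction G (HPt n)] [MulAction G Y]

namespace Cub

variable (P : Cub n G Y)

/-- paths in the graph -/
theorem exists_const {f : Y → HPt n} (hf : ∀ (g : G) (y : Y), f (g • y) = g • f y)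
    (hf0 : ∀ y : Y, ∃ g : G, f y = g • e0 n) :
    ∃ C : ℝ, 1 ≤ C ∧ ∀ x y : Y, ∃ (m : ℕ) (p : ℕ → Y), p 0 = x ∧ p m = y ∧
      (∀ i < m, hd (f (p i)) (f (p (i + 1))) ≤ C) ∧
      (∀ i j k, i ≤ j → j ≤ k → k ≤ m →
        hd (f (p i)) (f (p j)) + hd (f (p j)) (f (p k)) ≤ hd (f (p i)) (f (p k)) + C) ∧
      ∀ h ∈ hsps P.gr, ∀ i j k, i ≤ j → j ≤ k → k ≤ m → (p i ∈ h ↔ p k ∈ h) →
        (p j ∈ h ↔ p i ∈ h) := by
  obtain ⟨l1, hl1, h1⟩ := P.map_lip hf
  obtain ⟨l2, ε, hl2, hε, h2⟩ := P.map_qi hf hf0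
  obtain ⟨C, hC0, hC⟩ := morse (n := n) (max l1 l2) ε (hl1.trans (le_max_left _ _)) hε
  refine ⟨max (max l1 l2) C, (hl1.trans (le_max_left _ _)).trans (le_max_left _ _), ?_⟩
  intro x y
  obtain ⟨p, hp0, hp1, hp⟩ := exists_path P.conn x y
  have hstep : ∀ i < P.gr.dist x y, hd (f (p i)) (f (p (i + 1))) ≤ max l1 l2 := by
    intro i hi
    refine (h1 _ _ ?_).trans (le_max_left _ _)
    rw [hp i (i + 1) (by omega) (by omega)]
    omega
  refine ⟨P.gr.dist x y, p, hp0, hp1, fun i hi => (hstep i hi).trans (le_max_left _ _), ?_, ?_⟩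
  · intro i j k hij hjk hk
    have := hC (P.gr.dist x y) (fun i => f (p i)) hstep ?_ i j k hij hjk hk
    · exact this.trans (add_le_add (le_refl _) (le_max_right _ _))
    · intro i j hij hj
      have e1 := h2 (p i) (p j)
      rw [hp i j hij hj, Nat.cast_sub hij] at e1
      refine e1.trans (add_le_add ?_ (le_refl _))
      exact mul_le_mul_of_nonneg_right (le_max_right _ _) (hd_nonneg _ _)
  · intro h hh i j k hij hjk hk hik
    exact path_hsp P.conn P.med hp hh hij hjk hk hik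

end Cub

end Pool.Agent.Lib.MP_247fd6_al
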