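import Pool.Agent.Lib.MP_247fd6_al.HS1c

/-! The system of a group acting on a median graph. -/

set_option autoImplicit false

open scoped Pointwise

namespace Pool.Agent.Lib.MP_247fd6_al

variable {n : ℕ} {G Y : Type} [Group G] [MulAction G (HPt n)] [MulAction G Y]

namespace Cub

variable (P : Cub n G Y)

theorem HS2_smul_mem (g : G) {h : Set Y} (hh : h ∈ hsps P.gr) : g • h ∈ hsps P.gr := by
  obtain ⟨x, y, hxy, rfl⟩ := hh
  exact ⟨g • x, g • y, P.adj g x y hxy, P.smul_hsp g x y⟩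

theorem HS2_sepby (g : G) {h : Set Y} {x y : Y} (hs : Sepby h x y) :
    Sepby (g • h) (g • x) (g • y) := by
  intro hc
  apply hs
  rw [Set.smul_mem_smul_set_iff, Set.smul_mem_smul_set_iff] at hc
  exact hc

/-- the system -/
theorem exists_sys : ∃ (f : Y → HPt n) (S : Sys G Y),
    (∀ (g : G) (y : Y), f (g • y) = g • f y) ∧ (∀ y : Y, ∃ g : G, f y = g • e0 n) ∧
    (∀ x y : Y, S.d x y = hd (f x) (f y)) ∧ S.HS = hsps P.gr := by
  obtain ⟨f, hf, hf0⟩ := P.exists_map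
  obtain ⟨C, hC, hpath⟩ := P.exists_const hf hf0
  have hprop : ∀ (x : Y) (r : ℝ), {g : G | hd (f x) (f (g • x)) ≤ r}.Finite := by
    intro x r
    have h1 := P.proper (f x) r
    refine h1.subset ?_
    intro g hg
    have h2 : hd (f x) (f (g • x)) ≤ r := hg
    rw [hf] at h2
    exact h2
  refine ⟨f,
    { d := fun x y => hd (f x) (f y)
      nonneg := fun _ _ => hd_nonneg _ _
      self := fun _ => hd_self _
      symm := fun _ _ => hd_symm _ _
      tri := fun _ _ _ => hd_tri _ _ _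
      inv := fun g x y => by rw [hf, hf, P.iso]
      δ := 10
      hyp := fun _ _ _ _ => hd_hyp _ _ _ _
      proper := hprop
      HS := hsps P.gr
      HSinv := fun g h hh => P.HS2_smul_mem g hh
      C₀ := C
      hC₀ := hC
      path := hpath }, hf, hf0, fun _ _ => rfl, rfl⟩

/-- finitely many orbits of half-spaces -/
theorem finite_orbits : ∃ H : Finset (Set Y), (∀ h ∈ H, h ∈ hsps P.gr) ∧
    ∀ h ∈ hsps P.gr, ∃ g : G, g • h ∈ H := by
  classical
  refine ⟨(P.E.filter (fun p => P.gr.Adj p.1 p.2)).image (fun p => hsp P.gr p.1 p.2), ?_, ?_⟩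
  · intro h hh
    rw [Finset.mem_image] at hh
    obtain ⟨p, hp, rfl⟩ := hh
    rw [Finset.mem_filter] at hp
    exact ⟨p.1, p.2, hp.2, rfl⟩
  · rintro h ⟨x, y, hxy, rfl⟩
    obtain ⟨g, hg⟩ := P.edges x y (le_of_eq (SimpleGraph.dist_eq_one_iff_adj.2 hxy))
    refine ⟨g, ?_⟩
    rw [Finset.mem_image]
    refine ⟨(g • x, g • y), ?_, ?_⟩
    · rw [Finset.mem_filter]
      exact ⟨hg, P.adj g x y hxy⟩
    · exact (P.smul_hsp g x y).symm

/-- finitely many pairs of vertices near a wall, up to the stabiliser of the wall -/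
theorem finite_pairs {f : Y → HPt n} (hf : ∀ (g : G) (y : Y), f (g • y) = g • f y) (C : ℝ)
    {h : Set Y} (hh : h ∈ hsps P.gr) : ∃ A : Finset Y,
      ∀ x y : Y, Sepby h x y → hd (f x) (f y) ≤ C → ∃ s : G, s • h = h ∧ s • x ∈ A := by
  classical
  obtain ⟨T, hT⟩ : ∃ T : Set (Y × Set Y), T = {t | t.1 ∈ P.E.image Prod.fst ∧ t.2 ∈ hsps P.gr ∧
    ∃ y0, Sepby t.2 t.1 y0 ∧ hd (f t.1) (f y0) ≤ C} := ⟨_, rfl⟩
  have hTfin : T.Finite := by
    have h1 : (⋃ x0 ∈ (P.E.image Prod.fst : Finset Y), ⋃ y0 ∈ {y : Y | hd (f x0) (f y) ≤ C},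
        (fun h0 : Set Y => (x0, h0)) '' {h0 | h0 ∈ hsps P.gr ∧ Sepby h0 x0 y0}).Finite := by
      refine Set.Finite.biUnion (Finset.finite_toSet _) ?_
      intro x0 _
      refine Set.Finite.biUnion (P.finite_ball hf (f x0) C) ?_
      intro y0 _
      exact (finite_sep P.conn P.med x0 y0).image _
    refine h1.subset ?_
    rintro ⟨x0, h0⟩ ht
    rw [hT] at ht
    obtain ⟨ha, hb, y0, hc, hd'⟩ := ht
    simp only [Set.mem_iUnion]
    exact ⟨x0, ha, y0, hd', h0, ⟨hb, hc⟩, rfl⟩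
  have hk : ∀ t : Y × Set Y, ∃ z : Y, ∀ g : G, g • h = t.2 → ∃ k : G, k • t.2 = h ∧ k • t.1 = z := by
    intro t
    by_cases hex : ∃ k : G, k • t.2 = h
    · obtain ⟨k, hk⟩ := hex
      exact ⟨k • t.1, fun g _ => ⟨k, hk, rfl⟩⟩
    · refine ⟨t.1, fun g hg => ?_⟩
      exfalso
      apply hex
      refine ⟨g⁻¹, ?_⟩
      rw [← hg, inv_smul_smul]
  choose z hz using hk
  refine ⟨hTfin.toFinset.image z, ?_⟩
  intro x y hsep hd'
  obtain ⟨g, hg⟩ := P.edges x x (by rw [SimpleGraph.dist_self]; exact zero_le_one)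
  have ht : (g • x, g • h) ∈ T := by
    rw [hT]
    refine ⟨?_, P.HS2_smul_mem g hh, g • y, HS2_sepby g hsep, ?_⟩
    · rw [Finset.mem_image]
      exact ⟨(g • x, g • x), hg, rfl⟩
    · change hd (f (g • x)) (f (g • y)) ≤ C
      rw [hf, hf, P.iso]
      exact hd'
  obtain ⟨k, hk1, hk2⟩ := hz (g • x, g • h) g rfl
  refine ⟨k * g, ?_, ?_⟩
  · rw [mul_smul]
    exact hk1
  · rw [Finset.mem_image]
    refine ⟨(g • x, g • h), hTfin.mem_toFinset.2 ht, ?_⟩
    rw [mul_smul]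
    exact hk2.symm

end Cub

end Pool.Agent.Lib.MP_247fd6_al
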