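import Pool.Agent.Lib.MP_247fd6_al.HS2

/-! Separated families of walls from separability. -/

set_option autoImplicit false

open scoped Pointwise

namespace Pool.Agent.Lib.MP_247fd6_al

variable {n : ℕ} {G Y : Type} [Group G] [MulAction G (HPt n)] [MulAction G Y]

namespace Cub

variable (P : Cub n G Y)

/-- avoiding finitely many double cosets -/
theorem avoid {h : Set Y} (hh : h ∈ hsps P.gr) (Φ : Set G) (hΦ : Φ.Finite) :
    ∃ B : Subgroup G, B.FiniteIndex ∧ B.Normal ∧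
      ∀ φ ∈ Φ, ∀ s s' : G, s • h = h → s' • h = h → s * φ * s' ∈ B → φ • h = h := by
  obtain ⟨x, y, hxy, rfl⟩ := hh
  have h1 : ∀ φ : G, ∃ N : Subgroup G, N.FiniteIndex ∧ N.Normal ∧
      ∀ s s' : G, s • hsp P.gr x y = hsp P.gr x y → s' • hsp P.gr x y = hsp P.gr x y →
        s * φ * s' ∈ N → φ • hsp P.gr x y = hsp P.gr x y := by
    intro φ
    by_cases hφ : φ • hsp P.gr x y = hsp P.gr x y
    · exact ⟨⊤, inferInstance, inferInstance, fun _ _ _ _ _ => hφ⟩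
    · obtain ⟨B, hB, hB2⟩ := P.sepa x y hxy φ hφ
      haveI := hB
      refine ⟨B.normalCore, inferInstance, inferInstance, ?_⟩
      intro s s' hs hs' hm
      exfalso
      have hn : B.normalCore.Normal := inferInstance
      have h2 := hn.conj_mem _ hm s'
      have h3 : s' * (s * φ * s') * s'⁻¹ = ((s' * s)⁻¹)⁻¹ * φ := by group
      rw [h3] at h2
      have h4 := B.normalCore_le h2
      refine hB2 (s' * s)⁻¹ ?_ h4
      rw [inv_smul_eq_iff, mul_smul, hs, hs']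
  choose N hN1 hN2 hN3 using h1
  haveI : Finite Φ := hΦ
  refine ⟨⨅ φ : Φ, N φ, ?_, ?_, ?_⟩
  · exact Subgroup.finiteIndex_iInf (fun φ : Φ => hN1 φ)
  · exact Subgroup.normal_iInf_normal (fun φ : Φ => hN2 φ)
  · intro φ hφ s s' hs hs' hm
    rw [Subgroup.mem_iInf] at hm
    exact hN3 φ s s' hs hs' (hm ⟨φ, hφ⟩)

/-- translates of a wall under a deep subgroup are far apart -/
theorem sep_walls {f : Y → HPt n} (hf : ∀ (g : G) (y : Y), f (g • y) = g • f y) (C R : ℝ)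
    {h : Set Y} (hh : h ∈ hsps P.gr) : ∃ B : Subgroup G, B.FiniteIndex ∧ B.Normal ∧
      ∀ γ ∈ B, γ • h ≠ h → ∀ x y x' y' : Y, Sepby h x y → hd (f x) (f y) ≤ C →
        Sepby (γ • h) x' y' → hd (f x') (f y') ≤ C → R ≤ hd (f x) (f x') := by
  obtain ⟨A, hA⟩ := P.finite_pairs hf C hh
  have hΦ : (⋃ x1 ∈ A, ⋃ x2 ∈ A, {φ : G | hd (f x1) (φ • f x2) < R}).Finite := by
    refine Set.Finite.biUnion (Finset.finite_toSet _) ?_
    intro x1 _
    refine Set.Finite.biUnion (Finset.finite_toSet _) ?_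
    intro x2 _
    refine (P.proper (f x2) (hd (f x2) (f x1) + R)).subset ?_
    intro φ hφ
    have h1 : hd (f x1) (φ • f x2) < R := hφ
    have h2 := hd_tri (f x2) (f x1) (φ • f x2)
    change hd (f x2) (φ • f x2) ≤ _
    linarith
  obtain ⟨B, hB1, hB2, hB3⟩ := P.avoid hh _ hΦ
  refine ⟨B, hB1, hB2, ?_⟩
  intro γ hγ hne x y x' y' h1 h2 h3 h4
  by_contra hlt
  rw [not_le] at hlt
  obtain ⟨s, hs, hsx⟩ := hA x y h1 h2
  have h5 : Sepby h (γ⁻¹ • x') (γ⁻¹ • y') := by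
    have h6 := HS2_sepby γ⁻¹ h3
    rw [inv_smul_smul] at h6
    exact h6
  have h7 : hd (f (γ⁻¹ • x')) (f (γ⁻¹ • y')) ≤ C := by
    rw [hf, hf, P.iso]
    exact h4
  obtain ⟨s', hs', hsx'⟩ := hA _ _ h5 h7
  have h8 : s * γ * s'⁻¹ ∈ (⋃ x1 ∈ A, ⋃ x2 ∈ A, {φ : G | hd (f x1) (φ • f x2) < R}) := by
    simp only [Set.mem_iUnion]
    refine ⟨s • x, hsx, s' • γ⁻¹ • x', hsx', ?_⟩
    change hd (f (s • x)) ((s * γ * s'⁻¹) • f (s' • γ⁻¹ • x')) < R
    rw [← hf]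
    have h9 : (s * γ * s'⁻¹) • s' • γ⁻¹ • x' = s • x' := by
      rw [mul_smul, inv_smul_smul, mul_smul, smul_inv_smul]
    rw [h9, hf, hf, P.iso]
    exact hlt
  have hs2 : s⁻¹ • h = h := by rw [inv_smul_eq_iff, hs]
  have h10 : s⁻¹ * (s * γ * s'⁻¹) * s' ∈ B := by
    have h11 : s⁻¹ * (s * γ * s'⁻¹) * s' = γ := by group
    rw [h11]
    exact hγ
  have h12 := hB3 _ h8 s⁻¹ s' hs2 hs' h10
  apply hne
  have h13 : γ = s⁻¹ * (s * γ * s'⁻¹) * s' := by group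
  calc γ • h = (s⁻¹ * (s * γ * s'⁻¹) * s') • h := by rw [← h13]
    _ = s⁻¹ • (s * γ * s'⁻¹) • s' • h := by rw [mul_smul, mul_smul]
    _ = h := by rw [hs', h12, hs2]

end Cub

end Pool.Agent.Lib.MP_247fd6_al
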