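import Pool.Agent.Lib.MP_247fd6_al.HS3

/-! Wall families for all separations. -/

set_option autoImplicit false

open scoped Pointwise

namespace Pool.Agent.Lib.MP_247fd6_al

variable {n : ℕ} {G Y : Type} [Group G] [MulAction G (HPt n)] [MulAction G Y]

/-- separation is equivariant -/
theorem HS3b_sepby_smul (g : G) (h : Set Y) (x y : Y) :
    Sepby (g • h) (g • x) (g • y) ↔ Sepby h x y := by
  unfold Sepby
  rw [Set.smul_mem_smul_set_iff, Set.smul_mem_smul_set_iff]

/-- wall families indexed by a finite type -/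
theorem HS3b_index {X : Type} [MulAction G X] (S : Sys G X) (R : ℝ) {I : Type} [Finite I]
    (B : Subgroup G) (hB : B.FiniteIndex) (W : I → Set (Set X)) (hW : ∀ i, Fam S B R (W i))
    (hx : ∀ x : X, ∃ ρ : ℝ, ∀ z : X, (∀ i, z ∈ region (W i) x) → S.d x z ≤ ρ) :
    ∃ (B : Subgroup G) (r : ℕ) (W : ℕ → Set (Set X)), B.FiniteIndex ∧
      (∀ i < r, Fam S B R (W i)) ∧
      ∀ x : X, ∃ ρ : ℝ, ∀ z : X, (∀ i < r, z ∈ region (W i) x) → S.d x z ≤ ρ := by
  classical
  obtain ⟨r, ⟨e⟩⟩ := Finite.exists_equiv_fin I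
  refine ⟨B, r, fun i => if h : i < r then W (e.symm ⟨i, h⟩) else ∅, hB, ?_, ?_⟩
  · intro i hi
    simp only [dif_pos hi]
    exact hW _
  · intro x
    obtain ⟨ρ, hρ⟩ := hx x
    refine ⟨ρ, fun z hz => hρ z fun i => ?_⟩
    have h1 := hz (e i).1 (e i).2
    simp only [dif_pos (e i).2, Fin.eta, Equiv.symm_apply_apply] at h1
    exact h1

namespace Cub

variable (P : Cub n G Y)

/-- the half-spaces are permuted -/
theorem HS3b_smul_mem {h : Set Y} (hh : h ∈ hsps P.gr) (g : G) : g • h ∈ hsps P.gr := by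
  obtain ⟨x, y, hxy, rfl⟩ := hh
  exact ⟨g • x, g • y, P.adj g x y hxy, P.smul_hsp g x y⟩

/-- the system has wall families for all separations -/
theorem hasWalls_cub {f : Y → HPt n} {S : Sys G Y}
    (hf : ∀ (g : G) (y : Y), f (g • y) = g • f y) (hd' : ∀ x y : Y, S.d x y = hd (f x) (f y))
    (hS : S.HS = hsps P.gr) : HasWalls S := by
  classical
  intro R
  obtain ⟨H, hH, horb⟩ := P.finite_orbits
  have hB : ∀ h : {h // h ∈ H}, ∃ B : Subgroup G, B.FiniteIndex ∧ B.Normal ∧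
      ∀ γ ∈ B, γ • h.1 ≠ h.1 → ∀ x y x' y' : Y, Sepby h.1 x y → hd (f x) (f y) ≤ S.C₀ →
        Sepby (γ • h.1) x' y' → hd (f x') (f y') ≤ S.C₀ → R ≤ hd (f x) (f x') :=
    fun h => P.sep_walls hf S.C₀ R (hH h.1 h.2)
  choose B hBfin hBnorm hBsep using hB
  have hBt : (⨅ h, B h).FiniteIndex := Subgroup.finiteIndex_iInf hBfin
  have hle : ∀ (h : {h // h ∈ H}) (b : G), b ∈ (⨅ h, B h) → b ∈ B h := fun h b hb =>
    (iInf_le B h) hb
  have hquot : Finite (G ⧸ (⨅ h, B h)) := Subgroup.finite_quotient_of_finiteIndex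
  have hHfin : Finite {h // h ∈ H} := Finite.of_fintype _
  have hdist : ∀ (g : G) (x y : Y), hd (f (g • x)) (f (g • y)) = hd (f x) (f y) := by
    intro g x y
    rw [hf, hf, P.iso]
  refine HS3b_index S R (I := {h // h ∈ H} × (G ⧸ (⨅ h, B h))) (⨅ h, B h) hBt
    (fun i => {w | ∃ b ∈ (⨅ h, B h), w = b • ((Quotient.out i.2)⁻¹ • i.1.1)}) ?_ ?_
  · rintro ⟨h0, c⟩
    set c' : G := (Quotient.out c)⁻¹ with hc'
    have hsub : ∀ w, w ∈ {w | ∃ b ∈ (⨅ h, B h), w = b • (c' • h0.1)} → w ∈ hsps P.gr := by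
      rintro w ⟨b, hb, rfl⟩
      exact P.HS3b_smul_mem (P.HS3b_smul_mem (hH h0.1 h0.2) _) _
    refine ⟨?_, ?_, ?_, ?_⟩
    · intro w hw
      rw [hS]
      exact hsub w hw
    · rintro g hg w ⟨b, hb, rfl⟩
      exact ⟨g * b, Subgroup.mul_mem _ hg hb, by rw [mul_smul]⟩
    · rintro w ⟨b, hb, rfl⟩ w' ⟨b', hb', rfl⟩ hne x y x' y' hxy hxy1 hxy' hxy1'
      have hb1 := hle h0 b hb
      have hb2 := hle h0 b' hb'
      -- translate by `(b c')⁻¹`
      set t : G := (b * c')⁻¹ with ht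
      have hγ : t * b' * c' ∈ B h0 := by
        have h1 : t * b' * c' = c'⁻¹ * (b⁻¹ * b') * c'⁻¹⁻¹ := by
          rw [ht]
          group
        rw [h1]
        exact (hBnorm h0).conj_mem _ (Subgroup.mul_mem _ (Subgroup.inv_mem _ hb1) hb2) _
      have e1 : t • (b • (c' • h0.1)) = h0.1 := by
        rw [smul_smul b c', ht, smul_smul, inv_mul_cancel, one_smul]
      have e2 : t • (b' • (c' • h0.1)) = (t * b' * c') • h0.1 := by
        rw [smul_smul, smul_smul]
      have hne' : (t * b' * c') • h0.1 ≠ h0.1 := by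
        intro h
        apply hne
        rw [← e2] at h
        nth_rewrite 2 [← e1] at h
        exact (MulAction.injective t h).symm
      have s1 : Sepby h0.1 (t • x) (t • y) := by
        rw [← e1]
        exact (HS3b_sepby_smul t _ x y).2 hxy
      have s2 : Sepby ((t * b' * c') • h0.1) (t • x') (t • y') := by
        rw [← e2]
        exact (HS3b_sepby_smul t _ x' y').2 hxy'
      have h3 := hBsep h0 _ hγ hne' (t • x) (t • y) (t • x') (t • y') s1
        (by rw [hdist, ← hd']; exact hxy1) s2 (by rw [hdist, ← hd']; exact hxy1')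
      rw [hdist, ← hd'] at h3
      exact h3
    · intro x ρ
      have hU : {u : Y | hd (f x) (f u) ≤ ρ}.Finite := P.finite_ball hf (f x) ρ
      have hU' : {u : Y | hd (f x) (f u) ≤ ρ + S.C₀}.Finite := P.finite_ball hf (f x) (ρ + S.C₀)
      have hfin : (⋃ u ∈ {u : Y | hd (f x) (f u) ≤ ρ},
          ⋃ u' ∈ {u : Y | hd (f x) (f u) ≤ ρ + S.C₀},
            {h | h ∈ hsps P.gr ∧ Sepby h u u'}).Finite :=
        hU.biUnion fun u _ => hU'.biUnion fun u' _ => finite_sep P.conn P.med u u'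
      refine hfin.subset ?_
      rintro w ⟨hw, u, u', hs, h1, h2⟩
      have h3 := S.tri x u u'
      rw [Set.mem_iUnion₂]
      refine ⟨u, ?_, ?_⟩
      · change hd (f x) (f u) ≤ ρ
        rw [← hd']
        exact h2
      · rw [Set.mem_iUnion₂]
        refine ⟨u', ?_, hsub w hw, hs⟩
        change hd (f x) (f u') ≤ ρ + S.C₀
        rw [← hd']
        linarith
  · intro x
    refine ⟨0, fun z hz => ?_⟩
    have hxz : x = z := by
      by_contra hne
      obtain ⟨h, hh, hx, hz'⟩ := exists_sep P.conn hne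
      obtain ⟨g, hg⟩ := horb h hh
      -- `h = g⁻¹ • h0`, `g = out q * b`
      set q : G ⧸ (⨅ h, B h) := QuotientGroup.mk g with hq
      have hb : (Quotient.out q)⁻¹ * g ∈ (⨅ h, B h) := by
        apply QuotientGroup.eq.1
        rw [← hq]
        exact Quotient.out_eq q
      have h1 := hz (⟨g • h, hg⟩, q) h ⟨((Quotient.out q)⁻¹ * g)⁻¹, Subgroup.inv_mem _ hb, by
        rw [smul_smul, smul_smul]
        simp⟩
      exact hz' (h1.2 hx)
    rw [← hxz, S.self]

end Cub

end Pool.Agent.Lib.MP_247fd6_al
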