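import Pool.Agent.Lib.MP_247fd6_al.CF2
import Pool.Agent.Lib.MP_247fd6_al.GG1
import Pool.Agent.Lib.MP_247fd6_al.HS3b

/-! Growth density for cubulated groups. -/

set_option autoImplicit false

open Matrix
open scoped Pointwise ENNReal

namespace Pool.Agent.Lib.MP_247fd6_al

variable {n : ℕ}

/-- growth density for a discrete group acting on a median graph -/
theorem Cub.density {Γ : Subgroup (Oplus n)} (hΓ : Disc Γ) {Y : Type} [MulAction Γ Y]
    (P : Cub n Γ Y) {a b : ℝ} (ha : 0 ≤ a) (hab : a < b) (hb : b ≤ om (im Γ ⊤)) :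
    ∃ L : Subgroup Γ, L.FG ∧ a < om (im Γ L) ∧ om (im Γ L) < b := by
  obtain ⟨f, S, hf, hf0, hd', hS⟩ := P.exists_sys
  have hbdd : ∃ C, ∀ᶠ r in Filter.atTop,
      Pool.Agent.Lib.MP_247fd6_al.gr (im Γ ⊤) r ≤ C := by
    apply bdd_of_limsup_pos
    change 0 < om (im Γ ⊤)
    linarith
  -- a base vertex over the base point
  obtain ⟨y0, hy0⟩ : ∃ y0 : Y, f y0 = e0 n := by
    obtain ⟨y⟩ := P.conn.nonempty
    obtain ⟨g, hg⟩ := hf0 y
    exact ⟨g⁻¹ • y, by rw [hf, hg, inv_smul_smul]⟩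
  have hPS : ∀ (L : Subgroup Γ) (t : ℝ), PS S L t y0 y0 = PS (hsys Γ hΓ) L t (e0 n) (e0 n) := by
    intro L t
    unfold PS
    refine tsum_congr fun g => ?_
    rw [hd', hf, hy0]
    rfl
  have hCv : ∀ (L : Subgroup Γ) (t : ℝ), Cv S L t ↔ Cv (hsys Γ hΓ) L t := by
    intro L t
    constructor
    · intro h
      apply Cv.of_one (hsys Γ hΓ) (x := e0 n) (y := e0 n)
      rw [← hPS]
      exact h y0 y0
    · intro h
      apply Cv.of_one S (x := y0) (y := y0)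
      rw [hPS]
      exact h (e0 n) (e0 n)
  have hex : ∀ L : Subgroup Γ, ex S L = om (im Γ L) := by
    intro L
    rw [om_im Γ hΓ hbdd L]
    unfold ex
    simp only [hCv]
  obtain ⟨t, ht⟩ := exists_Cv Γ hΓ hbdd
  obtain ⟨L, hL, h1, h2⟩ := core_density S (P.hasWalls_cub hf hd' hS) ⟨t, (hCv ⊤ t).2 ht⟩ y0 0
    (by
      intro z
      obtain ⟨g, hg⟩ := hf0 z
      refine ⟨g, ?_⟩
      rw [hd', hf, hy0, hg, hd_self]) ha hab (by rw [hex]; exact hb)
  rw [hex] at h1 h2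
  exact ⟨L, hL, h1, h2⟩

end Pool.Agent.Lib.MP_247fd6_al
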