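import Pool.Agent.Lib.MP_247fd6_al.HS4
import Pool.Agent.Lib.MP_247fd6_al.GG3

/-! Growth density for cubulated groups of matrices. -/

set_option autoImplicit false

open Matrix
open scoped Pointwise ENNReal

namespace Pool.Agent.Lib.MP_247fd6_al

variable {n : ℕ}

theorem HS5_free (G : Subgroup (Matrix (Fin (n + 1)) (Fin (n + 1)) ℝ)ˣ)
    (htf : ∀ g ∈ G, ∀ k : ℕ, 0 < k → g ^ k = 1 → g = 1)
    (Y : Type) [MulAction G Y] (hstab : ∀ y : Y, {g : G | g • y = y}.Finite)
    (g : G) (y : Y) (h : g • y = y) : g = 1 := by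
  have hfin : Finite (MulAction.stabilizer G y) := (hstab y).to_subtype
  have hg : g ∈ MulAction.stabilizer G y := h
  obtain ⟨k, hk, hk1⟩ := (isOfFinOrder_of_finite
    (⟨g, hg⟩ : MulAction.stabilizer G y)).exists_pow_eq_one
  have h1 : g ^ k = 1 := by
    have := congrArg Subtype.val hk1
    simpa using this
  have h2 : (g : (Matrix (Fin (n + 1)) (Fin (n + 1)) ℝ)ˣ) ^ k = 1 := by
    have := congrArg Subtype.val h1
    simpa using this
  exact Subtype.ext (htf g.1 g.2 k hk h2)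

/-- growth density for cubulated groups -/
theorem density_of_cub (G : Subgroup (Matrix (Fin (n + 1)) (Fin (n + 1)) ℝ)ˣ)
    (hG : ∀ g ∈ G, g.valᵀ * eta n * g.val = eta n ∧ 0 < g.val 0 0)
    (hdisc : ∀ R : ℝ, ({g | g ∈ G ∧ ∀ i j, |g.val i j| ≤ R} :
        Set (Matrix (Fin (n + 1)) (Fin (n + 1)) ℝ)ˣ).Finite)
    (htf : ∀ g ∈ G, ∀ k : ℕ, 0 < k → g ^ k = 1 → g = 1)
    (hcoc : ∃ C : ℝ, ∀ x : Fin (n + 1) → ℝ, bf x x = -1 → 0 < x 0 →
        ∃ g ∈ G, -(bf x (fun i => g.val i 0)) ≤ C)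
    (Y : Type) [MulAction G Y] (T : SimpleGraph Y) (hconn : T.Connected)
    (hadj : ∀ (g : G) (x y : Y), T.Adj x y → T.Adj (g • x) (g • y))
    (hmed : ∀ x y z : Y, ∃! m, IsMed T x y z m)
    (hstab : ∀ y : Y, {g : G | g • y = y}.Finite)
    (hcof : ∃ E : Finset (Y × Y), ∀ x y : Y, T.dist x y ≤ 1 → ∃ g : G, (g • x, g • y) ∈ E)
    (hsep : ∀ x y : Y, T.Adj x y → ∀ g : G, g • hsp T x y ≠ hsp T x y →
      ∃ B : Subgroup G, B.FiniteIndex ∧ ∀ s : G, s • hsp T x y = hsp T x y → s⁻¹ * g ∉ B)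
    {a b : ℝ} (ha : 0 ≤ a) (hab : a < b) (hb : b ≤ om G) :
    ∃ H : Subgroup (Matrix (Fin (n + 1)) (Fin (n + 1)) ℝ)ˣ,
      H ≤ G ∧ H.FG ∧ a < om H ∧ om H < b := by
  have hGO : G ≤ Oplus n := fun g hg => hG g hg
  have hΓ : Disc (G.subgroupOf (Oplus n)) := by
    intro R
    refine Set.Finite.of_finite_image ((hdisc R).subset ?_)
      (Subtype.val_injective.injOn (s := {g : Oplus n | g ∈ G.subgroupOf (Oplus n) ∧
        ∀ i j, |g.1.val i j| ≤ R}))
    rintro _ ⟨g, ⟨hg1, hg2⟩, rfl⟩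
    exact ⟨hg1, hg2⟩
  obtain ⟨C, hC⟩ := hcoc
  have hD : ∀ z : HPt n, ∃ g : G.subgroupOf (Oplus n),
      hd z (g • e0 n) ≤ Real.arcosh (max C 1) := by
    intro z
    obtain ⟨g, hg, hgC⟩ := hC z.1 z.2.1 z.2.2
    refine ⟨⟨⟨g, hGO hg⟩, hg⟩, ?_⟩
    change hd z ((⟨g, hGO hg⟩ : Oplus n) • e0 n) ≤ _
    unfold hd
    rw [Real.arcosh_le_arcosh (lt_of_lt_of_le one_pos (one_le_neg_bf _ _))
      (lt_of_lt_of_le one_pos (le_max_right _ _))]
    refine le_trans (le_of_eq ?_) (hgC.trans (le_max_left _ _))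
    rw [coe_smul]
    congr 2
    funext i
    exact mulVec_e0v g.val i
  obtain ⟨E, hE⟩ := hcof
  let e : G.subgroupOf (Oplus n) ≃* G := Subgroup.subgroupOfEquivOfLe hGO
  let _ : MulAction (G.subgroupOf (Oplus n)) Y := MulAction.compHom Y e.toMonoidHom
  have hsm : ∀ (g : G.subgroupOf (Oplus n)) (y : Y), g • y = e g • y := fun _ _ => rfl
  have hsm' : ∀ (g : G.subgroupOf (Oplus n)) (s : Set Y), g • s = e g • s := fun _ _ => rfl
  let P : Cub n (G.subgroupOf (Oplus n)) Y :=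
    { iso := fun g x y => hd_smul g.1 x y
      proper := disc_proper hΓ
      D := Real.arcosh (max C 1)
      dense := hD
      gr := T
      conn := hconn
      adj := fun g x y h => hadj (e g) x y h
      med := hmed
      free := by
        intro g y h
        have h1 := HS5_free G htf Y hstab (e g) y h
        exact e.map_eq_one_iff.1 h1
      E := E
      edges := by
        intro x y h
        obtain ⟨g, hg⟩ := hE x y h
        refine ⟨e.symm g, ?_⟩
        rw [hsm, hsm, e.apply_symm_apply]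
        exact hg
      sepa := by
        intro x y h g hg
        obtain ⟨B, hB, hB'⟩ := hsep x y h (e g) hg
        refine ⟨B.comap e.toMonoidHom, ?_, ?_⟩
        · exact ⟨by
            rw [Subgroup.index_comap_of_surjective _ e.surjective]
            exact hB.index_ne_zero⟩
        · intro s hs hmem
          refine hB' (e s) hs ?_
          rw [Subgroup.mem_comap] at hmem
          have h2 : e.toMonoidHom (s⁻¹ * g) = (e s)⁻¹ * e g := by
            rw [map_mul, map_inv]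
            rfl
          rwa [h2] at hmem }
  obtain ⟨L, hL1, hL2, hL3⟩ := Cub.density hΓ P ha hab (by
    rw [GG3_im_top G hGO]
    exact hb)
  exact ⟨im (G.subgroupOf (Oplus n)) L, GG3_im_le G hGO L, GG3_fg_map (GG3_fg_map hL1 _) _,
    hL2, hL3⟩

end Pool.Agent.Lib.MP_247fd6_al
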