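import Pool.Agent.Lib.MP_247fd6_al.HM1

/-! Schottky sets in groups acting properly and cocompactly on hyperbolic space: definitions. -/

set_option autoImplicit false

namespace Pool.Agent.Lib.MP_247fd6_al

/-- a group acting properly and cocompactly on hyperbolic space -/
structure Coc (n : ℕ) (G : Type) [Group G] [MulAction G (HPt n)] where
  iso : ∀ (g : G) (x y : HPt n), hd (g • x) (g • y) = hd x y
  proper : ∀ (x : HPt n) (r : ℝ), {g : G | hd x (g • x) ≤ r}.Finite
  D : ℝ
  dense : ∀ z : HPt n, ∃ g : G, hd z (g • e0 n) ≤ D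

/-- displacement of the base point -/
noncomputable def len (n : ℕ) {G : Type} [Group G] [MulAction G (HPt n)] (g : G) : ℝ :=
  hd (e0 n) (g • e0 n)

/-- the number of elements of displacement at most `r` -/
noncomputable def cnt (n : ℕ) (G : Type) [Group G] [MulAction G (HPt n)] (r : ℝ) : ℕ :=
  {g : G | len n g ≤ r}.ncard

/-- the value of a letter -/
def lv {G : Type} [Group G] (S : Set G) (x : S × Bool) : G :=
  cond x.2 (x.1 : G) (x.1 : G)⁻¹

/-- the homomorphism from the free group -/
def fh {G : Type} [Group G] (S : Set G) : FreeGroup S →* G :=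
  FreeGroup.lift (fun s : S => (s : G))

/-- Schottky sets -/
structure Schottky (n : ℕ) {G : Type} [Group G] [MulAction G (HPt n)] (S : Set G)
    (L a r : ℝ) : Prop where
  fin : S.Finite
  a0 : 0 ≤ a
  La : 2 * a + 40 ≤ L
  len_ge : ∀ g ∈ S, L ≤ len n g
  len_le : ∀ g ∈ S, len n g ≤ r
  pr : ∀ x y : S × Bool, x ≠ y → gp (e0 n) (lv S x • e0 n) (lv S y • e0 n) ≤ a

/-- half-spaces of the free group -/
def fhs {α : Type} [DecidableEq α] (g : FreeGroup α) (x : α × Bool) : Set (FreeGroup α) :=
  {u | (g⁻¹ * u).toWord.head? = some x}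

end Pool.Agent.Lib.MP_247fd6_al
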