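import Pool.Agent.Lib.MP_247fd6_al.P0

/-! From local to global for chains of points. -/

set_option autoImplicit false

namespace Pool.Agent.Lib.MP_247fd6_al

variable {n : ℕ}

theorem PA_comm (o x y : HPt n) : gp o x y = gp o y x := by
  unfold gp
  rw [hd_symm x y]
  ring

theorem PA_add (x y z : HPt n) : gp x y z + gp y x z = hd x y := by
  unfold gp
  rw [hd_symm y x, hd_symm z y, hd_symm z x]
  ring

theorem chain_left {L a : ℝ} (hL : 2 * a + 40 ≤ L) {m : ℕ} {p : ℕ → HPt n}
    (h1 : ∀ i < m, L ≤ hd (p i) (p (i + 1)))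
    (h2 : ∀ i, i + 2 ≤ m → gp (p (i + 1)) (p i) (p (i + 2)) ≤ a) {i j : ℕ} (hij : i < j)
    (hj : j < m) : gp (p j) (p i) (p (j + 1)) ≤ a + 5 := by
  induction j, hij using Nat.le_induction with
  | base =>
    have := h2 i (by omega)
    have e : i.succ + 1 = i + 2 := rfl
    rw [e]
    change gp (p (i + 1)) (p i) (p (i + 2)) ≤ a + 5
    linarith
  | succ j hij ih =>
    have e1 := ih (by omega)
    have e2 := h2 j (by omega)
    have e3 := gp_min (p (j + 1)) (p j) (p i) (p (j + 2))
    have e4 := PA_add (p j) (p (j + 1)) (p i)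
    have e5 := h1 j (by omega)
    rw [PA_comm (p j)] at e4
    by_contra hcon
    push Not at hcon
    have e6 : a + 5 < min (gp (p (j + 1)) (p j) (p i)) (gp (p (j + 1)) (p i) (p (j + 2))) := by
      apply lt_min
      · linarith
      · exact hcon
    linarith

theorem PA_right {L a : ℝ} (hL : 2 * a + 40 ≤ L) {m : ℕ} {p : ℕ → HPt n}
    (h1 : ∀ i < m, L ≤ hd (p i) (p (i + 1)))
    (h2 : ∀ i, i + 2 ≤ m → gp (p (i + 1)) (p i) (p (i + 2)) ≤ a) {j k : ℕ} (hjk : j + 1 < k)
    (hk : k ≤ m) : gp (p (j + 1)) (p j) (p k) ≤ a + 5 := by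
  have := chain_left (m := m) (p := fun i => p (m - i)) hL
    (fun i hi => by
      have := h1 (m - (i + 1)) (by omega)
      rw [show m - (i + 1) + 1 = m - i by omega] at this
      rw [hd_symm]
      exact this)
    (fun i hi => by
      have := h2 (m - (i + 2)) (by omega)
      rw [show m - (i + 2) + 1 = m - (i + 1) by omega,
        show m - (i + 2) + 2 = m - i by omega] at this
      rw [PA_comm]
      exact this) (i := m - k) (j := m - (j + 1)) (by omega) (by omega)
  rw [show m - (m - (j + 1)) = j + 1 by omega, show m - (m - k) = k by omega,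
    show m - (m - (j + 1) + 1) = j by omega, PA_comm] at this
  exact this

theorem chain_add {L a : ℝ} (ha : 0 ≤ a) (hL : 2 * a + 40 ≤ L) {m : ℕ} {p : ℕ → HPt n}
    (h1 : ∀ i < m, L ≤ hd (p i) (p (i + 1)))
    (h2 : ∀ i, i + 2 ≤ m → gp (p (i + 1)) (p i) (p (i + 2)) ≤ a) {i j k : ℕ} (hij : i ≤ j)
    (hjk : j ≤ k) (hk : k ≤ m) :
    hd (p i) (p j) + hd (p j) (p k) ≤ hd (p i) (p k) + (2 * a + 20) := by
  rcases Nat.eq_or_lt_of_le hij with rfl | hij'
  · rw [hd_self]; linarith
  rcases Nat.eq_or_lt_of_le hjk with rfl | hjk'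
  · rw [hd_self]; linarith
  have key : gp (p j) (p i) (p k) ≤ a + 10 := by
    have e1 := chain_left hL h1 h2 hij' (show j < m by omega)
    rcases Nat.eq_or_lt_of_le (show j + 1 ≤ k by omega) with hk' | hk'
    · rw [← hk']; linarith
    · by_contra hcon
      push Not at hcon
      have e2 := PA_right hL h1 h2 (j := j) (k := k) hk' hk
      have e3 := PA_add (p j) (p (j + 1)) (p k)
      have e4 := h1 j (by omega)
      have e5 := gp_min (p j) (p (j + 1)) (p k) (p i)
      have e6 : a + 10 < min (gp (p j) (p (j + 1)) (p k)) (gp (p j) (p k) (p i)) := by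
        apply lt_min
        · linarith
        · rw [PA_comm]; exact hcon
      rw [PA_comm (p j) (p (j + 1)) (p i)] at e5
      linarith
  unfold gp at key
  rw [hd_symm (p k) (p j)] at key
  linarith

end Pool.Agent.Lib.MP_247fd6_al
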