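import Pool.Agent.Lib.MP_247fd6_al.GF2

/-! Counting: annuli with many elements, upper bounds. -/

set_option autoImplicit false

open scoped ENNReal

namespace Pool.Agent.Lib.MP_247fd6_al

theorem PB_mono {I : Type} (ℓ : I → ℝ) (hfin : ∀ r, {i | ℓ i ≤ r}.Finite) {r s : ℝ}
    (hrs : r ≤ s) : ({i | ℓ i ≤ r}.ncard : ℝ) ≤ ({i | ℓ i ≤ s}.ncard : ℝ) := by
  have h : {i | ℓ i ≤ r}.ncard ≤ {i | ℓ i ≤ s}.ncard :=
    Set.ncard_le_ncard (fun i (hi : ℓ i ≤ r) => hi.trans hrs) (hfin s)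
  exact_mod_cast h

theorem PB_split {I : Type} (ℓ : I → ℝ) (k : ℕ) :
    ({i | ℓ i ≤ ((k + 1 : ℕ) : ℝ)}.ncard : ℝ) ≤ ({i | ℓ i ≤ (k : ℝ)}.ncard : ℝ) +
      ({i | ((k + 1 : ℕ) : ℝ) - 1 < ℓ i ∧ ℓ i ≤ ((k + 1 : ℕ) : ℝ)}.ncard : ℝ) := by
  have h1 : {i | ℓ i ≤ ((k + 1 : ℕ) : ℝ)} = {i | ℓ i ≤ (k : ℝ)} ∪
      {i | ((k + 1 : ℕ) : ℝ) - 1 < ℓ i ∧ ℓ i ≤ ((k + 1 : ℕ) : ℝ)} := by
    ext i
    simp only [Set.mem_ofPred_eq, Set.mem_union]
    push_cast
    constructor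
    · intro h
      rcases le_or_gt (ℓ i) k with h' | h'
      · exact Or.inl h'
      · exact Or.inr ⟨by linarith, h⟩
    · rintro (h | h)
      · linarith
      · exact h.2
  have h2 := Set.ncard_union_le {i | ℓ i ≤ (k : ℝ)}
    {i | ((k + 1 : ℕ) : ℝ) - 1 < ℓ i ∧ ℓ i ≤ ((k + 1 : ℕ) : ℝ)}
  rw [← h1] at h2
  exact_mod_cast h2

/-- annuli with many elements -/
theorem exists_annulus {I : Type} (ℓ : I → ℝ) (hnn : ∀ i, 0 ≤ ℓ i)
    (hfin : ∀ r, {i | ℓ i ≤ r}.Finite) {b : ℝ} (hb : 0 < b)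
    (h : b < Filter.limsup (fun r : ℝ => Real.log ({i | ℓ i ≤ r}.ncard : ℝ) / r) Filter.atTop)
    (r₁ : ℕ) : ∃ r : ℕ, r₁ ≤ r ∧
      Real.exp (b * r) ≤ ({i | (r : ℝ) - 1 < ℓ i ∧ ℓ i ≤ r}.ncard : ℝ) := by
  by_contra hcon
  push Not at hcon
  have heb : 1 < Real.exp b := Real.one_lt_exp_iff.2 hb
  have heb' : 0 < Real.exp b - 1 := by linarith
  set K : ℝ := ({i | ℓ i ≤ (r₁ : ℝ)}.ncard : ℝ) + Real.exp b / (Real.exp b - 1) with hK
  have hfrac : 1 ≤ Real.exp b / (Real.exp b - 1) := by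
    rw [le_div_iff₀ heb']
    linarith
  have hK1 : 1 ≤ K := by
    have : (0 : ℝ) ≤ ({i | ℓ i ≤ (r₁ : ℝ)}.ncard : ℝ) := Nat.cast_nonneg _
    linarith
  have hKe : Real.exp b ≤ K * (Real.exp b - 1) := by
    have h1 : Real.exp b / (Real.exp b - 1) ≤ K := by
      have : (0 : ℝ) ≤ ({i | ℓ i ≤ (r₁ : ℝ)}.ncard : ℝ) := Nat.cast_nonneg _
      linarith
    rwa [div_le_iff₀ heb'] at h1
  have hnat : ∀ k : ℕ, r₁ ≤ k → ({i | ℓ i ≤ (k : ℝ)}.ncard : ℝ) ≤ K * Real.exp (b * k) := by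
    intro k hk
    induction k, hk using Nat.le_induction with
    | base =>
      have h1 : 1 ≤ Real.exp (b * (r₁ : ℝ)) := Real.one_le_exp (by positivity)
      have h2 : ({i | ℓ i ≤ (r₁ : ℝ)}.ncard : ℝ) ≤ K := by linarith
      nlinarith
    | succ k hk ih =>
      have h1 := PB_split ℓ k
      have h2 := hcon (k + 1) (by omega)
      have h3 : Real.exp (b * ((k + 1 : ℕ) : ℝ)) = Real.exp b * Real.exp (b * k) := by
        rw [← Real.exp_add]
        congr 1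
        push_cast
        ring
      rw [h3] at h2 ⊢
      have h4 : 0 < Real.exp (b * k) := Real.exp_pos _
      nlinarith
  have hreal : ∀ r : ℝ, (r₁ : ℝ) ≤ r → 0 ≤ r →
      ({i | ℓ i ≤ r}.ncard : ℝ) ≤ K * Real.exp b * Real.exp (b * r) := by
    intro r hr hr0
    have h1 := PB_mono ℓ hfin (Nat.le_ceil r)
    have h2 : r₁ ≤ ⌈r⌉₊ := by
      have : ((r₁ : ℕ) : ℝ) ≤ (⌈r⌉₊ : ℝ) := hr.trans (Nat.le_ceil r)
      exact_mod_cast this
    have h3 := hnat _ h2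
    have h4 : Real.exp (b * (⌈r⌉₊ : ℝ)) ≤ Real.exp b * Real.exp (b * r) := by
      rw [← Real.exp_add]
      apply Real.exp_le_exp.2
      have := (Nat.ceil_lt_add_one hr0).le
      nlinarith
    calc ({i | ℓ i ≤ r}.ncard : ℝ) ≤ K * Real.exp (b * (⌈r⌉₊ : ℝ)) := h1.trans h3
      _ ≤ K * (Real.exp b * Real.exp (b * r)) :=
          mul_le_mul_of_nonneg_left h4 (by linarith)
      _ = _ := by ring
  have hlim : Filter.limsup (fun r : ℝ => Real.log ({i | ℓ i ≤ r}.ncard : ℝ) / r)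
      Filter.atTop ≤ b := by
    apply le_of_forall_pos_le_add
    intro ε hε
    rw [Filter.limsup_eq]
    refine csInf_le ⟨0, ?_⟩ ?_
    · intro a ha
      obtain ⟨r, hr, hr0⟩ := ((ha : ∀ᶠ r : ℝ in Filter.atTop, _).and
        (Filter.eventually_ge_atTop (0 : ℝ))).exists
      exact (div_nonneg (Real.log_natCast_nonneg _) hr0).trans hr
    · have hl : Filter.Tendsto (fun r : ℝ => Real.log (K * Real.exp b) / r) Filter.atTop
        (nhds 0) := Filter.Tendsto.const_div_atTop Filter.tendsto_id _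
      change ∀ᶠ r : ℝ in Filter.atTop, Real.log ({i | ℓ i ≤ r}.ncard : ℝ) / r ≤ b + ε
      filter_upwards [hl.eventually (gt_mem_nhds hε), Filter.eventually_gt_atTop 0,
        Filter.eventually_ge_atTop (r₁ : ℝ)] with r hr hr0 hr1
      have h1 := hreal r hr1 hr0.le
      have hKb : 1 ≤ K * Real.exp b := by nlinarith
      have h2 : Real.log ({i | ℓ i ≤ r}.ncard : ℝ) ≤ Real.log (K * Real.exp b) + b * r := by
        rcases Nat.eq_zero_or_pos ({i | ℓ i ≤ r}.ncard) with h3 | h3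
        · rw [h3, Nat.cast_zero, Real.log_zero]
          have := Real.log_nonneg hKb
          positivity
        · have h4 : (0 : ℝ) < ({i | ℓ i ≤ r}.ncard : ℝ) := by exact_mod_cast h3
          have h5 := Real.log_le_log h4 h1
          rwa [Real.log_mul (by linarith) (Real.exp_pos _).ne', Real.log_exp] at h5
      rw [div_le_iff₀ hr0]
      have h5 : Real.log (K * Real.exp b) < ε * r := by
        rwa [div_lt_iff₀ hr0] at hr
      nlinarith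
  linarith

/-- the counting function is bounded by an exponential -/
theorem count_le {I : Type} (ℓ : I → ℝ)
    (hfin : ∀ r, {i | ℓ i ≤ r}.Finite) {s : ℝ} (hs0 : 0 ≤ s)
    (hbd : ∃ C, ∀ᶠ r in Filter.atTop, Real.log ({i | ℓ i ≤ r}.ncard : ℝ) / r ≤ C)
    (h : Filter.limsup (fun r : ℝ => Real.log ({i | ℓ i ≤ r}.ncard : ℝ) / r) Filter.atTop < s) :
    ∃ C : ℝ, 0 < C ∧ ∀ r : ℝ, 0 ≤ r → ({i | ℓ i ≤ r}.ncard : ℝ) ≤ C * Real.exp (s * r) := by
  have h1 : ∀ᶠ r : ℝ in Filter.atTop, Real.log ({i | ℓ i ≤ r}.ncard : ℝ) / r < s := by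
    refine Filter.eventually_lt_of_limsup_lt h ?_
    obtain ⟨C, hC⟩ := hbd
    exact ⟨C, by simpa [Filter.eventually_map] using hC⟩
  obtain ⟨r₀, hr₀⟩ := Filter.eventually_atTop.1 (h1.and (Filter.eventually_gt_atTop 0))
  refine ⟨({i | ℓ i ≤ r₀}.ncard : ℝ) + 1, by positivity, ?_⟩
  intro r hr
  have hN0 : (0 : ℝ) ≤ ({i | ℓ i ≤ r₀}.ncard : ℝ) := Nat.cast_nonneg _
  rcases le_total r₀ r with h2 | h2
  · obtain ⟨h3, h4⟩ := hr₀ r h2
    have h5 : ({i | ℓ i ≤ r}.ncard : ℝ) ≤ Real.exp (s * r) := by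
      rcases Nat.eq_zero_or_pos ({i | ℓ i ≤ r}.ncard) with h6 | h6
      · rw [h6, Nat.cast_zero]
        exact (Real.exp_pos _).le
      · have h7 : (0 : ℝ) < ({i | ℓ i ≤ r}.ncard : ℝ) := by exact_mod_cast h6
        rw [div_lt_iff₀ h4] at h3
        exact (Real.log_le_iff_le_exp h7).1 h3.le
    have h6 : 0 < Real.exp (s * r) := Real.exp_pos _
    nlinarith
  · have h3 := PB_mono ℓ hfin h2
    have h4 : 1 ≤ Real.exp (s * r) := Real.one_le_exp (by positivity)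
    nlinarith

end Pool.Agent.Lib.MP_247fd6_al
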