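import Pool.Agent.Lib.MP_247fd6_al.P0

/-! Counting elements with large Gromov product. -/

set_option autoImplicit false

namespace Pool.Agent.Lib.MP_247fd6_al

variable {n : ℕ} {G : Type} [Group G] [MulAction G (HPt n)]

namespace Coc

variable (C : Coc n G)

include C in
theorem PC_len_inv_mul (a h : G) : len n (a⁻¹ * h) = hd (a • e0 n) (h • e0 n) := by
  unfold len
  rw [← C.iso a, smul_smul, mul_inv_cancel_left]

include C in
theorem len_inv (g : G) : len n g⁻¹ = len n g := by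
  unfold len
  rw [← C.iso g, smul_smul, mul_inv_cancel, one_smul, hd_symm]

include C in
theorem finite_len (r : ℝ) : {g : G | len n g ≤ r}.Finite := C.proper (e0 n) r

theorem PC_gp_le (o x y : HPt n) : gp o x y ≤ hd o x := by
  unfold gp
  have h1 := hd_tri y x o
  rw [hd_symm y x, hd_symm x o] at h1
  rw [hd_symm x o]
  linarith

/-- a group element near the point at distance `s` on the geodesic to `g` -/
theorem pair_point (g : G) {s : ℝ} (hs : 0 ≤ s) (hsg : s ≤ len n g) :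
    ∃ q : HPt n, hd (e0 n) q = s ∧ hd q (g • e0 n) = len n g - s ∧
      ∀ h : G, s ≤ gp (e0 n) (g • e0 n) (h • e0 n) → hd q (h • e0 n) ≤ len n h - s + 10 := by
  obtain ⟨z, hz0, hz1, hz2, -⟩ := exists_geod (e0 n) (g • e0 n)
  have hsg' : s ≤ hd (e0 n) (g • e0 n) := hsg
  have h1 := hz2 0 s le_rfl hs hsg'
  have h2 := hz2 s (hd (e0 n) (g • e0 n)) hs hsg' le_rfl
  rw [hz0, sub_zero] at h1
  rw [hz1] at h2
  refine ⟨z s, h1, h2, ?_⟩
  intro h hh
  have h3 := hd_hyp (e0 n) (z s) (g • e0 n) (h • e0 n)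
  rw [h1, h2] at h3
  unfold gp at hh
  unfold len
  rw [hd_symm (g • e0 n) (e0 n), hd_symm (h • e0 n) (e0 n)] at hh
  have h4 : max (s + hd (g • e0 n) (h • e0 n))
      (hd (e0 n) (g • e0 n) - s + hd (e0 n) (h • e0 n)) ≤
      hd (e0 n) (g • e0 n) + hd (e0 n) (h • e0 n) - s :=
    max_le (by linarith) (by linarith)
  linarith

/-- few elements have large product with `g` -/
theorem pair_count (g : G) {s r : ℝ} (hs : 0 ≤ s) :
    {h : G | len n h ≤ r ∧ s ≤ gp (e0 n) (g • e0 n) (h • e0 n)}.ncard ≤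
      cnt n G (r - s + 10 + C.D) := by
  rcases lt_or_ge (len n g) s with hsg | hsg
  · have h1 : {h : G | len n h ≤ r ∧ s ≤ gp (e0 n) (g • e0 n) (h • e0 n)} = ∅ := by
      rw [Set.eq_empty_iff_forall_notMem]
      rintro h ⟨-, hh⟩
      have h2 := PC_gp_le (e0 n) (g • e0 n) (h • e0 n)
      have h3 : hd (e0 n) (g • e0 n) < s := hsg
      linarith
    rw [h1, Set.ncard_empty]
    exact Nat.zero_le _
  · obtain ⟨q, -, -, hq⟩ := pair_point g hs hsg
    obtain ⟨a, ha⟩ := C.dense q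
    refine Set.ncard_le_ncard_of_injOn (fun h => a⁻¹ * h) ?_ ?_ (C.finite_len _)
    · rintro h ⟨hr, hh⟩
      have h1 := hq h hh
      change len n (a⁻¹ * h) ≤ r - s + 10 + C.D
      rw [C.PC_len_inv_mul]
      have h2 := hd_tri (a • e0 n) q (h • e0 n)
      rw [hd_symm (a • e0 n) q] at h2
      linarith
    · intro x _ y _ hxy
      exact mul_left_cancel hxy

theorem PC_self (g : G) {r c : ℝ} (hc : 0 ≤ c) (hr : 2 * c + 2 ≤ r) (h1 : r - 1 < len n g)
    (h2 : len n g ≤ r) (h3 : r / 2 - c ≤ gp (e0 n) (g • e0 n) (g⁻¹ • e0 n)) :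
    ∃ a : G, len n a ≤ r / 2 - c + C.D ∧ len n (a⁻¹ * (g⁻¹ * a)) ≤ 2 * c + 20 + 2 * C.D := by
  set s := r / 2 - c with hs
  have hs1 : 1 ≤ s := by rw [hs]; linarith
  have hsg : s ≤ len n g := h3.trans (PC_gp_le (e0 n) (g • e0 n) (g⁻¹ • e0 n))
  obtain ⟨q, hq1, hq2, hq3⟩ := pair_point g (by linarith) hsg
  have h4 := hq3 g⁻¹ h3
  rw [C.len_inv] at h4
  have h5 : hd (g⁻¹ • e0 n) (g⁻¹ • q) = s := by rw [C.iso, hq1]
  have h6 : hd (e0 n) (g⁻¹ • q) = len n g - s := by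
    rw [← C.iso g, smul_smul, mul_inv_cancel, one_smul, hd_symm, hq2]
  have h7 := hd_hyp (e0 n) q (g⁻¹ • e0 n) (g⁻¹ • q)
  have h8 : hd (e0 n) (g⁻¹ • e0 n) = len n g := C.len_inv g
  rw [hq1, h5, h6, h8] at h7
  have h9 : hd q (g⁻¹ • q) ≤ 2 * c + 20 := by
    rcases le_total (s + s) (hd q (g⁻¹ • e0 n) + (len n g - s)) with h10 | h10
    · rw [max_eq_right h10] at h7
      linarith
    · rw [max_eq_left h10] at h7
      linarith
  obtain ⟨a, ha⟩ := C.dense q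
  refine ⟨a, ?_, ?_⟩
  · unfold len
    have h10 := hd_tri (e0 n) q (a • e0 n)
    linarith
  · rw [C.PC_len_inv_mul]
    have h10 := hd_tri (a • e0 n) q ((g⁻¹ * a) • e0 n)
    have h11 := hd_tri q (g⁻¹ • q) ((g⁻¹ * a) • e0 n)
    have h12 : hd (g⁻¹ • q) ((g⁻¹ * a) • e0 n) = hd q (a • e0 n) := by
      rw [mul_smul, C.iso]
    rw [hd_symm (a • e0 n) q] at h10
    linarith

/-- few elements have large product with their inverse -/
theorem self_count {r c : ℝ} (hc : 0 ≤ c) (hr : 2 * c + 2 ≤ r) :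
    {g : G | r - 1 < len n g ∧ len n g ≤ r ∧
      r / 2 - c ≤ gp (e0 n) (g • e0 n) (g⁻¹ • e0 n)}.ncard ≤
      cnt n G (r / 2 - c + C.D) * cnt n G (2 * c + 20 + 2 * C.D) := by
  have h1 : ∀ g : G, ∃ a : G, (r - 1 < len n g ∧ len n g ≤ r ∧
      r / 2 - c ≤ gp (e0 n) (g • e0 n) (g⁻¹ • e0 n)) →
      len n a ≤ r / 2 - c + C.D ∧ len n (a⁻¹ * (g⁻¹ * a)) ≤ 2 * c + 20 + 2 * C.D := by
    intro g
    by_cases h : r - 1 < len n g ∧ len n g ≤ r ∧
      r / 2 - c ≤ gp (e0 n) (g • e0 n) (g⁻¹ • e0 n)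
    · obtain ⟨a, ha⟩ := C.PC_self g hc hr h.1 h.2.1 h.2.2
      exact ⟨a, fun _ => ha⟩
    · exact ⟨1, fun h' => absurd h' h⟩
  choose a ha using h1
  unfold cnt
  rw [← Set.ncard_prod]
  refine Set.ncard_le_ncard_of_injOn (fun g => (a g, (a g)⁻¹ * (g⁻¹ * a g))) ?_ ?_
    ((C.finite_len _).prod (C.finite_len _))
  · intro g hg
    exact Set.mk_mem_prod (ha g hg).1 (ha g hg).2
  · intro x _ y _ hxy
    simp only [Prod.mk.injEq] at hxy
    obtain ⟨h2, h3⟩ := hxy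
    rw [h2] at h3
    have h4 := mul_left_cancel h3
    have h5 := mul_right_cancel h4
    exact inv_injective h5

end Coc

end Pool.Agent.Lib.MP_247fd6_al
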