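import Mathlib

/-! A maximal independent set. -/

set_option autoImplicit false

namespace Pool.Agent.Lib.MP_247fd6_al

/-- large independent sets in graphs of bounded degree -/
theorem exists_indep {I : Type} [DecidableEq I] (A : Finset I) (R : I → I → Prop)
    (hR : ∀ x y, R x y → R y x) (d : ℕ) (hd : ∀ x ∈ A, {y | y ∈ A ∧ R x y}.ncard ≤ d) :
    ∃ S : Finset I, S ⊆ A ∧ (∀ x ∈ S, ∀ y ∈ S, x ≠ y → ¬ R x y) ∧
      A.card ≤ S.card * (d + 1) := by
  classical
  obtain ⟨Q, hQ⟩ : ∃ Q : Finset I → Prop, ∀ S, Q S ↔ ∀ x ∈ S, ∀ y ∈ S, x ≠ y → ¬ R x y :=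
    ⟨_, fun _ => Iff.rfl⟩
  have hne : (A.powerset.filter Q).Nonempty :=
    ⟨∅, by rw [Finset.mem_filter, hQ]; simp⟩
  obtain ⟨S, hS, hmax⟩ := Finset.exists_max_image _ Finset.card hne
  rw [Finset.mem_filter, Finset.mem_powerset, hQ] at hS
  obtain ⟨hSA, hSi⟩ := hS
  refine ⟨S, hSA, hSi, ?_⟩
  have hcov : A ⊆ S.biUnion fun y => insert y (A.filter fun x => R y x) := by
    intro x hx
    rw [Finset.mem_biUnion]
    by_contra hcon
    push Not at hcon
    have hxS : x ∉ S := fun h => hcon x h (Finset.mem_insert_self _ _)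
    have hnR : ∀ y ∈ S, ¬ R y x := by
      intro y hy hyx
      exact hcon y hy (Finset.mem_insert_of_mem (Finset.mem_filter.2 ⟨hx, hyx⟩))
    have hmem : insert x S ∈ A.powerset.filter Q := by
      rw [Finset.mem_filter, Finset.mem_powerset, hQ]
      refine ⟨Finset.insert_subset hx hSA, ?_⟩
      intro u hu w hw huw
      rw [Finset.mem_insert] at hu hw
      rcases hu with rfl | hu
      · rcases hw with rfl | hw
        · exact absurd rfl huw
        · exact fun h => hnR w hw (hR _ _ h)
      · rcases hw with rfl | hw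
        · exact hnR u hu
        · exact hSi u hu w hw huw
    have h1 := hmax _ hmem
    rw [Finset.card_insert_of_notMem hxS] at h1
    omega
  refine (Finset.card_le_card hcov).trans (Finset.card_biUnion_le_card_mul _ _ _ ?_)
  intro y hy
  refine (Finset.card_insert_le _ _).trans ?_
  have h2 := hd y (hSA hy)
  have h3 : {x | x ∈ A ∧ R y x} = ((A.filter fun x => R y x : Finset I) : Set I) := by
    ext x
    simp
  rw [h3, Set.ncard_coe_finset] at h2
  omega

end Pool.Agent.Lib.MP_247fd6_al
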