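import Pool.Agent.Lib.MP_247fd6_al.PB
import Pool.Agent.Lib.MP_247fd6_al.PC
import Pool.Agent.Lib.MP_247fd6_al.PD
import Pool.Agent.Lib.MP_247fd6_al.HM2

/-! Large Schottky sets. -/

set_option autoImplicit false

namespace Pool.Agent.Lib.MP_247fd6_al

variable {n : ℕ} {G : Type} [Group G] [MulAction G (HPt n)]

/-- the relation of having a large product -/
def PE_R (n : ℕ) {G : Type} [Group G] [MulAction G (HPt n)] (a : ℝ) (g h : G) : Prop :=
  a ≤ gp (e0 n) (g • e0 n) (h • e0 n) ∨ a ≤ gp (e0 n) (g • e0 n) (h⁻¹ • e0 n) ∨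
    a ≤ gp (e0 n) (g⁻¹ • e0 n) (h • e0 n) ∨ a ≤ gp (e0 n) (g⁻¹ • e0 n) (h⁻¹ • e0 n)

theorem PE_R_symm (a : ℝ) (g h : G) (hR : PE_R n a g h) : PE_R n a h g := by
  unfold PE_R at hR ⊢
  rw [gp_comm _ (h • e0 n) (g • e0 n), gp_comm _ (h • e0 n) (g⁻¹ • e0 n),
    gp_comm _ (h⁻¹ • e0 n) (g • e0 n), gp_comm _ (h⁻¹ • e0 n) (g⁻¹ • e0 n)]
  tauto

/-- the inverse version of the count -/
theorem PE_pair_inv (C : Coc n G) (g : G) {s r : ℝ} (hs : 0 ≤ s) :
    {h : G | len n h ≤ r ∧ s ≤ gp (e0 n) (g • e0 n) (h⁻¹ • e0 n)}.ncard ≤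
      cnt n G (r - s + 10 + C.D) := by
  refine le_trans (le_of_eq ?_) (C.pair_count g (r := r) hs)
  have h1 : {h : G | len n h ≤ r ∧ s ≤ gp (e0 n) (g • e0 n) (h⁻¹ • e0 n)}
      = (fun h : G => h⁻¹) '' {h : G | len n h ≤ r ∧ s ≤ gp (e0 n) (g • e0 n) (h • e0 n)} := by
    ext h
    simp only [Set.mem_ofPred_eq, Set.mem_image]
    constructor
    · rintro ⟨h1, h2⟩
      exact ⟨h⁻¹, ⟨by rw [C.len_inv]; exact h1, h2⟩, inv_inv h⟩
    · rintro ⟨k, ⟨h1, h2⟩, rfl⟩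
      exact ⟨by rw [C.len_inv]; exact h1, by rw [inv_inv]; exact h2⟩
  rw [h1, Set.ncard_image_of_injective _ inv_injective]

/-- degree bound -/
theorem PE_deg (C : Coc n G) (g : G) {s r : ℝ} (hs : 0 ≤ s) :
    {h : G | len n h ≤ r ∧ PE_R n s g h}.ncard ≤ 4 * cnt n G (r - s + 10 + C.D) := by
  have hfin : ∀ P : G → Prop, {h : G | len n h ≤ r ∧ P h}.Finite := fun P =>
    (C.finite_len r).subset fun h hh => hh.1
  have hsub : {h : G | len n h ≤ r ∧ PE_R n s g h} ⊆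
      ({h : G | len n h ≤ r ∧ s ≤ gp (e0 n) (g • e0 n) (h • e0 n)} ∪
        {h : G | len n h ≤ r ∧ s ≤ gp (e0 n) (g • e0 n) (h⁻¹ • e0 n)}) ∪
      ({h : G | len n h ≤ r ∧ s ≤ gp (e0 n) (g⁻¹ • e0 n) (h • e0 n)} ∪
        {h : G | len n h ≤ r ∧ s ≤ gp (e0 n) (g⁻¹ • e0 n) (h⁻¹ • e0 n)}) := by
    rintro h ⟨h1, h2 | h2 | h2 | h2⟩
    · exact Or.inl (Or.inl ⟨h1, h2⟩)
    · exact Or.inl (Or.inr ⟨h1, h2⟩)
    · exact Or.inr (Or.inl ⟨h1, h2⟩)
    · exact Or.inr (Or.inr ⟨h1, h2⟩)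
  have e1 := C.pair_count g (r := r) hs
  have e2 := PE_pair_inv C g (r := r) hs
  have e3 := C.pair_count g⁻¹ (r := r) hs
  have e4 := PE_pair_inv C g⁻¹ (r := r) hs
  refine le_trans (Set.ncard_le_ncard hsub
    (((hfin _).union (hfin _)).union ((hfin _).union (hfin _)))) ?_
  refine le_trans (Set.ncard_union_le _ _) ?_
  have f1 := Set.ncard_union_le
    {h : G | len n h ≤ r ∧ s ≤ gp (e0 n) (g • e0 n) (h • e0 n)}
    {h : G | len n h ≤ r ∧ s ≤ gp (e0 n) (g • e0 n) (h⁻¹ • e0 n)}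
  have f2 := Set.ncard_union_le
    {h : G | len n h ≤ r ∧ s ≤ gp (e0 n) (g⁻¹ • e0 n) (h • e0 n)}
    {h : G | len n h ≤ r ∧ s ≤ gp (e0 n) (g⁻¹ • e0 n) (h⁻¹ • e0 n)}
  omega

theorem PE_len_nonneg (g : G) : 0 ≤ len n g := hd_nonneg _ _

/-- the combinatorial part -/
theorem PE_main (C : Coc n G) (r : ℕ) (hr : 44 ≤ r) :
    ∃ S : Finset G, Schottky n (S : Set G) ((r : ℝ) - 1) ((r : ℝ) / 2 - 21) r ∧
      {g : G | (r : ℝ) - 1 < len n g ∧ len n g ≤ r}.ncard ≤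
        S.card * (4 * cnt n G ((r : ℝ) / 2 + 31 + C.D) + 1) +
          cnt n G ((r : ℝ) / 2 - 21 + C.D) * cnt n G (62 + 2 * C.D) := by
  classical
  have hr' : (44 : ℝ) ≤ r := by exact_mod_cast hr
  set s : ℝ := (r : ℝ) / 2 - 21 with hs
  have hs0 : 0 ≤ s := by rw [hs]; linarith
  have hAfin : {g : G | (r : ℝ) - 1 < len n g ∧ len n g ≤ r}.Finite :=
    (C.finite_len r).subset fun g hg => hg.2
  have hBfin : {g : G | (r : ℝ) - 1 < len n g ∧ len n g ≤ r ∧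
      (r : ℝ) / 2 - 21 ≤ gp (e0 n) (g • e0 n) (g⁻¹ • e0 n)}.Finite :=
    (C.finite_len r).subset fun g hg => hg.2.1
  have hBcard := C.self_count (r := (r : ℝ)) (c := 21) (by norm_num) (by linarith)
  let A' : Finset G := hAfin.toFinset.filter fun g =>
    ¬ (r : ℝ) / 2 - 21 ≤ gp (e0 n) (g • e0 n) (g⁻¹ • e0 n)
  have hA' : ∀ g, g ∈ A' ↔ ((r : ℝ) - 1 < len n g ∧ len n g ≤ r) ∧
      ¬ s ≤ gp (e0 n) (g • e0 n) (g⁻¹ • e0 n) := by
    intro g
    simp only [A', Finset.mem_filter, Set.Finite.mem_toFinset, Set.mem_ofPred_eq, hs]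
  have hcard : {g : G | (r : ℝ) - 1 < len n g ∧ len n g ≤ r}.ncard ≤ A'.card +
      {g : G | (r : ℝ) - 1 < len n g ∧ len n g ≤ r ∧
        (r : ℝ) / 2 - 21 ≤ gp (e0 n) (g • e0 n) (g⁻¹ • e0 n)}.ncard := by
    rw [← Set.ncard_coe_finset A']
    refine le_trans (Set.ncard_le_ncard ?_ (A'.finite_toSet.union hBfin))
      (Set.ncard_union_le _ _)
    intro g hg
    by_cases h : s ≤ gp (e0 n) (g • e0 n) (g⁻¹ • e0 n)
    · exact Or.inr ⟨hg.1, hg.2, h⟩
    · refine Or.inl ?_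
      rw [Finset.mem_coe, hA']
      exact ⟨hg, h⟩
  obtain ⟨S, hS1, hS2, hS3⟩ := exists_indep A' (PE_R n s) (PE_R_symm s)
    (4 * cnt n G ((r : ℝ) / 2 + 31 + C.D)) (by
      intro g _
      have h1 := PE_deg C g (s := s) (r := r) hs0
      rw [show (r : ℝ) - s + 10 + C.D = (r : ℝ) / 2 + 31 + C.D by rw [hs]; ring] at h1
      refine le_trans (Set.ncard_le_ncard ?_ ((C.finite_len r).subset fun h hh => hh.1)) h1
      rintro h ⟨h2, h3⟩
      rw [hA'] at h2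
      exact ⟨h2.1.2, h3⟩)
  refine ⟨S, ?_, ?_⟩
  · have hSA : ∀ g ∈ (S : Set G), ((r : ℝ) - 1 < len n g ∧ len n g ≤ r) ∧
        ¬ s ≤ gp (e0 n) (g • e0 n) (g⁻¹ • e0 n) := by
      intro g hg
      rw [← hA']
      exact hS1 (by simpa using hg)
    refine ⟨S.finite_toSet, hs0, by linarith, fun g hg => (hSA g hg).1.1.le,
      fun g hg => (hSA g hg).1.2, ?_⟩
    rintro ⟨⟨x, hx⟩, bx⟩ ⟨⟨y, hy⟩, bb⟩ hxy
    by_cases hxy' : x = y
    · subst hxy'
      have h1 := not_le.1 (hSA x hx).2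
      cases bx <;> cases bb
      · exact absurd rfl hxy
      · simp only [lv, cond_true, cond_false]
        rw [gp_comm]
        exact h1.le
      · simp only [lv, cond_true, cond_false]
        exact h1.le
      · exact absurd rfl hxy
    · have h1 := hS2 x (by simpa using hx) y (by simpa using hy) hxy'
      unfold PE_R at h1
      simp only [not_or, not_le] at h1
      obtain ⟨h2, h3, h4, h5⟩ := h1
      cases bx <;> cases bb <;> simp only [lv, cond_true, cond_false]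
      · exact h5.le
      · exact h4.le
      · exact h3.le
      · exact h2.le
  · have h2 : (2 * 21 + 20 + 2 * C.D : ℝ) = 62 + 2 * C.D := by ring
    rw [h2] at hBcard
    exact le_trans hcard (add_le_add hS3 hBcard)

/-- Schottky sets with growth rate close to half of the growth rate of the group -/
theorem exists_schottky (C : Coc n G)
    (hbd : ∃ K, ∀ᶠ r in Filter.atTop, Real.log (cnt n G r : ℝ) / r ≤ K) {b : ℝ} (hb : 0 < b)
    (h : 2 * b < Filter.limsup (fun r : ℝ => Real.log (cnt n G r : ℝ) / r) Filter.atTop) :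
    ∃ (S : Set G) (L a r : ℝ), Schottky n S L a r ∧ S.Nonempty ∧
      b * r ≤ Real.log (S.ncard : ℝ) := by
  set ω : ℝ := Filter.limsup (fun r : ℝ => Real.log (cnt n G r : ℝ) / r) Filter.atTop with hω
  set δ : ℝ := ω - 2 * b with hδ
  have hδ0 : 0 < δ := by rw [hδ]; linarith
  have hD0 : 0 ≤ C.D := by
    obtain ⟨g, hg⟩ := C.dense (e0 n)
    exact le_trans (hd_nonneg _ _) hg
  have hs0 : 0 ≤ ω + δ / 8 := by linarith
  obtain ⟨C₀, hC₀, hcount⟩ := count_le (len n (G := G)) C.finite_len (s := ω + δ / 8) hs0 hbd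
    (show ω < ω + δ / 8 by linarith)
  have hcnt : ∀ r : ℝ, 0 ≤ r → (cnt n G r : ℝ) ≤ C₀ * Real.exp ((ω + δ / 8) * r) := hcount
  set s : ℝ := ω + δ / 8 with hs
  set K1 : ℝ := C₀ * Real.exp (s * (C.D - 21)) * (cnt n G (62 + 2 * C.D) : ℝ) with hK1
  set K2 : ℝ := 4 * (C₀ * Real.exp (s * (31 + C.D))) + 1 with hK2
  have hK1' : 0 ≤ K1 := by positivity
  have hK2' : 0 ≤ K2 := by positivity
  -- choice of the radius
  have hlim : Filter.Tendsto (fun r : ℕ => Real.exp (5 * δ / 16 * (r : ℝ))) Filter.atTop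
      Filter.atTop := by
    refine Real.tendsto_exp_atTop.comp ?_
    exact Filter.Tendsto.const_mul_atTop (by positivity) tendsto_natCast_atTop_atTop
  obtain ⟨r₁, hr₁⟩ := Filter.eventually_atTop.1 (hlim.eventually_ge_atTop (K1 + K2))
  obtain ⟨r, hr1, hr2⟩ := exists_annulus (len n (G := G)) PE_len_nonneg C.finite_len
    (b := ω - δ / 8) (by linarith) (show ω - δ / 8 < ω by linarith) (max r₁ 44)
  have hr44 : 44 ≤ r := le_trans (le_max_right _ _) hr1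
  have hrr1 : r₁ ≤ r := le_trans (le_max_left _ _) hr1
  have hr44' : (44 : ℝ) ≤ r := by exact_mod_cast hr44
  obtain ⟨S, hS, hcard⟩ := PE_main C r hr44
  have hcard' : (({g : G | (r : ℝ) - 1 < len n g ∧ len n g ≤ r}.ncard : ℕ) : ℝ) ≤
        (S.card : ℝ) * (4 * (cnt n G ((r : ℝ) / 2 + 31 + C.D) : ℝ) + 1) +
          (cnt n G ((r : ℝ) / 2 - 21 + C.D) : ℝ) * (cnt n G (62 + 2 * C.D) : ℝ) := by
    exact_mod_cast hcard
  have e1 : (cnt n G ((r : ℝ) / 2 + 31 + C.D) : ℝ) ≤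
      C₀ * Real.exp (s * (31 + C.D)) * Real.exp (s * r / 2) := by
    refine le_trans (hcnt _ (by linarith)) (le_of_eq ?_)
    rw [mul_assoc, ← Real.exp_add]
    congr 2
    ring
  have e2 : (cnt n G ((r : ℝ) / 2 - 21 + C.D) : ℝ) ≤
      C₀ * Real.exp (s * (C.D - 21)) * Real.exp (s * r / 2) := by
    refine le_trans (hcnt _ (by linarith)) (le_of_eq ?_)
    rw [mul_assoc, ← Real.exp_add]
    congr 2
    ring
  have hE : 1 ≤ Real.exp (s * r / 2) := by
    apply Real.one_le_exp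
    positivity
  have e3 : 4 * (cnt n G ((r : ℝ) / 2 + 31 + C.D) : ℝ) + 1 ≤ K2 * Real.exp (s * r / 2) := by
    rw [hK2]
    nlinarith
  have e4 : (cnt n G ((r : ℝ) / 2 - 21 + C.D) : ℝ) * (cnt n G (62 + 2 * C.D) : ℝ) ≤
      K1 * Real.exp (s * r / 2) := by
    have := mul_le_mul_of_nonneg_right e2 (Nat.cast_nonneg (cnt n G (62 + 2 * C.D)))
    refine le_trans this (le_of_eq ?_)
    rw [hK1]
    ring
  have hbr : 1 ≤ Real.exp (b * r) := by
    apply Real.one_le_exp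
    positivity
  have e5 : (K1 + K2) * (Real.exp (b * r) * Real.exp (s * r / 2)) ≤
      Real.exp ((ω - δ / 8) * r) := by
    have h1 := hr₁ r hrr1
    have h2 : Real.exp ((ω - δ / 8) * r) =
        Real.exp (5 * δ / 16 * (r : ℝ)) * (Real.exp (b * r) * Real.exp (s * r / 2)) := by
      rw [← Real.exp_add, ← Real.exp_add]
      congr 1
      rw [hs, hδ]
      ring
    rw [h2]
    exact mul_le_mul_of_nonneg_right h1 (by positivity)
  have e6 : Real.exp (b * r) * (K2 * Real.exp (s * r / 2)) + K1 * Real.exp (s * r / 2) ≤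
      Real.exp ((ω - δ / 8) * r) := by
    refine le_trans ?_ e5
    have h3 : K1 * Real.exp (s * r / 2) ≤ K1 * (Real.exp (b * r) * Real.exp (s * r / 2)) := by
      refine mul_le_mul_of_nonneg_left ?_ hK1'
      nlinarith
    nlinarith
  have e7 : Real.exp (b * r) ≤ (S.card : ℝ) := by
    by_contra hc
    push Not at hc
    have hpos : 0 < 4 * (cnt n G ((r : ℝ) / 2 + 31 + C.D) : ℝ) + 1 := by positivity
    have h4 : (S.card : ℝ) * (4 * (cnt n G ((r : ℝ) / 2 + 31 + C.D) : ℝ) + 1) <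
        Real.exp (b * r) * (4 * (cnt n G ((r : ℝ) / 2 + 31 + C.D) : ℝ) + 1) :=
      mul_lt_mul_of_pos_right hc hpos
    have h5 : Real.exp (b * r) * (4 * (cnt n G ((r : ℝ) / 2 + 31 + C.D) : ℝ) + 1) ≤
        Real.exp (b * r) * (K2 * Real.exp (s * r / 2)) :=
      mul_le_mul_of_nonneg_left e3 (by positivity)
    linarith
  refine ⟨S, _, _, _, hS, ?_, ?_⟩
  · rw [Finset.coe_nonempty, ← Finset.card_pos]
    have : (0 : ℝ) < S.card := lt_of_lt_of_le (Real.exp_pos _) e7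
    exact_mod_cast this
  · rw [Set.ncard_coe_finset]
    rw [Real.le_log_iff_exp_le (lt_of_lt_of_le (Real.exp_pos _) e7)]
    exact e7

end Pool.Agent.Lib.MP_247fd6_al
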