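import Pool.Agent.Lib.MP_247fd6_al.PA

/-! Orbit paths of reduced words. -/

set_option autoImplicit false

namespace Pool.Agent.Lib.MP_247fd6_al

variable {n : ℕ} {G : Type} [Group G] [MulAction G (HPt n)]

/-- the inverse of a letter -/
def PF1_bar {α : Type} (x : α × Bool) : α × Bool := (x.1, !x.2)

theorem PF1_lv_bar (S : Set G) (x : S × Bool) : lv S (PF1_bar x) = (lv S x)⁻¹ := by
  obtain ⟨s, b⟩ := x
  cases b <;> simp [lv, PF1_bar]

theorem PF1_fh_mk (S : Set G) (x : S × Bool) : fh S (FreeGroup.mk [x]) = lv S x := by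
  unfold fh lv
  rw [FreeGroup.lift_mk]
  simp

theorem PF1_len_lv (C : Coc n G) (S : Set G) (x : S × Bool) :
    len n (lv S x) = len n (x.1 : G) := by
  obtain ⟨s, b⟩ := x
  cases b
  · change len n ((s : G)⁻¹) = len n (s : G)
    unfold len
    have := C.iso (s : G) (e0 n) ((s : G)⁻¹ • e0 n)
    rw [smul_inv_smul] at this
    rw [← this, hd_symm]
  · rfl

/-- the next point of the path -/
theorem PF1_next (S : Set G) (w : FreeGroup S) (l : List (S × Bool)) {i : ℕ}
    (hi : i < l.length) : fh S (w * FreeGroup.mk (l.take (i + 1))) =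
      fh S (w * FreeGroup.mk (l.take i)) * lv S l[i] := by
  have h1 : l.take (i + 1) = l.take i ++ [l[i]] := List.take_succ_eq_append_getElem hi
  rw [h1, ← FreeGroup.mul_mk, ← mul_assoc, map_mul, PF1_fh_mk]

theorem word_path (C : Coc n G) {S : Set G} {L a r : ℝ} (hS : Schottky n S L a r)
    (w : FreeGroup S) (l : List (S × Bool)) (hl : FreeGroup.IsReduced l) :
    (∀ i < l.length, L ≤ hd (fh S (w * FreeGroup.mk (l.take i)) • e0 n)
        (fh S (w * FreeGroup.mk (l.take (i + 1))) • e0 n) ∧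
      hd (fh S (w * FreeGroup.mk (l.take i)) • e0 n)
        (fh S (w * FreeGroup.mk (l.take (i + 1))) • e0 n) ≤ r) ∧
    ∀ i j k, i ≤ j → j ≤ k → k ≤ l.length →
      hd (fh S (w * FreeGroup.mk (l.take i)) • e0 n) (fh S (w * FreeGroup.mk (l.take j)) • e0 n) +
      hd (fh S (w * FreeGroup.mk (l.take j)) • e0 n) (fh S (w * FreeGroup.mk (l.take k)) • e0 n) ≤
      hd (fh S (w * FreeGroup.mk (l.take i)) • e0 n) (fh S (w * FreeGroup.mk (l.take k)) • e0 n) +
        (2 * a + 20) := by
  have hdist : ∀ i < l.length, ∃ x : S × Bool,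
      hd (fh S (w * FreeGroup.mk (l.take i)) • e0 n)
        (fh S (w * FreeGroup.mk (l.take (i + 1))) • e0 n) = len n (x.1 : G) := by
    intro i hi
    refine ⟨l[i], ?_⟩
    rw [PF1_next S w l hi, mul_smul, C.iso, ← PF1_len_lv C]
    rfl
  have h1 : ∀ i < l.length, L ≤ hd (fh S (w * FreeGroup.mk (l.take i)) • e0 n)
        (fh S (w * FreeGroup.mk (l.take (i + 1))) • e0 n) ∧
      hd (fh S (w * FreeGroup.mk (l.take i)) • e0 n)
        (fh S (w * FreeGroup.mk (l.take (i + 1))) • e0 n) ≤ r := by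
    intro i hi
    obtain ⟨x, hx⟩ := hdist i hi
    rw [hx]
    exact ⟨hS.len_ge _ x.1.2, hS.len_le _ x.1.2⟩
  refine ⟨h1, ?_⟩
  intro i j k hij hjk hk
  refine chain_add (m := l.length)
    (p := fun i => fh S (w * FreeGroup.mk (l.take i)) • e0 n) hS.a0 hS.La
    (fun i hi => (h1 i hi).1) ?_ hij hjk hk
  intro i hi
  -- the product at an interior vertex
  have e1 := PF1_next S w l (show i < l.length by omega)
  have e2 := PF1_next S w l (show i + 1 < l.length by omega)
  have e3 : fh S (w * FreeGroup.mk (l.take i)) =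
      fh S (w * FreeGroup.mk (l.take (i + 1))) * lv S (PF1_bar l[i]) := by
    rw [e1, PF1_lv_bar, mul_inv_cancel_right]
  have hne : PF1_bar l[i] ≠ l[i + 1] := by
    intro h
    have h3 := List.isChain_iff_getElem.1 hl i (by omega)
    have h4 : (l[i]).1 = (l[i + 1]).1 := by rw [← h]; rfl
    have h5 := h3 h4
    rw [← h] at h5
    unfold PF1_bar at h5
    simp at h5
  have h6 := hS.pr _ _ hne
  change gp (fh S (w * FreeGroup.mk (l.take (i + 1))) • e0 n)
    (fh S (w * FreeGroup.mk (l.take i)) • e0 n)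
    (fh S (w * FreeGroup.mk (l.take (i + 1 + 1))) • e0 n) ≤ a
  rw [e3, e2]
  refine le_of_eq_of_le ?_ h6
  unfold gp
  rw [mul_smul, mul_smul, C.iso, C.iso, C.iso]

/-- the homomorphism is injective -/
theorem fh_injective (C : Coc n G) {S : Set G} {L a r : ℝ} (hS : Schottky n S L a r) :
    Function.Injective (fh S) := by
  classical
  rw [injective_iff_map_eq_one]
  intro w hw
  by_contra hne
  have hl : FreeGroup.IsReduced w.toWord := FreeGroup.isReduced_toWord
  obtain ⟨h1, h2⟩ := word_path C hS 1 w.toWord hl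
  simp only [one_mul] at h1 h2
  have hlen : 0 < w.toWord.length := by
    rw [List.length_pos_iff]
    intro h
    exact hne (FreeGroup.toWord_eq_nil_iff.1 h)
  have h3 := (h1 0 hlen).1
  have h4 := h2 0 1 w.toWord.length (by omega) (by omega) le_rfl
  rw [List.take_length, FreeGroup.mk_toWord, hw] at h4
  have h5 : hd (fh S (FreeGroup.mk (w.toWord.take 0)) • e0 n) ((1 : G) • e0 n) = 0 := by
    rw [List.take_zero]
    have : (FreeGroup.mk ([] : List (S × Bool))) = 1 := rfl
    rw [this, map_one, hd_self]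
  rw [h5] at h4
  have h6 := hd_nonneg (fh S (FreeGroup.mk (w.toWord.take 1)) • e0 n) ((1 : G) • e0 n)
  have h7 := hS.La
  have h8 := hS.a0
  simp only [zero_add] at h3
  linarith

end Pool.Agent.Lib.MP_247fd6_al
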