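import Pool.Agent.Lib.MP_247fd6_al.P0

/-! Half-spaces of the free group. -/

set_option autoImplicit false

namespace Pool.Agent.Lib.MP_247fd6_al

variable {α : Type} [DecidableEq α]

omit [DecidableEq α] in
/-- cancellation of two reduced words -/
theorem PF2_cancel (l : List (α × Bool)) : ∀ (V : List (α × Bool)), FreeGroup.IsReduced V →
    FreeGroup.IsReduced l → ∃ V₁ c l₁ : List (α × Bool),
      V = V₁ ++ FreeGroup.invRev c ∧ l = c ++ l₁ ∧ FreeGroup.IsReduced (V₁ ++ l₁) := by
  induction l with
  | nil =>
    intro V hV _
    exact ⟨V, [], [], by simp, rfl, by simpa using hV⟩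
  | cons x l ih =>
    intro V hV hl
    by_cases hc : ∃ V', V = V' ++ [(x.1, !x.2)]
    · obtain ⟨V', rfl⟩ := hc
      have hV' : FreeGroup.IsReduced V' := List.IsChain.left_of_append hV
      have hl' : FreeGroup.IsReduced l := List.IsChain.right_of_append (l₁ := [x]) hl
      obtain ⟨V₁, c, l₁, h1, h2, h3⟩ := ih V' hV' hl'
      refine ⟨V₁, x :: c, l₁, ?_, by rw [h2]; rfl, h3⟩
      rw [FreeGroup.invRev_cons, ← List.append_assoc, ← h1]
      simp [FreeGroup.invRev]
    · refine ⟨V, [], x :: l, by simp, rfl, ?_⟩
      unfold FreeGroup.IsReduced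
      rw [List.isChain_append]
      refine ⟨hV, hl, ?_⟩
      intro a ha b hb hab
      have hb' : b = x := by simpa using hb.symm
      subst hb'
      by_contra hne
      apply hc
      obtain ⟨V', hV'⟩ : ∃ V', V = V' ++ [a] := by
        rcases List.eq_nil_or_concat V with rfl | ⟨V', a', rfl⟩
        · simp at ha
        · refine ⟨V', ?_⟩
          rw [List.concat_eq_append] at ha ⊢
          rw [List.getLast?_append, List.getLast?_singleton, Option.some_or] at ha
          have ha' : a' = a := by simpa using ha
          rw [ha']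
      refine ⟨V', ?_⟩
      rw [hV']
      congr 2
      ext
      · exact hab
      · change a.2 = !b.2
        cases ha2 : a.2 <;> cases hb2 : b.2 <;> simp_all

omit [DecidableEq α] in
theorem cancel_words (V l : List (α × Bool)) (hV : FreeGroup.IsReduced V)
    (hl : FreeGroup.IsReduced l) : ∃ V₁ c l₁ : List (α × Bool),
      V = V₁ ++ FreeGroup.invRev c ∧ l = c ++ l₁ ∧ FreeGroup.IsReduced (V₁ ++ l₁) :=
  PF2_cancel l V hV hl

/-- the reduced words along the path: before the turning point -/
theorem PF2_word_before {v : FreeGroup α} {V₁ c l₁ : List (α × Bool)}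
    (hV : v.toWord = V₁ ++ FreeGroup.invRev c) {i : ℕ} (hi : i ≤ c.length) :
    (v * FreeGroup.mk ((c ++ l₁).take i)).toWord = V₁ ++ FreeGroup.invRev (c.drop i) := by
  have h1 : (c ++ l₁).take i = c.take i := List.take_append_of_le_length hi
  have h2 : FreeGroup.invRev c = FreeGroup.invRev (c.drop i) ++ FreeGroup.invRev (c.take i) := by
    conv_lhs => rw [← List.take_append_drop i c]
    rw [FreeGroup.invRev_append]
  have h3 : v = FreeGroup.mk (V₁ ++ FreeGroup.invRev (c.drop i)) *
      FreeGroup.mk (FreeGroup.invRev (c.take i)) := by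
    rw [FreeGroup.mul_mk, List.append_assoc, ← h2, ← hV, FreeGroup.mk_toWord]
  have h4 : FreeGroup.mk (FreeGroup.invRev (c.take i)) * FreeGroup.mk (c.take i) = 1 := by
    rw [← FreeGroup.inv_mk, inv_mul_cancel]
  have h5 : FreeGroup.IsReduced (V₁ ++ FreeGroup.invRev (c.drop i)) := by
    have h6 : FreeGroup.IsReduced v.toWord := FreeGroup.isReduced_toWord
    rw [hV, h2, ← List.append_assoc] at h6
    exact List.IsChain.left_of_append h6
  conv_lhs => rw [h1, h3, mul_assoc, h4, mul_one, FreeGroup.toWord_mk, h5.reduce_eq]

/-- the reduced words along the path: after the turning point -/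
theorem PF2_word_after {v : FreeGroup α} {V₁ c l₁ : List (α × Bool)}
    (hV : v.toWord = V₁ ++ FreeGroup.invRev c) (hr : FreeGroup.IsReduced (V₁ ++ l₁)) {i : ℕ}
    (hi : c.length ≤ i) :
    (v * FreeGroup.mk ((c ++ l₁).take i)).toWord = V₁ ++ l₁.take (i - c.length) := by
  have h1 : (c ++ l₁).take i = c ++ l₁.take (i - c.length) := by
    rw [List.take_append, List.take_of_length_le hi]
  have h3 : v = FreeGroup.mk V₁ * FreeGroup.mk (FreeGroup.invRev c) := by
    rw [FreeGroup.mul_mk, ← hV, FreeGroup.mk_toWord]
  have h4 : FreeGroup.mk (FreeGroup.invRev c) * FreeGroup.mk c = 1 := by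
    rw [← FreeGroup.inv_mk, inv_mul_cancel]
  have h5 : FreeGroup.IsReduced (V₁ ++ l₁.take (i - c.length)) := by
    rw [← List.take_append_drop (i - c.length) l₁, ← List.append_assoc] at hr
    exact List.IsChain.left_of_append hr
  have h6 : v * FreeGroup.mk (c ++ l₁.take (i - c.length)) =
      FreeGroup.mk (V₁ ++ l₁.take (i - c.length)) := by
    rw [← FreeGroup.mul_mk, h3, mul_assoc, ← mul_assoc (FreeGroup.mk (FreeGroup.invRev c)), h4,
      one_mul, FreeGroup.mul_mk]
  rw [h1, h6, FreeGroup.toWord_mk, h5.reduce_eq]

/-- the membership along the path -/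
theorem PF2_main (w : FreeGroup α) (l : List (α × Bool)) (hl : FreeGroup.IsReduced l)
    (g : FreeGroup α) (x : α × Bool) :
    (∀ i j, w * FreeGroup.mk (l.take i) ∈ fhs g x ↔ w * FreeGroup.mk (l.take j) ∈ fhs g x) ∨
    ∃ N ≤ l.length, w * FreeGroup.mk (l.take N) = g ∧
      ((∀ i ≤ l.length, w * FreeGroup.mk (l.take i) ∈ fhs g x ↔ i < N) ∨
      (∀ i ≤ l.length, w * FreeGroup.mk (l.take i) ∈ fhs g x ↔ N < i)) := by
  obtain ⟨V₁, c, l₁, hV, hlc, hr⟩ := cancel_words (g⁻¹ * w).toWord l FreeGroup.isReduced_toWord hl
  have hb : ∀ i ≤ c.length, (g⁻¹ * (w * FreeGroup.mk (l.take i))).toWord =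
      V₁ ++ FreeGroup.invRev (c.drop i) := by
    intro i hi
    rw [← mul_assoc, hlc]
    exact PF2_word_before hV hi
  have ha : ∀ i, c.length ≤ i → (g⁻¹ * (w * FreeGroup.mk (l.take i))).toWord =
      V₁ ++ l₁.take (i - c.length) := by
    intro i hi
    rw [← mul_assoc, hlc]
    exact PF2_word_after hV hr hi
  by_cases hV₁ : V₁ = []
  · subst hV₁
    simp only [List.nil_append] at hb ha hr hV
    have hN : w * FreeGroup.mk (l.take c.length) = g := by
      have h1 := hb c.length le_rfl
      rw [List.drop_length, FreeGroup.invRev_empty, FreeGroup.toWord_eq_nil_iff] at h1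
      exact (inv_mul_eq_one.1 h1).symm
    have hNl : c.length ≤ l.length := by
      rw [hlc, List.length_append]; omega
    by_cases hx1 : ∃ y, c.getLast? = some y ∧ (y.1, !y.2) = x
    · -- the first letter is `x` before the turning point
      right
      refine ⟨c.length, hNl, hN, Or.inl ?_⟩
      obtain ⟨y, hy, hyx⟩ := hx1
      intro i hi
      constructor
      · intro hmem
        by_contra hlt
        push Not at hlt
        unfold fhs at hmem
        simp only [Set.mem_ofPred_eq] at hmem
        rw [ha i hlt] at hmem
        -- the letters `y` and the head of `l₁` do not cancel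
        have h2 : l₁.head? = some x := by
          rw [List.head?_take] at hmem
          split_ifs at hmem with h0
          exact hmem
        have h3 : FreeGroup.IsReduced (c ++ l₁) := by rw [← hlc]; exact hl
        unfold FreeGroup.IsReduced at h3
        rw [List.isChain_append] at h3
        have h4 := h3.2.2 y hy x h2 (by rw [← hyx])
        rw [← hyx] at h4
        simp at h4
      · intro hlt
        unfold fhs
        simp only [Set.mem_ofPred_eq]
        rw [hb i (by omega)]
        have hd : c.drop i ≠ [] := by
          rw [Ne, List.drop_eq_nil_iff]; omega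
        have h5 : (c.drop i).getLast? = some y := by
          rw [List.getLast?_drop, if_neg (by omega)]
          exact hy
        unfold FreeGroup.invRev
        rw [List.head?_reverse, List.getLast?_map, h5]
        simp only [Option.map_some]
        rw [← hyx]
    · by_cases hx2 : l₁.head? = some x
      · right
        refine ⟨c.length, hNl, hN, Or.inr ?_⟩
        intro i hi
        constructor
        · intro hmem
          by_contra hlt
          push Not at hlt
          unfold fhs at hmem
          simp only [Set.mem_ofPred_eq] at hmem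
          rw [hb i hlt] at hmem
          unfold FreeGroup.invRev at hmem
          rw [List.head?_reverse, List.getLast?_map, List.getLast?_drop] at hmem
          split_ifs at hmem with h0
          · simp at hmem
          · rw [Option.map_eq_some_iff] at hmem
            obtain ⟨y, hy, hyx⟩ := hmem
            exact hx1 ⟨y, hy, hyx⟩
        · intro hlt
          unfold fhs
          simp only [Set.mem_ofPred_eq]
          rw [ha i (by omega), List.head?_take, if_neg (by omega)]
          exact hx2
      · -- never
        left
        have hno : ∀ i, w * FreeGroup.mk (l.take i) ∉ fhs g x := by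
          intro i hmem
          unfold fhs at hmem
          simp only [Set.mem_ofPred_eq] at hmem
          rcases le_total i c.length with hi | hi
          · rw [hb i hi] at hmem
            unfold FreeGroup.invRev at hmem
            rw [List.head?_reverse, List.getLast?_map, List.getLast?_drop] at hmem
            split_ifs at hmem with h0
            · simp at hmem
            · rw [Option.map_eq_some_iff] at hmem
              obtain ⟨y, hy, hyx⟩ := hmem
              exact hx1 ⟨y, hy, hyx⟩
          · rw [ha i hi, List.head?_take] at hmem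
            split_ifs at hmem with h0
            exact hx2 hmem
        intro i j
        exact ⟨fun h => absurd h (hno i), fun h => absurd h (hno j)⟩
  · -- the first letter is constant
    left
    have hconst : ∀ i, (g⁻¹ * (w * FreeGroup.mk (l.take i))).toWord.head? = V₁.head? := by
      intro i
      rcases le_total i c.length with hi | hi
      · rw [hb i hi]
        exact List.head?_append_of_ne_nil _ hV₁
      · rw [ha i hi]
        exact List.head?_append_of_ne_nil _ hV₁
    intro i j
    unfold fhs
    simp only [Set.mem_ofPred_eq]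
    rw [hconst i, hconst j]

/-- a geodesic crosses a half-space at most once -/
theorem fhs_conv (w : FreeGroup α) (l : List (α × Bool)) (hl : FreeGroup.IsReduced l)
    (g : FreeGroup α) (x : α × Bool) {i j k : ℕ} (hij : i ≤ j) (hjk : j ≤ k)
    (hk : k ≤ l.length)
    (h : w * FreeGroup.mk (l.take i) ∈ fhs g x ↔ w * FreeGroup.mk (l.take k) ∈ fhs g x) :
    w * FreeGroup.mk (l.take j) ∈ fhs g x ↔ w * FreeGroup.mk (l.take i) ∈ fhs g x := by
  rcases PF2_main w l hl g x with h1 | ⟨N, -, -, h1 | h1⟩
  · exact h1 j i
  · rw [h1 i (by omega), h1 k (by omega)] at h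
    rw [h1 j (by omega), h1 i (by omega)]
    omega
  · rw [h1 i (by omega), h1 k (by omega)] at h
    rw [h1 j (by omega), h1 i (by omega)]
    omega

/-- a geodesic between two points separated by a half-space passes through its vertex -/
theorem fhs_pass (w : FreeGroup α) (l : List (α × Bool)) (hl : FreeGroup.IsReduced l)
    (g : FreeGroup α) (x : α × Bool)
    (h : ¬ (w ∈ fhs g x ↔ w * FreeGroup.mk l ∈ fhs g x)) :
    ∃ i ≤ l.length, w * FreeGroup.mk (l.take i) = g := by
  rcases PF2_main w l hl g x with h1 | ⟨N, hN, h2, -⟩
  · exfalso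
    apply h
    have h3 := h1 0 l.length
    rw [List.take_length, List.take_zero] at h3
    have h4 : (FreeGroup.mk ([] : List (α × Bool))) = 1 := rfl
    rwa [h4, mul_one] at h3
  · exact ⟨N, hN, h2⟩

/-- distinct elements are separated by the half-space of a positive letter -/
theorem fhs_sep {u v : FreeGroup α} (h : u ≠ v) :
    ∃ (g : FreeGroup α) (s : α), ¬ (u ∈ fhs g (s, true) ↔ v ∈ fhs g (s, true)) := by
  have hw : u⁻¹ * v ≠ 1 := fun h' => h (inv_mul_eq_one.1 h')
  have hne : (u⁻¹ * v).toWord ≠ [] := fun h' => hw (FreeGroup.toWord_eq_nil_iff.1 h')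
  obtain ⟨⟨s, b⟩, t, hst⟩ := List.exists_cons_of_ne_nil hne
  have hred : FreeGroup.IsReduced ((s, b) :: t) := by
    rw [← hst]; exact FreeGroup.isReduced_toWord
  cases b with
  | true =>
    refine ⟨u, s, ?_⟩
    have h1 : u ∉ fhs u (s, true) := by
      unfold fhs
      simp
    have h2 : v ∈ fhs u (s, true) := by
      unfold fhs
      simp only [Set.mem_ofPred_eq, hst, List.head?_cons]
    exact fun h3 => h1 (h3.2 h2)
  | false =>
    refine ⟨u * (FreeGroup.of s)⁻¹, s, ?_⟩
    have h1 : u ∈ fhs (u * (FreeGroup.of s)⁻¹) (s, true) := by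
      unfold fhs
      simp only [Set.mem_ofPred_eq, mul_inv_rev, inv_inv]
      rw [mul_assoc, inv_mul_cancel, mul_one, FreeGroup.toWord_of]
      rfl
    have h2 : v ∉ fhs (u * (FreeGroup.of s)⁻¹) (s, true) := by
      unfold fhs
      simp only [Set.mem_ofPred_eq, mul_inv_rev, inv_inv]
      have h3 : FreeGroup.of s * u⁻¹ * v = FreeGroup.mk t := by
        rw [mul_assoc]
        have h4 : u⁻¹ * v = FreeGroup.mk ((s, false) :: t) := by
          rw [← hst, FreeGroup.mk_toWord]
        have h5 : FreeGroup.mk ((s, false) :: t) = (FreeGroup.of s)⁻¹ * FreeGroup.mk t := by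
          unfold FreeGroup.of
          rw [FreeGroup.inv_mk, FreeGroup.mul_mk]
          rfl
        rw [h4, h5, mul_inv_cancel_left]
      have ht : FreeGroup.IsReduced t := List.IsChain.right_of_append (l₁ := [(s, false)]) hred
      rw [h3, FreeGroup.toWord_mk, ht.reduce_eq]
      intro h6
      cases t with
      | nil => simp at h6
      | cons y t =>
        simp only [List.head?_cons, Option.some.injEq] at h6
        subst h6
        have := (FreeGroup.isReduced_cons_cons.1 hred).1 rfl
        simp at this
    exact fun h3 => h2 (h3.1 h1)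

end Pool.Agent.Lib.MP_247fd6_al
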