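import Mathlib

/-! Free groups are residually finite. -/

set_option autoImplicit false

namespace Pool.Agent.Lib.MP_247fd6_al

/-- a partial injection of a finite type extends to a permutation -/
theorem PF3_extend {X : Type} [Finite X] (R : X → X → Prop)
    (h1 : ∀ x y y', R x y → R x y' → y = y') (h2 : ∀ x x' y, R x y → R x' y → x = x') :
    ∃ σ : Equiv.Perm X, ∀ x y, R x y → σ x = y := by
  classical
  have := Fintype.ofFinite X
  let s : Set X := {x | ∃ y, R x y}
  let f : X → X := fun x => if h : ∃ y, R x y then h.choose else x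
  have hf : ∀ x y, R x y → f x = y := by
    intro x y h
    have h' : ∃ y, R x y := ⟨y, h⟩
    simp only [f, dif_pos h']
    exact h1 x _ _ h'.choose_spec h
  have hinj : Set.InjOn f s := by
    rintro x ⟨y, hy⟩ x' ⟨y', hy'⟩ h
    rw [hf x y hy, hf x' y' hy'] at h
    subst h
    exact h2 _ _ _ hy hy'
  obtain ⟨g, hg⟩ := Set.MapsTo.exists_equiv_extend_of_card_eq (α := X) (β := X)
    (t := Finset.univ) (by simp) (s := s) (f := f) (by intro x _; simp) hinj
  refine ⟨Equiv.ofBijective (fun x => (g x : X)) ?_, ?_⟩
  · rw [Fintype.bijective_iff_injective_and_card]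
    refine ⟨fun x y h => ?_, rfl⟩
    exact g.injective (Subtype.ext h)
  · intro x y h
    change (g x : X) = y
    rw [hg x ⟨y, h⟩, hf x y h]

/-- consecutive letters of a reduced word do not cancel -/
theorem PF3_red {α : Type} {l : List (α × Bool)} (hl : FreeGroup.IsReduced l) {i : ℕ} {a : α}
    {b c : Bool} (h1 : l[i]? = some (a, b)) (h2 : l[i + 1]? = some (a, c)) : b = c := by
  have h := List.isChain_iff_getElem.1 hl
  rw [List.getElem?_eq_some_iff] at h1 h2
  obtain ⟨h3, h4⟩ := h1
  obtain ⟨h5, h6⟩ := h2
  have h7 := h i h5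
  rw [h4, h6] at h7
  exact h7 rfl

/-- free groups are residually finite -/
theorem free_resfin {α : Type} (w : FreeGroup α) (hw : w ≠ 1) :
    ∃ B : Subgroup (FreeGroup α), B.FiniteIndex ∧ B.Normal ∧ w ∉ B := by
  classical
  set l := w.toWord with hl
  have hred : FreeGroup.IsReduced l := FreeGroup.isReduced_toWord
  have hwl : FreeGroup.mk l = w := FreeGroup.mk_toWord
  have hpos : 0 < l.length := by
    rw [List.length_pos_iff]
    intro h
    apply hw
    rw [← hwl, h]
    rfl
  let R : α → Fin (l.length + 1) → Fin (l.length + 1) → Prop := fun a j k =>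
    ((j : ℕ) = k + 1 ∧ l[(k : ℕ)]? = some (a, true)) ∨
      ((k : ℕ) = j + 1 ∧ l[(j : ℕ)]? = some (a, false))
  have hex : ∀ a, ∃ σ : Equiv.Perm (Fin (l.length + 1)), ∀ x y, R a x y → σ x = y := by
    intro a
    apply PF3_extend
    · rintro x y y' (⟨h1, h2⟩ | ⟨h1, h2⟩) (⟨h3, h4⟩ | ⟨h3, h4⟩)
      · exact Fin.ext (by omega)
      · rw [h1] at h4
        have := PF3_red hred h2 h4
        simp at this
      · rw [h3] at h2
        have := PF3_red hred h4 h2
        simp at this
      · exact Fin.ext (by omega)
    · rintro x x' y (⟨h1, h2⟩ | ⟨h1, h2⟩) (⟨h3, h4⟩ | ⟨h3, h4⟩)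
      · exact Fin.ext (by omega)
      · rw [h3] at h2
        have := PF3_red hred h4 h2
        simp at this
      · rw [h1] at h4
        have := PF3_red hred h2 h4
        simp at this
      · exact Fin.ext (by omega)
  choose σ hσ using hex
  let φ : FreeGroup α →* Equiv.Perm (Fin (l.length + 1)) := FreeGroup.lift σ
  have key : ∀ k i : ℕ, (hi : i + k = l.length) →
      φ (FreeGroup.mk (l.drop i)) (Fin.last _) = ⟨i, by omega⟩ := by
    intro k
    induction k with
    | zero =>
      intro i hi
      have h1 : l.drop i = [] := List.drop_eq_nil_of_le (by omega)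
      rw [h1, show FreeGroup.mk ([] : List (α × Bool)) = 1 from rfl, map_one,
        Equiv.Perm.one_apply]
      exact Fin.ext (by simp; omega)
    | succ k ih =>
      intro i hi
      have hlt : i < l.length := by omega
      have h1 : l.drop i = l[i] :: l.drop (i + 1) := List.drop_eq_getElem_cons hlt
      have h2 := ih (i + 1) (by omega)
      rw [h1]
      simp only [φ, FreeGroup.lift_mk, List.map_cons, List.prod_cons,
        Equiv.Perm.mul_apply] at h2 ⊢
      rw [h2]
      have h3 : l[i]? = some l[i] := List.getElem?_eq_getElem hlt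
      rcases hx : l[i] with ⟨a, b⟩
      rw [hx] at h3
      cases b with
      | true =>
        simp only [cond_true]
        exact hσ a _ _ (Or.inl ⟨rfl, h3⟩)
      | false =>
        simp only [cond_false]
        rw [Equiv.Perm.inv_eq_iff_eq]
        exact (hσ a _ _ (Or.inr ⟨rfl, h3⟩)).symm
  refine ⟨φ.ker, inferInstance, inferInstance, ?_⟩
  intro h
  rw [MonoidHom.mem_ker] at h
  have h1 := key l.length 0 (by omega)
  rw [List.drop_zero, hwl, h, Equiv.Perm.one_apply] at h1
  have h2 : l.length = 0 := congrArg Fin.val h1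
  omega

/-- a normal subgroup of finite index avoiding a finite set -/
theorem free_avoid {α : Type} (A : Set (FreeGroup α)) (hA : A.Finite) (h1 : (1 : FreeGroup α) ∉ A) :
    ∃ B : Subgroup (FreeGroup α), B.FiniteIndex ∧ B.Normal ∧ ∀ w ∈ A, w ∉ B := by
  induction A, hA using Set.Finite.induction_on with
  | empty => exact ⟨⊤, inferInstance, inferInstance, by simp⟩
  | insert hx hs ih =>
    rename_i x s
    rw [Set.mem_insert_iff, not_or] at h1
    obtain ⟨B, hB1, hB2, hB3⟩ := ih h1.2
    obtain ⟨B', hB1', hB2', hB3'⟩ := free_resfin x (Ne.symm h1.1)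
    refine ⟨B ⊓ B', inferInstance, inferInstance, ?_⟩
    intro w hw
    rw [Subgroup.mem_inf, not_and_or]
    rcases hw with rfl | hw
    · exact Or.inr hB3'
    · exact Or.inl (hB3 w hw)

end Pool.Agent.Lib.MP_247fd6_al
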