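import Pool.Agent.Lib.MP_247fd6_al.PF1
import Pool.Agent.Lib.MP_247fd6_al.PF2
import Pool.Agent.Lib.MP_247fd6_al.PF3

/-! The system of a Schottky group, and its wall families. -/

set_option autoImplicit false

open scoped Pointwise

namespace Pool.Agent.Lib.MP_247fd6_al

variable {n : ℕ} {G : Type} [Group G] [MulAction G (HPt n)]

theorem PG1_smul_fhs {α : Type} [DecidableEq α] (g g' : FreeGroup α) (x : α × Bool) :
    g • fhs g' x = fhs (g * g') x := by
  ext u
  rw [Set.mem_smul_set_iff_inv_smul_mem]
  unfold fhs
  simp only [Set.mem_ofPred_eq, smul_eq_mul, mul_inv_rev, mul_assoc]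

open Classical in
/-- the system of a Schottky group acting on itself -/
theorem free_sys (C : Coc n G) {S : Set G} {L a r : ℝ} (hS : Schottky n S L a r) :
    ∃ T : Sys (FreeGroup S) (FreeGroup S),
      (∀ x y : FreeGroup S, T.d x y = hd (fh S x • e0 n) (fh S y • e0 n)) ∧
      T.HS = {h | ∃ (g : FreeGroup S) (x : S × Bool), h = fhs g x} ∧ 2 * a + 20 ≤ T.C₀ := by
  have hP := word_path C hS
  have hinj := fh_injective C hS
  refine ⟨{ d := fun x y => hd (fh S x • e0 n) (fh S y • e0 n)
            nonneg := fun x y => hd_nonneg _ _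
            self := fun x => hd_self _
            symm := fun x y => hd_symm _ _
            tri := fun x y z => hd_tri _ _ _
            inv := fun g x y => by
              rw [smul_eq_mul, smul_eq_mul, map_mul, map_mul, mul_smul, mul_smul, C.iso]
            δ := 10
            hyp := fun x y z w => hd_hyp _ _ _ _
            proper := fun x ρ => by
              have h := (C.proper (fh S x • e0 n) ρ).preimage (hinj.injOn (s := _))
              refine h.subset fun g hg => ?_
              simp only [Set.mem_ofPred_eq, smul_eq_mul, map_mul, mul_smul] at hg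
              exact hg
            HS := {h | ∃ (g : FreeGroup S) (x : S × Bool), h = fhs g x}
            HSinv := by
              rintro g _ ⟨g', x, rfl⟩
              exact ⟨g * g', x, PG1_smul_fhs g g' x⟩
            C₀ := max 1 (max r (2 * a + 20))
            hC₀ := le_max_left _ _
            path := fun x y => ?_ },
    fun _ _ => rfl, rfl, (le_max_right _ _).trans (le_max_right _ _)⟩
  have hl : FreeGroup.IsReduced (x⁻¹ * y).toWord := FreeGroup.isReduced_toWord
  refine ⟨(x⁻¹ * y).toWord.length, fun i => x * FreeGroup.mk ((x⁻¹ * y).toWord.take i),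
    ?_, ?_, fun i hi => ?_, fun i j k hij hjk hk => ?_, ?_⟩
  · simp [← FreeGroup.one_eq_mk]
  · simp [FreeGroup.mk_toWord]
  · exact (((hP x _ hl).1 i hi).2).trans ((le_max_left _ _).trans (le_max_right _ _))
  · have h1 := (hP x _ hl).2 i j k hij hjk hk
    have h2 : 2 * a + 20 ≤ max 1 (max r (2 * a + 20)) :=
      (le_max_right _ _).trans (le_max_right _ _)
    exact h1.trans (by linarith)
  · rintro _ ⟨g, z, rfl⟩ i j k hij hjk hk h
    exact fhs_conv x _ hl g z hij hjk hk h

end Pool.Agent.Lib.MP_247fd6_al
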