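import Pool.Agent.Lib.MP_247fd6_al.PG1

/-! The wall families of a Schottky group. -/

set_option autoImplicit false

open scoped Pointwise

namespace Pool.Agent.Lib.MP_247fd6_al

variable {n : ℕ} {G : Type} [Group G] [MulAction G (HPt n)]

theorem PG2_smul {α : Type} [DecidableEq α] (b g : FreeGroup α) (x : α × Bool) :
    b • fhs g x = fhs (b * g) x := by
  ext u
  rw [Set.mem_smul_set_iff_inv_smul_mem]
  unfold fhs
  rw [Set.mem_ofPred_eq, Set.mem_ofPred_eq, smul_eq_mul, mul_inv_rev, mul_assoc]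

open Classical in
theorem PG2_near (C : Coc n G) {S : Set G} {L a r : ℝ} (hS : Schottky n S L a r)
    {T : Sys (FreeGroup S) (FreeGroup S)}
    (hT : ∀ x y : FreeGroup S, T.d x y = hd (fh S x • e0 n) (fh S y • e0 n))
    (hC : 2 * a + 20 ≤ T.C₀) (g : FreeGroup S) (l : S × Bool) (x y : FreeGroup S)
    (h : Sepby (fhs g l) x y) (hxy : T.d x y ≤ T.C₀) : T.d x g ≤ 2 * T.C₀ := by
  have hred : FreeGroup.IsReduced (x⁻¹ * y).toWord := FreeGroup.isReduced_toWord
  have hy : x * FreeGroup.mk (x⁻¹ * y).toWord = y := by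
    rw [FreeGroup.mk_toWord, mul_inv_cancel_left]
  have h1 : ¬ (x ∈ fhs g l ↔ x * FreeGroup.mk (x⁻¹ * y).toWord ∈ fhs g l) := by
    rw [hy]
    exact h
  obtain ⟨i, hi, hig⟩ := fhs_pass x _ hred g l h1
  have h2 := (word_path C hS x _ hred).2 0 i _ (Nat.zero_le _) hi le_rfl
  rw [List.take_zero, List.take_length, hig, hy, ← FreeGroup.one_eq_mk, mul_one,
    ← hT, ← hT, ← hT] at h2
  have h3 := T.nonneg g y
  linarith

open Classical in
theorem PG2_finite {S : Set G} {T : Sys (FreeGroup S) (FreeGroup S)} (x : FreeGroup S) (ρ : ℝ) :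
    {g : FreeGroup S | T.d x g ≤ ρ}.Finite := by
  have h := T.proper x ρ
  refine (h.image (fun g => g * x)).subset ?_
  intro g hg
  refine ⟨g * x⁻¹, ?_, by simp⟩
  show T.d x ((g * x⁻¹) • x) ≤ ρ
  rw [smul_eq_mul, inv_mul_cancel_right]
  exact hg

open Classical in
/-- the family of the translates of the half-space of `c` and the positive letter `s` -/
def PG2_W {S : Set G} (B : Subgroup (FreeGroup S)) (c : FreeGroup S) (s : S) :
    Set (Set (FreeGroup S)) := {h | ∃ b ∈ B, h = fhs (b * c) (s, true)}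

open Classical in
theorem PG2_fam (C : Coc n G) {S : Set G} {L a r : ℝ} (hS : Schottky n S L a r)
    {T : Sys (FreeGroup S) (FreeGroup S)}
    (hT : ∀ x y : FreeGroup S, T.d x y = hd (fh S x • e0 n) (fh S y • e0 n))
    (hHS : T.HS = {h | ∃ (g : FreeGroup S) (x : S × Bool), h = fhs g x})
    (hC : 2 * a + 20 ≤ T.C₀) {R : ℝ} {B : Subgroup (FreeGroup S)} (hBn : B.Normal)
    (hB : ∀ w ∈ {w : FreeGroup S | w ≠ 1 ∧ T.d 1 w ≤ R + 4 * T.C₀}, w ∉ B)
    (c : FreeGroup S) (s : S) : Fam T B R (PG2_W B c s) where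
  sub := by
    rintro h ⟨b, _, rfl⟩
    rw [hHS]
    exact ⟨_, _, rfl⟩
  inv := by
    rintro g hg h ⟨b, hb, rfl⟩
    rw [PG2_smul]
    exact ⟨g * b, mul_mem hg hb, by rw [mul_assoc]⟩
  sep := by
    rintro h ⟨b, hb, rfl⟩ h' ⟨b', hb', rfl⟩ hne x y x' y' h1 h2 h3 h4
    have n1 := PG2_near C hS hT hC _ _ x y h1 h2
    have n2 := PG2_near C hS hT hC _ _ x' y' h3 h4
    set g := b * c with hg
    set g' := b' * c with hg'
    have hgg : g ≠ g' := fun e => hne (by rw [e])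
    have hmem : g⁻¹ * g' ∈ B := by
      have : g⁻¹ * g' = c⁻¹ * (b⁻¹ * b') * c := by
        rw [hg, hg']
        group
      rw [this]
      have := hBn.conj_mem (b⁻¹ * b') (mul_mem (inv_mem hb) hb') c⁻¹
      rwa [inv_inv] at this
    have hne1 : g⁻¹ * g' ≠ 1 := fun e => hgg (inv_mul_eq_one.1 e)
    have h5 : ¬ T.d 1 (g⁻¹ * g') ≤ R + 4 * T.C₀ := fun h => hB _ ⟨hne1, h⟩ hmem
    have h6 : T.d 1 (g⁻¹ * g') = T.d g g' := by
      have := T.inv g 1 (g⁻¹ * g')
      rw [smul_eq_mul, smul_eq_mul, mul_one, mul_inv_cancel_left] at this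
      exact this.symm
    rw [h6] at h5
    have t1 := T.tri g x g'
    have t2 := T.tri x x' g'
    have t3 := T.symm g x
    linarith
  fin := by
    intro x ρ
    have h := PG2_finite (T := T) x (ρ + 2 * T.C₀)
    refine (h.image (fun g => fhs g (s, true))).subset ?_
    rintro h ⟨⟨b, hb, rfl⟩, u, u', h1, h2, h3⟩
    refine ⟨b * c, ?_, rfl⟩
    have n1 := PG2_near C hS hT hC _ _ u u' h1 h2
    have t1 := T.tri x u (b * c)
    show T.d x (b * c) ≤ _
    linarith

open Classical in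
theorem free_walls (C : Coc n G) {S : Set G} {L a r : ℝ} (hS : Schottky n S L a r)
    {T : Sys (FreeGroup S) (FreeGroup S)}
    (hT : ∀ x y : FreeGroup S, T.d x y = hd (fh S x • e0 n) (fh S y • e0 n))
    (hHS : T.HS = {h | ∃ (g : FreeGroup S) (x : S × Bool), h = fhs g x})
    (hC : 2 * a + 20 ≤ T.C₀) : HasWalls T := by
  intro R
  have hA : {w : FreeGroup S | w ≠ 1 ∧ T.d 1 w ≤ R + 4 * T.C₀}.Finite :=
    (PG2_finite (T := T) 1 (R + 4 * T.C₀)).subset fun w hw => hw.2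
  obtain ⟨B, hBf, hBn, hB⟩ := free_avoid _ hA (fun h => h.1 rfl)
  haveI : Finite S := hS.fin
  haveI : Finite (FreeGroup S ⧸ B) := Subgroup.finite_quotient_of_finiteIndex
  obtain ⟨m, ⟨e⟩⟩ := Finite.exists_equiv_fin (S × (FreeGroup S ⧸ B))
  refine ⟨B, m, fun i => if h : i < m then
    PG2_W B (e.symm ⟨i, h⟩).2.out (e.symm ⟨i, h⟩).1 else ∅, hBf, ?_, ?_⟩
  · intro i hi
    simp only [dif_pos hi]
    exact PG2_fam C hS hT hHS hC hBn hB _ _
  · intro x
    refine ⟨0, fun z hz => ?_⟩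
    by_cases hxz : z = x
    · rw [hxz, T.self]
    · exfalso
      obtain ⟨g, s, hgs⟩ := fhs_sep hxz
      have h1 := hz (e (s, (g : FreeGroup S ⧸ B))).1 (e (s, (g : FreeGroup S ⧸ B))).2
      simp only [dif_pos (e (s, (g : FreeGroup S ⧸ B))).2, Fin.eta, Equiv.symm_apply_apply] at h1
      refine hgs (h1 _ ⟨g * ((g : FreeGroup S ⧸ B)).out⁻¹, ?_, ?_⟩)
      · refine hBn.mem_comm ?_
        rw [← QuotientGroup.eq, QuotientGroup.out_eq']
      · rw [inv_mul_cancel_right]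

end Pool.Agent.Lib.MP_247fd6_al
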