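import Pool.Agent.Lib.MP_247fd6_al.CA2
import Pool.Agent.Lib.MP_247fd6_al.PF1

/-! The exponent of a Schottky group. -/

set_option autoImplicit false

open scoped Pointwise

namespace Pool.Agent.Lib.MP_247fd6_al

variable {n : ℕ} {G : Type} [Group G] [MulAction G (HPt n)]

/-- positive words -/
def PH1_w {α : Type} (p : Σ k : ℕ, Fin k → α) : List (α × Bool) :=
  List.ofFn fun i => (p.2 i, true)

theorem PH1_red {α : Type} (p : Σ k : ℕ, Fin k → α) : FreeGroup.IsReduced (PH1_w p) := by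
  unfold FreeGroup.IsReduced PH1_w
  rw [List.isChain_ofFn]
  intro i hi _
  rfl

theorem PH1_inj {α : Type} : Function.Injective fun p : Σ k : ℕ, Fin k → α =>
    FreeGroup.mk (PH1_w p) := by
  classical
  intro p p' h
  have h1 : (FreeGroup.mk (PH1_w p)).toWord = (FreeGroup.mk (PH1_w p')).toWord := congrArg _ h
  rw [FreeGroup.toWord_mk, FreeGroup.toWord_mk, (PH1_red p).reduce_eq,
    (PH1_red p').reduce_eq] at h1
  have h2 : List.ofFn p.2 = List.ofFn p'.2 := by
    have e : ∀ p : Σ k : ℕ, Fin k → α, List.ofFn p.2 = (PH1_w p).map Prod.fst := by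
      intro p
      unfold PH1_w
      rw [List.map_ofFn]
      rfl
    rw [e, e, h1]
  exact (List.equivSigmaTuple (α := α)).symm.injective h2

theorem PH1_len (C : Coc n G) {S : Set G} {L a r : ℝ} (hS : Schottky n S L a r)
    {T : Sys (FreeGroup S) (FreeGroup S)}
    (hT : ∀ x y : FreeGroup S, T.d x y = hd (fh S x • e0 n) (fh S y • e0 n))
    (l : List (S × Bool)) (hl : FreeGroup.IsReduced l) :
    ∀ i ≤ l.length, T.d 1 (FreeGroup.mk (l.take i)) ≤ i * r := by
  intro i
  induction i with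
  | zero =>
    intro _
    rw [List.take_zero, ← FreeGroup.one_eq_mk, T.self]
    simp
  | succ i ih =>
    intro hi
    have h1 := ((word_path C hS 1 l hl).1 i hi).2
    rw [one_mul, one_mul, ← hT] at h1
    have h2 := ih (by omega)
    have h3 := T.tri 1 (FreeGroup.mk (l.take i)) (FreeGroup.mk (l.take (i + 1)))
    push_cast
    linarith

/-- divergence at exponents at most `log |S| / r` -/
theorem free_not_Cv (C : Coc n G) {S : Set G} {L a r : ℝ} (hS : Schottky n S L a r)
    (hne : S.Nonempty) {T : Sys (FreeGroup S) (FreeGroup S)}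
    (hT : ∀ x y : FreeGroup S, T.d x y = hd (fh S x • e0 n) (fh S y • e0 n)) {t : ℝ}
    (ht : 0 ≤ t) (htr : t * r ≤ Real.log (S.ncard : ℝ)) : ¬ Cv T ⊤ t := by
  intro hcv
  refine hcv 1 1 ?_
  haveI : Finite S := hS.fin
  haveI : Fintype S := Fintype.ofFinite S
  have hcard : (Fintype.card S : ℝ) = (S.ncard : ℝ) := by
    rw [← Nat.card_coe_set_eq, Nat.card_eq_fintype_card]
  have hpos : 0 < (S.ncard : ℝ) := by
    have := (Set.ncard_pos hS.fin).2 hne
    exact_mod_cast this
  unfold PS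
  have h1 : ∑' g : (⊤ : Subgroup (FreeGroup S)),
      ENNReal.ofReal (Real.exp (-(t * T.d 1 ((g : FreeGroup S) • 1)))) =
      ∑' g : FreeGroup S, ENNReal.ofReal (Real.exp (-(t * T.d 1 g))) := by
    rw [← (Subgroup.topEquiv (G := FreeGroup S)).toEquiv.tsum_eq
      (fun g : FreeGroup S => ENNReal.ofReal (Real.exp (-(t * T.d 1 g))))]
    refine tsum_congr fun g => ?_
    have : ((g : FreeGroup S) • (1 : FreeGroup S)) = (g : FreeGroup S) := by
      rw [smul_eq_mul, mul_one]
    rw [this]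
    rfl
  rw [h1, eq_top_iff]
  refine le_trans ?_ (ENNReal.tsum_comp_le_tsum_of_injective (PH1_inj (α := S))
    (fun g : FreeGroup S => ENNReal.ofReal (Real.exp (-(t * T.d 1 g)))))
  have h2 : ∑' k : ℕ, (1 : ENNReal) = ⊤ := ENNReal.tsum_const_eq_top_of_ne_zero one_ne_zero
  rw [← h2]
  rw [ENNReal.tsum_sigma' (fun p : Σ k : ℕ, Fin k → S =>
    ENNReal.ofReal (Real.exp (-(t * T.d 1 (FreeGroup.mk (PH1_w p))))))]
  refine ENNReal.tsum_le_tsum fun k => ?_
  rw [tsum_fintype]
  have h3 : ∀ f : Fin k → S, ENNReal.ofReal (Real.exp (-(t * (k * r)))) ≤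
      ENNReal.ofReal (Real.exp (-(t * T.d 1 (FreeGroup.mk (PH1_w ⟨k, f⟩))))) := by
    intro f
    apply ENNReal.ofReal_le_ofReal
    apply Real.exp_le_exp.2
    have h4 := PH1_len C hS hT _ (PH1_red ⟨k, f⟩) k (by simp [PH1_w])
    have h5 : (PH1_w ⟨k, f⟩ : List (S × Bool)).take k = PH1_w ⟨k, f⟩ := by
      apply List.take_of_length_le
      simp [PH1_w]
    rw [h5] at h4
    have := mul_le_mul_of_nonneg_left h4 ht
    linarith
  refine le_trans ?_ (Finset.sum_le_sum fun f _ => h3 f)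
  rw [Finset.sum_const, Finset.card_univ, Fintype.card_fun, Fintype.card_fin, nsmul_eq_mul]
  have h6 : (1 : ℝ) ≤ (Fintype.card S : ℝ) ^ k * Real.exp (-(t * (k * r))) := by
    have h7 : Real.exp (-(t * (k * r))) = (Real.exp (t * r))⁻¹ ^ k := by
      rw [← Real.exp_neg, ← Real.exp_nat_mul]
      congr 1
      ring
    rw [h7, ← mul_pow]
    apply one_le_pow₀
    rw [← div_eq_mul_inv, one_le_div (Real.exp_pos _), hcard]
    calc Real.exp (t * r) ≤ Real.exp (Real.log (S.ncard : ℝ)) := Real.exp_le_exp.2 htr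
      _ = _ := Real.exp_log hpos
  calc (1 : ENNReal) = ENNReal.ofReal 1 := ENNReal.ofReal_one.symm
    _ ≤ ENNReal.ofReal ((Fintype.card S : ℝ) ^ k * Real.exp (-(t * (k * r)))) :=
        ENNReal.ofReal_le_ofReal h6
    _ = _ := by
        rw [ENNReal.ofReal_mul (by positivity), ENNReal.ofReal_pow (by positivity),
          ENNReal.ofReal_natCast]
        push_cast
        rfl

end Pool.Agent.Lib.MP_247fd6_al
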