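import Pool.Agent.Lib.MP_247fd6_al.CF2
import Pool.Agent.Lib.MP_247fd6_al.GG1
import Pool.Agent.Lib.MP_247fd6_al.PE
import Pool.Agent.Lib.MP_247fd6_al.PG2
import Pool.Agent.Lib.MP_247fd6_al.PH1

/-! Growth density in the lower half of the interval. -/

set_option autoImplicit false

open Matrix
open scoped Pointwise ENNReal

namespace Pool.Agent.Lib.MP_247fd6_al

variable {n : ℕ}

theorem PH2_fg_map {A B : Type*} [Group A] [Group B] {P : Subgroup A} (h : P.FG) (e : A →* B) :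
    (P.map e).FG := by
  classical
  obtain ⟨S, hS⟩ := h
  refine ⟨S.image e, ?_⟩
  rw [← hS, MonoidHom.map_closure, Finset.coe_image]

/-- the growth function in terms of the number of elements of bounded displacement -/
theorem PH2_gr (Γ : Subgroup (Oplus n)) {r : ℝ} (hr : 0 ≤ r) :
    gr (im Γ ⊤) r = Real.log (cnt n Γ r : ℝ) / r := by
  rw [gr_im Γ ⊤ hr]
  have h : {g : (⊤ : Subgroup Γ) | hd (e0 n) ((g : Γ) • e0 n) ≤ r}.ncard = cnt n Γ r := by
    unfold cnt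
    rw [← Set.ncard_image_of_injective _ (Subtype.val_injective (p := (· ∈ (⊤ : Subgroup Γ))))]
    congr 1
    ext g
    constructor
    · rintro ⟨g', hg', rfl⟩
      exact hg'
    · intro hg
      exact ⟨⟨g, Subgroup.mem_top g⟩, hg, rfl⟩
  rw [h]

/-- comparison of the Poincare series of the free group and its image -/
theorem PH2_PS {Γ : Subgroup (Oplus n)} (hΓ : Disc Γ) {S : Set Γ} (hinj : Function.Injective (fh S))
    {T : Sys (FreeGroup S) (FreeGroup S)}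
    (hT : ∀ x y : FreeGroup S, T.d x y = hd (fh S x • e0 n) (fh S y • e0 n))
    (L' : Subgroup (FreeGroup S)) (t : ℝ) :
    PS T L' t 1 1 = PS (hsys Γ hΓ) (L'.map (fh S)) t (e0 n) (e0 n) := by
  unfold PS
  let e : L' ≃ L'.map (fh S) := (L'.equivMapOfInjective (fh S) hinj).toEquiv
  rw [← Equiv.tsum_eq e]
  refine tsum_congr fun g => ?_
  have h1 : T.d 1 ((g : FreeGroup S) • (1 : FreeGroup S))
      = hd (e0 n) (fh S (g : FreeGroup S) • e0 n) := by
    rw [hT, map_one, one_smul, smul_eq_mul, mul_one]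
  rw [h1]
  rfl

theorem PH2_Cv {Γ : Subgroup (Oplus n)} (hΓ : Disc Γ) {S : Set Γ} (hinj : Function.Injective (fh S))
    {T : Sys (FreeGroup S) (FreeGroup S)}
    (hT : ∀ x y : FreeGroup S, T.d x y = hd (fh S x • e0 n) (fh S y • e0 n))
    (L' : Subgroup (FreeGroup S)) (t : ℝ) :
    Cv T L' t ↔ Cv (hsys Γ hΓ) (L'.map (fh S)) t := by
  constructor
  · intro h
    refine Cv.of_one (hsys Γ hΓ) (x := e0 n) (y := e0 n) ?_
    rw [← PH2_PS hΓ hinj hT]
    exact h 1 1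
  · intro h
    refine Cv.of_one T (x := 1) (y := 1) ?_
    rw [PH2_PS hΓ hinj hT]
    exact h (e0 n) (e0 n)

theorem half_density {Γ : Subgroup (Oplus n)} (hΓ : Disc Γ) (C : Coc n Γ) {a b : ℝ}
    (ha : 0 ≤ a) (hab : a < b) (hb : 2 * b ≤ om (im Γ ⊤)) :
    ∃ L : Subgroup Γ, L.FG ∧ a < om (im Γ L) ∧ om (im Γ L) < b := by
  have hpos : 0 < om (im Γ ⊤) := by linarith
  have hbd : ∃ C, ∀ᶠ r in Filter.atTop, gr (im Γ ⊤) r ≤ C := bdd_of_limsup_pos hpos
  have hbd' : ∃ K, ∀ᶠ r in Filter.atTop, Real.log (cnt n Γ r : ℝ) / r ≤ K := by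
    obtain ⟨K, hK⟩ := hbd
    refine ⟨K, ?_⟩
    filter_upwards [hK, Filter.eventually_ge_atTop (0 : ℝ)] with r h1 h2
    rwa [← PH2_gr Γ h2]
  have hom : om (im Γ ⊤) =
      Filter.limsup (fun r : ℝ => Real.log (cnt n Γ r : ℝ) / r) Filter.atTop := by
    unfold om
    apply Filter.limsup_congr
    filter_upwards [Filter.eventually_ge_atTop (0 : ℝ)] with r hr
    exact PH2_gr Γ hr
  obtain ⟨S, L, a', r, hS, hne, hlog⟩ := exists_schottky C hbd' (b := (a + b) / 2)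
    (by linarith) (by rw [← hom]; linarith)
  obtain ⟨T, hT, hHS, hC⟩ := free_sys C hS
  have hW : HasWalls T := free_walls C hS hT hHS hC
  have hinj := fh_injective C hS
  have hfin : ∃ t, Cv T (⊤ : Subgroup (FreeGroup S)) t := by
    obtain ⟨t, ht⟩ := exists_Cv Γ hΓ hbd
    exact ⟨t, (PH2_Cv hΓ hinj hT ⊤ t).2 (ht.mono le_top)⟩
  have hex : (a + b) / 2 ≤ ex T (⊤ : Subgroup (FreeGroup S)) := by
    by_contra hcon
    push Not at hcon
    exact free_not_Cv C hS hne hT (t := (a + b) / 2) (by linarith) hlog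
      (Cv.of_ex_lt hfin hcon)
  obtain ⟨L', hL1, hL2, hL3⟩ := core_density T hW hfin 1 0
    (fun z => ⟨z, by rw [smul_eq_mul, mul_one, T.self]⟩) ha (b := (a + b) / 2) (by linarith) hex
  have hexeq : ex (hsys Γ hΓ) (L'.map (fh S)) = ex T L' := by
    unfold ex
    congr 1
    ext t
    change (0 ≤ t ∧ _) ↔ (0 ≤ t ∧ _)
    rw [PH2_Cv hΓ hinj hT]
  refine ⟨L'.map (fh S), PH2_fg_map hL1 _, ?_, ?_⟩
  · rw [om_im Γ hΓ hbd, hexeq]
    exact hL2
  · rw [om_im Γ hΓ hbd, hexeq]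
    linarith

end Pool.Agent.Lib.MP_247fd6_al
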