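import Pool.Agent.Lib.MP_247fd6_al.PH2

/-! Growth density in the lower half of the interval, for discrete cocompact groups of matrices. -/

set_option autoImplicit false

open Matrix
open scoped Pointwise ENNReal

namespace Pool.Agent.Lib.MP_247fd6_al

variable {n : ℕ}

theorem PH3_im_top (G : Subgroup (Matrix (Fin (n + 1)) (Fin (n + 1)) ℝ)ˣ) (hG : G ≤ Oplus n) :
    im (G.subgroupOf (Oplus n)) ⊤ = G := by
  unfold im
  rw [← MonoidHom.range_eq_map, Subgroup.range_subtype]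
  exact Subgroup.map_subgroupOf_eq_of_le hG

theorem PH3_im_le (G : Subgroup (Matrix (Fin (n + 1)) (Fin (n + 1)) ℝ)ˣ) (hG : G ≤ Oplus n)
    (L : Subgroup (G.subgroupOf (Oplus n))) : im (G.subgroupOf (Oplus n)) L ≤ G := by
  conv_rhs => rw [← PH3_im_top G hG]
  exact Subgroup.map_mono (Subgroup.map_mono le_top)

/-- growth density in the lower half of the interval, for all discrete cocompact groups -/
theorem half_of_cocompact (G : Subgroup (Matrix (Fin (n + 1)) (Fin (n + 1)) ℝ)ˣ)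
    (hG : ∀ g ∈ G, g.valᵀ * eta n * g.val = eta n ∧ 0 < g.val 0 0)
    (hdisc : ∀ R : ℝ, ({g | g ∈ G ∧ ∀ i j, |g.val i j| ≤ R} :
        Set (Matrix (Fin (n + 1)) (Fin (n + 1)) ℝ)ˣ).Finite)
    (hcoc : ∃ C : ℝ, ∀ x : Fin (n + 1) → ℝ, bf x x = -1 → 0 < x 0 →
        ∃ g ∈ G, -(bf x (fun i => g.val i 0)) ≤ C)
    {a b : ℝ} (ha : 0 ≤ a) (hab : a < b) (hb : 2 * b ≤ om G) :
    ∃ H : Subgroup (Matrix (Fin (n + 1)) (Fin (n + 1)) ℝ)ˣ,
      H ≤ G ∧ H.FG ∧ a < om H ∧ om H < b := by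
  have hGO : G ≤ Oplus n := fun g hg => hG g hg
  have hΓ : Disc (G.subgroupOf (Oplus n)) := by
    intro R
    refine Set.Finite.of_finite_image ((hdisc R).subset ?_)
      (Subtype.val_injective.injOn (s := {g : Oplus n | g ∈ G.subgroupOf (Oplus n) ∧
        ∀ i j, |g.1.val i j| ≤ R}))
    rintro _ ⟨g, ⟨hg1, hg2⟩, rfl⟩
    exact ⟨hg1, hg2⟩
  obtain ⟨C, hC⟩ := hcoc
  have hD : ∀ z : HPt n, ∃ g : G.subgroupOf (Oplus n),
      hd z (g • e0 n) ≤ Real.arcosh (max C 1) := by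
    intro z
    obtain ⟨g, hg, hgC⟩ := hC z.1 z.2.1 z.2.2
    refine ⟨⟨⟨g, hGO hg⟩, hg⟩, ?_⟩
    change hd z ((⟨g, hGO hg⟩ : Oplus n) • e0 n) ≤ _
    unfold hd
    rw [Real.arcosh_le_arcosh (lt_of_lt_of_le one_pos (one_le_neg_bf _ _))
      (lt_of_lt_of_le one_pos (le_max_right _ _))]
    refine le_trans (le_of_eq ?_) (hgC.trans (le_max_left _ _))
    rw [coe_smul]
    congr 2
    funext i
    exact mulVec_e0v g.val i
  let K : Coc n (G.subgroupOf (Oplus n)) :=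
    { iso := (hsys (G.subgroupOf (Oplus n)) hΓ).inv
      proper := (hsys (G.subgroupOf (Oplus n)) hΓ).proper
      D := Real.arcosh (max C 1)
      dense := hD }
  obtain ⟨L, hL1, hL2, hL3⟩ := half_density hΓ K ha hab (by
    rw [PH3_im_top G hGO]
    exact hb)
  exact ⟨im (G.subgroupOf (Oplus n)) L, PH3_im_le G hGO L,
    PH2_fg_map (PH2_fg_map hL1 _) _, hL2, hL3⟩

end Pool.Agent.Lib.MP_247fd6_al
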